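import Mathlib

/-!
JOB Tower. Powers of `p` close to `1`.
-/

namespace Pool.Agent.Lib.MP_021685_agT

open Finset

/-- For every `s ≥ v` some power of `p` is `1 + m' l ^ s w` with `w` prime to `l`. -/
def Tower (p l m' v : ℕ) : Prop :=
  ∀ s : ℕ, v ≤ s → ∃ i w : ℕ, p ^ i = 1 + m' * l ^ s * w ∧ ¬ l ∣ w

private lemma Tower_step {l m' s w : ℕ} (hl : l.Prime) (hs : 2 ≤ s) (hw : ¬ l ∣ w) :
    ∃ w' : ℕ, (1 + m' * l ^ s * w) ^ l = 1 + m' * l ^ (s + 1) * w' ∧ ¬ l ∣ w' := by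
  obtain ⟨r, rfl⟩ : ∃ r, s = 2 + r := ⟨s - 2, by omega⟩
  set y := m' * l ^ (2 + r) * w with hy
  have h1 : ∀ i : ℕ, ∃ c : ℕ, (y + 1) ^ i = 1 + l ^ 2 * c := by
    intro i
    induction i with
    | zero => exact ⟨0, by simp⟩
    | succ i ih =>
      obtain ⟨c, hc⟩ := ih
      refine ⟨c * (y + 1) + m' * l ^ r * w, ?_⟩
      rw [pow_succ, hc, hy]
      ring
  choose c hc using h1
  have h2 : ∑ i ∈ range l, (y + 1) ^ i = l * (1 + l * ∑ i ∈ range l, c i) := by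
    rw [Finset.sum_congr rfl fun i _ => hc i, Finset.sum_add_distrib, ← Finset.mul_sum]
    simp only [Finset.sum_const, Finset.card_range, smul_eq_mul, mul_one]
    ring
  have h3 := geom_sum_mul_add y l
  refine ⟨w * (1 + l * ∑ i ∈ range l, c i), ?_, ?_⟩
  · rw [add_comm 1 y, ← h3, h2, hy]
    ring
  · intro h4
    rcases (Nat.Prime.dvd_mul hl).1 h4 with h5 | h5
    · exact hw h5
    · have h6 : l ∣ 1 := (Nat.dvd_add_left (dvd_mul_right l _)).1 h5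
      exact hl.one_lt.ne' (Nat.dvd_one.1 h6)

/-- JOB Tower. Proof. `P = p ^ φ(m' l ^ 2)` is `1` modulo `m' l ^ 2` (`Nat.ModEq.pow_totient`) and `P > 1`
(`φ > 0`, `p ≥ 2`). Let `v ≥ 2` be the exact exponent of `l` in `P - 1`. By induction on `t`,
`P ^ (l ^ t) = 1 + m' * l ^ (v + t) * w` with `¬ l ∣ w`: write `Q = P ^ (l ^ t) = 1 + y`, `y = m' l ^ (v + t) w`;
`Q ^ l - 1 = y * (∑_{i < l} Q ^ i)` and `∑_{i < l} Q ^ i ≡ l mod l ^ 2` since `Q ≡ 1 mod l ^ 2`; so this sum is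
`l * u`, `¬ l ∣ u`. (Or `padicValNat.pow_sub_pow` / `Nat.emultiplicity_pow_sub_pow` for odd `l`.) Start:
`m' ∣ P - 1`, `l ^ v ∣ P - 1`, coprime, so `P = 1 + m' l ^ v w` and `l ∣ w` would contradict the choice of `v`. -/
theorem exists_tower {p l m' : ℕ} (hp : p.Prime) (hl : l.Prime) (hlp : l ≠ p) (hm' : m' ≠ 0)
    (hpm' : Nat.Coprime p m') (hlm : ¬ l ∣ m') : ∃ v : ℕ, 2 ≤ v ∧ Tower p l m' v := by
  have hm2 : m' * l ^ 2 ≠ 0 := mul_ne_zero hm' (pow_ne_zero 2 hl.ne_zero)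
  have hcop : Nat.Coprime p (m' * l ^ 2) :=
    Nat.Coprime.mul_right hpm' (Nat.Coprime.pow_right 2 ((Nat.coprime_primes hp hl).2 hlp.symm))
  have h1 := Nat.ModEq.pow_totient hcop
  set P := p ^ Nat.totient (m' * l ^ 2) with hP
  have htot : Nat.totient (m' * l ^ 2) ≠ 0 := (Nat.totient_pos.2 (Nat.pos_of_ne_zero hm2)).ne'
  have hP1 : 1 < P := Nat.one_lt_pow htot hp.one_lt
  have h2 : m' * l ^ 2 ∣ P - 1 := (Nat.modEq_iff_dvd' hP1.le).1 h1.symm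
  have hPne : P - 1 ≠ 0 := by omega
  obtain ⟨v, n', hn', hvn⟩ := Nat.exists_eq_pow_mul_and_not_dvd hPne l hl.one_lt.ne'
  have h3 : m' ∣ n' := by
    have h4 : m' ∣ l ^ v * n' := by
      rw [← hvn]
      exact (dvd_mul_right _ _).trans h2
    have h5 : Nat.Coprime m' (l ^ v) :=
      Nat.Coprime.pow_right v ((Nat.Prime.coprime_iff_not_dvd hl).2 hlm).symm
    exact h5.dvd_of_dvd_mul_left h4
  have hv2 : 2 ≤ v := by
    have h4 : l ^ 2 ∣ l ^ v * n' := by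
      rw [← hvn]
      exact (dvd_mul_left _ _).trans h2
    have h5 : Nat.Coprime (l ^ 2) n' :=
      Nat.Coprime.pow_left 2 ((Nat.Prime.coprime_iff_not_dvd hl).2 hn')
    have h6 : l ^ 2 ∣ l ^ v := h5.dvd_of_dvd_mul_right h4
    exact (Nat.pow_dvd_pow_iff_le_right hl.one_lt).1 h6
  obtain ⟨w, hw⟩ := h3
  have hlw : ¬ l ∣ w := fun h => hn' (by rw [hw]; exact h.mul_left _)
  have hstart : P = 1 + m' * l ^ v * w := by
    have h4 : P = 1 + (P - 1) := by omega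
    rw [h4, hvn, hw]
    ring
  have hind : ∀ t : ℕ, ∃ i w : ℕ, p ^ i = 1 + m' * l ^ (v + t) * w ∧ ¬ l ∣ w := by
    intro t
    induction t with
    | zero => exact ⟨_, w, by rw [← hP, hstart, add_zero], hlw⟩
    | succ t ih =>
      obtain ⟨i, w1, hi, hw1⟩ := ih
      obtain ⟨w2, hw2, hw3⟩ := Tower_step (m' := m') hl (hv2.trans (Nat.le_add_right v t)) hw1
      refine ⟨i * l, w2, ?_, hw3⟩
      rw [pow_mul, hi, hw2, add_assoc v t 1]
  refine ⟨v, hv2, fun s hs => ?_⟩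
  obtain ⟨t, rfl⟩ := Nat.exists_eq_add_of_le hs
  exact hind t

end Pool.Agent.Lib.MP_021685_agT
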