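import Pool.Agent.Lib.MP_021685_agT.Sup
import Pool.Agent.Lib.MP_021685_agT.Tower

/-!
JOB Deep. Invariance of distributions at deep points.
-/

namespace Pool.Agent.Lib.MP_021685_agT

open Finset

/-- JOB Deep. Let `x` be killed by `m' l ^ K` with `m' l ^ (k + v - 1) x ≠ 0`. Then `h (x + y) = h x` for
all `y` killed by `l ^ k`.

Proof. `m' • x` is killed by `l ^ K`, so its order is `l ^ b` (`(Nat.dvd_prime_pow hl).1`), and
`l ^ (k + v - 1) • (m' • x) ≠ 0` gives `k + v ≤ b`. Induction on `k` (for all `x`, `y`). `k = 0`: `y = 0`.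
Let `k ≥ 1`. By the tower property with `s = b - k ≥ v` there are `i, w` with `Q := p ^ i = 1 + m' l ^ (b - k) w`,
`¬ l ∣ w`. Put `e1 = (l ^ (b - k) * w) • (m' • x)`, so that `Q • x = x + e1`; its order is exactly `l ^ k`
(`addOrderOf_nsmul'`, or: `l ^ k • e1 = 0` and `l ^ (k - 1) • e1 = w • l ^ (b - 1) • (m' • x) ≠ 0`). As `l ^ k • y = 0`
there is `n : ℕ` with `y = n • e1`: both are multiples of `e (l ^ k)` (`exists_nsmul_e`), `e1 = j • e (l ^ k)` with
`¬ l ∣ j`, and `j` is invertible modulo `l ^ k`. Claim: `h (x + n • e1) = h x` for all `n`. Induction on `n`. Let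
`z = x + n • e1`. Then `h z = h (Q • z)` (`IsDist.frob_pow`, level `m' * l ^ K`) and
`Q • z = (x + (n + 1) • e1) + e2`, `e2 = n • (m' l ^ (b - k) w) • e1`, which is killed by `l ^ (k - 1)` since
`(b - k) + (k - 1) = b - 1 ≥ k`. The induction hypothesis for `k - 1` applies to `x' = x + (n + 1) • e1`:
`(m' l ^ (k - 1 + v - 1)) • x' = (m' l ^ (k + v - 2)) • x ≠ 0`, because `k + v - 2 ≥ k` kills `e1` (here `2 ≤ v` is used), and
`x'` is killed by `m' l ^ K` (`k ≤ b ≤ K`). So `h z = h x'`. -/
theorem deep {p l m' v : ℕ} (hp : p.Prime) (hl : l.Prime) (hlp : l ≠ p) (hm' : m' ≠ 0)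
    (hpm' : Nat.Coprime p m') (hlm : ¬ l ∣ m') (hv : 2 ≤ v) (hT : Tower p l m' v)
    {V : Type*} [AddCommGroup V] {h : QZ → V} (hh : IsDistG p h) (k K : ℕ) (x y : QZ)
    (hx : (m' * l ^ K) • x = 0) (hne : (m' * l ^ (k + v - 1)) • x ≠ 0) (hy : l ^ k • y = 0) :
    h (x + y) = h x := by
  have hpl : Nat.Coprime p l := (Nat.coprime_primes hp hl).2 hlp.symm
  have hN : m' * l ^ K ≠ 0 := mul_ne_zero hm' (pow_ne_zero K hl.ne_zero)
  have hpN : Nat.Coprime p (m' * l ^ K) :=
    Nat.Coprime.mul_right hpm' (Nat.Coprime.pow_right K hpl)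
  have hD := hh.lvl (m' * l ^ K) hN hpN
  induction k generalizing x y with
  | zero =>
    rw [pow_zero, one_smul] at hy
    rw [hy, add_zero]
  | succ k ih =>
    -- the order of `m' • x`
    have hx0 : l ^ K • (m' • x) = 0 := by
      rw [← mul_smul, mul_comm, hx]
    classical
    have hex : ∃ b : ℕ, l ^ b • (m' • x) = 0 := ⟨K, hx0⟩
    set b := Nat.find hex with hb
    have hb0 : l ^ b • (m' • x) = 0 := Nat.find_spec hex
    have hbmin : ∀ c : ℕ, c < b → l ^ c • (m' • x) ≠ 0 := fun c hc => Nat.find_min hex hc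
    have hbk : k + v < b := by
      by_contra hcon
      rw [not_lt] at hcon
      apply hne
      have h1 : k + 1 + v - 1 = b + (k + v - b) := by omega
      rw [h1, pow_add, mul_comm m', mul_comm (l ^ b), mul_assoc, mul_smul, mul_smul, hb0,
        smul_zero]
    set s := b - (k + 1) with hs
    have hsv : v ≤ s := by omega
    have hsb : s + (k + 1) = b := by omega
    obtain ⟨i, w, hi, hw⟩ := hT s hsv
    obtain ⟨e1, he1⟩ : ∃ e1 : QZ, e1 = (m' * l ^ s * w) • x := ⟨_, rfl⟩
    have he1' : e1 = (w * l ^ s) • (m' • x) := by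
      rw [he1, ← mul_smul]
      congr 1
      ring
    have hk1 : l ^ (k + 1) • e1 = 0 := by
      rw [he1', ← mul_smul]
      have h1 : l ^ (k + 1) * (w * l ^ s) = w * l ^ b := by
        rw [← hsb]
        ring
      rw [h1, mul_smul, hb0, smul_zero]
    have hk2 : l ^ k • e1 ≠ 0 := by
      intro h0
      rw [he1', ← mul_smul] at h0
      have h1 : l ^ k * (w * l ^ s) = w * l ^ (b - 1) := by
        have h2 : b - 1 = s + k := by omega
        rw [h2]
        ring
      rw [h1, mul_smul] at h0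
      have h3 : l • (l ^ (b - 1) • (m' • x)) = 0 := by
        rw [← mul_smul, ← pow_succ']
        have h4 : b - 1 + 1 = b := by omega
        rw [h4, hb0]
      have h5 : Nat.Coprime l w := (Nat.Prime.coprime_iff_not_dvd hl).2 hw
      exact hbmin (b - 1) (by omega) (eq_zero_of_coprime h5 h3 h0)
    have hbig : ∀ c : ℕ, k + 1 ≤ c → l ^ c • e1 = 0 := by
      intro c hc
      obtain ⟨d, rfl⟩ := Nat.exists_eq_add_of_le hc
      rw [pow_add, mul_comm, mul_smul, hk1, smul_zero]
    have hNx : ∀ n : ℕ, (m' * l ^ K) • (x + n • e1) = 0 := by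
      intro n
      rw [smul_add, hx, zero_add, he1, smul_comm, smul_comm (m' * l ^ K), hx, smul_zero,
        smul_zero]
    have hstep : ∀ n : ℕ, h (x + n • e1) = h (x + (n + 1) • e1) := by
      intro n
      rw [← hD.frob_pow i (hNx n)]
      have h1 : p ^ i • (x + n • e1) = (x + (n + 1) • e1) + (n * (m' * l ^ s * w)) • e1 := by
        have h2 : (m' * l ^ s * w) • (n • e1) = (n * (m' * l ^ s * w)) • e1 := by
          rw [← mul_smul, mul_comm]
        rw [hi, add_smul, one_smul, smul_add (m' * l ^ s * w), ← he1, h2, add_smul n, one_smul]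
        abel
      rw [h1]
      apply ih
      · exact hNx (n + 1)
      · intro h2
        rw [smul_add] at h2
        have h3 : (m' * l ^ (k + v - 1)) • ((n + 1) • e1) = 0 := by
          rw [smul_comm, mul_smul, hbig (k + v - 1) (by omega), smul_zero, smul_zero]
        rw [h3, add_zero] at h2
        apply hne
        have h4 : k + 1 + v - 1 = (k + v - 1) + 1 := by omega
        rw [h4, pow_succ, ← mul_assoc, mul_comm, mul_smul, h2, smul_zero]
      · have h2 : l ^ k * (n * (m' * l ^ s * w)) = (n * m' * w) * l ^ (s + k) := by ring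
        rw [← mul_smul, h2, mul_smul, hbig (s + k) (by omega), smul_zero]
    have hall : ∀ n : ℕ, h (x + n • e1) = h x := by
      intro n
      induction n with
      | zero => rw [zero_smul, add_zero]
      | succ n ihn => rw [← hstep n, ihn]
    -- `y` is a multiple of `e1`
    have hlk : l ^ (k + 1) ≠ 0 := pow_ne_zero _ hl.ne_zero
    obtain ⟨j1, _, hj1⟩ := exists_nsmul_e hlk hy
    obtain ⟨j, _, hj⟩ := exists_nsmul_e hlk hk1
    have hjl : ¬ l ∣ j := by
      rintro ⟨c, hc⟩
      apply hk2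
      rw [hj, ← mul_smul, nsmul_e_eq_zero_iff hlk, hc]
      exact ⟨c, by ring⟩
    have hcop : Nat.Coprime j (l ^ (k + 1)) :=
      Nat.Coprime.pow_right _ ((Nat.Prime.coprime_iff_not_dvd hl).2 hjl).symm
    have hlk1 : 1 < l ^ (k + 1) := Nat.one_lt_pow (Nat.succ_ne_zero k) hl.one_lt
    obtain ⟨t, _, ht⟩ := Nat.exists_mul_mod_eq_one_of_coprime hcop hlk1
    have hy2 : y = (j1 * t) • e1 := by
      rw [hj, ← mul_smul, hj1]
      refine nsmul_congr (nsmul_e_self _) ?_
      have h1 : j * t ≡ 1 [MOD l ^ (k + 1)] := by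
        unfold Nat.ModEq
        rw [ht, Nat.mod_eq_of_lt hlk1]
      have h2 := (h1.mul_left j1).symm
      rw [mul_one] at h2
      have h3 : j1 * t * j = j1 * (j * t) := by ring
      rw [h3]
      exact h2
    rw [hy2]
    exact hall _

end Pool.Agent.Lib.MP_021685_agT
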