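import Pool.Agent.Lib.MP_021685_agT.QZ

/-!
Distributions of level `m` on `ℚ / ℤ`, the relations of level `m` and the universal group.
-/

namespace Pool.Agent.Lib.MP_021685_agT

open Finset

noncomputable section

variable {V : Type*} [AddCommGroup V]

/-- Odd `p`-invariant distributions of level `m`: conditions on the `m`-torsion only. -/
structure IsDist (p m : ℕ) (h : QZ → V) : Prop where
  neg : ∀ x : QZ, m • x = 0 → h (-x) = -h x
  frob : ∀ x : QZ, m • x = 0 → h (p • x) = h x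
  dist : ∀ l : ℕ, l.Prime → l ∣ m → ∀ x : QZ, m • x = 0 →
    h (l • x) = ∑ i ∈ range l, h (x + i • e l)

/-- Global distributions: of every level prime to `p`, with value `0` at `0`. -/
structure IsDistG (p : ℕ) (h : QZ → V) : Prop where
  zero : h 0 = 0
  lvl : ∀ m : ℕ, m ≠ 0 → Nat.Coprime p m → IsDist p m h

/-- The generators of the relations of level `m`. -/
inductive Gen (p m : ℕ) : (QZ →₀ ℤ) → Prop
  | zero : Gen p m (Finsupp.single 0 1)
  | neg (x : QZ) (hx : m • x = 0) : Gen p m (Finsupp.single x 1 + Finsupp.single (-x) 1)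
  | frob (x : QZ) (hx : m • x = 0) : Gen p m (Finsupp.single (p • x) 1 - Finsupp.single x 1)
  | dist (l : ℕ) (hl : l.Prime) (hlm : l ∣ m) (x : QZ) (hx : m • x = 0) :
      Gen p m (Finsupp.single (l • x) 1 - ∑ i ∈ range l, Finsupp.single (x + i • e l) 1)

/-- The relations of level `m`. -/
def Rel (p m : ℕ) : AddSubgroup (QZ →₀ ℤ) := AddSubgroup.closure {T | Gen p m T}

/-- All relations of level prime to `p`. -/
def RelA (p : ℕ) : AddSubgroup (QZ →₀ ℤ) :=
  ⨆ m : {m : ℕ // m ≠ 0 ∧ Nat.Coprime p m}, Rel p m.1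

/-- `T` is supported on the `m`-torsion. -/
def Supp (m : ℕ) (T : QZ →₀ ℤ) : Prop := ∀ x ∈ T.support, m • x = 0

/-- Evaluation of a function on `ℚ / ℤ` at a formal sum. -/
def ev (h : QZ → V) : (QZ →₀ ℤ) →+ V :=
  Finsupp.liftAddHom (fun x => (zmultiplesHom V) (h x))

lemma ev_apply (h : QZ → V) (T : QZ →₀ ℤ) : ev h T = T.sum fun x n => n • h x := by
  simp only [ev, Finsupp.liftAddHom_apply]
  rfl

@[simp] lemma ev_single (h : QZ → V) (x : QZ) (n : ℤ) : ev h (Finsupp.single x n) = n • h x := by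
  simp [ev]

lemma ev_congr {h g : QZ → V} {T : QZ →₀ ℤ} (H : ∀ x ∈ T.support, h x = g x) :
    ev h T = ev g T := by
  rw [ev_apply, ev_apply]
  exact Finsupp.sum_congr fun x hx => by rw [H x hx]

lemma ev_add_fun (h g : QZ → V) (T : QZ →₀ ℤ) : ev (fun x => h x + g x) T = ev h T + ev g T := by
  simp only [ev_apply, smul_add]
  exact Finsupp.sum_add

lemma ev_nsmul_fun (n : ℕ) (h : QZ → V) (T : QZ →₀ ℤ) : ev (fun x => n • h x) T = n • ev h T := by
  simp only [ev_apply, Finsupp.sum, Finset.smul_sum]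
  exact Finset.sum_congr rfl fun x _ => smul_comm _ _ _

lemma ev_zero_fun (T : QZ →₀ ℤ) : ev (fun _ => (0 : V)) T = 0 := by
  simp [ev_apply]

lemma IsDist.ev_mem {p m : ℕ} {h : QZ → V} (hh : IsDist p m h) {T : QZ →₀ ℤ}
    (hT : T ∈ Rel p m) : ∃ c : ℤ, ev h T = c • h 0 := by
  have : ev h T ∈ AddSubgroup.zmultiples (h 0) := by
    have h1 : Rel p m ≤ (AddSubgroup.zmultiples (h 0)).comap (ev h) := by
      unfold Rel
      rw [AddSubgroup.closure_le]
      intro S hS
      rw [SetLike.mem_coe, AddSubgroup.mem_comap]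
      have hS' : Gen p m S := hS
      cases hS' with
      | zero => rw [ev_single, one_smul]; exact AddSubgroup.mem_zmultiples _
      | neg x hx =>
        rw [map_add, ev_single, ev_single, one_smul, one_smul, hh.neg x hx, add_neg_cancel]
        exact zero_mem _
      | frob x hx =>
        rw [map_sub, ev_single, ev_single, one_smul, one_smul, hh.frob x hx, sub_self]
        exact zero_mem _
      | dist l hl hlm x hx =>
        rw [map_sub, map_sum, ev_single, one_smul, hh.dist l hl hlm x hx]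
        simp only [ev_single, one_smul, sub_self]
        exact zero_mem _
    exact h1 hT
  obtain ⟨c, hc⟩ := AddSubgroup.mem_zmultiples_iff.1 this
  exact ⟨c, hc.symm⟩

lemma IsDist.two_zero {p m : ℕ} {h : QZ → V} (hh : IsDist p m h) : 2 • h 0 = 0 := by
  have := hh.neg 0 (smul_zero _)
  rw [neg_zero] at this
  rw [two_smul]
  nth_rewrite 1 [this]
  exact neg_add_cancel _

lemma IsDistG.ev_zero {p m : ℕ} (hm : m ≠ 0) (hpm : Nat.Coprime p m) {h : QZ → V}
    (hh : IsDistG p h) {T : QZ →₀ ℤ} (hT : T ∈ Rel p m) : ev h T = 0 := by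
  obtain ⟨c, hc⟩ := (hh.lvl m hm hpm).ev_mem hT
  rw [hc, hh.zero, smul_zero]

lemma Gen.mono {p m n : ℕ} (h : m ∣ n) {T : QZ →₀ ℤ} (hT : Gen p m T) : Gen p n T := by
  cases hT with
  | zero => exact Gen.zero
  | neg x hx => exact Gen.neg x (nsmul_eq_zero_of_dvd h hx)
  | frob x hx => exact Gen.frob x (nsmul_eq_zero_of_dvd h hx)
  | dist l hl hlm x hx => exact Gen.dist l hl (hlm.trans h) x (nsmul_eq_zero_of_dvd h hx)

lemma Rel_mono {p m n : ℕ} (h : m ∣ n) : Rel p m ≤ Rel p n :=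
  AddSubgroup.closure_mono fun _ hT => Gen.mono h hT

lemma mem_RelA {p : ℕ} {T : QZ →₀ ℤ} :
    T ∈ RelA p ↔ ∃ m : ℕ, m ≠ 0 ∧ Nat.Coprime p m ∧ T ∈ Rel p m := by
  unfold RelA
  have hne : Nonempty {m : ℕ // m ≠ 0 ∧ Nat.Coprime p m} := ⟨⟨1, one_ne_zero, by simp⟩⟩
  rw [AddSubgroup.mem_iSup_of_directed]
  · constructor
    · rintro ⟨⟨m, hm, hpm⟩, h⟩
      exact ⟨m, hm, hpm, h⟩
    · rintro ⟨m, hm, hpm, h⟩
      exact ⟨⟨m, hm, hpm⟩, h⟩
  · rintro ⟨m, hm, hpm⟩ ⟨n, hn, hpn⟩
    exact ⟨⟨m * n, mul_ne_zero hm hn, Nat.Coprime.mul_right hpm hpn⟩,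
      Rel_mono (dvd_mul_right _ _), Rel_mono (dvd_mul_left _ _)⟩

lemma Rel_le_RelA {p m : ℕ} (hm : m ≠ 0) (hpm : Nat.Coprime p m) : Rel p m ≤ RelA p :=
  fun _ hT => mem_RelA.2 ⟨m, hm, hpm, hT⟩

/-- The universal group. -/
abbrev W (p : ℕ) : Type := (QZ →₀ ℤ) ⧸ RelA p

/-- The universal distribution. -/
def u (p : ℕ) (x : QZ) : W p := QuotientAddGroup.mk (Finsupp.single x 1)

lemma mk_eq_zero_iff {p : ℕ} {T : QZ →₀ ℤ} :
    (QuotientAddGroup.mk T : W p) = 0 ↔ T ∈ RelA p := by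
  rw [QuotientAddGroup.eq_zero_iff]

lemma ev_u (p : ℕ) (T : QZ →₀ ℤ) : ev (u p) T = QuotientAddGroup.mk T := by
  have h1 : ev (u p) = QuotientAddGroup.mk' (RelA p) := by
    ext x
    simp [u]
  rw [h1]
  rfl

lemma u_isDistG (p : ℕ) : IsDistG p (u p) := by
  constructor
  · unfold u
    rw [mk_eq_zero_iff]
    exact mem_RelA.2 ⟨1, one_ne_zero, by simp, AddSubgroup.subset_closure Gen.zero⟩
  · intro m hm hpm
    constructor
    · intro x hx
      rw [eq_neg_iff_add_eq_zero, add_comm]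
      unfold u
      rw [← QuotientAddGroup.mk_add, mk_eq_zero_iff]
      exact Rel_le_RelA hm hpm (AddSubgroup.subset_closure (Gen.neg x hx))
    · intro x hx
      rw [← sub_eq_zero]
      unfold u
      rw [← QuotientAddGroup.mk_sub, mk_eq_zero_iff]
      exact Rel_le_RelA hm hpm (AddSubgroup.subset_closure (Gen.frob x hx))
    · intro l hl hlm x hx
      rw [← sub_eq_zero]
      unfold u
      have h2 : (∑ i ∈ range l, (QuotientAddGroup.mk (Finsupp.single (x + i • e l) 1) : W p))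
          = QuotientAddGroup.mk (∑ i ∈ range l, Finsupp.single (x + i • e l) 1) :=
        (map_sum (QuotientAddGroup.mk' (RelA p)) _ _).symm
      rw [h2, ← QuotientAddGroup.mk_sub, mk_eq_zero_iff]
      exact Rel_le_RelA hm hpm (AddSubgroup.subset_closure (Gen.dist l hl hlm x hx))

lemma Supp.mono {m n : ℕ} (h : m ∣ n) {T : QZ →₀ ℤ} (hT : Supp m T) : Supp n T :=
  fun x hx => nsmul_eq_zero_of_dvd h (hT x hx)

/-- A distribution of level `n` is one of level `m` for `m ∣ n`. -/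
lemma IsDist.mono {p m n : ℕ} (h : m ∣ n) {f : QZ → V} (hf : IsDist p n f) : IsDist p m f :=
  ⟨fun x hx => hf.neg x (nsmul_eq_zero_of_dvd h hx),
    fun x hx => hf.frob x (nsmul_eq_zero_of_dvd h hx),
    fun l hl hlm x hx => hf.dist l hl (hlm.trans h) x (nsmul_eq_zero_of_dvd h hx)⟩

end

end Pool.Agent.Lib.MP_021685_agT
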