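import Pool.Agent.Lib.MP_021685_agT.Fin2

/-!
Parity vectors killed by surfaces and pairs.
-/

namespace Pool.Agent.Lib.MP_021685_agT

open Finset Pool.Agent.Lib.MP_021685_ag.Fermat

/-- The vector `v` is, on nonempty sets, a sum of parity vectors of `IsDiv` characters and balanced pairs. -/
def KV (p : ℕ) (v : Finset ℕ → ZMod 2) : Prop :=
  ∃ M : ℕ, 0 < M ∧ ¬ p ∣ M ∧ ∃ C : Multiset (Multiset (ZMod M)),
    (∀ γ ∈ C, IsDiv p M γ ∨ (IsBalanced p M γ ∧ Multiset.card γ = 2)) ∧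
    ∀ I : Finset ℕ, I.Nonempty → ((par M C.sum I : ℕ) : ZMod 2) = v I

theorem KV.congr {p : ℕ} {v w : Finset ℕ → ZMod 2} (hv : KV p v)
    (h : ∀ I : Finset ℕ, I.Nonempty → v I = w I) : KV p w := by
  obtain ⟨M, hM, hpM, C, hC, hI⟩ := hv
  exact ⟨M, hM, hpM, C, hC, fun I hn => (hI I hn).trans (h I hn)⟩

theorem KV.zero {p : ℕ} (hp : p.Prime) : KV p (fun _ => 0) :=
  ⟨1, one_pos, fun h => hp.one_lt.ne' (Nat.dvd_one.1 h), 0, by simp, by intro I _; simp [par]⟩

theorem map_sum_lift {m M : ℕ} (C : Multiset (Multiset (ZMod m))) (f : ZMod m → ZMod M) :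
    (C.map (Multiset.map f)).sum = C.sum.map f := by
  induction C using Multiset.induction_on with
  | empty => simp
  | cons a s ih => rw [Multiset.map_cons, Multiset.sum_cons, ih, Multiset.sum_cons, Multiset.map_add]

/-- Raising the level of a family. -/
theorem lift_family {p M M' : ℕ} (hp : p.Prime) (hM' : 0 < M') (hpM' : ¬ p ∣ M') (h : M ∣ M')
    {C : Multiset (Multiset (ZMod M))}
    (hC : ∀ γ ∈ C, IsDiv p M γ ∨ (IsBalanced p M γ ∧ Multiset.card γ = 2)) :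
    ∀ γ ∈ C.map (Multiset.map (lift M M')),
      IsDiv p M' γ ∨ (IsBalanced p M' γ ∧ Multiset.card γ = 2) := by
  have hcop := (Nat.Prime.coprime_iff_not_dvd hp).2 hpM'
  intro γ hγ
  obtain ⟨δ, hδ, rfl⟩ := Multiset.mem_map.1 hγ
  rcases hC δ hδ with h1 | ⟨h1, h2⟩
  · exact Or.inl (IsDiv.lift hM' hcop h h1)
  · exact Or.inr ⟨IsBalanced.lift hM' hcop h h1, by rwa [Multiset.card_map]⟩

theorem KV.add {p : ℕ} (hp : p.Prime) {v w : Finset ℕ → ZMod 2} (hv : KV p v) (hw : KV p w) :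
    KV p (fun I => v I + w I) := by
  obtain ⟨M, hM, hpM, C, hC, hI⟩ := hv
  obtain ⟨M', hM', hpM', C', hC', hI'⟩ := hw
  have h0 : 0 < M * M' := Nat.mul_pos hM hM'
  have hp0 : ¬ p ∣ M * M' := fun h => by
    rcases (Nat.Prime.dvd_mul hp).1 h with h | h
    · exact hpM h
    · exact hpM' h
  refine ⟨M * M', h0, hp0, C.map (Multiset.map (lift M (M * M')))
    + C'.map (Multiset.map (lift M' (M * M'))), ?_, ?_⟩
  · intro γ hγ
    rcases Multiset.mem_add.1 hγ with h | h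
    · exact lift_family hp h0 hp0 (dvd_mul_right _ _) hC γ h
    · exact lift_family hp h0 hp0 (dvd_mul_left _ _) hC' γ h
  · intro I hn
    rw [Multiset.sum_add, par_add, map_sum_lift, map_sum_lift, par_lift h0 (dvd_mul_right _ _),
      par_lift h0 (dvd_mul_left _ _), Nat.cast_add, hI I hn, hI' I hn]

theorem KV.smul {p : ℕ} (hp : p.Prime) {v : Finset ℕ → ZMod 2} (hv : KV p v) (c : ZMod 2) :
    KV p (fun I => c * v I) := by
  have hc : c = 0 ∨ c = 1 := by
    revert c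
    decide
  rcases hc with rfl | rfl
  · exact (KV.zero hp).congr (by simp)
  · exact hv.congr (by simp)

theorem KV.of_mem {p M : ℕ} (hM : 0 < M) (hpM : ¬ p ∣ M) {γ : Multiset (ZMod M)}
    (hγ : IsDiv p M γ ∨ (IsBalanced p M γ ∧ Multiset.card γ = 2)) {v : Finset ℕ → ZMod 2}
    (hv : ∀ I : Finset ℕ, I.Nonempty → ((par M γ I : ℕ) : ZMod 2) = v I) : KV p v :=
  ⟨M, hM, hpM, {γ}, by simpa using hγ, by simpa using hv⟩

theorem isKilled_of_KV {p m : ℕ} (hp : p.Prime) (hm : 0 < m) (hpm : ¬ p ∣ m)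
    {α : Multiset (ZMod m)} (h : KV p (fun I => ((par m α I : ℕ) : ZMod 2))) : IsKilled p m α := by
  obtain ⟨M, hM, hpM, C, hC, hI⟩ := h
  have h0 : 0 < m * M := Nat.mul_pos hm hM
  have hp0 : ¬ p ∣ m * M := fun h => by
    rcases (Nat.Prime.dvd_mul hp).1 h with h | h
    · exact hpm h
    · exact hpM h
  refine ⟨m * M, h0, dvd_mul_right _ _, hp0, C.map (Multiset.map (lift M (m * M))),
    lift_family hp h0 hp0 (dvd_mul_left _ _) hC, ?_⟩
  intro I hn
  rw [par_add, map_sum_lift, par_lift h0 (dvd_mul_right _ _), par_lift h0 (dvd_mul_left _ _)]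
  have h1 := hI I hn
  rw [← (ZMod.natCast_eq_natCast_iff _ _ 2).2 rfl] at h1
  have h2 : ((par m α I + par M C.sum I : ℕ) : ZMod 2) = 0 := by
    rw [Nat.cast_add, h1, ← two_mul]
    have : (2 : ZMod 2) = 0 := rfl
    rw [this, zero_mul]
  exact (ZMod.natCast_eq_zero_iff_even).1 h2

/-- If the parity vector of `α` is killed then `α` is generated. -/
theorem isGenerated_of_KV {p m : ℕ} (hp : p.Prime) (hm : 0 < m) (hpm : ¬ p ∣ m)
    {α : Multiset (ZMod m)} (hα : IsTate p m α)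
    (h : KV p (fun I => ((par m α I : ℕ) : ZMod 2))) : IsGenerated p m α :=
  (structure_theorem hp hm hpm hα).2 (isKilled_of_KV hp hm hpm h)

end Pool.Agent.Lib.MP_021685_agT
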