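import Pool.Agent.Lib.MP_021685_agT.S1C

/-!
JOB FamB. Values of eigen-distributions for real characters, modulo `2`.
-/

namespace Pool.Agent.Lib.MP_021685_agT

open Finset

/-- The elements `a` whose order `n` is odd, divisible by `c`, and such that `χ(l) = -1` for the primes `l ∣ n` prime to `c`. -/
def Good {m c : ℕ} (χ : DirichletCharacter ℂ c) (a : ZMod m) : Prop :=
  Odd (addOrderOf a) ∧ c ∣ addOrderOf a ∧
    ∀ l : ℕ, l.Prime → l ∣ addOrderOf a → ¬ l ∣ c → χ (l : ZMod c) = -1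

/-- multiplication of a point by a unit -/
private theorem FamB_mul {m : ℕ} [NeZero m] {n : ℕ} (hn : n ∣ m) (g : (ZMod m)ˣ) {j j' : ℕ}
    (hg : (ZMod.unitsMap hn g : ZMod n) * (j : ZMod n) = (j' : ZMod n)) :
    (g : ZMod m) * ((m / n * j : ℕ) : ZMod m) = ((m / n * j' : ℕ) : ZMod m) := by
  rw [ZMod.unitsMap_val, ← ZMod.natCast_val, ← Nat.cast_mul, ZMod.natCast_eq_natCast_iff] at hg
  have h1 : (g : ZMod m) = (((g : ZMod m).val : ℕ) : ZMod m) := (ZMod.natCast_zmod_val _).symm
  rw [h1, ← Nat.cast_mul, ZMod.natCast_eq_natCast_iff]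
  have h2 := hg.mul_left' (m / n)
  rw [Nat.div_mul_cancel hn] at h2
  rw [show (g : ZMod m).val * (m / n * j) = m / n * ((g : ZMod m).val * j) by ring]
  exact h2

/-- reduced form of a point -/
private theorem FamB_red {m : ℕ} [NeZero m] {n : ℕ} (hn : n ∣ m) (j : ℕ) (hj : 0 < n) :
    ∃ n' j' : ℕ, n' ∣ n ∧ n' * Nat.gcd j n = n ∧ Nat.Coprime j' n' ∧
      ((m / n * j : ℕ) : ZMod m) = ((m / n' * j' : ℕ) : ZMod m) := by
  have hg : 0 < Nat.gcd j n := Nat.gcd_pos_of_pos_right _ hj
  have hgn : Nat.gcd j n ∣ n := Nat.gcd_dvd_right _ _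
  have hgj : Nat.gcd j n ∣ j := Nat.gcd_dvd_left _ _
  refine ⟨n / Nat.gcd j n, j / Nat.gcd j n, Nat.div_dvd_of_dvd hgn, Nat.div_mul_cancel hgn,
    Nat.coprime_div_gcd_div_gcd hg, ?_⟩
  have h1 : m / (n / Nat.gcd j n) = m / n * Nat.gcd j n := by
    have hn' : 0 < n / Nat.gcd j n := Nat.div_pos (Nat.le_of_dvd hj hgn) hg
    refine Nat.div_eq_of_eq_mul_left hn' ?_
    calc m = m / n * n := (Nat.div_mul_cancel hn).symm
      _ = m / n * (Nat.gcd j n * (n / Nat.gcd j n)) := by rw [Nat.mul_div_cancel' hgn]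
      _ = m / n * Nat.gcd j n * (n / Nat.gcd j n) := by ring
  rw [h1]
  congr 1
  calc m / n * j = m / n * (Nat.gcd j n * (j / Nat.gcd j n)) := by rw [Nat.mul_div_cancel' hgj]
    _ = _ := by ring

/-- the value at a unit multiple -/
private theorem FamB_eig {m c : ℕ} [NeZero m] (hcm : c ∣ m) (χ : DirichletCharacter ℂ c)
    {h : ZMod m → ℂ}
    (heig : ∀ (g : (ZMod m)ˣ) (a : ZMod m),
      h ((g : ZMod m) * a) = χ (ZMod.castHom hcm (ZMod c) (g : ZMod m)) * h a)
    {n : ℕ} (hn : n ∣ m) (hcn : c ∣ n) {k k' : ℕ} (hk : Nat.Coprime k n) (hk' : Nat.Coprime k' n) :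
    χ (k : ZMod c) * h ((m / n * k' : ℕ) : ZMod m) = χ (k' : ZMod c) * h ((m / n * k : ℕ) : ZMod m) := by
  obtain ⟨g, hg⟩ := ZMod.unitsMap_surjective hn
    (ZMod.unitOfCoprime k' hk' * (ZMod.unitOfCoprime k hk)⁻¹)
  have h0 : (ZMod.unitsMap hn g : ZMod n) * (k : ZMod n) = (k' : ZMod n) := by
    rw [hg, ← ZMod.coe_unitOfCoprime k hk, ← Units.val_mul, inv_mul_cancel_right,
      ZMod.coe_unitOfCoprime]
  have h3 : (g : ZMod m) * ((m / n * k : ℕ) : ZMod m) = ((m / n * k' : ℕ) : ZMod m) :=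
    FamB_mul hn g h0
  have h4 : ZMod.castHom hcm (ZMod c) (g : ZMod m) * (k : ZMod c) = (k' : ZMod c) := by
    have h5 := congrArg (ZMod.castHom hcn (ZMod c)) h0
    rw [map_mul, map_natCast, map_natCast] at h5
    rw [← h5]
    congr 1
    have h6 := RingHom.congr_fun (ZMod.castHom_comp hcn hn) (g : ZMod m)
    rw [RingHom.comp_apply] at h6
    exact h6.symm
  rw [← h3, heig, ← h4, map_mul]
  ring

/-- the values at points of order not divisible by the conductor -/
private theorem FamB_zero {m c : ℕ} [NeZero m] (hcm : c ∣ m) (χ : DirichletCharacter ℂ c)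
    (hprim : χ.IsPrimitive) {h : ZMod m → ℂ}
    (heig : ∀ (g : (ZMod m)ˣ) (a : ZMod m),
      h ((g : ZMod m) * a) = χ (ZMod.castHom hcm (ZMod c) (g : ZMod m)) * h a)
    {n : ℕ} (hn : n ∣ m) (hcn : ¬ c ∣ n) (k : ℕ) : h ((m / n * k : ℕ) : ZMod m) = 0 := by
  set ψ : DirichletCharacter ℂ m := DirichletCharacter.changeLevel hcm χ with hψ
  have hcond : ψ.conductor = c := by
    rw [hψ, DirichletCharacter.conductor_changeLevel]
    exact hprim
  have hval : ∀ g : (ZMod m)ˣ, ψ (g : ZMod m) = χ (ZMod.castHom hcm (ZMod c) (g : ZMod m)) := by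
    intro g
    rw [hψ, DirichletCharacter.changeLevel_eq_cast_of_dvd, ZMod.castHom_apply]
  have h1 : ¬ (ZMod.unitsMap hn).ker ≤ ψ.toUnitHom.ker := by
    intro hcon
    apply hcn
    have := ψ.conductor_dvd_of_mem_conductorSet
      ((DirichletCharacter.factorsThrough_iff_ker_unitsMap hn).2 hcon)
    rwa [hcond] at this
  obtain ⟨g, hg1, hg2⟩ := SetLike.not_le_iff_exists.1 h1
  rw [MonoidHom.mem_ker] at hg1 hg2
  have h2 : (g : ZMod m) * ((m / n * k : ℕ) : ZMod m) = ((m / n * k : ℕ) : ZMod m) := by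
    refine FamB_mul hn g ?_
    rw [hg1]
    simp
  have h3 := heig g ((m / n * k : ℕ) : ZMod m)
  rw [h2, ← hval] at h3
  have h4 : ψ (g : ZMod m) ≠ 1 := by
    intro hcon
    apply hg2
    rw [← Units.val_inj, MulChar.coe_toUnitHom]
    simpa using hcon
  have h5 : (ψ (g : ZMod m) - 1) * h ((m / n * k : ℕ) : ZMod m) = 0 := by
    rw [sub_mul, one_mul, ← h3, sub_self]
  rcases mul_eq_zero.1 h5 with h6 | h6
  · exact absurd (sub_eq_zero.1 h6) h4
  · exact h6

private theorem FamB_ne {c : ℕ} (χ : DirichletCharacter ℂ c) {k : ℕ} (hk : Nat.Coprime k c) :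
    χ (k : ZMod c) ≠ 0 := by
  have h1 : IsUnit ((k : ℕ) : ZMod c) := (ZMod.isUnit_iff_coprime k c).2 hk
  exact (h1.map χ).ne_zero

/-- the values at two points congruent modulo the conductor -/
private theorem FamB_same {m c : ℕ} [NeZero m] (hcm : c ∣ m) (χ : DirichletCharacter ℂ c)
    {h : ZMod m → ℂ}
    (heig : ∀ (g : (ZMod m)ˣ) (a : ZMod m),
      h ((g : ZMod m) * a) = χ (ZMod.castHom hcm (ZMod c) (g : ZMod m)) * h a)
    {n : ℕ} (hn : n ∣ m) (hcn : c ∣ n) {k k' : ℕ} (hk : Nat.Coprime k n) (hk' : Nat.Coprime k' n)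
    (hkk : (k : ZMod c) = (k' : ZMod c)) :
    h ((m / n * k' : ℕ) : ZMod m) = h ((m / n * k : ℕ) : ZMod m) := by
  have h1 := FamB_eig hcm χ heig hn hcn hk hk'
  rw [← hkk] at h1
  exact mul_left_cancel₀ (FamB_ne χ (hk.coprime_dvd_right hcn)) h1

private theorem FamB_div {m n n' l : ℕ} [NeZero m] (hn : n ∣ m) (hnn : n = l * n') :
    m / n' = m / n * l ∧ m / l = m / n * n' ∧ 0 < n' ∧ 0 < l := by
  have hm0 : 0 < m := Nat.pos_of_ne_zero (NeZero.ne m)
  have hn0 : 0 < n := Nat.pos_of_dvd_of_pos hn hm0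
  have hl0 : 0 < l := by
    rcases Nat.eq_zero_or_pos l with h | h
    · rw [h, zero_mul] at hnn
      omega
    · exact h
  have hn'0 : 0 < n' := by
    rcases Nat.eq_zero_or_pos n' with h | h
    · rw [h, mul_zero] at hnn
      omega
    · exact h
  have hmn : m = m / n * (l * n') := by rw [← hnn, Nat.div_mul_cancel hn]
  refine ⟨?_, ?_, hn'0, hl0⟩
  · refine Nat.div_eq_of_eq_mul_left hn'0 ?_
    calc m = m / n * (l * n') := hmn
      _ = _ := by ring
  · refine Nat.div_eq_of_eq_mul_left hl0 ?_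
    calc m = m / n * (l * n') := hmn
      _ = _ := by ring

/-- the distribution relation in terms of orders -/
private theorem FamB_rel {m : ℕ} [NeZero m] {h : ZMod m → ℂ} (hh : IsDZ m h) {n n' l : ℕ}
    (hl : l.Prime) (hn : n ∣ m) (hnn : n = l * n') (k : ℕ) :
    h ((m / n' * k : ℕ) : ZMod m) = ∑ i ∈ range l, h ((m / n * (k + i * n') : ℕ) : ZMod m) := by
  obtain ⟨e1, e2, -, -⟩ := FamB_div hn hnn
  have hlm : l ∣ m := (Dvd.intro n' hnn.symm).trans hn
  have h1 := hh.dist l hl hlm ((m / n * k : ℕ) : ZMod m)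
  rw [← Nat.cast_mul, show l * (m / n * k) = m / n' * k by rw [e1]; ring] at h1
  rw [h1]
  refine Finset.sum_congr rfl fun i _ => ?_
  rw [e2]
  congr 1
  push_cast
  ring

/-- the case in which `l` divides `n / l` -/
private theorem FamB_ram {m c : ℕ} [NeZero m] (hcm : c ∣ m) (χ : DirichletCharacter ℂ c)
    {h : ZMod m → ℂ} (hh : IsDZ m h)
    (heig : ∀ (g : (ZMod m)ˣ) (a : ZMod m),
      h ((g : ZMod m) * a) = χ (ZMod.castHom hcm (ZMod c) (g : ZMod m)) * h a)
    {n n' l : ℕ} (hl : l.Prime) (hn : n ∣ m) (hnn : n = l * n') (hcn : c ∣ n') (hln : l ∣ n')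
    {k : ℕ} (hk : Nat.Coprime k n) :
    h ((m / n' * k : ℕ) : ZMod m) = l * h ((m / n * k : ℕ) : ZMod m) := by
  rw [FamB_rel hh hl hn hnn k]
  have h1 : ∀ i ∈ range l, h ((m / n * (k + i * n') : ℕ) : ZMod m) =
      h ((m / n * k : ℕ) : ZMod m) := by
    intro i _
    have h2 : Nat.Coprime (k + i * n') n' := by
      rw [Nat.coprime_add_mul_right_left]
      exact hk.coprime_dvd_right ⟨l, by rw [hnn]; ring⟩
    have h3 : Nat.Coprime (k + i * n') n := by
      rw [hnn]
      exact Nat.Coprime.mul_right (h2.coprime_dvd_right hln) h2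
    have hcn2 : c ∣ n := hcn.trans ⟨l, by rw [hnn]; ring⟩
    refine FamB_same hcm χ heig hn hcn2 hk h3 ?_
    push_cast
    rw [(ZMod.natCast_eq_zero_iff n' c).2 hcn, mul_zero, add_zero]
  rw [Finset.sum_congr rfl h1, Finset.sum_const, Finset.card_range, nsmul_eq_mul]

/-- the case in which `l` does not divide `n / l` -/
private theorem FamB_unr {m c : ℕ} [NeZero m] (hcm : c ∣ m) (χ : DirichletCharacter ℂ c)
    {h : ZMod m → ℂ} (hh : IsDZ m h)
    (heig : ∀ (g : (ZMod m)ˣ) (a : ZMod m),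
      h ((g : ZMod m) * a) = χ (ZMod.castHom hcm (ZMod c) (g : ZMod m)) * h a)
    {n n' l : ℕ} (hl : l.Prime) (hn : n ∣ m) (hnn : n = l * n') (hcn : c ∣ n') (hln : ¬ l ∣ n')
    (hχ : χ (l : ZMod c) = 1 ∨ χ (l : ZMod c) = -1) {k : ℕ} (hk : Nat.Coprime k n) :
    ((l : ℂ) - 1) * h ((m / n * k : ℕ) : ZMod m) =
      (1 - χ (l : ZMod c)) * h ((m / n' * k : ℕ) : ZMod m) := by
  have hn'n : n' ∣ n := ⟨l, by rw [hnn]; ring⟩
  have hn'm : n' ∣ m := hn'n.trans hn
  have hcn2 : c ∣ n := hcn.trans hn'n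
  have hkn' : Nat.Coprime k n' := hk.coprime_dvd_right hn'n
  obtain ⟨e1, e2, hn'0, hl0⟩ := FamB_div hn hnn
  have hcop : Nat.Coprime n' l := ((Nat.Prime.coprime_iff_not_dvd hl).2 hln).symm
  -- the exceptional index
  obtain ⟨i0, hi0, hi1⟩ : ∃ i0 < l, l ∣ k + i0 * n' := by
    have : NeZero l := ⟨hl.ne_zero⟩
    have hu : IsUnit ((n' : ℕ) : ZMod l) := (ZMod.isUnit_iff_coprime n' l).2 hcop
    obtain ⟨u, hu⟩ := hu
    refine ⟨(-(k : ZMod l) * ((u⁻¹ : (ZMod l)ˣ) : ZMod l)).val, ZMod.val_lt _, ?_⟩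
    rw [← ZMod.natCast_eq_zero_iff]
    push_cast
    rw [ZMod.natCast_zmod_val, ← hu, mul_assoc, Units.inv_mul, mul_one, add_neg_cancel]
  have huniq : ∀ i < l, l ∣ k + i * n' → i = i0 := by
    intro i hi hd
    have h1 : ((k + i * n' : ℕ) : ZMod l) = ((k + i0 * n' : ℕ) : ZMod l) := by
      rw [(ZMod.natCast_eq_zero_iff _ _).2 hd, (ZMod.natCast_eq_zero_iff _ _).2 hi1]
    have hu : IsUnit ((n' : ℕ) : ZMod l) := (ZMod.isUnit_iff_coprime n' l).2 hcop
    push_cast at h1
    have h2 := hu.mul_right_cancel (add_left_cancel h1)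
    rw [ZMod.natCast_eq_natCast_iff] at h2
    exact Nat.ModEq.eq_of_lt_of_lt h2 hi hi0
  obtain ⟨j, hj⟩ := hi1
  have hjn' : Nat.Coprime j n' := by
    have h2 : Nat.Coprime (k + i0 * n') n' := by
      rw [Nat.coprime_add_mul_right_left]
      exact hkn'
    rw [hj] at h2
    exact Nat.Coprime.coprime_mul_left h2
  have hln' : Nat.Coprime l n' := hcop.symm
  have hval : h ((m / n * (k + i0 * n') : ℕ) : ZMod m) =
      χ (l : ZMod c) * h ((m / n' * k : ℕ) : ZMod m) := by
    have h1 : m / n * (k + i0 * n') = m / n' * j := by rw [hj, e1]; ring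
    rw [h1]
    have h2 := FamB_eig hcm χ heig hn'm hcn hjn' hkn'
    have h3 : (k : ZMod c) = (l : ZMod c) * (j : ZMod c) := by
      have h4 : ((k + i0 * n' : ℕ) : ZMod c) = ((l * j : ℕ) : ZMod c) := by rw [hj]
      push_cast at h4
      rwa [(ZMod.natCast_eq_zero_iff n' c).2 hcn, mul_zero, add_zero] at h4
    rw [h3, map_mul] at h2
    have h5 : χ (j : ZMod c) ≠ 0 := FamB_ne χ (hjn'.coprime_dvd_right hcn)
    have h6 : h ((m / n' * k : ℕ) : ZMod m) = χ (l : ZMod c) * h ((m / n' * j : ℕ) : ZMod m) := by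
      apply mul_left_cancel₀ h5
      rw [h2]
      ring
    have h7 : χ (l : ZMod c) * χ (l : ZMod c) = 1 := by
      rcases hχ with h | h <;> rw [h] <;> norm_num
    rw [h6, ← mul_assoc, h7, one_mul]
  have hterm : ∀ i ∈ (range l).erase i0, h ((m / n * (k + i * n') : ℕ) : ZMod m) =
      h ((m / n * k : ℕ) : ZMod m) := by
    intro i hi
    rw [Finset.mem_erase, Finset.mem_range] at hi
    have h2 : Nat.Coprime (k + i * n') n' := by
      rw [Nat.coprime_add_mul_right_left]
      exact hkn'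
    have h4 : Nat.Coprime (k + i * n') l := by
      rw [Nat.coprime_comm, Nat.Prime.coprime_iff_not_dvd hl]
      exact fun hd => hi.1 (huniq i hi.2 hd)
    have h3 : Nat.Coprime (k + i * n') n := by
      rw [hnn]
      exact Nat.Coprime.mul_right h4 h2
    refine FamB_same hcm χ heig hn hcn2 hk h3 ?_
    push_cast
    rw [(ZMod.natCast_eq_zero_iff n' c).2 hcn, mul_zero, add_zero]
  have hsum := FamB_rel hh hl hn hnn k
  rw [← Finset.add_sum_erase _ _ (Finset.mem_range.2 hi0), hval, Finset.sum_congr rfl hterm,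
    Finset.sum_const, Finset.card_erase_of_mem (Finset.mem_range.2 hi0), Finset.card_range,
    nsmul_eq_mul, Nat.cast_sub hl.one_lt.le, Nat.cast_one] at hsum
  linear_combination -hsum

/-- if `χ(2) = 1`, the values at points of even order vanish -/
private theorem FamB_even {m c : ℕ} [NeZero m] (hcm : c ∣ m) (hc : Odd c)
    (χ : DirichletCharacter ℂ c) (hprim : χ.IsPrimitive)
    {h : ZMod m → ℂ} (hh : IsDZ m h)
    (heig : ∀ (g : (ZMod m)ˣ) (a : ZMod m),
      h ((g : ZMod m) * a) = χ (ZMod.castHom hcm (ZMod c) (g : ZMod m)) * h a)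
    (h2 : χ ((2 : ℕ) : ZMod c) = 1) (n : ℕ) :
    ∀ (_ : n ∣ m) (_ : 2 ∣ n) (k : ℕ), Nat.Coprime k n → h ((m / n * k : ℕ) : ZMod m) = 0 := by
  induction n using Nat.strong_induction_on with
  | _ n ih =>
    intro hn h2n k hk
    by_cases hcn : c ∣ n
    swap
    · exact FamB_zero hcm χ hprim heig hn hcn k
    obtain ⟨n', hnn⟩ := h2n
    obtain ⟨-, -, hn'0, -⟩ := FamB_div hn hnn
    have hcn' : c ∣ n' := by
      rw [hnn] at hcn
      exact (Nat.Coprime.dvd_mul_left (hc.coprime_two_right : Nat.Coprime c 2)).1 hcn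
    have hn'n : n' ∣ n := ⟨2, by rw [hnn]; ring⟩
    by_cases h2n' : 2 ∣ n'
    · have h3 := FamB_ram hcm χ hh heig Nat.prime_two hn hnn hcn' h2n' hk
      rw [ih n' (by omega) (hn'n.trans hn) h2n' k (hk.coprime_dvd_right hn'n)] at h3
      have h4 : ((2 : ℕ) : ℂ) ≠ 0 := by norm_num
      rcases mul_eq_zero.1 h3.symm with h5 | h5
      · exact absurd h5 h4
      · exact h5
    · have h3 := FamB_unr hcm χ hh heig Nat.prime_two hn hnn hcn' h2n' (Or.inl h2) hk
      rw [h2, sub_self, zero_mul] at h3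
      norm_num at h3
      exact_mod_cast h3

/-- goodness in terms of the order -/
private def FamB_good {c : ℕ} (χ : DirichletCharacter ℂ c) (n : ℕ) : Prop :=
  Odd n ∧ c ∣ n ∧ ∀ l : ℕ, l.Prime → l ∣ n → ¬ l ∣ c → χ (l : ZMod c) = -1

private theorem FamB_main {m c : ℕ} [NeZero m] (hcm : c ∣ m) (hc : Odd c)
    (χ : DirichletCharacter ℂ c) (hprim : χ.IsPrimitive)
    (hreal : ∀ k : ZMod c, IsUnit k → χ k = 1 ∨ χ k = -1)
    (hl : ∀ l : ℕ, l.Prime → l ∣ m → ¬ l ∣ c → χ (l : ZMod c) = 1 ∨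
      (χ (l : ZMod c) = -1 ∧ (l % 4 = 3 ∨ (l = 2 ∧ ¬ 4 ∣ m))))
    {h : ZMod m → ℂ} (hh : IsDZ m h)
    (heig : ∀ (g : (ZMod m)ˣ) (a : ZMod m),
      h ((g : ZMod m) * a) = χ (ZMod.castHom hcm (ZMod c) (g : ZMod m)) * h a) (n : ℕ) :
    ∀ (_ : n ∣ m) (k : ℕ), Nat.Coprime k n →
    ∃ (D : ℕ) (z : ℤ), Odd D ∧ (D : ℂ) * h ((m / n * k : ℕ) : ZMod m) =
      (z : ℂ) * h ((m / c : ℕ) : ZMod m) ∧ (Odd z ↔ FamB_good χ n) := by
  induction n using Nat.strong_induction_on with
  | _ n ih =>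
    intro hn k hk
    have hm0 : 0 < m := Nat.pos_of_ne_zero (NeZero.ne m)
    have hn0 : 0 < n := Nat.pos_of_dvd_of_pos hn hm0
    have hzero : h ((m / n * k : ℕ) : ZMod m) = 0 → ¬ FamB_good χ n →
        ∃ (D : ℕ) (z : ℤ), Odd D ∧ (D : ℂ) * h ((m / n * k : ℕ) : ZMod m) =
          (z : ℂ) * h ((m / c : ℕ) : ZMod m) ∧ (Odd z ↔ FamB_good χ n) := by
      intro h1 h2
      refine ⟨1, 0, odd_one, by rw [h1]; simp, ?_⟩
      simp [h2]
    by_cases hcn : c ∣ n
    swap
    · exact hzero (FamB_zero hcm χ hprim heig hn hcn k) (fun hg => hcn hg.2.1)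
    by_cases hcn' : n = c
    · subst hcn'
      have h1 := FamB_eig hcm χ heig hn (dvd_refl n) (Nat.coprime_one_left n) hk
      rw [Nat.cast_one, map_one, one_mul, mul_one] at h1
      have hgood : FamB_good χ n := ⟨hc, dvd_refl n, fun l _ h3 h4 => absurd h3 h4⟩
      rcases hreal (k : ZMod n) ((ZMod.isUnit_iff_coprime k n).2 hk) with h2 | h2
      · refine ⟨1, 1, odd_one, ?_, ?_⟩
        · rw [h1, h2]; simp
        · simp [hgood]
      · refine ⟨1, -1, odd_one, ?_, ?_⟩
        · rw [h1, h2]; simp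
        · simp [hgood]
    · obtain ⟨q, hq⟩ := hcn
      have hq1 : q ≠ 1 := by
        rintro rfl
        exact hcn' (by rw [hq, mul_one])
      obtain ⟨l, hlp, r, hr⟩ := Nat.exists_prime_and_dvd hq1
      obtain ⟨n', hn'⟩ : ∃ n', n' = c * r := ⟨_, rfl⟩
      have hnn : n = l * n' := by rw [hq, hr, hn']; ring
      have hcn2 : c ∣ n' := ⟨r, hn'⟩
      obtain ⟨-, -, hn'0, hl0⟩ := FamB_div hn hnn
      have hn'n : n' ∣ n := ⟨l, by rw [hnn]; ring⟩
      have hlm : l ∣ m := (Dvd.intro n' hnn.symm).trans hn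
      have hlt : n' < n := by
        rw [hnn]
        have := hlp.two_le
        nlinarith
      have hcn3 : c ∣ n := hcn2.trans hn'n
      have hln : l ∣ n := Dvd.intro n' hnn.symm
      obtain ⟨D, z, hD, hDz, hz⟩ := ih n' hlt (hn'n.trans hn) k (hk.coprime_dvd_right hn'n)
      by_cases hln' : l ∣ n'
      · have h3 := FamB_ram hcm χ hh heig hlp hn hnn hcn2 hln' hk
        rcases hlp.eq_two_or_odd' with h2 | hodd
        · -- `l = 2`
          subst h2
          have h4m : 4 ∣ m := by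
            obtain ⟨t, ht⟩ := hln'
            refine Dvd.dvd.trans ⟨t, ?_⟩ hn
            rw [hnn, ht]; ring
          have h2c : ¬ 2 ∣ c := by
            intro h2c
            rw [← even_iff_two_dvd] at h2c
            exact Nat.not_even_iff_odd.2 hc h2c
          have hχ2 : χ ((2 : ℕ) : ZMod c) = 1 := by
            rcases hl 2 Nat.prime_two hlm h2c with h5 | ⟨-, h5 | ⟨-, h5⟩⟩
            · exact h5
            · norm_num at h5
            · exact absurd h4m h5
          refine hzero (FamB_even hcm hc χ hprim hh heig hχ2 n hn hln k hk) (fun hg => ?_)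
          exact Nat.not_even_iff_odd.2 hg.1 (even_iff_two_dvd.2 hln)
        · refine ⟨l * D, z, hodd.mul hD, ?_, ?_⟩
          · rw [← hDz, h3]
            push_cast
            ring
          · rw [hz]
            constructor
            · rintro ⟨g1, _, g3⟩
              refine ⟨by rw [hnn]; exact hodd.mul g1, hcn3, fun l' hl' hd hnd => ?_⟩
              apply g3 l' hl' _ hnd
              rw [hnn, hl'.dvd_mul] at hd
              rcases hd with hd | hd
              · exact hd.trans hln'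
              · exact hd
            · rintro ⟨g1, _, g3⟩
              refine ⟨?_, hcn2, fun l' hl' hd hnd => g3 l' hl' (hd.trans hn'n) hnd⟩
              exact Nat.Odd.of_mul_right (by rwa [hnn] at g1)
      · -- `l` does not divide `n'`
        have hlc : ¬ l ∣ c := fun hd => hln' (hd.trans hcn2)
        have hcase := hl l hlp hlm hlc
        have hχ : χ (l : ZMod c) = 1 ∨ χ (l : ZMod c) = -1 := by
          rcases hcase with h5 | ⟨h5, -⟩
          · exact Or.inl h5
          · exact Or.inr h5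
        have h3 := FamB_unr hcm χ hh heig hlp hn hnn hcn2 hln' hχ hk
        rcases hcase with h5 | ⟨h5, h6⟩
        · rw [h5, sub_self, zero_mul] at h3
          refine hzero ?_ (fun hg => ?_)
          · rcases mul_eq_zero.1 h3 with h7 | h7
            · exfalso
              rw [sub_eq_zero] at h7
              have : l = 1 := by exact_mod_cast h7
              exact hlp.one_lt.ne' this
            · exact h7
          · have h7 := hg.2.2 l hlp hln hlc
            rw [h5] at h7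
            norm_num at h7
        · rw [h5] at h3
          rcases h6 with h6 | ⟨h6, -⟩
          · -- `l ≡ 3 mod 4`
            obtain ⟨t, ht⟩ : ∃ t, l = 4 * t + 3 := ⟨l / 4, by omega⟩
            refine ⟨D * (2 * t + 1), z, hD.mul ⟨t, rfl⟩, ?_, ?_⟩
            · have h7 : ((2 * t + 1 : ℕ) : ℂ) * h ((m / n * k : ℕ) : ZMod m) =
                  h ((m / n' * k : ℕ) : ZMod m) := by
                have h8 : (l : ℂ) = 4 * t + 3 := by rw [ht]; push_cast; ring
                have h9 : ((2 * t + 1 : ℕ) : ℂ) = 2 * t + 1 := by push_cast; ring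
                rw [h8] at h3
                rw [h9]
                linear_combination h3 / 2
              rw [← hDz, ← h7]
              push_cast
              ring
            · rw [hz]
              have hodd : Odd l := ⟨2 * t + 1, by omega⟩
              constructor
              · rintro ⟨g1, _, g3⟩
                refine ⟨by rw [hnn]; exact hodd.mul g1, hcn3, fun l' hl' hd hnd => ?_⟩
                rw [hnn, hl'.dvd_mul] at hd
                rcases hd with hd | hd
                · have : l' = l := (Nat.prime_dvd_prime_iff_eq hl' hlp).1 hd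
                  rw [this]
                  exact h5
                · exact g3 l' hl' hd hnd
              · rintro ⟨g1, _, g3⟩
                refine ⟨?_, hcn2, fun l' hl' hd hnd => g3 l' hl' (hd.trans hn'n) hnd⟩
                exact Nat.Odd.of_mul_right (by rwa [hnn] at g1)
          · -- `l = 2`
            subst h6
            refine ⟨D, 2 * z, hD, ?_, ?_⟩
            · have e1 : ((2 : ℕ) : ℂ) = 2 := by norm_num
              have e2 : ((2 * z : ℤ) : ℂ) = 2 * (z : ℂ) := by push_cast; ring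
              rw [e1] at h3
              rw [e2]
              linear_combination (D : ℂ) * h3 + 2 * hDz
            · constructor
              · intro ho
                exact absurd ho (Int.not_odd_iff_even.2 (even_two_mul z))
              · intro hg
                exact absurd (even_iff_two_dvd.2 hln) (Nat.not_even_iff_odd.2 hg.1)

/-- Let `χ` be a primitive character of odd conductor `c > 1`, `c ∣ m`, with values `± 1` on units, and let
`h` be a distribution of level `m` with `h (g a) = χ(g) h(a)` for the units `g` of `ZMod m`. Assume that every prime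
`l ∣ m`, `l ∤ c`, satisfies `χ(l) = 1`, or `χ(l) = -1` and (`l ≡ 3 mod 4` or (`l = 2` and `4 ∤ m`)). Then for every `a` there are an odd `D` and an integer `z` with
`D h(a) = z h(m / c)`, and `z` is odd iff `a` is `Good`.

Proof. Strong induction on the order `n` of `a` (all orders divide `m`; write points as `(m / n) k`, `k` prime to `n`; see the proof of `S1A_main` in
`S1A.lean` for all the manipulations). Let `χ' = DirichletCharacter.changeLevel (c ∣ m) χ`, of conductor `c`
(`DirichletCharacter.conductor_changeLevel`); `χ' g = χ (g mod c)`.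
(1) `c ∤ n`: as in `S1A_main` some unit `g ≡ 1 mod n` has `χ(g) ≠ 1`, `g a = a`, so `h a = 0`: `D = 1, z = 0`; `a` is not good.
(2) `n = c`: `a = g (m / c)`, `h a = ± h (m / c)`; `z = ± 1`; `a` is good (`c` is odd).
(3) `c ∣ n`, `n ≠ c`: let `l` be a prime dividing `n / c`, and `D', z'` the data of `l a`, whose order is `n / l`.
 (3a) `l ∣ n / l`: every `a + i (m / l)` is `g a` with a unit `g ≡ 1 mod n / l`, so `h (l a) = l h(a)`. If `l` is odd: `D = l D'`, `z = z'`; `a` is good iff `l a` is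
 (the orders have the same prime divisors and the same parity, `c ∣ n / l`). If `l = 2`: then `4 ∣ m` and `2 ∤ c`, so `χ(2) = 1`; in this case
 show `h a = 0` (see (3c)), and `a` is not good.
 (3b) `l ∤ n / l` (so `l ∤ c` because `c ∣ n / l`): exactly one `a0 = a + i0 (m / l)` has order `n / l` and the other `l - 1` fibre elements are `g a` with `g ≡ 1 mod n / l`; `l a0 = l a`, and
 `l a0 = g a0` for a unit `g ≡ l mod n / l`, so `h (l a) = χ(l) h(a0)`, `h(a0) = χ(l) h(l a)`. Hence `(l - 1) h(a) = (1 - χ(l)) h(l a)`. If `χ(l) = 1`: `h a = 0`, and `a` is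
 not good. If `χ(l) = -1`: `(l - 1) h(a) = 2 h(l a)`. `l = 2`: `h a = 2 h(2 a)`, `D = D'`, `z = 2 z'` even, `a` not good. `l ≡ 3 mod 4`: `((l - 1) / 2) h(a) = h(l a)`, `D = D' (l - 1) / 2` odd,
 `z = z'`; `a` is good iff `l a` is.
 (3c) It is convenient to prove first: if `χ(2) = 1` (`2 ∣ m`) and `n` is even then `h a = 0`, by induction on `n`: choose `l = 2` in the above: if `4 ∣ n`, `2 h(a) = h(2 a) = 0` by
 induction, if `n ≡ 2 mod 4`, `h(a) = (1 - χ(2)) h(2 a) = 0`. (`c ∣ n / 2` holds since `c` is odd, in the nontrivial case `c ∣ n`.) -/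
theorem real_char_values {m c : ℕ} [NeZero m] (hcm : c ∣ m) (hc1 : 1 < c) (hc : Odd c)
    (χ : DirichletCharacter ℂ c) (hprim : χ.IsPrimitive)
    (hreal : ∀ k : ZMod c, IsUnit k → χ k = 1 ∨ χ k = -1)
    (hl : ∀ l : ℕ, l.Prime → l ∣ m → ¬ l ∣ c → χ (l : ZMod c) = 1 ∨
      (χ (l : ZMod c) = -1 ∧ (l % 4 = 3 ∨ (l = 2 ∧ ¬ 4 ∣ m))))
    {h : ZMod m → ℂ} (hh : IsDZ m h)
    (heig : ∀ (g : (ZMod m)ˣ) (a : ZMod m),
      h ((g : ZMod m) * a) = χ (ZMod.castHom hcm (ZMod c) (g : ZMod m)) * h a) (a : ZMod m) :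
    ∃ (D : ℕ) (z : ℤ), Odd D ∧ (D : ℂ) * h a = (z : ℂ) * h ((m / c : ℕ) : ZMod m) ∧
      (Odd z ↔ Good χ a) := by
  have hm0 : 0 < m := Nat.pos_of_ne_zero (NeZero.ne m)
  obtain ⟨n, k, hd, -, hcop, heq⟩ := FamB_red (m := m) (dvd_refl m) a.val hm0
  rw [Nat.div_self hm0, one_mul, ZMod.natCast_zmod_val] at heq
  have hord : addOrderOf a = n := by
    have hn0 : 0 < n := Nat.pos_of_dvd_of_pos hd hm0
    have h1 : 0 < m / n := Nat.div_pos (Nat.le_of_dvd hm0 hd) hn0
    rw [heq, ZMod.addOrderOf_coe _ hm0.ne']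
    have h2 : m.gcd (m / n * k) = m / n := by
      conv_lhs => rw [show m = m / n * n from (Nat.div_mul_cancel hd).symm]
      rw [Nat.mul_div_cancel _ hn0, Nat.gcd_mul_left, Nat.gcd_comm, hcop.gcd_eq_one, mul_one]
    rw [h2]
    exact Nat.div_div_self hd hm0.ne'
  obtain ⟨D, z, hD, hDz, hz⟩ := FamB_main hcm hc χ hprim hreal hl hh heig n hd k hcop
  refine ⟨D, z, hD, by rw [heq]; exact hDz, ?_⟩
  rw [hz]
  unfold Good FamB_good
  rw [hord]

end Pool.Agent.Lib.MP_021685_agT
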