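import Pool.Agent.Lib.MP_021685_agT.FamB

/-!
JOB FamC. The parity condition of a real odd character.
-/

namespace Pool.Agent.Lib.MP_021685_agT

open Finset Pool.Agent.Lib.MP_021685_ag.Fermat

private noncomputable def famCAv {m : ℕ} [NeZero m] (χ : DirichletCharacter ℂ m) (F : ZMod m → ℂ)
    (a : ZMod m) : ℂ := ∑ t : (ZMod m)ˣ, (χ (t : ZMod m))⁻¹ * F ((t : ZMod m) * a)

private lemma famC_ne {m : ℕ} (χ : DirichletCharacter ℂ m) (t : (ZMod m)ˣ) : χ (t : ZMod m) ≠ 0 :=
  (t.isUnit.map χ).ne_zero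

private lemma famCAv_unit {m : ℕ} [NeZero m] (χ : DirichletCharacter ℂ m) (F : ZMod m → ℂ)
    (g : (ZMod m)ˣ) (a : ZMod m) : famCAv χ F ((g : ZMod m) * a) = χ (g : ZMod m) * famCAv χ F a := by
  unfold famCAv
  rw [Finset.mul_sum]
  refine Fintype.sum_equiv (Equiv.mulRight g) _ _ ?_
  intro t
  rw [Equiv.coe_mulRight, Units.val_mul, map_mul, mul_inv, mul_assoc (t : ZMod m)]
  have h := famC_ne χ g
  field_simp

private lemma famCAv_dist {m : ℕ} [NeZero m] (χ : DirichletCharacter ℂ m) (F : ZMod m → ℂ)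
    (hF : ∀ l : ℕ, l.Prime → l ∣ m → ∀ (t : (ZMod m)ˣ) (a : ZMod m),
      F ((t : ZMod m) * ((l : ZMod m) * a)) = ∑ i ∈ range l, F ((t : ZMod m) * (a + ((i * (m / l) : ℕ) : ZMod m)))) :
    IsDZ m (famCAv χ F) := by
  constructor
  intro l hl hlm a
  unfold famCAv
  rw [Finset.sum_comm]
  refine Finset.sum_congr rfl fun t _ => ?_
  rw [hF l hl hlm t a, Finset.mul_sum]

private lemma famC_msum {ι : Type*} {m : ℕ} (s : Finset ι) (α : Multiset (ZMod m)) (F : ι → ZMod m → ℂ) :
    (α.map (fun a => ∑ i ∈ s, F i a)).sum = ∑ i ∈ s, (α.map (F i)).sum := by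
  induction α using Multiset.induction_on with
  | empty => simp
  | cons a α ih =>
    rw [Multiset.map_cons, Multiset.sum_cons, ih, ← Finset.sum_add_distrib]
    refine Finset.sum_congr rfl fun i _ => ?_
    rw [Multiset.map_cons, Multiset.sum_cons]

private lemma famC_mul {m : ℕ} (α : Multiset (ZMod m)) (c : ℂ) (F : ZMod m → ℂ) :
    (α.map (fun a => c * F a)).sum = c * (α.map F).sum := by
  induction α using Multiset.induction_on with
  | empty => simp
  | cons a α ih =>
    rw [Multiset.map_cons, Multiset.sum_cons, ih, Multiset.map_cons, Multiset.sum_cons, mul_add]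

private lemma famC_cast {m : ℕ} (α : Multiset (ZMod m)) (F : ZMod m → ℤ) :
    (α.map (fun a => ((F a : ℤ) : ℂ))).sum = (((α.map F).sum : ℤ) : ℂ) := by
  induction α using Multiset.induction_on with
  | empty => simp
  | cons a α ih =>
    rw [Multiset.map_cons, Multiset.sum_cons, ih, Multiset.map_cons, Multiset.sum_cons, Int.cast_add]

private lemma famC_par {β : Type*} (z : β → ℤ) (P : β → Prop) [DecidablePred P]
    (h : ∀ a, Odd (z a) ↔ P a) (α : Multiset β) :
    Even ((α.map z).sum) ↔ Even (Multiset.card (α.filter P)) := by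
  induction α using Multiset.induction_on with
  | empty => simp
  | cons a α ih =>
    rw [Multiset.map_cons, Multiset.sum_cons, Int.even_add, ih]
    by_cases ha : P a
    · rw [Multiset.filter_cons_of_pos _ ha, Multiset.card_cons, Nat.even_add_one]
      have h1 : ¬ Even (z a) := Int.not_even_iff_odd.2 ((h a).2 ha)
      tauto
    · rw [Multiset.filter_cons_of_neg _ ha]
      have h1 : Even (z a) := by
        by_contra h2
        exact ha ((h a).1 (Int.not_even_iff_odd.1 h2))
      tauto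

open Classical in
/-- If `χ` is a real odd primitive character of odd conductor `c` with `χ(p) = 1` (and the condition on the primes of `m` outside
`c`), every balanced multiset of degree `m` has an even number of good elements.

Proof. Let `χ'` be `χ` at level `m` (`changeLevel`), `Φ a = ∑_t (χ' t)⁻¹ PT p m (φ m) (t a)` over the units `t`. It is a distribution (`IsDZ`, proved inside
`S1C.lean`; make it public there if needed by restating it here) with `Φ (g a) = χ'(g) Φ(a)` and
`Φ (m / c) ≠ 0` by `PT_char_ne_zero` (conductor of `χ'` is `c`: `DirichletCharacter.conductor_changeLevel`, `hprim`). `∑_{a ∈ α} Φ a = 0` by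
`isBalanced_iff`. Apply `real_char_values` to `Φ`: for every `a` of the finite set `ZMod m` choose `D_a, z_a`, let `D = ∏_a D_a`, odd; then `D Φ(a) = z'_a Φ(m / c)` with
`z'_a = z_a ∏_{b ≠ a} D_b`, odd iff `a` is good. Summing: `∑_{a ∈ α} z'_a = 0`, so the number of `a ∈ α` with `z'_a` odd is even. -/
theorem good_even {p m c : ℕ} [NeZero m] (hpm : Nat.Coprime p m) (hcm : c ∣ m) (hc1 : 1 < c)
    (hc : Odd c) (χ : DirichletCharacter ℂ c) (hprim : χ.IsPrimitive) (hodd : χ.Odd)
    (hreal : ∀ k : ZMod c, IsUnit k → χ k = 1 ∨ χ k = -1) (hχp : χ (p : ZMod c) = 1)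
    (hl : ∀ l : ℕ, l.Prime → l ∣ m → ¬ l ∣ c → χ (l : ZMod c) = 1 ∨
      (χ (l : ZMod c) = -1 ∧ (l % 4 = 3 ∨ (l = 2 ∧ ¬ 4 ∣ m))))
    {α : Multiset (ZMod m)} (hα : IsBalanced p m α) :
    Even (Multiset.card (α.filter (fun a => Good χ a))) := by
  have hp : IsUnit (p : ZMod m) := by
    have := (ZMod.unitOfCoprime p hpm).isUnit
    rwa [ZMod.coe_unitOfCoprime] at this
  have hc0 : NeZero c := ⟨by omega⟩
  set χ' : DirichletCharacter ℂ m := DirichletCharacter.changeLevel hcm χ with hχ'
  have hval : ∀ u : (ZMod m)ˣ, χ' (u : ZMod m) = χ (ZMod.castHom hcm (ZMod c) (u : ZMod m)) := by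
    intro u
    rw [hχ', DirichletCharacter.changeLevel_eq_cast_of_dvd]
    rfl
  have hcond : χ'.conductor = c := by
    rw [hχ', DirichletCharacter.conductor_changeLevel]
    exact hprim
  have hodd' : χ'.Odd := by
    have h1 := hval (-1)
    have e : ZMod.castHom hcm (ZMod c) (-1) = -1 := by rw [map_neg, map_one]
    rw [Units.val_neg, Units.val_one, e] at h1
    exact h1.trans hodd
  have hχp' : χ' (p : ZMod m) = 1 := by
    have h1 := hval (ZMod.unitOfCoprime p hpm)
    have e : ZMod.castHom hcm (ZMod c) (p : ZMod m) = (p : ZMod c) := map_natCast _ _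
    rw [ZMod.coe_unitOfCoprime, e] at h1
    exact h1.trans hχp
  set F : ZMod m → ℂ := fun x => ((PT p m (Nat.totient m) x : ℤ) : ℂ) with hF
  set Φ : ZMod m → ℂ := famCAv χ' F with hΦdef
  have hne : Φ ((m / c : ℕ) : ZMod m) ≠ 0 := by
    have h1 := PT_char_ne_zero hpm χ' hodd' hχp'
    rw [hcond] at h1
    exact h1
  have hdist : IsDZ m Φ := by
    apply famCAv_dist
    intro l hl hlm t a
    have : NeZero l := ⟨hl.ne_zero⟩
    have h1 := sum_PT_fiber (T := Nat.totient m) hp hlm t a
    simp only [hF]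
    rw [← h1]
    push_cast
    rfl
  have heig : ∀ (g : (ZMod m)ˣ) (a : ZMod m),
      Φ ((g : ZMod m) * a) = χ (ZMod.castHom hcm (ZMod c) (g : ZMod m)) * Φ a := by
    intro g a
    rw [hΦdef, famCAv_unit, hval]
  have hsum : (α.map Φ).sum = 0 := by
    have h3 : (α.map Φ).sum = ∑ t : (ZMod m)ˣ,
        (α.map (fun a => (χ' (t : ZMod m))⁻¹ * F ((t : ZMod m) * a))).sum :=
      famC_msum Finset.univ α (fun (t : (ZMod m)ˣ) (a : ZMod m) =>
        (χ' (t : ZMod m))⁻¹ * F ((t : ZMod m) * a))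
    rw [h3]
    apply Finset.sum_eq_zero
    intro t _
    rw [famC_mul α ((χ' (t : ZMod m))⁻¹) (fun a => F ((t : ZMod m) * a))]
    have h4 := ((isBalanced_iff p m α).1 hα).2.2 t
    have h5 := famC_cast α (fun a => PT p m (Nat.totient m) ((t : ZMod m) * a))
    rw [h4, Int.cast_zero] at h5
    simp only [hF]
    rw [h5, mul_zero]
  have hv := fun a => real_char_values hcm hc1 hc χ hprim hreal hl hdist heig a
  choose D z hD hz hgood using hv
  set z' : ZMod m → ℤ := fun a => z a * ∏ b ∈ Finset.univ.erase a, (D b : ℤ) with hz'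
  have hodd2 : ∀ a, Odd (∏ b ∈ Finset.univ.erase a, (D b : ℤ)) := by
    intro a
    apply Finset.prod_induction _ (fun x : ℤ => Odd x) (fun x y hx hy => hx.mul hy) odd_one
    intro b _
    exact_mod_cast hD b
  have hz'odd : ∀ a, Odd (z' a) ↔ Good χ a := by
    intro a
    rw [← hgood a]
    simp only [hz', Int.odd_mul]
    exact ⟨fun h => h.1, fun h => ⟨h, hodd2 a⟩⟩
  have hval2 : ∀ a, ((∏ b, D b : ℕ) : ℂ) * Φ a = ((z' a : ℤ) : ℂ) * Φ ((m / c : ℕ) : ZMod m) := by
    intro a
    have h1 : (∏ b, D b : ℕ) = D a * ∏ b ∈ Finset.univ.erase a, D b :=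
      (Finset.mul_prod_erase _ _ (Finset.mem_univ a)).symm
    rw [h1]
    simp only [hz']
    push_cast
    linear_combination (∏ b ∈ Finset.univ.erase a, (D b : ℂ)) * hz a
  have hzsum : (α.map z').sum = 0 := by
    have h1 : (α.map (fun a => Φ ((m / c : ℕ) : ZMod m) * ((z' a : ℤ) : ℂ))).sum = 0 := by
      have h2 : (fun a => Φ ((m / c : ℕ) : ZMod m) * ((z' a : ℤ) : ℂ)) =
          fun a => ((∏ b, D b : ℕ) : ℂ) * Φ a := by
        funext a
        rw [hval2 a, mul_comm]
      rw [h2, famC_mul, hsum, mul_zero]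
    rw [famC_mul, famC_cast] at h1
    have h3 := (mul_eq_zero.1 h1).resolve_left hne
    exact_mod_cast h3
  have hfin := famC_par z' (fun a => Good χ a) hz'odd α
  rw [hzsum] at hfin
  exact hfin.1 Even.zero

end Pool.Agent.Lib.MP_021685_agT
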