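import Pool.Agent.Lib.MP_021685_agT.FamC

/-!
JOB FamD. The characters used.
-/

namespace Pool.Agent.Lib.MP_021685_agT

/-- For a prime `q ≡ 3 mod 4` the quadratic character modulo `q`, with complex values, is primitive, odd, real.
(`(quadraticChar (ZMod q)).ringHomComp (Int.castRingHom ℂ)`; primitive because its conductor divides the prime `q` and it is not trivial;
odd: `quadraticChar_neg_one` or `ZMod.exists_sq_eq_neg_one_iff`.) -/
theorem exists_char_prime {q : ℕ} (hq : q.Prime) (hq4 : q % 4 = 3) :
    ∃ χ : DirichletCharacter ℂ q, χ.IsPrimitive ∧ χ.Odd ∧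
      (∀ k : ZMod q, IsUnit k → χ k = 1 ∨ χ k = -1) ∧
      (∀ k : ZMod q, IsUnit k → (χ k = 1 ↔ IsSquare k)) := by
  have : Fact q.Prime := ⟨hq⟩
  have : NeZero q := ⟨hq.ne_zero⟩
  have hq2 : q ≠ 2 := by rintro rfl; omega
  have hchar : ringChar (ZMod q) ≠ 2 := by rw [ZMod.ringChar_zmod_n]; exact hq2
  let χ : DirichletCharacter ℂ q := (quadraticChar (ZMod q)).ringHomComp (Int.castRingHom ℂ)
  have hval : ∀ k : ZMod q, χ k = ((quadraticChar (ZMod q) k : ℤ) : ℂ) := fun k => by
    simp [χ, MulChar.ringHomComp_apply]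
  have hneg : χ (-1) = -1 := by
    rw [hval, quadraticChar_neg_one hchar, ZMod.card, ZMod.χ₄_nat_three_mod_four hq4]
    norm_num
  refine ⟨χ, ?_, hneg, ?_, ?_⟩
  · rw [DirichletCharacter.isPrimitive_def]
    rcases (Nat.dvd_prime hq).mp (DirichletCharacter.conductor_dvd_level χ) with h | h
    · exfalso
      have h1 : χ = 1 := DirichletCharacter.eq_one_iff_conductor_eq_one.mpr h
      rw [h1, MulChar.one_apply (isUnit_one.neg)] at hneg
      norm_num at hneg
    · exact h
  · intro k hk
    rw [hval]
    rcases quadraticChar_dichotomy (F := ZMod q) hk.ne_zero with h | h <;> rw [h] <;> norm_num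
  · intro k hk
    rw [hval, ← quadraticChar_one_iff_isSquare hk.ne_zero]
    norm_cast

/-- The table of the character `(-15 / ·)`. -/
def FamD_tab : ZMod 15 → ℤ := ![0, 1, 1, 0, 1, 0, 0, -1, 1, 0, 0, -1, 0, -1, -1]

/-- The character `(-15 / ·)` with integer values. -/
def FamD_char : MulChar (ZMod 15) ℤ where
  toFun := FamD_tab
  map_one' := by decide
  map_mul' := by decide
  map_nonunit' := by
    intro a ha
    by_contra h
    have key : ∀ a : ZMod 15, FamD_tab a ≠ 0 → ∃ b, a * b = 1 := by decide
    obtain ⟨b, hb⟩ := key a h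
    exact ha (IsUnit.of_mul_eq_one b hb)

/-- The character `(-15 / ·)` modulo `15`: primitive, odd, real, with kernel `{1, 2, 4, 8}`.
(Product of the quadratic characters modulo `3` and `5`; or a `MulChar (ZMod 15) ℤ` defined by a table with the properties checked by `decide`, mapped to `ℂ`.) -/
theorem exists_char_15 :
    ∃ χ : DirichletCharacter ℂ 15, χ.IsPrimitive ∧ χ.Odd ∧
      (∀ k : ZMod 15, IsUnit k → χ k = 1 ∨ χ k = -1) ∧
      (∀ k : ZMod 15, χ k = 1 ↔ k = 1 ∨ k = 2 ∨ k = 4 ∨ k = 8) := by
  let χ : DirichletCharacter ℂ 15 := FamD_char.ringHomComp (Int.castRingHom ℂ)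
  have hval : ∀ k : ZMod 15, χ k = ((FamD_tab k : ℤ) : ℂ) := fun k => by
    simp [χ, MulChar.ringHomComp_apply, FamD_char]
  refine ⟨χ, ?_, ?_, ?_, ?_⟩
  · rw [DirichletCharacter.isPrimitive_def]
    have hdvd := DirichletCharacter.conductor_dvd_level χ
    have hft := DirichletCharacter.factorsThrough_conductor χ
    rw [DirichletCharacter.factorsThrough_iff_ker_unitsMap hdvd] at hft
    have key : ∀ (a : (ZMod 15)ˣ), ((a : ZMod 15).val : ℕ) % χ.conductor = 1 % χ.conductor → χ (a : ZMod 15) = 1 := by
      intro a ha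
      have h1 : a ∈ (ZMod.unitsMap hdvd).ker := by
        rw [MonoidHom.mem_ker]
        ext
        rw [ZMod.unitsMap_val]
        have h2 : ((a : ZMod 15).cast : ZMod χ.conductor) = (((a : ZMod 15).val : ℕ) : ZMod χ.conductor) := by
          rw [ZMod.natCast_val]
        rw [h2]
        have h3 : (((a : ZMod 15).val : ℕ) : ZMod χ.conductor) = ((1 : ℕ) : ZMod χ.conductor) :=
          (ZMod.natCast_eq_natCast_iff _ _ _).mpr ha
        rw [h3]
        simp
      have h4 := hft h1
      rw [MonoidHom.mem_ker] at h4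
      have h5 := congrArg (fun u : ℂˣ => (u : ℂ)) h4
      simpa using h5
    have hle : χ.conductor ≤ 15 := Nat.le_of_dvd (by norm_num) hdvd
    have h7 : ¬ (7 % χ.conductor = 1 % χ.conductor) := by
      intro h
      have := key (Units.mk (7 : ZMod 15) 13 (by decide) (by decide)) h
      rw [hval] at this
      have h8 : FamD_tab 7 = -1 := by decide
      change ((FamD_tab 7 : ℤ) : ℂ) = 1 at this
      rw [h8] at this
      norm_num at this
    have h11 : ¬ (11 % χ.conductor = 1 % χ.conductor) := by
      intro h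
      have := key (Units.mk (11 : ZMod 15) 11 (by decide) (by decide)) h
      rw [hval] at this
      have h8 : FamD_tab 11 = -1 := by decide
      change ((FamD_tab 11 : ℤ) : ℂ) = 1 at this
      rw [h8] at this
      norm_num at this
    generalize χ.conductor = c at hdvd hle h7 h11
    have hmem : c ∈ Nat.divisors 15 := Nat.mem_divisors.mpr ⟨hdvd, by norm_num⟩
    have hdiv : Nat.divisors 15 = {1, 3, 5, 15} := by decide
    rw [hdiv] at hmem
    simp only [Finset.mem_insert, Finset.mem_singleton] at hmem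
    rcases hmem with rfl | rfl | rfl | rfl
    · exact absurd rfl h7
    · exact absurd rfl h7
    · exact absurd rfl h11
    · rfl
  · change χ (-1) = -1
    rw [hval]
    have : FamD_tab (-1) = -1 := by decide
    rw [this]
    norm_num
  · intro k hk
    rw [hval]
    have key : ∀ k : ZMod 15, (∃ b, k * b = 1) → FamD_tab k = 1 ∨ FamD_tab k = -1 := by decide
    have hk' : ∃ b, k * b = 1 := by
      obtain ⟨u, rfl⟩ := hk
      exact ⟨(u⁻¹ : (ZMod 15)ˣ), by simp⟩
    rcases key k hk' with h | h <;> rw [h] <;> norm_num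
  · intro k
    rw [hval]
    have key : ∀ k : ZMod 15, FamD_tab k = 1 ↔ k = 1 ∨ k = 2 ∨ k = 4 ∨ k = 8 := by decide
    rw [← key k]
    norm_cast

end Pool.Agent.Lib.MP_021685_agT
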