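import Mathlib

/-!
Degrees of Fermat varieties.
-/

namespace Pool.Agent.Lib.MP_021685_agT

/-- The degrees `l ^ k`, `2 l ^ k`, `2 ^ a 3 ^ b 5 ^ c`, `2 ^ a 3 ^ b 7 ^ c`, `2 ^ a q ^ b` with `2` of odd order modulo the
prime `q`, and `3 ^ a 11 ^ b`, `3 ^ a 13 ^ b` and their doubles. -/
def IsGoodDegree (m : ℕ) : Prop :=
  (∃ l k : ℕ, l.Prime ∧ (m = l ^ k ∨ m = 2 * l ^ k)) ∨
  (∃ a b c : ℕ, m = 2 ^ a * 3 ^ b * 5 ^ c ∨ m = 2 ^ a * 3 ^ b * 7 ^ c) ∨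
  (∃ q a b : ℕ, q.Prime ∧ Odd (orderOf (2 : ZMod q)) ∧ m = 2 ^ a * q ^ b) ∨
  (∃ a b : ℕ, m = 3 ^ a * 11 ^ b ∨ m = 2 * (3 ^ a * 11 ^ b) ∨ m = 3 ^ a * 13 ^ b ∨
    m = 2 * (3 ^ a * 13 ^ b))

end Pool.Agent.Lib.MP_021685_agT
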