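import Mathlib

/-!
JOB FamE. Primes modulo which a power of `p` is `-1`.
-/

namespace Pool.Agent.Lib.MP_021685_agT

/-- If the order of `p` modulo the odd prime `q` is `2 r`, then `p ^ (r q ^ k) = -1` modulo `q ^ (k + 1)`. -/
private theorem FamE_aux {p q r : ℕ} (hq : q.Prime) (hq2 : q ≠ 2) (hpq : ¬ q ∣ p)
    (h : orderOf (p : ZMod q) = 2 * r) (k : ℕ) : ((q : ℤ) ^ (k + 1)) ∣ ((p : ℤ) ^ (r * q ^ k) + 1) := by
  have : Fact q.Prime := ⟨hq⟩
  have hp0 : (p : ZMod q) ≠ 0 := by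
    rw [Ne, ZMod.natCast_eq_zero_iff]
    exact hpq
  have hpos : 0 < orderOf (p : ZMod q) := by
    have h1 : (p : ZMod q) ^ (q - 1) = 1 := ZMod.pow_card_sub_one_eq_one hp0
    exact orderOf_pos_iff.2 (isOfFinOrder_iff_pow_eq_one.2 ⟨q - 1, Nat.sub_pos_of_lt hq.one_lt, h1⟩)
  have hr : 0 < r := by omega
  have h1 : ((p : ZMod q) ^ r) ^ 2 = 1 := by
    rw [← pow_mul, mul_comm, ← h]
    exact pow_orderOf_eq_one _
  have h2 : (p : ZMod q) ^ r ≠ 1 := by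
    intro h3
    have h4 := orderOf_dvd_of_pow_eq_one h3
    have h5 := Nat.le_of_dvd hr h4
    omega
  have h3 : (p : ZMod q) ^ r = -1 := 
    (mul_self_eq_one_iff.1 (by rw [← sq]; exact h1)).resolve_left h2
  have h4 : (q : ℤ) ∣ (p : ℤ) ^ r - (-1) := by
    rw [← ZMod.intCast_zmod_eq_zero_iff_dvd _ q]
    push_cast
    rw [h3]
    ring
  have h5 := dvd_sub_pow_of_dvd_sub h4 k
  have hodd : Odd (q ^ k) := (hq.odd_of_ne_two hq2).pow
  rw [hodd.neg_one_pow, ← pow_mul, sub_neg_eq_add] at h5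
  exact h5

private theorem FamE_nat {p n i : ℕ} (h : (n : ℤ) ∣ ((p : ℤ) ^ i + 1)) : n ∣ p ^ i + 1 := by
  have h2 : ((p : ℤ) ^ i + 1) = ((p ^ i + 1 : ℕ) : ℤ) := by push_cast; ring
  rw [h2] at h
  exact Int.natCast_dvd_natCast.1 h

/-- If `q` is an odd prime not dividing `p` and the order of `p` modulo `q` is even, then for every `k` some power of `p` is `-1` modulo `q ^ k`.

Proof. The order `o` of `p` in the units of `ZMod (q ^ k)` (`k ≥ 1`) is a multiple of its order modulo `q`, so even; `u = p ^ (o / 2)` satisfies `u ^ 2 = 1`, `u ≠ 1`, i.e.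
`q ^ k ∣ (u - 1) (u + 1)`; `q` is odd, so it divides only one of the factors; if `q ∣ u - 1` then `q ^ k ∣ u - 1`, contradiction; so `q ^ k ∣ u + 1`. -/
theorem exists_neg_one {p q : ℕ} (hq : q.Prime) (hq2 : q ≠ 2) (hpq : ¬ q ∣ p)
    (h : Even (orderOf (p : ZMod q))) (k : ℕ) : ∃ i : ℕ, q ^ k ∣ p ^ i + 1 := by
  obtain ⟨r, hr⟩ := h
  have h1 := FamE_aux hq hq2 hpq (r := r) (by omega) k
  refine ⟨r * q ^ k, FamE_nat ?_⟩
  push_cast
  exact (pow_dvd_pow _ (Nat.le_succ k)).trans h1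

/-- If `q ≡ 3 mod 4` is prime and `p` is not a square modulo `q`, the order of `p` modulo `q` is even (otherwise `p = (p ^ ((o + 1) / 2)) ^ 2`). -/
theorem even_order_of_not_square {p q : ℕ} (_hq : q.Prime) (_hpq : ¬ q ∣ p)
    (h : ¬ IsSquare (p : ZMod q)) : Even (orderOf (p : ZMod q)) := by
  by_contra hodd
  rw [Nat.not_even_iff_odd] at hodd
  obtain ⟨r, hr⟩ := hodd
  apply h
  refine ⟨(p : ZMod q) ^ (r + 1), ?_⟩
  rw [← pow_add]
  have h1 : r + 1 + (r + 1) = orderOf (p : ZMod q) + 1 := by omega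
  rw [h1, pow_succ, pow_orderOf_eq_one, one_mul]

/-- If some power of `p` is `-1` modulo `q1 ^ k` and modulo `q2 ^ k` for two different odd primes `q1, q2` with the orders of `p` modulo `q1` and `q2` both `≡ 2 mod 4`, then for
all `j, k` some power of `p` is `-1` modulo `q1 ^ j * q2 ^ k`.

Proof. The order `o1` of `p` modulo `q1 ^ j` is `2` times an odd number (the order modulo `q1` times a power of `q1`), likewise `o2`; with `i = (o1 / 2) (o2 / 2)`, odd multiples of both halves, `p ^ i` is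
`(-1) ^ odd = -1` modulo both (`p ^ (o1 / 2) = -1` modulo `q1 ^ j` as in `exists_neg_one`). -/
theorem exists_neg_one_two {p q1 q2 : ℕ} (hq1 : q1.Prime) (hq2 : q2.Prime) (h12 : q1 ≠ q2)
    (h1 : q1 ≠ 2) (h2 : q2 ≠ 2) (hp1 : ¬ q1 ∣ p) (hp2 : ¬ q2 ∣ p)
    (ho1 : orderOf (p : ZMod q1) % 4 = 2) (ho2 : orderOf (p : ZMod q2) % 4 = 2) (j k : ℕ) :
    ∃ i : ℕ, q1 ^ j * q2 ^ k ∣ p ^ i + 1 := by
  obtain ⟨r1, hr1⟩ : ∃ r1, orderOf (p : ZMod q1) = 2 * r1 := ⟨orderOf (p : ZMod q1) / 2, by omega⟩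
  obtain ⟨r2, hr2⟩ : ∃ r2, orderOf (p : ZMod q2) = 2 * r2 := ⟨orderOf (p : ZMod q2) / 2, by omega⟩
  have hr1o : Odd r1 := by
    rw [Nat.odd_iff]
    omega
  have hr2o : Odd r2 := by
    rw [Nat.odd_iff]
    omega
  have ha := FamE_aux hq1 h1 hp1 hr1 j
  have hb := FamE_aux hq2 h2 hp2 hr2 k
  have hodd1 : Odd (r1 * q1 ^ j) := hr1o.mul (hq1.odd_of_ne_two h1).pow
  have hodd2 : Odd (r2 * q2 ^ k) := hr2o.mul (hq2.odd_of_ne_two h2).pow
  have key : ∀ {d x : ℤ} {n : ℕ}, Odd n → d ∣ x + 1 → d ∣ x ^ n + 1 := by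
    intro d x n hn hd
    have h3 : x + 1 ∣ x ^ n + 1 := by
      have h4 := hn.add_dvd_pow_add_pow x 1
      rwa [one_pow] at h4
    exact hd.trans h3
  have hA : ((q1 : ℤ) ^ (j + 1)) ∣ ((p : ℤ) ^ (r1 * q1 ^ j * (r2 * q2 ^ k)) + 1) := by
    rw [pow_mul]
    exact key hodd2 ha
  have hB : ((q2 : ℤ) ^ (k + 1)) ∣ ((p : ℤ) ^ (r1 * q1 ^ j * (r2 * q2 ^ k)) + 1) := by
    rw [mul_comm (r1 * q1 ^ j), pow_mul]
    exact key hodd1 hb
  refine ⟨r1 * q1 ^ j * (r2 * q2 ^ k), Nat.Coprime.mul_dvd_of_dvd_of_dvd ?_ ?_ ?_⟩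
  · exact Nat.Coprime.pow _ _ ((Nat.coprime_primes hq1 hq2).2 h12)
  · apply FamE_nat
    push_cast
    exact (pow_dvd_pow _ (Nat.le_succ j)).trans hA
  · apply FamE_nat
    push_cast
    exact (pow_dvd_pow _ (Nat.le_succ k)).trans hB

end Pool.Agent.Lib.MP_021685_agT
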