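import Pool.Agent.Lib.MP_021685_agT.FamA

/-!
JOB FamF. Explicit killed parity vectors.
-/

namespace Pool.Agent.Lib.MP_021685_agT

open Finset Pool.Agent.Lib.MP_021685_ag.Fermat

/-- `IsBalanced p M` depends only on `p` modulo `M`. -/
theorem isBalanced_congr {p p' M : ℕ} (h : (p : ZMod M) = (p' : ZMod M))
    (γ : Multiset (ZMod M)) : IsBalanced p M γ ↔ IsBalanced p' M γ := by
  unfold IsBalanced S
  rw [h]

/-- The unit vector of the set `J`. -/
def uv (J : Finset ℕ) : Finset ℕ → ZMod 2 := fun I => if I = J then 1 else 0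

/- In all the following statements: the characters are checked by `decide` for each residue class of `p` modulo the level (`interval_cases` on `p % M` or a statement
`∀ r : ZMod M, IsUnit r → ...`), the orders by `ZMod.addOrderOf_coe` / `norm_num`, prime factors by `norm_num`/`decide`. Use `KV.of_mem` with `γ` as indicated. -/

/-- `x + (x r mod M) + (x r ^ 2 mod M) + ...`, `n` terms. -/
private def fS (r M : ℕ) : ℕ → ℕ → ℕ
  | 0, _ => 0
  | n + 1, x => x + fS r M n ((x * r) % M)

private theorem fS_eq {p M : ℕ} [NeZero M] (n : ℕ) : ∀ x : ℕ, x < M →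
    ∑ j ∈ Finset.range n, ((p : ZMod M) ^ j * (x : ZMod M)).val = fS (p % M) M n x := by
  induction n with
  | zero => intro x _; rfl
  | succ n ih =>
    intro x hx
    rw [Finset.sum_range_succ', pow_zero, one_mul, ZMod.val_cast_of_lt hx, fS, add_comm]
    congr 1
    rw [← ih _ (Nat.mod_lt _ (NeZero.pos M))]
    refine Finset.sum_congr rfl fun j _ => ?_
    congr 1
    rw [ZMod.natCast_mod, Nat.cast_mul, ZMod.natCast_mod]
    ring

/-- The balance condition for the class `r` of `p`. -/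
private def fchk (r M f : ℕ) (γ : List ℕ) : Bool :=
  (List.range M).all fun t => !(Nat.gcd t M == 1) ||
    (2 * ((γ.map fun a => fS r M f ((t * a) % M)).sum) == f * γ.length * M)

/-- The balance condition for all classes prime to `M` outside the list `L` modulo `d`. -/
private def fall (M f d : ℕ) (L : List ℕ) (γ : List ℕ) : Bool :=
  (List.range M).all fun r => !(Nat.gcd r M == 1) || (L.contains (r % d)) || fchk r M f γ

/-- The multiset of a list of natural numbers. -/
private def fm (M : ℕ) (γ : List ℕ) : Multiset (ZMod M) :=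
  ((γ.map fun a : ℕ => (a : ZMod M) : List (ZMod M)) : Multiset (ZMod M))

private theorem f_bal {p M f : ℕ} [NeZero M] (hf : M.totient = f) {γ : List ℕ}
    (h0 : ∀ a ∈ γ, a % M ≠ 0) (he : Even γ.length) (h : fchk (p % M) M f γ = true) :
    IsBalanced p M (fm M γ) := by
  refine ⟨?_, ?_, ?_⟩
  · unfold fm
    rw [Multiset.mem_coe, List.mem_map]
    rintro ⟨a, ha, ha0⟩
    exact h0 a ha (Nat.mod_eq_zero_of_dvd ((ZMod.natCast_eq_zero_iff _ _).1 ha0))
  · unfold fm
    rw [Multiset.coe_card, List.length_map]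
    exact he
  · intro t
    have h1 : Nat.gcd (t : ZMod M).val M = 1 := ZMod.val_coe_unit_coprime t
    have h2 : (t : ZMod M).val < M := ZMod.val_lt _
    unfold fchk at h
    rw [List.all_eq_true] at h
    have h3 := h _ (List.mem_range.2 h2)
    rw [h1] at h3
    have h4 : 2 * ((γ.map fun a => fS (p % M) M f (((t : ZMod M).val * a) % M)).sum)
        = f * γ.length * M := by simpa using h3
    unfold fm
    rw [Multiset.map_coe, Multiset.sum_coe, Multiset.coe_card, List.length_map, List.map_map, hf, ← h4]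
    congr 2
    refine List.map_congr_left fun a _ => ?_
    show S p M ((t : ZMod M) * (a : ZMod M)) = _
    rw [← fS_eq _ _ (Nat.mod_lt _ (NeZero.pos M))]
    unfold S
    rw [hf]
    refine Finset.sum_congr rfl fun j _ => ?_
    congr 2
    rw [ZMod.natCast_mod, Nat.cast_mul, ZMod.natCast_zmod_val]

private theorem f_of_all {p M f d : ℕ} {L γ : List ℕ} (hd : d ∣ M) (h : fall M f d L γ = true) (hM : 0 < M)
    (hp : Nat.Coprime p M) (hL : p % d ∉ L) : fchk (p % M) M f γ = true := by
  unfold fall at h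
  rw [List.all_eq_true] at h
  have h3 := h _ (List.mem_range.2 (Nat.mod_lt p hM))
  have h1 : Nat.gcd (p % M) M = 1 := by
    rw [← Nat.gcd_rec, Nat.gcd_comm]
    exact hp
  rw [h1, Nat.mod_mod_of_dvd _ hd] at h3
  simpa [hL] using h3

private theorem f_order {M : ℕ} (hM : M ≠ 0) (a : ℕ) : addOrderOf (a : ZMod M) = M / M.gcd a :=
  ZMod.addOrderOf_coe a hM

private theorem f_par_nil (M : ℕ) (I : Finset ℕ) : ((par M (fm M []) I : ℕ) : ZMod 2) = 0 := by
  unfold par fm
  simp

private theorem f_par_even {M : ℕ} (hM : M ≠ 0) (a : ℕ) (s : List ℕ) (I : Finset ℕ) {k : ℕ} (hk : M / M.gcd a = 2 * k) :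
    ((par M (fm M (a :: s)) I : ℕ) : ZMod 2) = ((par M (fm M s) I : ℕ) : ZMod 2) := by
  unfold par fm
  rw [List.map_cons, ← Multiset.cons_coe, Multiset.filter_cons_of_neg]
  rw [f_order hM, hk]
  intro h
  exact (Nat.not_even_iff_odd.2 h.1) (even_two_mul k)

private theorem f_par_odd {M : ℕ} (hM : M ≠ 0) (a : ℕ) (s : List ℕ) (I : Finset ℕ) {k : ℕ} (hk : M / M.gcd a = 2 * k + 1)
    {J : Finset ℕ} (hJ : (2 * k + 1).primeFactors = J) :
    ((par M (fm M (a :: s)) I : ℕ) : ZMod 2) = uv J I + ((par M (fm M s) I : ℕ) : ZMod 2) := by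
  unfold par fm uv
  rw [List.map_cons, ← Multiset.cons_coe]
  by_cases h : I = J
  · rw [if_pos h, Multiset.filter_cons_of_pos]
    · rw [Multiset.card_cons, Nat.cast_add, Nat.cast_one, add_comm]
    · rw [f_order hM, hk]
      exact ⟨odd_two_mul_add_one k, hJ.trans h.symm⟩
  · rw [if_neg h, zero_add, Multiset.filter_cons_of_neg]
    rw [f_order hM, hk]
    intro h2
    exact h (h2.2.symm.trans hJ)

private theorem f_cop {p M : ℕ} (hp : p.Prime) (h : ¬ p ∣ M) : Nat.Coprime p M :=
  (Nat.Prime.coprime_iff_not_dvd hp).2 h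

private theorem f_ne {p l : ℕ} (hp : p.Prime) (hl : l.Prime) (h : p ≠ l) : ¬ p ∣ l :=
  fun hd => h ((Nat.prime_dvd_prime_iff_eq hp hl).1 hd)

private theorem f_pf3 : (2 * 1 + 1).primeFactors = {3} := Nat.Prime.primeFactors (by norm_num)
private theorem f_pf5 : (2 * 2 + 1).primeFactors = {5} := Nat.Prime.primeFactors (by norm_num)
private theorem f_pf7 : (2 * 3 + 1).primeFactors = {7} := Nat.Prime.primeFactors (by norm_num)
private theorem f_pf15 : (2 * 7 + 1).primeFactors = {3, 5} := by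
  rw [show 2 * 7 + 1 = 3 * 5 by norm_num, Nat.primeFactors_mul (by norm_num) (by norm_num),
    Nat.Prime.primeFactors (by norm_num), Nat.Prime.primeFactors (by norm_num)]
  rfl
private theorem f_pf21 : (2 * 10 + 1).primeFactors = {3, 7} := by
  rw [show 2 * 10 + 1 = 3 * 7 by norm_num, Nat.primeFactors_mul (by norm_num) (by norm_num),
    Nat.Prime.primeFactors (by norm_num), Nat.Prime.primeFactors (by norm_num)]
  rfl
private theorem f_pf33 : (2 * 16 + 1).primeFactors = {3, 11} := by
  rw [show 2 * 16 + 1 = 3 * 11 by norm_num, Nat.primeFactors_mul (by norm_num) (by norm_num),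
    Nat.Prime.primeFactors (by norm_num), Nat.Prime.primeFactors (by norm_num)]
  rfl

/-- Level `12`, `γ = {1, 9, 8, 6}` (card 4): the only element of odd order is `8`, of order `3`. -/
theorem KV_3 {p : ℕ} (hp : p.Prime) (h2 : p ≠ 2) (h3 : p ≠ 3) : KV p (uv {3}) := by
  have hpM : ¬ p ∣ 12 := by
    intro h
    have h' : p ∣ 2 * 2 * 3 := h
    rw [Nat.Prime.dvd_mul hp, Nat.Prime.dvd_mul hp] at h'
    rcases h' with (h' | h') | h'
    · exact f_ne hp (by norm_num) h2 h'
    · exact f_ne hp (by norm_num) h2 h'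
    · exact f_ne hp (by norm_num) h3 h'
  have hb : IsBalanced p 12 (fm 12 [1, 9, 8, 6]) :=
    f_bal (f := 4) (by decide +kernel) (by decide) (by decide)
      (f_of_all (d := 1) (L := []) (one_dvd _) (by decide +kernel) (by norm_num) (f_cop hp hpM) (by simp))
  refine KV.of_mem (M := 12) (by norm_num) hpM (Or.inl ⟨⟨hb, by decide +kernel⟩, Or.inr (Or.inl rfl)⟩) fun I _ => ?_
  rw [f_par_even (by norm_num) 1 _ _ (k := 6) (by decide +kernel),
    f_par_even (by norm_num) 9 _ _ (k := 2) (by decide +kernel),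
    f_par_odd (by norm_num) 8 _ _ (k := 1) (by decide +kernel) f_pf3,
    f_par_even (by norm_num) 6 _ _ (k := 1) (by decide +kernel), f_par_nil, add_zero]

/-- Level `20`, `γ = {2, 3, 19, 16}` (card 4): the only element of odd order is `16`, of order `5`. -/
theorem KV_5 {p : ℕ} (hp : p.Prime) (h2 : p ≠ 2) (h5 : p ≠ 5) : KV p (uv {5}) := by
  have hpM : ¬ p ∣ 20 := by
    intro h
    have h' : p ∣ 2 * 2 * 5 := h
    rw [Nat.Prime.dvd_mul hp, Nat.Prime.dvd_mul hp] at h'
    rcases h' with (h' | h') | h'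
    · exact f_ne hp (by norm_num) h2 h'
    · exact f_ne hp (by norm_num) h2 h'
    · exact f_ne hp (by norm_num) h5 h'
  have hb : IsBalanced p 20 (fm 20 [2, 3, 19, 16]) :=
    f_bal (f := 8) (by decide +kernel) (by decide) (by decide)
      (f_of_all (d := 1) (L := []) (one_dvd _) (by decide +kernel) (by norm_num) (f_cop hp hpM) (by simp))
  refine KV.of_mem (M := 20) (by norm_num) hpM (Or.inl ⟨⟨hb, by decide +kernel⟩, Or.inr (Or.inl rfl)⟩) fun I _ => ?_
  rw [f_par_even (by norm_num) 2 _ _ (k := 5) (by decide +kernel),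
    f_par_even (by norm_num) 3 _ _ (k := 10) (by decide +kernel),
    f_par_even (by norm_num) 19 _ _ (k := 10) (by decide +kernel),
    f_par_odd (by norm_num) 16 _ _ (k := 2) (by decide +kernel) f_pf5, f_par_nil, add_zero]

/-- Level `21`, `γ = {2, 3, 20, 17}` (card 4): `3` has order `7`, the other three order `21`. -/
theorem KV_7_21 {p : ℕ} (hp : p.Prime) (h3 : p ≠ 3) (h7 : p ≠ 7) :
    KV p (fun I => uv {7} I + uv {3, 7} I) := by
  have hpM : ¬ p ∣ 21 := by
    intro h
    have h' : p ∣ 3 * 7 := h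
    rw [Nat.Prime.dvd_mul hp] at h'
    rcases h' with h' | h'
    · exact f_ne hp (by norm_num) h3 h'
    · exact f_ne hp (by norm_num) h7 h'
  have hb : IsBalanced p 21 (fm 21 [2, 3, 20, 17]) :=
    f_bal (f := 12) (by decide +kernel) (by decide) (by decide)
      (f_of_all (d := 1) (L := []) (one_dvd _) (by decide +kernel) (by norm_num) (f_cop hp hpM) (by simp))
  refine KV.of_mem (M := 21) (by norm_num) hpM (Or.inl ⟨⟨hb, by decide +kernel⟩, Or.inr (Or.inl rfl)⟩) fun I _ => ?_
  rw [f_par_odd (by norm_num) 2 _ _ (k := 10) (by decide +kernel) f_pf21,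
    f_par_odd (by norm_num) 3 _ _ (k := 3) (by decide +kernel) f_pf7,
    f_par_odd (by norm_num) 20 _ _ (k := 10) (by decide +kernel) f_pf21,
    f_par_odd (by norm_num) 17 _ _ (k := 10) (by decide +kernel) f_pf21, f_par_nil, add_zero]
  generalize uv {3, 7} I = y
  generalize uv {7} I = x
  revert x y
  decide

/-- Level `66`, `γ = {4, 22, 65, 41}` (card 4): `4` has order `33`, `22` order `3`, the others order `66`. -/
theorem KV_3_33 {p : ℕ} (hp : p.Prime) (h2 : p ≠ 2) (h3 : p ≠ 3) (h11 : p ≠ 11) :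
    KV p (fun I => uv {3} I + uv {3, 11} I) := by
  have hpM : ¬ p ∣ 66 := by
    intro h
    have h' : p ∣ 2 * 3 * 11 := h
    rw [Nat.Prime.dvd_mul hp, Nat.Prime.dvd_mul hp] at h'
    rcases h' with (h' | h') | h'
    · exact f_ne hp (by norm_num) h2 h'
    · exact f_ne hp (by norm_num) h3 h'
    · exact f_ne hp (by norm_num) h11 h'
  have hb : IsBalanced p 66 (fm 66 [4, 22, 65, 41]) :=
    f_bal (f := 20) (by decide +kernel) (by decide) (by decide)
      (f_of_all (d := 1) (L := []) (one_dvd _) (by decide +kernel) (by norm_num) (f_cop hp hpM) (by simp))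
  refine KV.of_mem (M := 66) (by norm_num) hpM (Or.inl ⟨⟨hb, by decide +kernel⟩, Or.inr (Or.inl rfl)⟩) fun I _ => ?_
  rw [f_par_odd (by norm_num) 4 _ _ (k := 16) (by decide +kernel) f_pf33,
    f_par_odd (by norm_num) 22 _ _ (k := 1) (by decide +kernel) f_pf3,
    f_par_even (by norm_num) 65 _ _ (k := 33) (by decide +kernel),
    f_par_even (by norm_num) 41 _ _ (k := 33) (by decide +kernel), f_par_nil, add_zero, add_comm]

/-- Level `60`, `p` prime to `60` with `p mod 15` not in `{1, 2, 4, 8}`: `p mod 60 ∈ {7, 13, 37, 43}`: balanced pair `{1, 56}`; `p mod 60 = 11`: balanced pair `{3, 52}`;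
`p mod 60 ∈ {29, 59}`: balanced pair `{4, 30}`; `p mod 60 = 41`: `{2, 7, 59, 52}` (card 4, Tate). In each case the elements of odd order have order `15` and their number is odd. -/
theorem KV_15 {p : ℕ} (hp : p.Prime) (h2 : p ≠ 2) (h3 : p ≠ 3) (h5 : p ≠ 5)
    (h : (p : ZMod 15) ≠ 1 ∧ (p : ZMod 15) ≠ 2 ∧ (p : ZMod 15) ≠ 4 ∧ (p : ZMod 15) ≠ 8) :
    KV p (uv {3, 5}) := by
  have hpM : ¬ p ∣ 60 := by
    intro h
    have h' : p ∣ 2 * 2 * 3 * 5 := h
    rw [Nat.Prime.dvd_mul hp, Nat.Prime.dvd_mul hp, Nat.Prime.dvd_mul hp] at h'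
    rcases h' with ((h' | h') | h') | h'
    · exact f_ne hp (by norm_num) h2 h'
    · exact f_ne hp (by norm_num) h2 h'
    · exact f_ne hp (by norm_num) h3 h'
    · exact f_ne hp (by norm_num) h5 h'
  have hL : ¬ (p % 15 = 1 ∨ p % 15 = 2 ∨ p % 15 = 4 ∨ p % 15 = 8) := by
    rintro (h' | h' | h' | h')
    · exact h.1 (by rw [← ZMod.natCast_mod p 15, h']; rfl)
    · exact h.2.1 (by rw [← ZMod.natCast_mod p 15, h']; rfl)
    · exact h.2.2.1 (by rw [← ZMod.natCast_mod p 15, h']; rfl)
    · exact h.2.2.2 (by rw [← ZMod.natCast_mod p 15, h']; rfl)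
  have key : ∀ r < 60, Nat.gcd r 60 = 1 → ¬ (r % 15 = 1 ∨ r % 15 = 2 ∨ r % 15 = 4 ∨ r % 15 = 8) →
      (fchk r 60 16 [1, 56] = true ∨ fchk r 60 16 [3, 52] = true ∨ fchk r 60 16 [4, 30] = true ∨
        fchk r 60 16 [2, 7, 59, 52] = true) := by
    decide +kernel
  have hr : Nat.gcd (p % 60) 60 = 1 := by
    rw [← Nat.gcd_rec, Nat.gcd_comm]
    exact f_cop hp hpM
  have hf : Nat.totient 60 = 16 := by decide +kernel
  rcases key _ (Nat.mod_lt p (by norm_num)) hr (by rwa [Nat.mod_mod_of_dvd _ (by norm_num)]) with h' | h' | h' | h'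
  · have hb : IsBalanced p 60 (fm 60 [1, 56]) := f_bal hf (by decide) (by decide) h'
    refine KV.of_mem (M := 60) (by norm_num) hpM (Or.inr ⟨hb, rfl⟩) fun I _ => ?_
    rw [f_par_even (by norm_num) 1 _ _ (k := 30) (by decide +kernel),
      f_par_odd (by norm_num) 56 _ _ (k := 7) (by decide +kernel) f_pf15, f_par_nil, add_zero]
  · have hb : IsBalanced p 60 (fm 60 [3, 52]) := f_bal hf (by decide) (by decide) h'
    refine KV.of_mem (M := 60) (by norm_num) hpM (Or.inr ⟨hb, rfl⟩) fun I _ => ?_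
    rw [f_par_even (by norm_num) 3 _ _ (k := 10) (by decide +kernel),
      f_par_odd (by norm_num) 52 _ _ (k := 7) (by decide +kernel) f_pf15, f_par_nil, add_zero]
  · have hb : IsBalanced p 60 (fm 60 [4, 30]) := f_bal hf (by decide) (by decide) h'
    refine KV.of_mem (M := 60) (by norm_num) hpM (Or.inr ⟨hb, rfl⟩) fun I _ => ?_
    rw [f_par_odd (by norm_num) 4 _ _ (k := 7) (by decide +kernel) f_pf15,
      f_par_even (by norm_num) 30 _ _ (k := 1) (by decide +kernel), f_par_nil, add_zero]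
  · have hb : IsBalanced p 60 (fm 60 [2, 7, 59, 52]) := f_bal hf (by decide) (by decide) h'
    refine KV.of_mem (M := 60) (by norm_num) hpM (Or.inl ⟨⟨hb, by decide +kernel⟩, Or.inr (Or.inl rfl)⟩) fun I _ => ?_
    rw [f_par_even (by norm_num) 2 _ _ (k := 15) (by decide +kernel),
      f_par_even (by norm_num) 7 _ _ (k := 30) (by decide +kernel),
      f_par_even (by norm_num) 59 _ _ (k := 30) (by decide +kernel),
      f_par_odd (by norm_num) 52 _ _ (k := 7) (by decide +kernel) f_pf15, f_par_nil, add_zero]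

/-- `p = 2`, level `15`: balanced pair `{5, 3}`, orders `3` and `5`. -/
theorem KV_2_3_5 : KV 2 (fun I => uv {3} I + uv {5} I) := by
  have hb : IsBalanced 2 15 (fm 15 [5, 3]) :=
    f_bal (f := 8) (by decide +kernel) (by decide) (by decide) (by decide +kernel)
  refine KV.of_mem (M := 15) (by norm_num) (by norm_num) (Or.inr ⟨hb, rfl⟩) fun I _ => ?_
  rw [f_par_odd (by norm_num) 5 _ _ (k := 1) (by decide +kernel) f_pf3,
    f_par_odd (by norm_num) 3 _ _ (k := 2) (by decide +kernel) f_pf5, f_par_nil, add_zero]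

/-- Pure elements: `p` odd, `n` odd, `1 < n`, `n ∣ p ^ i + 1`: the balanced pair `{2, n}` of level `2 n` (`2` has order `n`, `n` order `2`). (`constant_of_pow` in `Fermat9.lean`, `PT_two_torsion`;
compare `gen_of_pure` in `Fin2.lean`.) -/
theorem KV_pure {p n i : ℕ} (hp : p.Prime) (hp2 : p ≠ 2) (hn : Odd n) (hn1 : 1 < n)
    (hi : n ∣ p ^ i + 1) : KV p (uv n.primeFactors) := by
  have hpn : ¬ p ∣ n := by
    intro h
    rcases Nat.eq_zero_or_pos i with rfl | hi0
    · rw [pow_zero] at hi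
      have h1 : n ≤ 2 := Nat.le_of_dvd (by norm_num) hi
      have h2 : n = 2 := by omega
      rw [h2] at hn
      exact absurd hn (by decide)
    · have h1 : p ∣ p ^ i + 1 := h.trans hi
      have h2 : p ∣ p ^ i := dvd_pow_self p hi0.ne'
      exact hp.one_lt.ne' (Nat.dvd_one.1 ((Nat.dvd_add_right h2).1 h1))
  have hpM : ¬ p ∣ 2 * n := by
    intro h
    rcases (Nat.Prime.dvd_mul hp).1 h with h | h
    · exact f_ne hp Nat.prime_two hp2 h
    · exact hpn h
  have hM : 2 * n ≠ 0 := by omega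
  have : NeZero (2 * n) := ⟨hM⟩
  have hcop := f_cop hp hpM
  have hg2 : (2 * n).gcd 2 = 2 := Nat.gcd_eq_right (dvd_mul_right 2 n)
  have hgn : (2 * n).gcd n = n := Nat.gcd_eq_right (dvd_mul_left n 2)
  have ho2 : addOrderOf ((2 : ℕ) : ZMod (2 * n)) = n := by
    rw [f_order hM, hg2]
    exact Nat.mul_div_cancel_left n (by norm_num)
  have hon : addOrderOf ((n : ℕ) : ZMod (2 * n)) = 2 := by
    rw [f_order hM, hgn]
    exact Nat.mul_div_cancel 2 (by omega)
  have h20 : ((2 : ℕ) : ZMod (2 * n)) ≠ 0 := by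
    intro h
    rw [h, addOrderOf_zero] at ho2
    omega
  have hn0 : ((n : ℕ) : ZMod (2 * n)) ≠ 0 := by
    intro h
    rw [h, addOrderOf_zero] at hon
    omega
  have h2n : 2 * ((n : ℕ) : ZMod (2 * n)) = 0 := by
    have := addOrderOf_nsmul_eq_zero ((n : ℕ) : ZMod (2 * n))
    rw [hon, nsmul_eq_mul] at this
    exact_mod_cast this
  have hb : IsBalanced p (2 * n) (fm (2 * n) [2, n]) := by
    refine ⟨?_, ?_, ?_⟩
    · unfold fm
      rw [Multiset.mem_coe]
      simp only [List.map_cons, List.map_nil, List.mem_cons, List.not_mem_nil, or_false]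
      rintro (h | h)
      · exact h20 h.symm
      · exact hn0 h.symm
    · exact even_two
    · intro t
      have h1 := constant_of_pow (i := i) hcop h20 (by rw [ho2]; exact hi) t
      have h2 := PT_two_torsion (p := p) (T := Nat.totient (2 * n)) ((ZMod.isUnit_iff_coprime p (2 * n)).2 hcop)
        (a := (t : ZMod (2 * n)) * ((n : ℕ) : ZMod (2 * n)))
        (fun h => hn0 (t.isUnit.mul_left_cancel (by rw [h, mul_zero]))) (by rw [mul_left_comm, h2n, mul_zero])
      rw [PT_eq] at h2
      have h3 : 2 * S p (2 * n) ((t : ZMod (2 * n)) * ((n : ℕ) : ZMod (2 * n))) = Nat.totient (2 * n) * (2 * n) := by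
        have : ((2 * S p (2 * n) ((t : ZMod (2 * n)) * ((n : ℕ) : ZMod (2 * n))) : ℕ) : ℤ)
            = ((Nat.totient (2 * n) * (2 * n) : ℕ) : ℤ) := by
          push_cast at h2 ⊢
          linarith
        exact_mod_cast this
      have h4 : ((fm (2 * n) [2, n]).map (fun a => S p (2 * n) ((t : ZMod (2 * n)) * a))).sum
          = S p (2 * n) ((t : ZMod (2 * n)) * ((2 : ℕ) : ZMod (2 * n)))
            + (S p (2 * n) ((t : ZMod (2 * n)) * ((n : ℕ) : ZMod (2 * n))) + 0) := rfl
      have h5 : Multiset.card (fm (2 * n) [2, n]) = 2 := rfl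
      rw [h4, h5, add_zero, mul_add, h1, h3]
      ring
  obtain ⟨k, hk⟩ := hn
  refine KV.of_mem (M := 2 * n) (by omega) hpM (Or.inr ⟨hb, rfl⟩) fun I _ => ?_
  rw [f_par_odd hM 2 _ _ (k := k) (J := n.primeFactors) (by rw [hg2, Nat.mul_div_cancel_left n (by norm_num), hk]) (by rw [hk]),
    f_par_even hM n _ _ (k := 1) (by rw [hgn, Nat.mul_div_cancel 2 (by omega)]), f_par_nil, add_zero]

end Pool.Agent.Lib.MP_021685_agT
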