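import Pool.Agent.Lib.MP_021685_agT.FamF

/-!
JOB FamF2. More explicit killed parity vectors. Copy the private tools of `FamF.lean` (delivered: `team-store get MP_021685_agT_FamF.lean`), e.g. with the prefix `g` instead of `f`.
-/

namespace Pool.Agent.Lib.MP_021685_agT

open Finset Pool.Agent.Lib.MP_021685_ag.Fermat

/-- `x + (x r mod M) + (x r ^ 2 mod M) + ...`, `n` terms. -/
private def gS (r M : ℕ) : ℕ → ℕ → ℕ
  | 0, _ => 0
  | n + 1, x => x + gS r M n ((x * r) % M)

private theorem gS_eq {p M : ℕ} [NeZero M] (n : ℕ) : ∀ x : ℕ, x < M →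
    ∑ j ∈ Finset.range n, ((p : ZMod M) ^ j * (x : ZMod M)).val = gS (p % M) M n x := by
  induction n with
  | zero => intro x _; rfl
  | succ n ih =>
    intro x hx
    rw [Finset.sum_range_succ', pow_zero, one_mul, ZMod.val_cast_of_lt hx, gS, add_comm]
    congr 1
    rw [← ih _ (Nat.mod_lt _ (NeZero.pos M))]
    refine Finset.sum_congr rfl fun j _ => ?_
    congr 1
    rw [ZMod.natCast_mod, Nat.cast_mul, ZMod.natCast_mod]
    ring

/-- The balance condition for the class `r` of `p`. -/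
private def gchk (r M f : ℕ) (γ : List ℕ) : Bool :=
  (List.range M).all fun t => !(Nat.gcd t M == 1) ||
    (2 * ((γ.map fun a => gS r M f ((t * a) % M)).sum) == f * γ.length * M)

/-- The balance condition for all classes prime to `M` outside the list `L` modulo `d`. -/
private def gall (M f d : ℕ) (L : List ℕ) (γ : List ℕ) : Bool :=
  (List.range M).all fun r => !(Nat.gcd r M == 1) || (L.contains (r % d)) || gchk r M f γ

/-- The multiset of a list of natural numbers. -/
private def gm (M : ℕ) (γ : List ℕ) : Multiset (ZMod M) :=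
  ((γ.map fun a : ℕ => (a : ZMod M) : List (ZMod M)) : Multiset (ZMod M))

private theorem g_bal {p M f : ℕ} [NeZero M] (hf : M.totient = f) {γ : List ℕ}
    (h0 : ∀ a ∈ γ, a % M ≠ 0) (he : Even γ.length) (h : gchk (p % M) M f γ = true) :
    IsBalanced p M (gm M γ) := by
  refine ⟨?_, ?_, ?_⟩
  · unfold gm
    rw [Multiset.mem_coe, List.mem_map]
    rintro ⟨a, ha, ha0⟩
    exact h0 a ha (Nat.mod_eq_zero_of_dvd ((ZMod.natCast_eq_zero_iff _ _).1 ha0))
  · unfold gm
    rw [Multiset.coe_card, List.length_map]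
    exact he
  · intro t
    have h1 : Nat.gcd (t : ZMod M).val M = 1 := ZMod.val_coe_unit_coprime t
    have h2 : (t : ZMod M).val < M := ZMod.val_lt _
    unfold gchk at h
    rw [List.all_eq_true] at h
    have h3 := h _ (List.mem_range.2 h2)
    rw [h1] at h3
    have h4 : 2 * ((γ.map fun a => gS (p % M) M f (((t : ZMod M).val * a) % M)).sum)
        = f * γ.length * M := by simpa using h3
    unfold gm
    rw [Multiset.map_coe, Multiset.sum_coe, Multiset.coe_card, List.length_map, List.map_map, hf, ← h4]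
    congr 2
    refine List.map_congr_left fun a _ => ?_
    show S p M ((t : ZMod M) * (a : ZMod M)) = _
    rw [← gS_eq _ _ (Nat.mod_lt _ (NeZero.pos M))]
    unfold S
    rw [hf]
    refine Finset.sum_congr rfl fun j _ => ?_
    congr 2
    rw [ZMod.natCast_mod, Nat.cast_mul, ZMod.natCast_zmod_val]

private theorem g_of_all {p M f d : ℕ} {L γ : List ℕ} (hd : d ∣ M) (h : gall M f d L γ = true) (hM : 0 < M)
    (hp : Nat.Coprime p M) (hL : p % d ∉ L) : gchk (p % M) M f γ = true := by
  unfold gall at h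
  rw [List.all_eq_true] at h
  have h3 := h _ (List.mem_range.2 (Nat.mod_lt p hM))
  have h1 : Nat.gcd (p % M) M = 1 := by
    rw [← Nat.gcd_rec, Nat.gcd_comm]
    exact hp
  rw [h1, Nat.mod_mod_of_dvd _ hd] at h3
  simpa [hL] using h3

private theorem g_order {M : ℕ} (hM : M ≠ 0) (a : ℕ) : addOrderOf (a : ZMod M) = M / M.gcd a :=
  ZMod.addOrderOf_coe a hM

private theorem g_par_nil (M : ℕ) (I : Finset ℕ) : ((par M (gm M []) I : ℕ) : ZMod 2) = 0 := by
  unfold par gm
  simp

private theorem g_par_even {M : ℕ} (hM : M ≠ 0) (a : ℕ) (s : List ℕ) (I : Finset ℕ) {k : ℕ} (hk : M / M.gcd a = 2 * k) :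
    ((par M (gm M (a :: s)) I : ℕ) : ZMod 2) = ((par M (gm M s) I : ℕ) : ZMod 2) := by
  unfold par gm
  rw [List.map_cons, ← Multiset.cons_coe, Multiset.filter_cons_of_neg]
  rw [g_order hM, hk]
  intro h
  exact (Nat.not_even_iff_odd.2 h.1) (even_two_mul k)

private theorem g_par_odd {M : ℕ} (hM : M ≠ 0) (a : ℕ) (s : List ℕ) (I : Finset ℕ) {k : ℕ} (hk : M / M.gcd a = 2 * k + 1)
    {J : Finset ℕ} (hJ : (2 * k + 1).primeFactors = J) :
    ((par M (gm M (a :: s)) I : ℕ) : ZMod 2) = uv J I + ((par M (gm M s) I : ℕ) : ZMod 2) := by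
  unfold par gm uv
  rw [List.map_cons, ← Multiset.cons_coe]
  by_cases h : I = J
  · rw [if_pos h, Multiset.filter_cons_of_pos]
    · rw [Multiset.card_cons, Nat.cast_add, Nat.cast_one, add_comm]
    · rw [g_order hM, hk]
      exact ⟨odd_two_mul_add_one k, hJ.trans h.symm⟩
  · rw [if_neg h, zero_add, Multiset.filter_cons_of_neg]
    rw [g_order hM, hk]
    intro h2
    exact h (h2.2.symm.trans hJ)

private theorem g_cop {p M : ℕ} (hp : p.Prime) (h : ¬ p ∣ M) : Nat.Coprime p M :=
  (Nat.Prime.coprime_iff_not_dvd hp).2 h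

private theorem g_ne {p l : ℕ} (hp : p.Prime) (hl : l.Prime) (h : p ≠ l) : ¬ p ∣ l :=
  fun hd => h ((Nat.prime_dvd_prime_iff_eq hp hl).1 hd)

private theorem g_pf3 : (2 * 1 + 1).primeFactors = {3} := Nat.Prime.primeFactors (by norm_num)
private theorem g_pf13 : (2 * 6 + 1).primeFactors = {13} := Nat.Prime.primeFactors (by norm_num)
private theorem g_pf39 : (2 * 19 + 1).primeFactors = {3, 13} := by
  rw [show 2 * 19 + 1 = 3 * 13 by norm_num, Nat.primeFactors_mul (by norm_num) (by norm_num),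
    Nat.Prime.primeFactors (by norm_num), Nat.Prime.primeFactors (by norm_num)]
  rfl

/-- Level `78`. `p mod 78 ∈ {7, 17, 19, 23, 29, 35, 37, 67, 77}`: balanced pair `{1, 2}` (orders `78`, `39`); `p mod 78 ∈ {31, 73}`: balanced pair `{1, 20}` (orders `78`, `39`);
`p mod 78 = 53`: `{1, 7, 26, 44}` (card 4, Tate), elements of odd order: `26` (order `3`) and `44` (order `39`); its vector is `uv {3} + uv {3, 13}`, add `KV_3`. These are all the classes prime to `78` not excluded by the hypothesis. -/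
theorem KV_39 {p : ℕ} (hp : p.Prime) (h2 : p ≠ 2) (h3 : p ≠ 3) (h13 : p ≠ 13)
    (h : (p : ZMod 39) ∉ ({1, 2, 4, 5, 8, 10, 11, 16, 20, 22, 25, 32} : Finset (ZMod 39))) :
    KV p (uv {3, 13}) := by
  have hpM : ¬ p ∣ 78 := by
    intro h
    have h' : p ∣ 2 * 3 * 13 := h
    rw [Nat.Prime.dvd_mul hp, Nat.Prime.dvd_mul hp] at h'
    rcases h' with (h' | h') | h'
    · exact g_ne hp (by norm_num) h2 h'
    · exact g_ne hp (by norm_num) h3 h'
    · exact g_ne hp (by norm_num) h13 h'
  have hL : ((p % 39 : ℕ) : ZMod 39) ∉ ({1, 2, 4, 5, 8, 10, 11, 16, 20, 22, 25, 32} : Finset (ZMod 39)) := by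
    rw [ZMod.natCast_mod]
    exact h
  have key : ∀ r < 78, Nat.gcd r 78 = 1 →
      ((r % 39 : ℕ) : ZMod 39) ∉ ({1, 2, 4, 5, 8, 10, 11, 16, 20, 22, 25, 32} : Finset (ZMod 39)) →
      (gchk r 78 24 [1, 2] = true ∨ gchk r 78 24 [1, 20] = true ∨
        gchk r 78 24 [1, 7, 26, 44] = true) := by
    decide +kernel
  have hr : Nat.gcd (p % 78) 78 = 1 := by
    rw [← Nat.gcd_rec, Nat.gcd_comm]
    exact g_cop hp hpM
  have hf : Nat.totient 78 = 24 := by decide +kernel
  rcases key _ (Nat.mod_lt p (by norm_num)) hr (by rwa [Nat.mod_mod_of_dvd _ (by norm_num)]) with h' | h' | h'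
  · have hb : IsBalanced p 78 (gm 78 [1, 2]) := g_bal hf (by decide) (by decide) h'
    refine KV.of_mem (M := 78) (by norm_num) hpM (Or.inr ⟨hb, rfl⟩) fun I _ => ?_
    rw [g_par_even (by norm_num) 1 _ _ (k := 39) (by decide +kernel),
      g_par_odd (by norm_num) 2 _ _ (k := 19) (by decide +kernel) g_pf39, g_par_nil, add_zero]
  · have hb : IsBalanced p 78 (gm 78 [1, 20]) := g_bal hf (by decide) (by decide) h'
    refine KV.of_mem (M := 78) (by norm_num) hpM (Or.inr ⟨hb, rfl⟩) fun I _ => ?_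
    rw [g_par_even (by norm_num) 1 _ _ (k := 39) (by decide +kernel),
      g_par_odd (by norm_num) 20 _ _ (k := 19) (by decide +kernel) g_pf39, g_par_nil, add_zero]
  · have hb : IsBalanced p 78 (gm 78 [1, 7, 26, 44]) := g_bal hf (by decide) (by decide) h'
    have hK : KV p (fun I => uv {3} I + uv {3, 13} I) := by
      refine KV.of_mem (M := 78) (by norm_num) hpM (Or.inl ⟨⟨hb, by decide +kernel⟩, Or.inr (Or.inl rfl)⟩) fun I _ => ?_
      rw [g_par_even (by norm_num) 1 _ _ (k := 39) (by decide +kernel),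
        g_par_even (by norm_num) 7 _ _ (k := 39) (by decide +kernel),
        g_par_odd (by norm_num) 26 _ _ (k := 1) (by decide +kernel) g_pf3,
        g_par_odd (by norm_num) 44 _ _ (k := 19) (by decide +kernel) g_pf39, g_par_nil, add_zero]
    refine (hK.add hp (KV_3 hp h2 h3)).congr fun I _ => ?_
    generalize uv {3, 13} I = y
    generalize uv {3} I = x
    revert x y
    decide

/-- `p = 2`, level `39`: balanced pair `{13, 3}`, orders `3` and `13`. -/
theorem KV_2_3_13 : KV 2 (fun I => uv {3} I + uv {13} I) := by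
  have hb : IsBalanced 2 39 (gm 39 [13, 3]) :=
    g_bal (f := 24) (by decide +kernel) (by decide) (by decide) (by decide +kernel)
  refine KV.of_mem (M := 39) (by norm_num) (by norm_num) (Or.inr ⟨hb, rfl⟩) fun I _ => ?_
  rw [g_par_odd (by norm_num) 13 _ _ (k := 1) (by decide +kernel) g_pf3,
    g_par_odd (by norm_num) 3 _ _ (k := 6) (by decide +kernel) g_pf13, g_par_nil, add_zero]

end Pool.Agent.Lib.MP_021685_agT
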