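import Pool.Agent.Lib.MP_021685_agT.FamD
import Pool.Agent.Lib.MP_021685_agT.FamE
import Pool.Agent.Lib.MP_021685_agT.FamF

/-!
Shared lemmas for the jobs FamG1.lean ... FamG4.lean.
-/

namespace Pool.Agent.Lib.MP_021685_agT

open Finset Pool.Agent.Lib.MP_021685_ag.Fermat

/-- If `par m β I ≠ 0` then `I` consists of odd primes dividing `m`. -/
theorem subset_of_par_ne_zero {m : ℕ} (hm : 0 < m) {β : Multiset (ZMod m)} {I : Finset ℕ}
    (h : par m β I ≠ 0) : I ⊆ m.primeFactors.erase 2 := by
  have : NeZero m := ⟨hm.ne'⟩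
  unfold par at h
  rw [Ne, Multiset.card_eq_zero, Multiset.filter_eq_nil] at h
  push Not at h
  obtain ⟨a, _, hodd, rfl⟩ := h
  intro l hl
  rw [Finset.mem_erase]
  obtain ⟨h1, h2, h3⟩ := Nat.mem_primeFactors.1 hl
  refine ⟨?_, Nat.mem_primeFactors.2 ⟨h1, h2.trans (addOrderOf_dvd' a), hm.ne'⟩⟩
  rintro rfl
  exact (Nat.not_even_iff_odd.2 hodd) (even_iff_two_dvd.2 h2)

/-- If `m` is odd and all elements of `β` are nonzero, the parities add up to the cardinality. -/
theorem sum_par_odd {m : ℕ} (hm : Odd m) {β : Multiset (ZMod m)} (h0 : (0 : ZMod m) ∉ β) :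
    ∑ I ∈ m.primeFactors.powerset.erase ∅, par m β I = Multiset.card β := by
  have hm0 : 0 < m := hm.pos
  have : NeZero m := ⟨hm0.ne'⟩
  induction β using Multiset.induction_on with
  | empty => simp [par]
  | cons a s ih =>
    rw [Multiset.mem_cons, not_or] at h0
    rw [Multiset.card_cons, ← ih h0.2]
    have h1 : (a ::ₘ s) = {a} + s := (Multiset.singleton_add a s).symm
    have h2 : ∀ I, par m (a ::ₘ s) I = par m {a} I + par m s I := fun I => by rw [h1, par_add]
    simp only [h2, Finset.sum_add_distrib]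
    rw [add_comm]
    congr 1
    have hodd : Odd (addOrderOf a) := Odd.of_dvd_nat hm (addOrderOf_dvd' a)
    have hne : addOrderOf a ≠ 1 := fun h => h0.1 (AddMonoid.addOrderOf_eq_one_iff.1 h).symm
    have h3 : ∀ I, par m {a} I = if (addOrderOf a).primeFactors = I then 1 else 0 := by
      intro I
      unfold par
      rw [Multiset.filter_singleton]
      by_cases h4 : (addOrderOf a).primeFactors = I
      · rw [if_pos ⟨hodd, h4⟩, if_pos h4, Multiset.card_singleton]
      · rw [if_neg fun h5 => h4 h5.2, if_neg h4]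
        rfl
    simp only [h3]
    rw [Finset.sum_ite_eq, if_pos]
    rw [Finset.mem_erase, Finset.mem_powerset]
    refine ⟨?_, ?_⟩
    · intro h4
      rw [Nat.primeFactors_eq_empty] at h4
      rcases h4 with h4 | h4
      · exact absurd (h4 ▸ addOrderOf_dvd' a) (fun h5 => hm0.ne' (Nat.eq_zero_of_zero_dvd h5))
      · exact hne h4
    · exact Nat.primeFactors_mono (addOrderOf_dvd' a) hm0.ne'

/-- The class of `par` modulo `2`. -/
noncomputable def xp (m : ℕ) (α : Multiset (ZMod m)) (I : Finset ℕ) : ZMod 2 := ((par m α I : ℕ) : ZMod 2)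

/-- If all odd primes of `m` are among `l1, l2`, the parity vector is a combination of three unit vectors. -/
theorem xp_decomp {m l1 l2 : ℕ} (hm : 0 < m) (h12 : l1 ≠ l2) (hsub : ∀ l, l.Prime → l ∣ m → l = 2 ∨ l = l1 ∨ l = l2)
    (α : Multiset (ZMod m)) (I : Finset ℕ) (hI : I.Nonempty) :
    xp m α {l1} * uv {l1} I + xp m α {l2} * uv {l2} I + xp m α {l1, l2} * uv {l1, l2} I = xp m α I := by
  have hne1 : ({l1} : Finset ℕ) ≠ {l2} := by simpa using h12
  have hne2 : ({l1} : Finset ℕ) ≠ {l1, l2} := by
    intro h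
    have : l2 ∈ ({l1} : Finset ℕ) := by rw [h]; simp
    exact h12 (Finset.mem_singleton.1 this).symm
  have hne3 : ({l2} : Finset ℕ) ≠ {l1, l2} := by
    intro h
    have : l1 ∈ ({l2} : Finset ℕ) := by rw [h]; simp
    exact h12 (Finset.mem_singleton.1 this)
  by_cases h0 : par m α I = 0
  · have hx : xp m α I = 0 := by unfold xp; rw [h0]; rfl
    have key : ∀ J, xp m α J * uv J I = 0 := by
      intro J
      unfold uv
      split_ifs with h
      · rw [← h, hx, zero_mul]
      · rw [mul_zero]
    rw [key, key, key, hx, add_zero, add_zero]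
  · have hs := subset_of_par_ne_zero hm h0
    have hs' : ∀ l ∈ I, l = l1 ∨ l = l2 := by
      intro l hl
      have h1 := hs hl
      rw [Finset.mem_erase, Nat.mem_primeFactors] at h1
      rcases hsub l h1.2.1 h1.2.2.1 with h | h
      · exact absurd h h1.1
      · exact h
    have hI3 : I = {l1} ∨ I = {l2} ∨ I = {l1, l2} := by
      by_cases ha : l1 ∈ I
      · by_cases hb : l2 ∈ I
        · right; right
          ext l
          simp only [Finset.mem_insert, Finset.mem_singleton]
          exact ⟨hs' l, fun h => by rcases h with h | h <;> rw [h] <;> assumption⟩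
        · left
          ext l
          simp only [Finset.mem_singleton]
          refine ⟨fun h => ?_, fun h => h ▸ ha⟩
          rcases hs' l h with h' | h'
          · exact h'
          · exact absurd (h' ▸ h) hb
      · right; left
        obtain ⟨x, hx⟩ := hI
        have hx2 : x = l2 := (hs' x hx).resolve_left fun h => ha (h ▸ hx)
        ext l
        simp only [Finset.mem_singleton]
        refine ⟨fun h => ?_, fun h => h ▸ (hx2 ▸ hx)⟩
        rcases hs' l h with h' | h'
        · exact absurd (h' ▸ h) ha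
        · exact h'
    rcases hI3 with rfl | rfl | rfl
    · simp [uv, hne1, hne2]
    · simp [uv, hne1.symm, hne3]
    · simp [uv, hne2.symm, hne3.symm]

/-- `KV` of the three pieces gives `KV` of the parity vector. -/
theorem KV_xp {p m l1 l2 : ℕ} (hp : p.Prime) (hm : 0 < m) (h12 : l1 ≠ l2)
    (hsub : ∀ l, l.Prime → l ∣ m → l = 2 ∨ l = l1 ∨ l = l2) (α : Multiset (ZMod m))
    (h : KV p (fun I => xp m α {l1} * uv {l1} I + xp m α {l2} * uv {l2} I
      + xp m α {l1, l2} * uv {l1, l2} I)) : KV p (xp m α) :=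
  h.congr fun I hI => xp_decomp hm h12 hsub α I hI

/-- `IsGenerated` from `KV` of `xp`. -/
theorem isGenerated_of_KV_xp {p m : ℕ} (hp : p.Prime) (hm : 0 < m) (hpm : ¬ p ∣ m)
    {α : Multiset (ZMod m)} (hα : IsTate p m α) (h : KV p (xp m α)) : IsGenerated p m α :=
  isGenerated_of_KV hp hm hpm hα h

/-- For `m` odd with all primes among `l1, l2` and `α` of even cardinality without `0`, the three parities add up to zero. -/
theorem xp_total {m l1 l2 : ℕ} (hm : Odd m) (h12 : l1 ≠ l2) (hsub : ∀ l, l.Prime → l ∣ m → l = l1 ∨ l = l2)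
    {α : Multiset (ZMod m)} (h0 : (0 : ZMod m) ∉ α) (hc : Even (Multiset.card α)) :
    xp m α {l1} + xp m α {l2} + xp m α {l1, l2} = 0 := by
  have h1 := sum_par_odd hm h0
  have h2 : ∑ I ∈ m.primeFactors.powerset.erase ∅, xp m α I = 0 := by
    unfold xp
    rw [← Nat.cast_sum, h1]
    exact (ZMod.natCast_eq_zero_iff_even).2 hc
  have h3 : ∀ I ∈ m.primeFactors.powerset.erase ∅, xp m α I
      = xp m α {l1} * uv {l1} I + xp m α {l2} * uv {l2} I + xp m α {l1, l2} * uv {l1, l2} I := by
    intro I hI
    rw [Finset.mem_erase] at hI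
    exact (xp_decomp hm.pos h12 (fun l h h' => Or.inr (hsub l h h')) α I
      (Finset.nonempty_iff_ne_empty.2 hI.1)).symm
  rw [Finset.sum_congr rfl h3, Finset.sum_add_distrib, Finset.sum_add_distrib, ← Finset.mul_sum,
    ← Finset.mul_sum, ← Finset.mul_sum] at h2
  have h4 : ∀ J : Finset ℕ, J.Nonempty → xp m α J * ∑ I ∈ m.primeFactors.powerset.erase ∅, uv J I = xp m α J := by
    intro J hJ
    unfold uv
    rw [Finset.sum_ite_eq']
    split_ifs with h5
    · rw [mul_one]
    · rw [mul_zero]
      by_contra h6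
      apply h5
      rw [Finset.mem_erase, Finset.mem_powerset]
      refine ⟨Finset.nonempty_iff_ne_empty.1 hJ, ?_⟩
      have h7 : par m α J ≠ 0 := fun h7 => h6 (by unfold xp; rw [h7]; rfl)
      exact (subset_of_par_ne_zero hm.pos h7).trans (Finset.erase_subset _ _)
  rwa [h4 _ (by simp), h4 _ (by simp), h4 _ (by simp)] at h2

end Pool.Agent.Lib.MP_021685_agT
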