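import Pool.Agent.Lib.MP_021685_agT.FamG

/-!
JOB FamG1. Degrees `2 ^ a * 3 ^ b * 5 ^ c`.
-/

namespace Pool.Agent.Lib.MP_021685_agT

open Finset Pool.Agent.Lib.MP_021685_ag.Fermat

private theorem FamG1_zero {m : ℕ} (hm : 0 < m) (α : Multiset (ZMod m)) {I : Finset ℕ} {l : ℕ}
    (hl : l ∈ I) (hlm : ¬ l ∣ m) : xp m α I = 0 := by
  unfold xp
  have h0 : par m α I = 0 := by
    by_contra h
    have h1 := subset_of_par_ne_zero hm h hl
    rw [Finset.mem_erase, Nat.mem_primeFactors] at h1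
    exact hlm h1.2.2.1
  rw [h0]
  rfl

/-- part (A) -/
private theorem FamG1_A {p m : ℕ} (hp : p.Prime) (hm : 0 < m) (hpm : ¬ p ∣ m)
    (hsub : ∀ l, l.Prime → l ∣ m → l = 2 ∨ l = 3 ∨ l = 5) (h15 : 15 ∣ m)
    (hp15 : (p : ZMod 15) = 1 ∨ (p : ZMod 15) = 2 ∨ (p : ZMod 15) = 4 ∨ (p : ZMod 15) = 8)
    {α : Multiset (ZMod m)} (hα : IsBalanced p m α) : xp m α {3, 5} = 0 := by
  classical
  have hNe : NeZero m := ⟨hm.ne'⟩
  obtain ⟨χ, hprim, hodd, hreal, hker⟩ := exists_char_15
  have h := good_even (p := p) (m := m) (c := 15) ((Nat.Prime.coprime_iff_not_dvd hp).2 hpm) h15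
    (by norm_num) (by decide) χ hprim hodd hreal ((hker _).2 hp15) (fun l hl hlm hl15 => by
      left
      rcases hsub l hl hlm with rfl | rfl | rfl
      · exact (hker _).2 (Or.inr (Or.inl (by norm_num)))
      · exact absurd (by norm_num) hl15
      · exact absurd (by norm_num) hl15) hα
  have hcard : par m α {3, 5} = Multiset.card (α.filter (fun a => Good χ a)) := by
    unfold par
    congr 1
    apply Multiset.filter_congr
    intro a _
    have hdvd : addOrderOf a ∣ m := addOrderOf_dvd' a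
    have hpos : addOrderOf a ≠ 0 := fun h0 => hm.ne' (Nat.eq_zero_of_zero_dvd (h0 ▸ hdvd))
    constructor
    · rintro ⟨h1, h2⟩
      have h3 : 3 ∣ addOrderOf a := by
        have : 3 ∈ (addOrderOf a).primeFactors := by rw [h2]; simp
        exact (Nat.mem_primeFactors.1 this).2.1
      have h5 : 5 ∣ addOrderOf a := by
        have : 5 ∈ (addOrderOf a).primeFactors := by rw [h2]; simp
        exact (Nat.mem_primeFactors.1 this).2.1
      refine ⟨h1, ?_, ?_⟩
      · exact Nat.Coprime.mul_dvd_of_dvd_of_dvd (by norm_num : Nat.Coprime 3 5) h3 h5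
      · intro l hl hla hl15
        have : l ∈ (addOrderOf a).primeFactors := Nat.mem_primeFactors.2 ⟨hl, hla, hpos⟩
        rw [h2, Finset.mem_insert, Finset.mem_singleton] at this
        rcases this with rfl | rfl
        · exact absurd (by norm_num) hl15
        · exact absurd (by norm_num) hl15
    · rintro ⟨h1, h2, _⟩
      refine ⟨h1, ?_⟩
      ext l
      rw [Nat.mem_primeFactors, Finset.mem_insert, Finset.mem_singleton]
      constructor
      · rintro ⟨hl, hla, _⟩
        rcases hsub l hl (hla.trans hdvd) with rfl | h | h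
        · exact absurd (even_iff_two_dvd.2 hla) (Nat.not_even_iff_odd.2 h1)
        · exact Or.inl h
        · exact Or.inr h
      · rintro (rfl | rfl)
        · exact ⟨Nat.prime_three, (by norm_num : 3 ∣ 15).trans h2, hpos⟩
        · exact ⟨Nat.prime_five, (by norm_num : 5 ∣ 15).trans h2, hpos⟩
  unfold xp
  rw [hcard]
  exact (ZMod.natCast_eq_zero_iff_even).2 h

private theorem FamG1_main {p m a b c : ℕ} (hp : p.Prime) (hm : m = 2 ^ a * 3 ^ b * 5 ^ c)
    (hpm : ¬ p ∣ m) {α : Multiset (ZMod m)} (hα : IsTate p m α) : IsGenerated p m α := by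
  have hm0 : 0 < m := by rw [hm]; positivity
  have hsub : ∀ l, l.Prime → l ∣ m → l = 2 ∨ l = 3 ∨ l = 5 := by
    intro l hl hlm
    rw [hm] at hlm
    rcases (Nat.Prime.dvd_mul hl).1 hlm with h | h
    · rcases (Nat.Prime.dvd_mul hl).1 h with h | h
      · exact Or.inl ((Nat.prime_dvd_prime_iff_eq hl Nat.prime_two).1 (hl.dvd_of_dvd_pow h))
      · exact Or.inr (Or.inl ((Nat.prime_dvd_prime_iff_eq hl Nat.prime_three).1
          (hl.dvd_of_dvd_pow h)))
    · exact Or.inr (Or.inr ((Nat.prime_dvd_prime_iff_eq hl Nat.prime_five).1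
        (hl.dvd_of_dvd_pow h)))
  by_cases hp2 : p = 2
  · subst hp2
    have ha : a = 0 := by
      by_contra ha
      apply hpm
      rw [hm]
      exact Dvd.dvd.mul_right (Dvd.dvd.mul_right (dvd_pow_self 2 ha) _) _
    subst ha
    by_cases hb : b = 0
    · subst hb
      exact gen_prime_power hp hpm Nat.prime_five (k := c) (Or.inl (by rw [hm]; ring)) hα
    by_cases hc : c = 0
    · subst hc
      exact gen_prime_power hp hpm Nat.prime_three (k := b) (Or.inl (by rw [hm]; ring)) hα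
    have h3 : 3 ∣ m := by
      rw [hm]
      exact Dvd.dvd.mul_right (Dvd.dvd.mul_left (dvd_pow_self 3 hb) _) _
    have h5 : 5 ∣ m := by
      rw [hm]
      exact Dvd.dvd.mul_left (dvd_pow_self 5 hc) _
    have h15 : 15 ∣ m :=
      Nat.Coprime.mul_dvd_of_dvd_of_dvd (by norm_num : Nat.Coprime 3 5) h3 h5
    have hx35 := FamG1_A hp hm0 hpm hsub h15 (Or.inr (Or.inl (by norm_num))) hα.1
    have hmodd : Odd m := Nat.not_even_iff_odd.1 fun h => hpm (even_iff_two_dvd.1 h)
    have htot := xp_total hmodd (by norm_num : (3 : ℕ) ≠ 5) (fun l hl hlm => by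
      rcases hsub l hl hlm with rfl | h | h
      · exact absurd hlm hpm
      · exact Or.inl h
      · exact Or.inr h) hα.1.1 hα.1.2.1
    rw [hx35, add_zero] at htot
    have hx5 : xp m α {5} = xp m α {3} := by
      have h2 : xp m α {3} + xp m α {3} = 0 := CharTwo.add_self_eq_zero _
      linear_combination htot - h2
    refine isGenerated_of_KV_xp hp hm0 hpm hα (KV_xp hp hm0 (by norm_num) hsub α ?_)
    refine (KV_2_3_5.smul hp (xp m α {3})).congr fun I _ => ?_
    rw [hx35, hx5]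
    ring
  by_cases hp3 : p = 3
  · subst hp3
    have hx3 : xp m α {3} = 0 := FamG1_zero hm0 α (l := 3) (by simp) hpm
    have hx35 : xp m α {3, 5} = 0 := FamG1_zero hm0 α (l := 3) (by simp) hpm
    refine isGenerated_of_KV_xp hp hm0 hpm hα (KV_xp hp hm0 (by norm_num) hsub α ?_)
    refine ((KV_5 hp (by norm_num) (by norm_num)).smul hp (xp m α {5})).congr fun I _ => ?_
    rw [hx35, hx3]
    ring
  by_cases hp5 : p = 5
  · subst hp5
    have hx5 : xp m α {5} = 0 := FamG1_zero hm0 α (l := 5) (by simp) hpm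
    have hx35 : xp m α {3, 5} = 0 := FamG1_zero hm0 α (l := 5) (by simp) hpm
    refine isGenerated_of_KV_xp hp hm0 hpm hα (KV_xp hp hm0 (by norm_num) hsub α ?_)
    refine ((KV_3 hp (by norm_num) (by norm_num)).smul hp (xp m α {3})).congr fun I _ => ?_
    rw [hx35, hx5]
    ring
  have k3 := (KV_3 hp hp2 hp3).smul hp (xp m α {3})
  have k5 := (KV_5 hp hp2 hp5).smul hp (xp m α {5})
  have k35 : KV p (fun I => xp m α {3, 5} * uv {3, 5} I) := by
    have hz : xp m α {3, 5} = 0 → KV p (fun I => xp m α {3, 5} * uv {3, 5} I) := by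
      intro h0
      refine (KV.zero hp).congr fun I _ => ?_
      rw [h0, zero_mul]
    by_cases h15 : 15 ∣ m
    · by_cases hq : (p : ZMod 15) = 1 ∨ (p : ZMod 15) = 2 ∨ (p : ZMod 15) = 4 ∨ (p : ZMod 15) = 8
      · exact hz (FamG1_A hp hm0 hpm hsub h15 hq hα.1)
      · push Not at hq
        exact (KV_15 hp hp2 hp3 hp5 hq).smul hp _
    · apply hz
      by_cases h3 : 3 ∣ m
      · apply FamG1_zero hm0 α (l := 5) (by simp)
        intro h5
        exact h15 (Nat.Coprime.mul_dvd_of_dvd_of_dvd (by norm_num : Nat.Coprime 3 5) h3 h5)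
      · exact FamG1_zero hm0 α (l := 3) (by simp) h3
  exact isGenerated_of_KV_xp hp hm0 hpm hα (KV_xp hp hm0 (by norm_num) hsub α
    (((k3.add hp k5).add hp k35).congr fun I _ => rfl))

/-- Write `m = 2 ^ a * 3 ^ b * 5 ^ c`, `x3, x5, x35` for `xp m α {3}`, `xp m α {5}`, `xp m α {3, 5}` (`FamG.lean`). By `isGenerated_of_KV_xp`
and `KV_xp` (`l1 = 3, l2 = 5`) it is enough to show `KV p (x3 uv{3} + x5 uv{5} + x35 uv{3,5})`. Use `KV.add`, `KV.smul`, `KV.congr`, `KV.zero`.
`xp m α I = 0` if `I` contains a prime not dividing `m` (`subset_of_par_ne_zero`).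
(A) Claim: if `p mod 15 ∈ {1, 2, 4, 8}` and `15 ∣ m` then `x35 = 0`: `good_even` with the character `χ` of `exists_char_15` (`c = 15`; `χ(p) = 1`; a prime `l ∣ m` not dividing
`15` is `2`, and `χ(2) = 1`); an element of `ZMod m` is `Good χ` iff its order is odd with set of primes `{3, 5}` (a prime dividing the order divides `m`, so it is `3` or `5`),
so the number of good elements is `par m α {3, 5}`.
(B) `p = 2`: then `a = 0` (`¬ p ∣ m`). If `b = 0` or `c = 0`: `gen_prime_power` (`Gen'` is `IsGenerated` by definition). Otherwise `x35 = 0` by (A), `x3 + x5 + x35 = 0` by `xp_total` (`hα.1.1`, `hα.1.2.1`), so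
`x5 = x3` in `ZMod 2` and the vector is `x3 (uv{3} + uv{5})`: `KV_2_3_5`.
(C) `p = 3`: `b = 0`, `x3 = x35 = 0`, `KV_5`. (D) `p = 5`: `c = 0`, `x5 = x35 = 0`, `KV_3`.
(E) `p ≥ 7`: `KV_3`, `KV_5`, and for the last term: `x35 = 0` if `p mod 15 ∈ {1, 2, 4, 8}` (by (A), or because `15 ∤ m`), otherwise `KV_15`. -/
theorem fam_2_3_5 {p a b c : ℕ} (hp : p.Prime) (hpm : ¬ p ∣ 2 ^ a * 3 ^ b * 5 ^ c)
    {α : Multiset (ZMod (2 ^ a * 3 ^ b * 5 ^ c))} (hα : IsTate p (2 ^ a * 3 ^ b * 5 ^ c) α) :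
    IsGenerated p (2 ^ a * 3 ^ b * 5 ^ c) α :=
  FamG1_main hp rfl hpm hα

end Pool.Agent.Lib.MP_021685_agT
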