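import Pool.Agent.Lib.MP_021685_agT.FamG

/-!
JOB FamG2. Degrees `2 ^ a * 3 ^ b * 7 ^ c`.
-/

namespace Pool.Agent.Lib.MP_021685_agT

open Finset Pool.Agent.Lib.MP_021685_ag.Fermat

private theorem FamG2_zero {m : ℕ} (hm : 0 < m) (α : Multiset (ZMod m)) {I : Finset ℕ} {l : ℕ}
    (hl : l ∈ I) (hlm : ¬ l ∣ m) : xp m α I = 0 := by
  unfold xp
  have h0 : par m α I = 0 := by
    by_contra h
    have h1 := subset_of_par_ne_zero hm h hl
    rw [Finset.mem_erase, Nat.mem_primeFactors] at h1
    exact hlm h1.2.2.1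
  rw [h0]
  rfl

private theorem FamG2_prime7 : Nat.Prime 7 := by norm_num

/-- part (A) -/
private theorem FamG2_A {p m : ℕ} (hp : p.Prime) (hm : 0 < m) (hpm : ¬ p ∣ m)
    (hsub : ∀ l, l.Prime → l ∣ m → l = 2 ∨ l = 3 ∨ l = 7) (h7 : 7 ∣ m)
    (hp7 : IsSquare (p : ZMod 7))
    {α : Multiset (ZMod m)} (hα : IsBalanced p m α) : xp m α {7} + xp m α {3, 7} = 0 := by
  classical
  have hNe : NeZero m := ⟨hm.ne'⟩
  obtain ⟨χ, hprim, hodd, hreal, hker⟩ := exists_char_prime FamG2_prime7 (by norm_num)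
  have hpne : p ≠ 7 := fun h => hpm (h ▸ h7)
  have hpu : IsUnit (p : ZMod 7) := by
    rw [ZMod.isUnit_iff_coprime]
    exact (Nat.coprime_primes hp FamG2_prime7).2 hpne
  have h2u : IsUnit ((2 : ℕ) : ZMod 7) := by
    rw [ZMod.isUnit_iff_coprime]
    norm_num
  have h3u : IsUnit ((3 : ℕ) : ZMod 7) := by
    rw [ZMod.isUnit_iff_coprime]
    norm_num
  have h2s : IsSquare ((2 : ℕ) : ZMod 7) := ⟨3, by decide⟩
  have h3s : ¬ IsSquare ((3 : ℕ) : ZMod 7) := by
    rintro ⟨r, hr⟩
    revert hr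
    revert r
    decide
  have hχ3 : χ ((3 : ℕ) : ZMod 7) = -1 :=
    (hreal _ h3u).resolve_left fun h => h3s ((hker _ h3u).1 h)
  have h := good_even (p := p) (m := m) (c := 7) ((Nat.Prime.coprime_iff_not_dvd hp).2 hpm) h7
    (by norm_num) (by decide) χ hprim hodd hreal ((hker _ hpu).2 hp7) (fun l hl hlm hl7 => by
      rcases hsub l hl hlm with rfl | rfl | rfl
      · exact Or.inl ((hker _ h2u).2 h2s)
      · exact Or.inr ⟨hχ3, Or.inl (by norm_num)⟩
      · exact absurd (dvd_refl 7) hl7) hα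
  have hcard : par m α {7} + par m α {3, 7} = Multiset.card (α.filter (fun a => Good χ a)) := by
    unfold par
    rw [← Multiset.card_add, Multiset.filter_add_filter]
    have h0 : α.filter (fun a => (Odd (addOrderOf a) ∧ (addOrderOf a).primeFactors = {7}) ∧
        (Odd (addOrderOf a) ∧ (addOrderOf a).primeFactors = {3, 7})) = 0 := by
      rw [Multiset.filter_eq_nil]
      rintro a _ ⟨⟨_, h1⟩, ⟨_, h2⟩⟩
      rw [h1] at h2
      have : (3 : ℕ) ∈ ({7} : Finset ℕ) := by rw [h2]; simp
      simp at this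
    rw [h0, add_zero]
    congr 1
    apply Multiset.filter_congr
    intro a _
    have hdvd : addOrderOf a ∣ m := addOrderOf_dvd' a
    have hpos : addOrderOf a ≠ 0 := fun h0 => hm.ne' (Nat.eq_zero_of_zero_dvd (h0 ▸ hdvd))
    have hgood : Good χ a ↔ Odd (addOrderOf a) ∧ 7 ∣ addOrderOf a := by
      constructor
      · rintro ⟨h1, h2, _⟩
        exact ⟨h1, h2⟩
      · rintro ⟨h1, h2⟩
        refine ⟨h1, h2, ?_⟩
        intro l hl hla hl7
        rcases hsub l hl (hla.trans hdvd) with rfl | rfl | rfl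
        · exact absurd (even_iff_two_dvd.2 hla) (Nat.not_even_iff_odd.2 h1)
        · exact hχ3
        · exact absurd (dvd_refl 7) hl7
    rw [hgood, ← and_or_left]
    apply and_congr_right
    intro h1
    constructor
    · rintro (h2 | h2)
      · have : 7 ∈ (addOrderOf a).primeFactors := by rw [h2]; simp
        exact (Nat.mem_primeFactors.1 this).2.1
      · have : 7 ∈ (addOrderOf a).primeFactors := by rw [h2]; simp
        exact (Nat.mem_primeFactors.1 this).2.1
    · intro h2
      by_cases h3 : 3 ∣ addOrderOf a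
      · right
        ext l
        rw [Nat.mem_primeFactors, Finset.mem_insert, Finset.mem_singleton]
        constructor
        · rintro ⟨hl, hla, _⟩
          rcases hsub l hl (hla.trans hdvd) with rfl | h | h
          · exact absurd (even_iff_two_dvd.2 hla) (Nat.not_even_iff_odd.2 h1)
          · exact Or.inl h
          · exact Or.inr h
        · rintro (rfl | rfl)
          · exact ⟨Nat.prime_three, h3, hpos⟩
          · exact ⟨FamG2_prime7, h2, hpos⟩
      · left
        ext l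
        rw [Nat.mem_primeFactors, Finset.mem_singleton]
        constructor
        · rintro ⟨hl, hla, _⟩
          rcases hsub l hl (hla.trans hdvd) with rfl | rfl | h
          · exact absurd (even_iff_two_dvd.2 hla) (Nat.not_even_iff_odd.2 h1)
          · exact absurd hla h3
          · exact h
        · rintro rfl
          exact ⟨FamG2_prime7, h2, hpos⟩
  unfold xp
  rw [← Nat.cast_add, hcard]
  exact (ZMod.natCast_eq_zero_iff_even).2 h

private theorem FamG2_pure {p i : ℕ} (hp : p.Prime) (hp2 : p ≠ 2) (hi : 7 ∣ p ^ i + 1) :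
    KV p (uv {7}) := by
  have h := KV_pure hp hp2 (n := 7) (by decide) (by norm_num) hi
  rwa [Nat.Prime.primeFactors FamG2_prime7] at h

private theorem FamG2_main {p m a b c : ℕ} (hp : p.Prime) (hm : m = 2 ^ a * 3 ^ b * 7 ^ c)
    (hpm : ¬ p ∣ m) {α : Multiset (ZMod m)} (hα : IsTate p m α) : IsGenerated p m α := by
  have hm0 : 0 < m := by rw [hm]; positivity
  have hsub : ∀ l, l.Prime → l ∣ m → l = 2 ∨ l = 3 ∨ l = 7 := by
    intro l hl hlm
    rw [hm] at hlm
    rcases (Nat.Prime.dvd_mul hl).1 hlm with h | h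
    · rcases (Nat.Prime.dvd_mul hl).1 h with h | h
      · exact Or.inl ((Nat.prime_dvd_prime_iff_eq hl Nat.prime_two).1 (hl.dvd_of_dvd_pow h))
      · exact Or.inr (Or.inl ((Nat.prime_dvd_prime_iff_eq hl Nat.prime_three).1
          (hl.dvd_of_dvd_pow h)))
    · exact Or.inr (Or.inr ((Nat.prime_dvd_prime_iff_eq hl FamG2_prime7).1
        (hl.dvd_of_dvd_pow h)))
  have h37 : (3 : ℕ) ≠ 7 := by norm_num
  by_cases hp2 : p = 2
  · subst hp2
    have ha : a = 0 := by
      by_contra ha
      apply hpm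
      rw [hm]
      exact Dvd.dvd.mul_right (Dvd.dvd.mul_right (dvd_pow_self 2 ha) _) _
    subst ha
    by_cases hb : b = 0
    · subst hb
      exact gen_prime_power hp hpm FamG2_prime7 (k := c) (Or.inl (by rw [hm]; ring)) hα
    by_cases hc : c = 0
    · subst hc
      exact gen_prime_power hp hpm Nat.prime_three (k := b) (Or.inl (by rw [hm]; ring)) hα
    have h7 : 7 ∣ m := by
      rw [hm]
      exact Dvd.dvd.mul_left (dvd_pow_self 7 hc) _
    have hA := FamG2_A hp hm0 hpm hsub h7 ⟨3, by decide⟩ hα.1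
    have hmodd : Odd m := Nat.not_even_iff_odd.1 fun h => hpm (even_iff_two_dvd.1 h)
    have htot := xp_total hmodd h37 (fun l hl hlm => by
      rcases hsub l hl hlm with rfl | h | h
      · exact absurd hlm hpm
      · exact Or.inl h
      · exact Or.inr h) hα.1.1 hα.1.2.1
    have hx3 : xp m α {3} = 0 := by linear_combination htot - hA
    have hx37 : xp m α {3, 7} = xp m α {7} := by
      have h2 : xp m α {7} + xp m α {7} = 0 := CharTwo.add_self_eq_zero _
      linear_combination hA - h2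
    refine isGenerated_of_KV_xp hp hm0 hpm hα (KV_xp hp hm0 h37 hsub α ?_)
    refine ((KV_7_21 hp (by norm_num) (by norm_num)).smul hp (xp m α {7})).congr fun I _ => ?_
    rw [hx37, hx3]
    ring
  by_cases hp3 : p = 3
  · subst hp3
    have hx3 : xp m α {3} = 0 := FamG2_zero hm0 α (l := 3) (by simp) hpm
    have hx37 : xp m α {3, 7} = 0 := FamG2_zero hm0 α (l := 3) (by simp) hpm
    refine isGenerated_of_KV_xp hp hm0 hpm hα (KV_xp hp hm0 h37 hsub α ?_)
    refine ((FamG2_pure (i := 3) hp (by norm_num) (by norm_num)).smul hp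
      (xp m α {7})).congr fun I _ => ?_
    rw [hx37, hx3]
    ring
  by_cases hp7 : p = 7
  · subst hp7
    have hx7 : xp m α {7} = 0 := FamG2_zero hm0 α (l := 7) (by simp) hpm
    have hx37 : xp m α {3, 7} = 0 := FamG2_zero hm0 α (l := 7) (by simp) hpm
    refine isGenerated_of_KV_xp hp hm0 hpm hα (KV_xp hp hm0 h37 hsub α ?_)
    refine ((KV_3 hp (by norm_num) (by norm_num)).smul hp (xp m α {3})).congr fun I _ => ?_
    rw [hx37, hx7]
    ring
  have k3 := (KV_3 hp hp2 hp3).smul hp (xp m α {3})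
  have k37 := (KV_7_21 hp hp3 hp7).smul hp (xp m α {3, 7})
  have hp7d : ¬ 7 ∣ p := fun h => hp7 ((Nat.prime_dvd_prime_iff_eq FamG2_prime7 hp).1 h).symm
  have k7 : KV p (fun I => (xp m α {7} + xp m α {3, 7}) * uv {7} I) := by
    have hz : xp m α {7} + xp m α {3, 7} = 0 →
        KV p (fun I => (xp m α {7} + xp m α {3, 7}) * uv {7} I) := by
      intro h0
      refine (KV.zero hp).congr fun I _ => ?_
      rw [h0, zero_mul]
    by_cases h7 : 7 ∣ m
    · by_cases hq : IsSquare (p : ZMod 7)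
      · exact hz (FamG2_A hp hm0 hpm hsub h7 hq hα.1)
      · obtain ⟨i, hi⟩ := exists_neg_one FamG2_prime7 (by norm_num) hp7d
          (even_order_of_not_square FamG2_prime7 hp7d hq) 1
        rw [pow_one] at hi
        exact (FamG2_pure hp hp2 hi).smul hp _
    · apply hz
      rw [FamG2_zero hm0 α (l := 7) (by simp) h7, FamG2_zero hm0 α (l := 7) (by simp) h7, add_zero]
  refine isGenerated_of_KV_xp hp hm0 hpm hα (KV_xp hp hm0 h37 hsub α
    (((k3.add hp k37).add hp k7).congr fun I _ => ?_))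
  have h2 : xp m α {3, 7} + xp m α {3, 7} = 0 := CharTwo.add_self_eq_zero _
  linear_combination uv {7} I * h2

/-- Write `m = 2 ^ a * 3 ^ b * 7 ^ c`, `x3, x7, x37` for `xp m α {3}`, `xp m α {7}`, `xp m α {3, 7}` (`FamG.lean`). By `isGenerated_of_KV_xp`
and `KV_xp` (`l1 = 3, l2 = 7`) it is enough to show `KV p (x3 uv{3} + x7 uv{7} + x37 uv{3,7})`. Use `KV.add`, `KV.smul`, `KV.congr`, `KV.zero`.
`xp m α I = 0` if `I` contains a prime not dividing `m` (`subset_of_par_ne_zero`).
(A) Claim: if `p ≠ 7` is a square mod `7` and `7 ∣ m` then `x7 + x37 = 0`: `good_even` with the character `χ` of `exists_char_prime` (`c = q = 7`; `χ(p) = 1`; a prime `l ∣ m` not dividing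
`7` is `2`, and `χ(2) = 1`, `2 = 3 ^ 2` mod `7`, or `3`, and `χ(3) = -1`, `3 % 4 = 3`); an element of `ZMod m` is `Good χ` iff its order is odd with set of primes `{7}` or `{3, 7}`,
so the number of good elements is `par m α {7} + par m α {3, 7}`.
(B) `p = 2`: then `a = 0` (`¬ p ∣ m`). If `b = 0` or `c = 0`: `gen_prime_power` (`Gen'` is `IsGenerated` by definition). Otherwise `x7 + x37 = 0` by (A), `x3 + x7 + x37 = 0` by `xp_total` (`hα.1.1`, `hα.1.2.1`), so
`x3 = 0`, `x37 = x7` and the vector is `x7 (uv{7} + uv{3,7})`: `KV_7_21`.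
(C) `p = 3`: `b = 0`, `x3 = x37 = 0`, `KV_pure` with `n = 7`, `i = 3`. (D) `p = 7`: `c = 0`, `x7 = x37 = 0`, `KV_3`.
(E) other `p`: the vector is `x3 uv{3} + x37 (uv{7} + uv{3,7}) + (x7 + x37) uv{7}`: `KV_3`, `KV_7_21`, and for the last term: `x7 + x37 = 0` if `p` is a square mod `7` (by (A), or because `7 ∤ m`), otherwise
`KV_pure` with `n = 7` (`even_order_of_not_square`, `exists_neg_one` with `k = 1`). -/
theorem fam_2_3_7 {p a b c : ℕ} (hp : p.Prime) (hpm : ¬ p ∣ 2 ^ a * 3 ^ b * 7 ^ c)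
    {α : Multiset (ZMod (2 ^ a * 3 ^ b * 7 ^ c))} (hα : IsTate p (2 ^ a * 3 ^ b * 7 ^ c) α) :
    IsGenerated p (2 ^ a * 3 ^ b * 7 ^ c) α :=
  FamG2_main hp rfl hpm hα

end Pool.Agent.Lib.MP_021685_agT
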