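import Pool.Agent.Lib.MP_021685_agT.FamG

/-!
JOB FamG4. Degrees `3 ^ a * 11 ^ b` and `2 * 3 ^ a * 11 ^ b`.
-/

namespace Pool.Agent.Lib.MP_021685_agT

open Finset Pool.Agent.Lib.MP_021685_ag.Fermat

/-- Two nonzero elements of level `33` with sums of powers of `2` constant form a balanced pair. -/
private theorem g4_bal {x y : ℕ} (hx : x % 33 ≠ 0) (hy : y % 33 ≠ 0) :
    IsBalanced 2 33 ({(x : ZMod 33), (y : ZMod 33)} : Multiset (ZMod 33)) := by
  have hx0 : (x : ZMod 33) ≠ 0 := fun h => hx (Nat.mod_eq_zero_of_dvd ((ZMod.natCast_eq_zero_iff _ _).1 h))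
  have hy0 : (y : ZMod 33) ≠ 0 := fun h => hy (Nat.mod_eq_zero_of_dvd ((ZMod.natCast_eq_zero_iff _ _).1 h))
  have hcop : Nat.Coprime 2 33 := by norm_num
  have hd : ∀ z : ZMod 33, addOrderOf z ∣ 2 ^ 5 + 1 := fun z => addOrderOf_dvd' z
  refine ⟨?_, even_two, ?_⟩
  · rw [Multiset.insert_eq_cons, Multiset.mem_cons, Multiset.mem_singleton]
    rintro (h | h)
    · exact hx0 h.symm
    · exact hy0 h.symm
  · intro t
    have h1 := constant_of_pow (i := 5) hcop hx0 (hd _) t
    have h2 := constant_of_pow (i := 5) hcop hy0 (hd _) t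
    have h4 : ((({(x : ZMod 33), (y : ZMod 33)} : Multiset (ZMod 33))).map (fun a => S 2 33 ((t : ZMod 33) * a))).sum
        = S 2 33 ((t : ZMod 33) * (x : ZMod 33)) + (S 2 33 ((t : ZMod 33) * (y : ZMod 33)) + 0) := rfl
    have h5 : Multiset.card ({(x : ZMod 33), (y : ZMod 33)} : Multiset (ZMod 33)) = 2 := rfl
    rw [h4, h5, add_zero, mul_add, h1, h2]
    ring

/-- Parities of a pair of odd orders. -/
private theorem g4_par {x y ox oy : ℕ} (hx : 33 / Nat.gcd 33 x = ox) (hy : 33 / Nat.gcd 33 y = oy)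
    (hox : Odd ox) (hoy : Odd oy) (I : Finset ℕ) :
    ((par 33 ({(x : ZMod 33), (y : ZMod 33)} : Multiset (ZMod 33)) I : ℕ) : ZMod 2)
      = uv ox.primeFactors I + uv oy.primeFactors I := by
  have h1 : addOrderOf (x : ZMod 33) = ox := (ZMod.addOrderOf_coe x (by norm_num)).trans hx
  have h2 : addOrderOf (y : ZMod 33) = oy := (ZMod.addOrderOf_coe y (by norm_num)).trans hy
  have h3 : ({(x : ZMod 33), (y : ZMod 33)} : Multiset (ZMod 33)) = {(x : ZMod 33)} + {(y : ZMod 33)} :=
    (Multiset.singleton_add _ _).symm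
  have h4 : ∀ (z : ZMod 33), Odd (addOrderOf z) →
      ((par 33 {z} I : ℕ) : ZMod 2) = uv (addOrderOf z).primeFactors I := by
    intro z hz
    unfold par uv
    rw [Multiset.filter_singleton]
    by_cases h : I = (addOrderOf z).primeFactors
    · rw [if_pos h, if_pos ⟨hz, h.symm⟩, Multiset.card_singleton, Nat.cast_one]
    · rw [if_neg h, if_neg fun h' => h h'.2.symm]
      rfl
  rw [h3, par_add, Nat.cast_add, h4 _ (by rw [h1]; exact hox), h4 _ (by rw [h2]; exact hoy), h1, h2]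

private theorem g4_pf3 : Nat.primeFactors 3 = {3} := Nat.Prime.primeFactors (by norm_num)
private theorem g4_pf11 : Nat.primeFactors 11 = {11} := Nat.Prime.primeFactors (by norm_num)
private theorem g4_pf33 : Nat.primeFactors 33 = {3, 11} := by
  rw [show 33 = 3 * 11 by norm_num, Nat.primeFactors_mul (by norm_num) (by norm_num),
    Nat.Prime.primeFactors (by norm_num), Nat.Prime.primeFactors (by norm_num)]
  rfl

/-- `p = 2`, level `33`: balanced pair `{11, 3}` (orders `3` and `11`); `2 ^ 5 = -1` mod `33`. (`by decide`-like, or `constant_of_pow` in `Fermat9.lean`, compare `KV_2_3_5`.) -/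
theorem KV_2_3_11 : KV 2 (fun I => uv {3} I + uv {11} I) := by
  refine KV.of_mem (M := 33) (γ := {((11 : ℕ) : ZMod 33), ((3 : ℕ) : ZMod 33)}) (by norm_num) (by norm_num)
    (Or.inr ⟨g4_bal (by norm_num) (by norm_num), rfl⟩) fun I _ => ?_
  rw [g4_par (ox := 3) (oy := 11) (by norm_num) (by norm_num) (by decide) (by decide), g4_pf3, g4_pf11]

/-- `p = 2`, level `33`: balanced pair `{11, 1}` (orders `3` and `33`). -/
theorem KV_2_3_33 : KV 2 (fun I => uv {3} I + uv {3, 11} I) := by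
  refine KV.of_mem (M := 33) (γ := {((11 : ℕ) : ZMod 33), ((1 : ℕ) : ZMod 33)}) (by norm_num) (by norm_num)
    (Or.inr ⟨g4_bal (by norm_num) (by norm_num), rfl⟩) fun I _ => ?_
  rw [g4_par (ox := 3) (oy := 33) (by norm_num) (by norm_num) (by decide) (by decide), g4_pf3, g4_pf33]

private theorem g4_dvd {m a b : ℕ} (hm : m = 3 ^ a * 11 ^ b ∨ m = 2 * (3 ^ a * 11 ^ b)) :
    m ∣ 2 * (3 ^ a * 11 ^ b) := by
  rcases hm with h | h
  · rw [h]
    exact dvd_mul_left _ _
  · exact dvd_of_eq h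

private theorem g4_sub {m a b : ℕ} (hm : m = 3 ^ a * 11 ^ b ∨ m = 2 * (3 ^ a * 11 ^ b)) :
    ∀ l : ℕ, l.Prime → l ∣ m → l = 2 ∨ l = 3 ∨ l = 11 := by
  intro l hl hlm
  have h := hlm.trans (g4_dvd hm)
  rw [Nat.Prime.dvd_mul hl, Nat.Prime.dvd_mul hl] at h
  rcases h with h | h | h
  · exact Or.inl ((Nat.prime_dvd_prime_iff_eq hl (by norm_num)).1 h)
  · exact Or.inr (Or.inl ((Nat.prime_dvd_prime_iff_eq hl (by norm_num)).1 (hl.dvd_of_dvd_pow h)))
  · exact Or.inr (Or.inr ((Nat.prime_dvd_prime_iff_eq hl (by norm_num)).1 (hl.dvd_of_dvd_pow h)))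

private theorem g4_odd (a b : ℕ) : Odd (3 ^ a * 11 ^ b) :=
  (Odd.pow (by decide)).mul (Odd.pow (by decide))

private theorem g4_four {m a b : ℕ} (hm : m = 3 ^ a * 11 ^ b ∨ m = 2 * (3 ^ a * 11 ^ b)) : ¬ 4 ∣ m := by
  intro h
  have h1 : 2 * 2 ∣ 2 * (3 ^ a * 11 ^ b) := h.trans (g4_dvd hm)
  have h2 : 2 ∣ 3 ^ a * 11 ^ b := (Nat.mul_dvd_mul_iff_left (by norm_num)).1 h1
  exact (Nat.not_even_iff_odd.2 (g4_odd a b)) (even_iff_two_dvd.2 h2)

private theorem g4_sq3 : IsSquare ((3 : ℕ) : ZMod 11) := ⟨5, by decide⟩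

private theorem g4_sq2 : ¬ IsSquare ((2 : ℕ) : ZMod 11) := by
  decide

/-- The claim (A). -/
private theorem g4_A {p m a b : ℕ} (hm : m = 3 ^ a * 11 ^ b ∨ m = 2 * (3 ^ a * 11 ^ b)) (hp : p.Prime)
    (hpm : ¬ p ∣ m) (hm0 : 0 < m) {α : Multiset (ZMod m)} (hα : IsTate p m α) (h11 : 11 ∣ m)
    (hsq : IsSquare (p : ZMod 11)) : xp m α {11} = 0 := by
  classical
  have : NeZero m := ⟨hm0.ne'⟩
  obtain ⟨χ, hprim, hodd, hreal, hker⟩ := exists_char_prime (q := 11) (by norm_num) (by norm_num)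
  have hu : ∀ k : ℕ, ¬ 11 ∣ k → IsUnit (k : ZMod 11) := fun k hk =>
    (ZMod.isUnit_iff_coprime k 11).2 ((Nat.Prime.coprime_iff_not_dvd (by norm_num)).2 hk).symm
  have h3 : χ ((3 : ℕ) : ZMod 11) = 1 := (hker _ (hu 3 (by norm_num))).2 g4_sq3
  have h2 : χ ((2 : ℕ) : ZMod 11) = -1 := by
    rcases hreal _ (hu 2 (by norm_num)) with h | h
    · exfalso
      exact g4_sq2 ((hker _ (hu 2 (by norm_num))).1 h)
    · exact h
  have hp11 : ¬ 11 ∣ p := fun h => hpm (((Nat.prime_dvd_prime_iff_eq (by norm_num) hp).1 h) ▸ h11)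
  have hge := good_even ((Nat.Prime.coprime_iff_not_dvd hp).2 hpm) h11 (by norm_num) (by decide) χ hprim hodd
    hreal ((hker _ (hu p hp11)).2 hsq) (by
      intro l hl hlm hl11
      rcases g4_sub hm l hl hlm with rfl | rfl | rfl
      · exact Or.inr ⟨h2, Or.inr ⟨rfl, g4_four hm⟩⟩
      · exact Or.inl h3
      · exact absurd (dvd_refl _) hl11) hα.1
  have hfil : α.filter (fun a => Good χ a) = α.filter (fun a => Odd (addOrderOf a) ∧ (addOrderOf a).primeFactors = {11}) := by
    refine Multiset.filter_congr fun x _ => ?_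
    unfold Good
    constructor
    · rintro ⟨ho, hd, hl⟩
      refine ⟨ho, ?_⟩
      ext l
      rw [Nat.mem_primeFactors, Finset.mem_singleton]
      constructor
      · rintro ⟨hlp, hlo, _⟩
        rcases g4_sub hm l hlp (hlo.trans (addOrderOf_dvd' x)) with rfl | rfl | rfl
        · exact absurd (even_iff_two_dvd.2 hlo) (Nat.not_even_iff_odd.2 ho)
        · exfalso
          have h4 := hl 3 hlp hlo (by norm_num)
          rw [h3] at h4
          norm_num at h4
        · rfl
      · rintro rfl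
        exact ⟨by norm_num, hd, ho.pos.ne'⟩
    · rintro ⟨ho, hpf⟩
      have hmem : ∀ l : ℕ, l ∈ (addOrderOf x).primeFactors ↔ l = 11 := fun l => by
        rw [hpf, Finset.mem_singleton]
      refine ⟨ho, (Nat.mem_primeFactors.1 ((hmem 11).2 rfl)).2.1, ?_⟩
      intro l hlp hlo hl11
      have := (hmem l).1 (Nat.mem_primeFactors.2 ⟨hlp, hlo, ho.pos.ne'⟩)
      exact absurd (dvd_of_eq this) hl11
  unfold xp par
  rw [ZMod.natCast_eq_zero_iff_even]
  have h5 := hge
  rw [hfil] at h5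
  convert h5

private theorem g4_id1 (x y z u v w : ZMod 2) (h : x + y + z = 0) :
    y * (u + v) + z * (u + w) = x * u + y * v + z * w := by
  revert x y z u v w
  decide

private theorem g4_id2 (x y z u v w : ZMod 2) :
    (x + z) * u + z * (u + w) + y * v = x * u + y * v + z * w := by
  revert x y z u v w
  decide

/-- Write `x3, x11, x33` for `xp m α {3}`, `xp m α {11}`, `xp m α {3, 11}` (`FamG.lean`). By `isGenerated_of_KV_xp`
and `KV_xp` (`l1 = 3, l2 = 11`) it is enough to show `KV p (x3 uv{3} + x11 uv{11} + x33 uv{3,11})`. Use `KV.add`, `KV.smul`, `KV.congr`, `KV.zero`.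
`xp m α I = 0` if `I` contains a prime not dividing `m` (`subset_of_par_ne_zero`).
(A) Claim: if `p ≠ 11` is a square mod `11` and `11 ∣ m` then `x11 = 0`: `good_even` with the character `χ` of `exists_char_prime` (`c = q = 11`; `χ(p) = 1`; a prime `l ∣ m` not dividing
`11` is `3`, and `χ(3) = 1`, `3 = 5 ^ 2` mod `11`, or `2`, and `χ(2) = -1`, `¬ 4 ∣ m`); an element of `ZMod m` is `Good χ` iff its order is odd with set of primes `{11}` (`3` does not divide the order of a good element since `χ(3) = 1 ≠ -1`),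
so the number of good elements is `par m α {11}`.
(B) `p = 2`: then `m = 3 ^ a * 11 ^ b` is odd (`¬ p ∣ m`). If `a = 0` or `b = 0`: `gen_prime_power` (`Gen'` is `IsGenerated` by definition). Otherwise `x3 + x11 + x33 = 0` by `xp_total` (`hα.1.1`, `hα.1.2.1`), so
`x3 = x11 + x33` in `ZMod 2` and the vector is `x11 (uv{3} + uv{11}) + x33 (uv{3} + uv{3,11})`: `KV_2_3_11`, `KV_2_3_33`.
(C) `p = 3`: `a = 0`; `p = 11`: `b = 0`: `gen_prime_power`.
(D) other `p`: the vector is `(x3 + x33) uv{3} + x33 (uv{3} + uv{3,11}) + x11 uv{11}`: `KV_3`, `KV_3_33`, and for the last term: `x11 = 0` if `p` is a square mod `11` (by (A), or because `11 ∤ m`), otherwise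
`KV_pure` with `n = 11` (`even_order_of_not_square`, `exists_neg_one` with `k = 1`). -/
theorem fam_3_11 {p m a b : ℕ} (hm : m = 3 ^ a * 11 ^ b ∨ m = 2 * (3 ^ a * 11 ^ b)) (hp : p.Prime)
    (hpm : ¬ p ∣ m) {α : Multiset (ZMod m)} (hα : IsTate p m α) : IsGenerated p m α := by
  have hm0 : 0 < m := by
    rcases hm with h | h <;> rw [h] <;> positivity
  by_cases ha : a = 0
  · have hm' : m = 11 ^ b ∨ m = 2 * 11 ^ b := by
      rw [ha, pow_zero, one_mul] at hm
      exact hm
    exact gen_prime_power hp hpm (by norm_num : Nat.Prime 11) hm' hα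
  by_cases hb : b = 0
  · have hm' : m = 3 ^ a ∨ m = 2 * 3 ^ a := by
      rw [hb, pow_zero, mul_one] at hm
      exact hm
    exact gen_prime_power hp hpm (by norm_num : Nat.Prime 3) hm' hα
  have h3m : 3 ∣ m := by
    rcases hm with h | h <;> rw [h]
    · exact (dvd_pow_self 3 ha).mul_right _
    · exact ((dvd_pow_self 3 ha).mul_right _).mul_left _
  have h11m : 11 ∣ m := by
    rcases hm with h | h <;> rw [h]
    · exact (dvd_pow_self 11 hb).mul_left _
    · exact ((dvd_pow_self 11 hb).mul_left _).mul_left _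
  have hp3 : p ≠ 3 := fun h => hpm (h ▸ h3m)
  have hp11 : p ≠ 11 := fun h => hpm (h ▸ h11m)
  have h12 : (3 : ℕ) ≠ 11 := by norm_num
  refine isGenerated_of_KV_xp hp hm0 hpm hα (KV_xp hp hm0 h12 (g4_sub hm) α ?_)
  by_cases hp2 : p = 2
  · subst hp2
    have hmo : Odd m := Nat.not_even_iff_odd.1 fun h => hpm (even_iff_two_dvd.1 h)
    have hsub : ∀ l : ℕ, l.Prime → l ∣ m → l = 3 ∨ l = 11 := by
      intro l hl hlm
      rcases g4_sub hm l hl hlm with h | h
      · exact absurd (h ▸ hlm) hpm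
      · exact h
    have ht := xp_total hmo h12 hsub hα.1.1 hα.1.2.1
    exact (((KV_2_3_11.smul hp (xp m α {11})).add hp (KV_2_3_33.smul hp (xp m α {3, 11}))).congr
      fun I _ => g4_id1 _ _ _ _ _ _ ht)
  · have h3 := ((KV_3 hp hp2 hp3).smul hp (xp m α {3} + xp m α {3, 11})).add hp
      ((KV_3_33 hp hp2 hp3 hp11).smul hp (xp m α {3, 11}))
    have h11 : KV p (fun I => xp m α {11} * uv {11} I) := by
      by_cases hsq : IsSquare (p : ZMod 11)
      · have h0 := g4_A hm hp hpm hm0 hα h11m hsq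
        exact (KV.zero hp).congr fun I _ => by rw [h0, zero_mul]
      · have hnd : ¬ 11 ∣ p := fun h => hp11 ((Nat.prime_dvd_prime_iff_eq (by norm_num) hp).1 h).symm
        have hev := even_order_of_not_square (p := p) (q := 11) (by norm_num) hnd hsq
        obtain ⟨i, hi⟩ := exists_neg_one (p := p) (q := 11) (by norm_num) (by norm_num) hnd hev 1
        rw [pow_one] at hi
        have h5 := KV_pure hp hp2 (n := 11) (by decide) (by norm_num) hi
        rw [g4_pf11] at h5
        exact h5.smul hp _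
    exact (h3.add hp h11).congr fun I _ => g4_id2 _ _ _ _ _ _

end Pool.Agent.Lib.MP_021685_agT
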