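import Pool.Agent.Lib.MP_021685_agT.FamH1

/-!
JOB FamH2. The parity condition of an odd character of `2`-power order.
-/

namespace Pool.Agent.Lib.MP_021685_agT

open Finset Pool.Agent.Lib.MP_021685_ag.Fermat

private noncomputable def famH2Av {m : ℕ} [NeZero m] (χ : DirichletCharacter ℂ m) (F : ZMod m → ℂ)
    (a : ZMod m) : ℂ := ∑ t : (ZMod m)ˣ, (χ (t : ZMod m))⁻¹ * F ((t : ZMod m) * a)

private lemma famH2_ne {m : ℕ} (χ : DirichletCharacter ℂ m) (t : (ZMod m)ˣ) : χ (t : ZMod m) ≠ 0 :=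
  (t.isUnit.map χ).ne_zero

private lemma famH2Av_unit {m : ℕ} [NeZero m] (χ : DirichletCharacter ℂ m) (F : ZMod m → ℂ)
    (g : (ZMod m)ˣ) (a : ZMod m) : famH2Av χ F ((g : ZMod m) * a) = χ (g : ZMod m) * famH2Av χ F a := by
  unfold famH2Av
  rw [Finset.mul_sum]
  refine Fintype.sum_equiv (Equiv.mulRight g) _ _ ?_
  intro t
  rw [Equiv.coe_mulRight, Units.val_mul, map_mul, mul_inv, mul_assoc (t : ZMod m)]
  have h := famH2_ne χ g
  field_simp

private lemma famH2Av_dist {m : ℕ} [NeZero m] (χ : DirichletCharacter ℂ m) (F : ZMod m → ℂ)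
    (hF : ∀ l : ℕ, l.Prime → l ∣ m → ∀ (t : (ZMod m)ˣ) (a : ZMod m),
      F ((t : ZMod m) * ((l : ZMod m) * a)) = ∑ i ∈ range l, F ((t : ZMod m) * (a + ((i * (m / l) : ℕ) : ZMod m)))) :
    IsDZ m (famH2Av χ F) := by
  constructor
  intro l hl hlm a
  unfold famH2Av
  rw [Finset.sum_comm]
  refine Finset.sum_congr rfl fun t _ => ?_
  rw [hF l hl hlm t a, Finset.mul_sum]

private lemma famH2_msum {ι : Type*} {m : ℕ} (s : Finset ι) (α : Multiset (ZMod m)) (F : ι → ZMod m → ℂ) :
    (α.map (fun a => ∑ i ∈ s, F i a)).sum = ∑ i ∈ s, (α.map (F i)).sum := by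
  induction α using Multiset.induction_on with
  | empty => simp
  | cons a α ih =>
    rw [Multiset.map_cons, Multiset.sum_cons, ih, ← Finset.sum_add_distrib]
    refine Finset.sum_congr rfl fun i _ => ?_
    rw [Multiset.map_cons, Multiset.sum_cons]

private lemma famH2_mul {m : ℕ} (α : Multiset (ZMod m)) (c : ℂ) (F : ZMod m → ℂ) :
    (α.map (fun a => c * F a)).sum = c * (α.map F).sum := by
  induction α using Multiset.induction_on with
  | empty => simp
  | cons a α ih =>
    rw [Multiset.map_cons, Multiset.sum_cons, ih, Multiset.map_cons, Multiset.sum_cons, mul_add]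

private lemma famH2_cast {m : ℕ} (α : Multiset (ZMod m)) (F : ZMod m → ℤ) :
    (α.map (fun a => ((F a : ℤ) : ℂ))).sum = (((α.map F).sum : ℤ) : ℂ) := by
  induction α using Multiset.induction_on with
  | empty => simp
  | cons a α ih =>
    rw [Multiset.map_cons, Multiset.sum_cons, ih, Multiset.map_cons, Multiset.sum_cons, Int.cast_add]

private lemma famH2_castI {m : ℕ} (α : Multiset (ZMod m)) (F : ZMod m → integralClosure ℤ ℂ) :
    (α.map (fun a => ((F a : integralClosure ℤ ℂ) : ℂ))).sum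
      = (((α.map F).sum : integralClosure ℤ ℂ) : ℂ) := by
  induction α using Multiset.induction_on with
  | empty => simp
  | cons a α ih =>
    rw [Multiset.map_cons, Multiset.sum_cons, ih, Multiset.map_cons, Multiset.sum_cons]
    rfl

private lemma famH2_par {β : Type*} {κ : Type} [Field κ] [CharP κ 2]
    (ρ : (integralClosure ℤ ℂ) →+* κ) (z : β → integralClosure ℤ ℂ) (P : β → Prop)
    [DecidablePred P] (h : ∀ a, (P a → ρ (z a) = 1) ∧ (¬ P a → ρ (z a) = 0)) (α : Multiset β) :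
    ρ ((α.map z).sum) = ((Multiset.card (α.filter P) : ℕ) : κ) := by
  induction α using Multiset.induction_on with
  | empty => simp
  | cons a α ih =>
    rw [Multiset.map_cons, Multiset.sum_cons, map_add, ih]
    by_cases ha : P a
    · rw [Multiset.filter_cons_of_pos _ ha, Multiset.card_cons, (h a).1 ha, Nat.cast_add,
        Nat.cast_one, add_comm]
    · rw [Multiset.filter_cons_of_neg _ ha, (h a).2 ha, zero_add]

open Classical in
/-- Same as `good_even` (`FamC.lean`) for a character of `2`-power order. -/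
theorem good_even_gen {p m c : ℕ} [NeZero m] (hpm : Nat.Coprime p m) (hcm : c ∣ m) (hc1 : 1 < c)
    (hc : Odd c) (χ : DirichletCharacter ℂ c) (hprim : χ.IsPrimitive) (hodd : χ.Odd) {e : ℕ}
    (hχ : ∀ k : ZMod c, IsUnit k → χ k ^ (2 ^ e) = 1) (hχp : χ (p : ZMod c) = 1)
    (hl : ∀ l : ℕ, l.Prime → l ∣ m → ¬ l ∣ c → χ (l : ZMod c) = 1 ∨
      (χ (l : ZMod c) = -1 ∧ l % 4 = 3) ∨ (l = 2 ∧ ¬ 4 ∣ m))
    {α : Multiset (ZMod m)} (hα : IsBalanced p m α) :
    Even (Multiset.card (α.filter (fun a => Good χ a))) := by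
  have hp : IsUnit (p : ZMod m) := by
    have := (ZMod.unitOfCoprime p hpm).isUnit
    rwa [ZMod.coe_unitOfCoprime] at this
  have hc0 : NeZero c := ⟨by omega⟩
  set χ' : DirichletCharacter ℂ m := DirichletCharacter.changeLevel hcm χ with hχ'
  have hval : ∀ u : (ZMod m)ˣ, χ' (u : ZMod m) = χ (ZMod.castHom hcm (ZMod c) (u : ZMod m)) := by
    intro u
    rw [hχ', DirichletCharacter.changeLevel_eq_cast_of_dvd]
    rfl
  have hcond : χ'.conductor = c := by
    rw [hχ', DirichletCharacter.conductor_changeLevel]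
    exact hprim
  have hodd' : χ'.Odd := by
    have h1 := hval (-1)
    have e : ZMod.castHom hcm (ZMod c) (-1) = -1 := by rw [map_neg, map_one]
    rw [Units.val_neg, Units.val_one, e] at h1
    exact h1.trans hodd
  have hχp' : χ' (p : ZMod m) = 1 := by
    have h1 := hval (ZMod.unitOfCoprime p hpm)
    have e : ZMod.castHom hcm (ZMod c) (p : ZMod m) = (p : ZMod c) := map_natCast _ _
    rw [ZMod.coe_unitOfCoprime, e] at h1
    exact h1.trans hχp
  set F : ZMod m → ℂ := fun x => ((PT p m (Nat.totient m) x : ℤ) : ℂ) with hF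
  set Φ : ZMod m → ℂ := famH2Av χ' F with hΦdef
  have hne : Φ ((m / c : ℕ) : ZMod m) ≠ 0 := by
    have h1 := PT_char_ne_zero hpm χ' hodd' hχp'
    rw [hcond] at h1
    exact h1
  have hdist : IsDZ m Φ := by
    apply famH2Av_dist
    intro l hl hlm t a
    have : NeZero l := ⟨hl.ne_zero⟩
    have h1 := sum_PT_fiber (T := Nat.totient m) hp hlm t a
    simp only [hF]
    rw [← h1]
    push_cast
    rfl
  have heig : ∀ (g : (ZMod m)ˣ) (a : ZMod m),
      Φ ((g : ZMod m) * a) = χ (ZMod.castHom hcm (ZMod c) (g : ZMod m)) * Φ a := by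
    intro g a
    rw [hΦdef, famH2Av_unit, hval]
  have hsum : (α.map Φ).sum = 0 := by
    have h3 : (α.map Φ).sum = ∑ t : (ZMod m)ˣ,
        (α.map (fun a => (χ' (t : ZMod m))⁻¹ * F ((t : ZMod m) * a))).sum :=
      famH2_msum Finset.univ α (fun (t : (ZMod m)ˣ) (a : ZMod m) =>
        (χ' (t : ZMod m))⁻¹ * F ((t : ZMod m) * a))
    rw [h3]
    apply Finset.sum_eq_zero
    intro t _
    rw [famH2_mul α ((χ' (t : ZMod m))⁻¹) (fun a => F ((t : ZMod m) * a))]
    have h4 := ((isBalanced_iff p m α).1 hα).2.2 t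
    have h5 := famH2_cast α (fun a => PT p m (Nat.totient m) ((t : ZMod m) * a))
    rw [h4, Int.cast_zero] at h5
    simp only [hF]
    rw [h5, mul_zero]
  obtain ⟨κ, hκ, hκ2, ⟨ρ⟩⟩ := exists_residue_two
  have hv := fun a => char_values_gen ρ hcm hc1 hc χ hprim hχ hl hdist heig a
  choose D z hD hz hgood hbad using hv
  set z' : ZMod m → integralClosure ℤ ℂ :=
    fun a => z a * ∏ b ∈ Finset.univ.erase a, (D b : integralClosure ℤ ℂ) with hz'
  have hρ1 : ∀ n : ℕ, Odd n → ρ (n : integralClosure ℤ ℂ) = 1 := by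
    rintro n ⟨k, rfl⟩
    rw [map_natCast, Nat.cast_add, Nat.cast_mul, Nat.cast_ofNat, Nat.cast_one, CharTwo.two_eq_zero,
      zero_mul, zero_add]
  have hprod : ∀ a, ρ (∏ b ∈ Finset.univ.erase a, (D b : integralClosure ℤ ℂ)) = 1 := by
    intro a
    rw [map_prod]
    exact Finset.prod_eq_one fun b _ => hρ1 _ (hD b)
  have hz'ρ : ∀ a, (Good χ a → ρ (z' a) = 1) ∧ (¬ Good χ a → ρ (z' a) = 0) := by
    intro a
    simp only [hz', map_mul ρ, hprod, mul_one]
    exact ⟨hgood a, hbad a⟩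
  have hval2 : ∀ a, ((∏ b, D b : ℕ) : ℂ) * Φ a
      = ((z' a : integralClosure ℤ ℂ) : ℂ) * Φ ((m / c : ℕ) : ZMod m) := by
    intro a
    have h1 : (∏ b, D b : ℕ) = D a * ∏ b ∈ Finset.univ.erase a, D b :=
      (Finset.mul_prod_erase _ _ (Finset.mem_univ a)).symm
    have h2 : ((z' a : integralClosure ℤ ℂ) : ℂ)
        = (z a : ℂ) * ∏ b ∈ Finset.univ.erase a, (D b : ℂ) := by
      simp only [hz']
      push_cast
      rfl
    rw [h1, h2]
    push_cast
    linear_combination (∏ b ∈ Finset.univ.erase a, (D b : ℂ)) * hz a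
  have hzsum : (α.map z').sum = 0 := by
    have h1 : (α.map (fun a => Φ ((m / c : ℕ) : ZMod m)
        * ((z' a : integralClosure ℤ ℂ) : ℂ))).sum = 0 := by
      have h2 : (fun a => Φ ((m / c : ℕ) : ZMod m) * ((z' a : integralClosure ℤ ℂ) : ℂ)) =
          fun a => ((∏ b, D b : ℕ) : ℂ) * Φ a := by
        funext a
        rw [hval2 a, mul_comm]
      rw [h2, famH2_mul, hsum, mul_zero]
    rw [famH2_mul, famH2_castI] at h1
    have h3 := (mul_eq_zero.1 h1).resolve_left hne
    exact Subtype.ext h3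
  have hfin := famH2_par ρ z' (fun a => Good χ a) hz'ρ α
  rw [hzsum, map_zero] at hfin
  exact even_iff_two_dvd.2 ((CharP.cast_eq_zero_iff κ 2 _).1 hfin.symm)

end Pool.Agent.Lib.MP_021685_agT
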