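import Mathlib

/-!
JOB FamH3. Characters of `2`-power order modulo a prime, and the real character modulo `39`.
-/

namespace Pool.Agent.Lib.MP_021685_agT

/-- For an odd prime `q` there is a primitive odd character modulo `q` whose values on units have `2`-power order; it is trivial on elements of odd order.

Proof. `q - 1 = 2 ^ e * s`, `s` odd. `MulChar.exists_mulChar_orderOf` gives `χ` of order `2 ^ e` (`ζ = exp (2 π i / 2 ^ e)`). `χ` is odd: with a generator `g` of the units, `χ g` has order exactly `2 ^ e`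
(`χ` is determined by `χ g`), `-1 = g ^ ((q - 1) / 2) = g ^ (2 ^ (e - 1) * s)`, so `χ (-1) = ((χ g) ^ (2 ^ (e - 1))) ^ s = (-1) ^ s = -1`. Primitive: the conductor divides the prime `q` and is not `1` as `χ ≠ 1`.
If `k` has odd order `d`, `χ k` has order dividing `d` and `2 ^ e`, so `χ k = 1`. -/
theorem exists_char_two_power {q : ℕ} (hq : q.Prime) (hq2 : q ≠ 2) :
    ∃ (χ : DirichletCharacter ℂ q) (e : ℕ), χ.IsPrimitive ∧ χ.Odd ∧
      (∀ k : ZMod q, IsUnit k → χ k ^ (2 ^ e) = 1) ∧
      (∀ k : ZMod q, IsUnit k → Odd (orderOf k) → χ k = 1) := by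
  have : Fact q.Prime := ⟨hq⟩
  have : NeZero q := ⟨hq.ne_zero⟩
  have hqodd : Odd q := hq.odd_of_ne_two hq2
  have hq1 : q - 1 ≠ 0 := by
    have := hq.two_le
    omega
  obtain ⟨e, s, hs, hes⟩ := Nat.exists_eq_two_pow_mul_odd hq1
  have he : e ≠ 0 := by
    rintro rfl
    rw [pow_zero, one_mul] at hes
    rw [← hes] at hs
    obtain ⟨k, hk⟩ := hqodd
    obtain ⟨l, hl⟩ := hs
    omega
  obtain ⟨f, rfl⟩ := Nat.exists_eq_succ_of_ne_zero he
  have h2e : (2 : ℕ) ^ (f + 1) ≠ 0 := pow_ne_zero _ (by norm_num)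
  obtain ⟨χ, hχ⟩ := MulChar.exists_mulChar_orderOf (R := ℂ) (ZMod q) (n := 2 ^ (f + 1))
    (by rw [ZMod.card, hes]; exact dvd_mul_right _ _) (Complex.isPrimitiveRoot_exp _ h2e)
  have hval : ∀ k : ZMod q, IsUnit k → χ k ^ (2 ^ (f + 1)) = 1 := by
    intro k hk
    rw [← MulChar.pow_apply' χ h2e, ← hχ, pow_orderOf_eq_one, MulChar.one_apply hk]
  -- `χ (-1) ≠ 1`
  have hne : χ (-1) ≠ 1 := by
    intro h1
    obtain ⟨g, hg⟩ := IsCyclic.exists_generator (α := (ZMod q)ˣ)
    have hog : orderOf g = q - 1 := by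
      rw [orderOf_eq_card_of_forall_mem_zpowers hg, Nat.card_eq_fintype_card, ZMod.card_units]
    have hgm : (g : ZMod q) ^ (2 ^ f * s) = -1 := by
      have h2 : ((g : ZMod q) ^ (2 ^ f * s)) ^ 2 = 1 := by
        rw [← pow_mul, show 2 ^ f * s * 2 = 2 ^ (f + 1) * s by ring, ← hes, ← hog, ← Units.val_pow_eq_pow_val,
          pow_orderOf_eq_one, Units.val_one]
      rcases sq_eq_one_iff.1 h2 with h3 | h3
      · exfalso
        have h4 : g ^ (2 ^ f * s) = 1 := by
          ext
          rw [Units.val_pow_eq_pow_val, h3, Units.val_one]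
        have h5 := orderOf_dvd_of_pow_eq_one h4
        rw [hog, hes] at h5
        have h6 : 0 < 2 ^ f * s := Nat.mul_pos (by positivity) hs.pos
        have h7 := Nat.le_of_dvd h6 h5
        have h8 : 2 ^ (f + 1) * s = 2 * (2 ^ f * s) := by ring
        rw [h8] at h7
        linarith
      · exact h3
    have hgs : (χ (g : ZMod q) ^ (2 ^ f)) ^ s = 1 := by
      rw [← pow_mul, ← map_pow, hgm, h1]
    have hg2 : (χ (g : ZMod q) ^ (2 ^ f)) ^ 2 = 1 := by
      rw [← pow_mul, ← pow_succ]
      exact hval _ g.isUnit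
    have hg1 : χ (g : ZMod q) ^ (2 ^ f) = 1 := by
      obtain ⟨j, hj⟩ := hs
      rw [hj, pow_succ, pow_mul, hg2, one_pow, one_mul] at hgs
      exact hgs
    have htriv : χ ^ (2 ^ f) = 1 := by
      apply MulChar.ext
      intro u
      rw [MulChar.pow_apply_coe, MulChar.one_apply_coe]
      obtain ⟨n, hn⟩ := (mem_powers_iff_mem_zpowers.2 (hg u))
      have hn' : g ^ n = u := hn
      rw [← hn', Units.val_pow_eq_pow_val, map_pow, ← pow_mul, mul_comm, pow_mul, hg1, one_pow]
    have h9 := orderOf_dvd_of_pow_eq_one htriv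
    rw [hχ] at h9
    have h10 := Nat.le_of_dvd (by positivity) h9
    have h11 : 2 ^ (f + 1) = 2 * 2 ^ f := by ring
    have h12 : 0 < 2 ^ f := by positivity
    omega
  have hodd : χ (-1) = -1 := by
    have h2 : χ (-1) ^ 2 = 1 := by
      rw [← map_pow, neg_one_sq, map_one]
    rcases sq_eq_one_iff.1 h2 with h3 | h3
    · exact absurd h3 hne
    · exact h3
  refine ⟨χ, f + 1, ?_, hodd, hval, ?_⟩
  · show DirichletCharacter.IsPrimitive (χ : DirichletCharacter ℂ q)
    rw [DirichletCharacter.isPrimitive_def]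
    rcases (Nat.dvd_prime hq).mp (DirichletCharacter.conductor_dvd_level (χ : DirichletCharacter ℂ q)) with h | h
    · exfalso
      have h1 : χ = 1 := DirichletCharacter.eq_one_iff_conductor_eq_one.mpr h
      apply hne
      rw [h1, MulChar.one_apply (isUnit_one.neg)]
    · exact h
  · intro k hk hko
    have h1 : χ k ^ orderOf k = 1 := by
      rw [← map_pow, pow_orderOf_eq_one, map_one]
    have h2 := orderOf_dvd_of_pow_eq_one h1
    have h3 := orderOf_dvd_of_pow_eq_one (hval k hk)
    have h4 : Nat.Coprime (orderOf k) (2 ^ (f + 1)) :=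
      (Nat.Coprime.pow_right _ (Nat.coprime_two_right.2 hko))
    have h5 := Nat.eq_one_of_dvd_coprimes h4 h2 h3
    exact orderOf_eq_one_iff.1 h5

/-- The table of the character `(-39 / ·)`. -/
private def FamH3_tab (k : ZMod 39) : ℤ :=
  if k ∈ ({1, 2, 4, 5, 8, 10, 11, 16, 20, 22, 25, 32} : Finset (ZMod 39)) then 1
  else if Nat.gcd k.val 39 = 1 then -1 else 0

private theorem FamH3_one : FamH3_tab 1 = 1 := by decide +kernel

private theorem FamH3_mul : ∀ a b : ZMod 39, FamH3_tab (a * b) = FamH3_tab a * FamH3_tab b := by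
  decide +kernel

private theorem FamH3_inv : ∀ a : ZMod 39, FamH3_tab a ≠ 0 → ∃ b, a * b = 1 := by decide +kernel

private theorem FamH3_val : ∀ k : ZMod 39, (∃ b, k * b = 1) → FamH3_tab k = 1 ∨ FamH3_tab k = -1 := by
  decide +kernel

private theorem FamH3_iff : ∀ k : ZMod 39, FamH3_tab k = 1 ↔
    k ∈ ({1, 2, 4, 5, 8, 10, 11, 16, 20, 22, 25, 32} : Finset (ZMod 39)) := by
  decide +kernel

/-- The character `(-39 / ·)` with integer values. -/
private def FamH3_char : MulChar (ZMod 39) ℤ where
  toFun := FamH3_tab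
  map_one' := FamH3_one
  map_mul' := FamH3_mul
  map_nonunit' := by
    intro a ha
    by_contra h
    obtain ⟨b, hb⟩ := FamH3_inv a h
    exact ha (IsUnit.of_mul_eq_one b hb)

private theorem FamH3_apply (k : ZMod 39) : FamH3_char k = FamH3_tab k := rfl

/-- The character `(-39 / ·)` modulo `39`: primitive, odd, real, with the kernel below.
(Product of the quadratic characters modulo `3` and `13`; or a `MulChar (ZMod 39) ℤ` defined by a table with the properties checked by `decide`, mapped to `ℂ`; compare `exists_char_15` in `FamD.lean`.) -/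
theorem exists_char_39 :
    ∃ χ : DirichletCharacter ℂ 39, χ.IsPrimitive ∧ χ.Odd ∧
      (∀ k : ZMod 39, IsUnit k → χ k = 1 ∨ χ k = -1) ∧
      (∀ k : ZMod 39, χ k = 1 ↔
        k ∈ ({1, 2, 4, 5, 8, 10, 11, 16, 20, 22, 25, 32} : Finset (ZMod 39))) := by
  let χ : DirichletCharacter ℂ 39 := FamH3_char.ringHomComp (Int.castRingHom ℂ)
  have hval : ∀ k : ZMod 39, χ k = ((FamH3_tab k : ℤ) : ℂ) := fun k => by
    simp [χ, MulChar.ringHomComp_apply, FamH3_apply]
  refine ⟨χ, ?_, ?_, ?_, ?_⟩
  · rw [DirichletCharacter.isPrimitive_def]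
    have hdvd := DirichletCharacter.conductor_dvd_level χ
    have hft := DirichletCharacter.factorsThrough_conductor χ
    rw [DirichletCharacter.factorsThrough_iff_ker_unitsMap hdvd] at hft
    have key : ∀ (a : (ZMod 39)ˣ), ((a : ZMod 39).val : ℕ) % χ.conductor = 1 % χ.conductor → χ (a : ZMod 39) = 1 := by
      intro a ha
      have h1 : a ∈ (ZMod.unitsMap hdvd).ker := by
        rw [MonoidHom.mem_ker]
        ext
        rw [ZMod.unitsMap_val]
        have h2 : ((a : ZMod 39).cast : ZMod χ.conductor) = (((a : ZMod 39).val : ℕ) : ZMod χ.conductor) := by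
          rw [ZMod.natCast_val]
        rw [h2]
        have h3 : (((a : ZMod 39).val : ℕ) : ZMod χ.conductor) = ((1 : ℕ) : ZMod χ.conductor) :=
          (ZMod.natCast_eq_natCast_iff _ _ _).mpr ha
        rw [h3]
        simp
      have h4 := hft h1
      rw [MonoidHom.mem_ker] at h4
      have h5 := congrArg (fun u : ℂˣ => (u : ℂ)) h4
      simpa using h5
    have hle : χ.conductor ≤ 39 := Nat.le_of_dvd (by norm_num) hdvd
    have h7 : ¬ (7 % χ.conductor = 1 % χ.conductor) := by
      intro h
      have := key (Units.mk (7 : ZMod 39) 28 (by decide) (by decide)) h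
      rw [hval] at this
      have h8 : FamH3_tab 7 = -1 := by decide +kernel
      change ((FamH3_tab 7 : ℤ) : ℂ) = 1 at this
      rw [h8] at this
      norm_num at this
    have h14 : ¬ (14 % χ.conductor = 1 % χ.conductor) := by
      intro h
      have := key (Units.mk (14 : ZMod 39) 14 (by decide) (by decide)) h
      rw [hval] at this
      have h8 : FamH3_tab 14 = -1 := by decide +kernel
      change ((FamH3_tab 14 : ℤ) : ℂ) = 1 at this
      rw [h8] at this
      norm_num at this
    generalize χ.conductor = c at hdvd hle h7 h14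
    have hmem : c ∈ Nat.divisors 39 := Nat.mem_divisors.mpr ⟨hdvd, by norm_num⟩
    have hdiv : Nat.divisors 39 = {1, 3, 13, 39} := by decide +kernel
    rw [hdiv] at hmem
    simp only [Finset.mem_insert, Finset.mem_singleton] at hmem
    rcases hmem with rfl | rfl | rfl | rfl
    · exact absurd rfl h7
    · exact absurd rfl h7
    · exact absurd rfl h14
    · rfl
  · change χ (-1) = -1
    rw [hval]
    have : FamH3_tab (-1) = -1 := by decide +kernel
    rw [this]
    norm_num
  · intro k hk
    rw [hval]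
    have hk' : ∃ b, k * b = 1 := by
      obtain ⟨u, rfl⟩ := hk
      exact ⟨(u⁻¹ : (ZMod 39)ˣ), by simp⟩
    rcases FamH3_val k hk' with h | h <;> rw [h] <;> norm_num
  · intro k
    rw [hval]
    rw [← FamH3_iff k]
    norm_cast

end Pool.Agent.Lib.MP_021685_agT
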