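import Pool.Agent.Lib.MP_021685_agT.FamG
import Pool.Agent.Lib.MP_021685_agT.FamF2
import Pool.Agent.Lib.MP_021685_agT.FamH2
import Pool.Agent.Lib.MP_021685_agT.FamH3

/-!
JOB FamG5. Degrees `3 ^ a * 13 ^ b` and `2 * 3 ^ a * 13 ^ b`.
-/

namespace Pool.Agent.Lib.MP_021685_agT

open Finset Pool.Agent.Lib.MP_021685_ag.Fermat

private theorem g5_dvd {m a b : ℕ} (hm : m = 3 ^ a * 13 ^ b ∨ m = 2 * (3 ^ a * 13 ^ b)) :
    m ∣ 2 * (3 ^ a * 13 ^ b) := by
  rcases hm with h | h
  · rw [h]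
    exact dvd_mul_left _ _
  · exact dvd_of_eq h

private theorem g5_sub {m a b : ℕ} (hm : m = 3 ^ a * 13 ^ b ∨ m = 2 * (3 ^ a * 13 ^ b)) :
    ∀ l : ℕ, l.Prime → l ∣ m → l = 2 ∨ l = 3 ∨ l = 13 := by
  intro l hl hlm
  have h := hlm.trans (g5_dvd hm)
  rw [Nat.Prime.dvd_mul hl, Nat.Prime.dvd_mul hl] at h
  rcases h with h | h | h
  · exact Or.inl ((Nat.prime_dvd_prime_iff_eq hl (by norm_num)).1 h)
  · exact Or.inr (Or.inl ((Nat.prime_dvd_prime_iff_eq hl (by norm_num)).1 (hl.dvd_of_dvd_pow h)))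
  · exact Or.inr (Or.inr ((Nat.prime_dvd_prime_iff_eq hl (by norm_num)).1 (hl.dvd_of_dvd_pow h)))

private theorem g5_odd (a b : ℕ) : Odd (3 ^ a * 13 ^ b) :=
  (Odd.pow (by decide)).mul (Odd.pow (by decide))

private theorem g5_four {m a b : ℕ} (hm : m = 3 ^ a * 13 ^ b ∨ m = 2 * (3 ^ a * 13 ^ b)) : ¬ 4 ∣ m := by
  intro h
  have h1 : 2 * 2 ∣ 2 * (3 ^ a * 13 ^ b) := h.trans (g5_dvd hm)
  have h2 : 2 ∣ 3 ^ a * 13 ^ b := (Nat.mul_dvd_mul_iff_left (by norm_num)).1 h1
  exact (Nat.not_even_iff_odd.2 (g5_odd a b)) (even_iff_two_dvd.2 h2)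

private theorem g5_unit13 (k : ℕ) (hk : ¬ 13 ∣ k) : IsUnit (k : ZMod 13) :=
  (ZMod.isUnit_iff_coprime k 13).2 ((Nat.Prime.coprime_iff_not_dvd (by norm_num)).2 hk).symm

private theorem g5_ord3 : orderOf ((3 : ℕ) : ZMod 13) = 3 := by
  refine orderOf_eq_prime ?_ ?_
  · decide
  · decide

/-- The claim (A). -/
private theorem g5_A {p m a b : ℕ} (hm : m = 3 ^ a * 13 ^ b ∨ m = 2 * (3 ^ a * 13 ^ b)) (hp : p.Prime)
    (hpm : ¬ p ∣ m) (hm0 : 0 < m) {α : Multiset (ZMod m)} (hα : IsTate p m α) (h13 : 13 ∣ m)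
    (hord : Odd (orderOf (p : ZMod 13))) : xp m α {13} = 0 := by
  classical
  have : NeZero m := ⟨hm0.ne'⟩
  obtain ⟨χ, e, hprim, hodd, hval, hker⟩ := exists_char_two_power (q := 13) (by norm_num) (by norm_num)
  have h3 : χ ((3 : ℕ) : ZMod 13) = 1 := hker _ (g5_unit13 3 (by norm_num)) (by rw [g5_ord3]; decide)
  have hp13 : ¬ 13 ∣ p := fun h => hpm (((Nat.prime_dvd_prime_iff_eq (by norm_num) hp).1 h) ▸ h13)
  have hge := good_even_gen ((Nat.Prime.coprime_iff_not_dvd hp).2 hpm) h13 (by norm_num) (by decide) χ hprim hodd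
    hval (hker _ (g5_unit13 p hp13) hord) (by
      intro l hl hlm hl13
      rcases g5_sub hm l hl hlm with rfl | rfl | rfl
      · exact Or.inr (Or.inr ⟨rfl, g5_four hm⟩)
      · exact Or.inl h3
      · exact absurd (dvd_refl _) hl13) hα.1
  have hfil : α.filter (fun a => Good χ a) = α.filter (fun a => Odd (addOrderOf a) ∧ (addOrderOf a).primeFactors = {13}) := by
    refine Multiset.filter_congr fun x _ => ?_
    unfold Good
    constructor
    · rintro ⟨ho, hd, hl⟩
      refine ⟨ho, ?_⟩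
      ext l
      rw [Nat.mem_primeFactors, Finset.mem_singleton]
      constructor
      · rintro ⟨hlp, hlo, _⟩
        rcases g5_sub hm l hlp (hlo.trans (addOrderOf_dvd' x)) with rfl | rfl | rfl
        · exact absurd (even_iff_two_dvd.2 hlo) (Nat.not_even_iff_odd.2 ho)
        · exfalso
          have h4 := hl 3 hlp hlo (by norm_num)
          rw [h3] at h4
          norm_num at h4
        · rfl
      · rintro rfl
        exact ⟨by norm_num, hd, ho.pos.ne'⟩
    · rintro ⟨ho, hpf⟩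
      have hmem : ∀ l : ℕ, l ∈ (addOrderOf x).primeFactors ↔ l = 13 := fun l => by
        rw [hpf, Finset.mem_singleton]
      refine ⟨ho, (Nat.mem_primeFactors.1 ((hmem 13).2 rfl)).2.1, ?_⟩
      intro l hlp hlo hl13
      have := (hmem l).1 (Nat.mem_primeFactors.2 ⟨hlp, hlo, ho.pos.ne'⟩)
      exact absurd (dvd_of_eq this) hl13
  unfold xp par
  rw [ZMod.natCast_eq_zero_iff_even]
  have h5 := hge
  rw [hfil] at h5
  convert h5

/-- The claim (B). -/
private theorem g5_B {p m a b : ℕ} (hm : m = 3 ^ a * 13 ^ b ∨ m = 2 * (3 ^ a * 13 ^ b)) (hp : p.Prime)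
    (hpm : ¬ p ∣ m) (hm0 : 0 < m) {α : Multiset (ZMod m)} (hα : IsTate p m α) (h39 : 39 ∣ m)
    (hmem : (p : ZMod 39) ∈ ({1, 2, 4, 5, 8, 10, 11, 16, 20, 22, 25, 32} : Finset (ZMod 39))) :
    xp m α {3, 13} = 0 := by
  classical
  have : NeZero m := ⟨hm0.ne'⟩
  obtain ⟨χ, hprim, hodd, hreal, hker⟩ := exists_char_39
  have h2 : χ ((2 : ℕ) : ZMod 39) = 1 := (hker _).2 (by decide)
  have h39' : ∀ l : ℕ, l.Prime → l ∣ 39 → l = 3 ∨ l = 13 := by
    intro l hl h
    have h' : l ∣ 3 * 13 := h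
    rcases (Nat.Prime.dvd_mul hl).1 h' with h'' | h''
    · exact Or.inl ((Nat.prime_dvd_prime_iff_eq hl (by norm_num)).1 h'')
    · exact Or.inr ((Nat.prime_dvd_prime_iff_eq hl (by norm_num)).1 h'')
  have hge := good_even ((Nat.Prime.coprime_iff_not_dvd hp).2 hpm) h39 (by norm_num) (by decide) χ hprim hodd
    hreal ((hker _).2 hmem) (by
      intro l hl hlm hl39
      rcases g5_sub hm l hl hlm with rfl | rfl | rfl
      · exact Or.inl h2
      · exact absurd (by norm_num) hl39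
      · exact absurd (by norm_num) hl39) hα.1
  have hfil : α.filter (fun a => Good χ a) = α.filter (fun a => Odd (addOrderOf a) ∧ (addOrderOf a).primeFactors = {3, 13}) := by
    refine Multiset.filter_congr fun x _ => ?_
    unfold Good
    constructor
    · rintro ⟨ho, hd, hl⟩
      refine ⟨ho, ?_⟩
      ext l
      rw [Nat.mem_primeFactors, Finset.mem_insert, Finset.mem_singleton]
      constructor
      · rintro ⟨hlp, hlo, _⟩
        rcases g5_sub hm l hlp (hlo.trans (addOrderOf_dvd' x)) with rfl | rfl | rfl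
        · exact absurd (even_iff_two_dvd.2 hlo) (Nat.not_even_iff_odd.2 ho)
        · exact Or.inl rfl
        · exact Or.inr rfl
      · rintro (rfl | rfl)
        · exact ⟨by norm_num, (show (3 : ℕ) ∣ 39 by norm_num).trans hd, ho.pos.ne'⟩
        · exact ⟨by norm_num, (show (13 : ℕ) ∣ 39 by norm_num).trans hd, ho.pos.ne'⟩
    · rintro ⟨ho, hpf⟩
      have hmem' : ∀ l : ℕ, l ∈ (addOrderOf x).primeFactors ↔ l = 3 ∨ l = 13 := fun l => by
        rw [hpf, Finset.mem_insert, Finset.mem_singleton]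
      have hd3 := (Nat.mem_primeFactors.1 ((hmem' 3).2 (Or.inl rfl))).2.1
      have hd13 := (Nat.mem_primeFactors.1 ((hmem' 13).2 (Or.inr rfl))).2.1
      refine ⟨ho, (Nat.Coprime.mul_dvd_of_dvd_of_dvd (show Nat.Coprime 3 13 by norm_num) hd3 hd13 : 3 * 13 ∣ _), ?_⟩
      intro l hlp hlo hl39
      rcases (hmem' l).1 (Nat.mem_primeFactors.2 ⟨hlp, hlo, ho.pos.ne'⟩) with rfl | rfl
      · exact absurd (by norm_num) hl39
      · exact absurd (by norm_num) hl39
  unfold xp par
  rw [ZMod.natCast_eq_zero_iff_even]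
  have h5 := hge
  rw [hfil] at h5
  convert h5

private theorem g5_id1 (x y u v w : ZMod 2) (h : x + y + 0 = 0) :
    x * (u + v) = x * u + y * v + 0 * w := by
  revert x y u v w
  decide

/-- Write `x3, x13, x39` for `xp m α {3}`, `xp m α {13}`, `xp m α {3, 13}` (`FamG.lean`). By `isGenerated_of_KV_xp`
and `KV_xp` (`l1 = 3, l2 = 13`) it is enough to show `KV p (x3 uv{3} + x13 uv{13} + x39 uv{3,13})`. Use `KV.add`, `KV.smul`, `KV.congr`, `KV.zero`.
`xp m α I = 0` if `I` contains a prime not dividing `m` (`subset_of_par_ne_zero`).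
(A) Claim: if the order of `p` mod `13` is odd (`p ≠ 13`) and `13 ∣ m` then `x13 = 0`: `good_even_gen` with the character `χ` of `exists_char_two_power` (`c = q = 13`; `χ(p) = 1`; a prime `l ∣ m` not dividing
`13` is `3`, and `χ(3) = 1` because `3` has order `3` mod `13`, or `2`, and `¬ 4 ∣ m`); an element of `ZMod m` is `Good χ` iff its order is odd with set of primes `{13}` (`3` does not divide the order of a good element since `χ(3) = 1 ≠ -1`),
so the number of good elements is `par m α {13}`.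
(B) Claim: if `p mod 39` is in the list of `exists_char_39` and `39 ∣ m` then `x39 = 0`: `good_even` with that character (`c = 39`; the only prime `l ∣ m` not dividing `39` is `2`, `χ(2) = 1`); good iff odd order with primes `{3, 13}`.
(C) `p = 2`: then `m = 3 ^ a * 13 ^ b` is odd (`¬ p ∣ m`). If `a = 0` or `b = 0`: `gen_prime_power` (`Gen'` is `IsGenerated` by definition). Otherwise `x39 = 0` by (B) and `x3 + x13 + x39 = 0` by `xp_total` (`hα.1.1`, `hα.1.2.1`), so
`x13 = x3` and the vector is `x3 (uv{3} + uv{13})`: `KV_2_3_13`.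
(D) `p = 3`: `a = 0`; `p = 13`: `b = 0`: `gen_prime_power`.
(E) other `p`: first term `KV_3`; second: `x13 = 0` if the order of `p` mod `13` is odd (by (A), or because `13 ∤ m`), otherwise
`KV_pure` with `n = 13` (`exists_neg_one` with `k = 1`); third: `x39 = 0` by (B) (or because `39 ∤ m`), or `KV_39`. -/
theorem fam_3_13 {p m a b : ℕ} (hm : m = 3 ^ a * 13 ^ b ∨ m = 2 * (3 ^ a * 13 ^ b)) (hp : p.Prime)
    (hpm : ¬ p ∣ m) {α : Multiset (ZMod m)} (hα : IsTate p m α) : IsGenerated p m α := by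
  have hm0 : 0 < m := by
    rcases hm with h | h <;> rw [h] <;> positivity
  by_cases ha : a = 0
  · have hm' : m = 13 ^ b ∨ m = 2 * 13 ^ b := by
      rw [ha, pow_zero, one_mul] at hm
      exact hm
    exact gen_prime_power hp hpm (by norm_num : Nat.Prime 13) hm' hα
  by_cases hb : b = 0
  · have hm' : m = 3 ^ a ∨ m = 2 * 3 ^ a := by
      rw [hb, pow_zero, mul_one] at hm
      exact hm
    exact gen_prime_power hp hpm (by norm_num : Nat.Prime 3) hm' hα
  have h3m : 3 ∣ m := by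
    rcases hm with h | h <;> rw [h]
    · exact (dvd_pow_self 3 ha).mul_right _
    · exact ((dvd_pow_self 3 ha).mul_right _).mul_left _
  have h13m : 13 ∣ m := by
    rcases hm with h | h <;> rw [h]
    · exact (dvd_pow_self 13 hb).mul_left _
    · exact ((dvd_pow_self 13 hb).mul_left _).mul_left _
  have h39m : 39 ∣ m :=
    (Nat.Coprime.mul_dvd_of_dvd_of_dvd (show Nat.Coprime 3 13 by norm_num) h3m h13m : 3 * 13 ∣ m)
  have hp3 : p ≠ 3 := fun h => hpm (h ▸ h3m)
  have hp13 : p ≠ 13 := fun h => hpm (h ▸ h13m)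
  have h12 : (3 : ℕ) ≠ 13 := by norm_num
  refine isGenerated_of_KV_xp hp hm0 hpm hα (KV_xp hp hm0 h12 (g5_sub hm) α ?_)
  by_cases hp2 : p = 2
  · subst hp2
    have hmo : Odd m := Nat.not_even_iff_odd.1 fun h => hpm (even_iff_two_dvd.1 h)
    have hsub : ∀ l : ℕ, l.Prime → l ∣ m → l = 3 ∨ l = 13 := by
      intro l hl hlm
      rcases g5_sub hm l hl hlm with h | h
      · exact absurd (h ▸ hlm) hpm
      · exact h
    have ht := xp_total hmo h12 hsub hα.1.1 hα.1.2.1
    have h0 := g5_B hm hp hpm hm0 hα h39m (by decide)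
    rw [h0] at ht ⊢
    exact (KV_2_3_13.smul hp (xp m α {3})).congr fun I _ => g5_id1 _ _ _ _ _ ht
  · have h3 := (KV_3 hp hp2 hp3).smul hp (xp m α {3})
    have h13 : KV p (fun I => xp m α {13} * uv {13} I) := by
      by_cases hord : Odd (orderOf (p : ZMod 13))
      · have h0 := g5_A hm hp hpm hm0 hα h13m hord
        exact (KV.zero hp).congr fun I _ => by rw [h0, zero_mul]
      · have hnd : ¬ 13 ∣ p := fun h => hp13 ((Nat.prime_dvd_prime_iff_eq (by norm_num) hp).1 h).symm
        obtain ⟨i, hi⟩ := exists_neg_one (p := p) (q := 13) (by norm_num) (by norm_num) hnd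
          (Nat.not_odd_iff_even.1 hord) 1
        rw [pow_one] at hi
        have h5 := KV_pure hp hp2 (n := 13) (by decide) (by norm_num) hi
        rw [show Nat.primeFactors 13 = {13} from Nat.Prime.primeFactors (by norm_num)] at h5
        exact h5.smul hp _
    have h39 : KV p (fun I => xp m α {3, 13} * uv {3, 13} I) := by
      by_cases hmem : (p : ZMod 39) ∈ ({1, 2, 4, 5, 8, 10, 11, 16, 20, 22, 25, 32} : Finset (ZMod 39))
      · have h0 := g5_B hm hp hpm hm0 hα h39m hmem
        exact (KV.zero hp).congr fun I _ => by rw [h0, zero_mul]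
      · exact (KV_39 hp hp2 hp3 hp13 hmem).smul hp _
    exact (h3.add hp h13).add hp h39

end Pool.Agent.Lib.MP_021685_agT
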