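import Pool.Agent.Lib.MP_021685_agT.FamG
import Pool.Agent.Lib.MP_021685_agT.FamH2
import Pool.Agent.Lib.MP_021685_agT.FamH3

/-!
JOB FamG6. Degrees `2 ^ a * q ^ b`, `2` of odd order modulo the prime `q`.
-/

namespace Pool.Agent.Lib.MP_021685_agT

open Finset Pool.Agent.Lib.MP_021685_ag.Fermat

private lemma famG6_prime_dvd {q a b l : ℕ} (hq : q.Prime) (hl : l.Prime)
    (h : l ∣ 2 ^ a * q ^ b) : l = 2 ∨ l = q := by
  rcases (Nat.Prime.dvd_mul hl).1 h with h | h
  · exact Or.inl ((Nat.prime_dvd_prime_iff_eq hl Nat.prime_two).1 (hl.dvd_of_dvd_pow h))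
  · exact Or.inr ((Nat.prime_dvd_prime_iff_eq hl hq).1 (hl.dvd_of_dvd_pow h))

private lemma famG6_decomp {q a b : ℕ} (hq : q.Prime) (α : Multiset (ZMod (2 ^ a * q ^ b)))
    (I : Finset ℕ) (hI : I.Nonempty) :
    xp (2 ^ a * q ^ b) α {q} * uv {q} I = xp (2 ^ a * q ^ b) α I := by
  have hm : 0 < 2 ^ a * q ^ b := Nat.mul_pos (Nat.pow_pos (by norm_num)) (Nat.pow_pos hq.pos)
  unfold uv
  split_ifs with h
  · rw [mul_one, h]
  · rw [mul_zero]
    by_contra h6
    apply h
    have h7 : par (2 ^ a * q ^ b) α I ≠ 0 := fun h7 => h6 (by unfold xp; rw [h7]; rfl)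
    have hs := subset_of_par_ne_zero hm h7
    have hs' : ∀ l ∈ I, l = q := by
      intro l hl
      have h1 := hs hl
      rw [Finset.mem_erase, Nat.mem_primeFactors] at h1
      rcases famG6_prime_dvd hq h1.2.1 h1.2.2.1 with h | h
      · exact absurd h h1.1
      · exact h
    exact (Finset.eq_singleton_iff_nonempty_unique_mem).2 ⟨hI, hs'⟩

/-- Write `m = 2 ^ a * q ^ b`, `x = xp m α {q}` (`FamG.lean`). By `isGenerated_of_KV_xp` it is enough to show `KV p (xp m α)`, and `xp m α I = x * uv {q} I` for `I` nonempty, because
`xp m α I = 0` if `I` contains a prime not dividing `m`, or `2` (`subset_of_par_ne_zero`). (`FamG3.lean`, when delivered, is the same with the quadratic character.)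
`q ≠ 2` (`orderOf (2 : ZMod 2) = 0` is not odd). `p = 2` (then `a = 0`) or `p = q` (then `b = 0`): `gen_prime_power` (`Gen'` is `IsGenerated` by definition). Otherwise:
if `orderOf (p : ZMod q)` is odd: `x = 0`: if `q ∤ m` clear, if `q ∣ m` by `good_even_gen` with the character `χ` of `exists_char_two_power` (`c = q`; `χ(p) = 1`; a prime `l ∣ m` not dividing
`q` is `2`, and `χ(2) = 1`); an element of `ZMod m` is `Good χ` iff its order is odd with set of primes `{q}`.
If `orderOf (p : ZMod q)` is even: `KV_pure` with `n = q` (`exists_neg_one` with `k = 1`). -/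
theorem fam_2_q_odd {p q a b : ℕ} (hp : p.Prime) (hq : q.Prime) (h2 : Odd (orderOf (2 : ZMod q)))
    (hpm : ¬ p ∣ 2 ^ a * q ^ b)
    {α : Multiset (ZMod (2 ^ a * q ^ b))} (hα : IsTate p (2 ^ a * q ^ b) α) :
    IsGenerated p (2 ^ a * q ^ b) α := by
  classical
  have hm : 0 < 2 ^ a * q ^ b := Nat.mul_pos (Nat.pow_pos (by norm_num)) (Nat.pow_pos hq.pos)
  by_cases hp2 : p = 2
  · have ha : a = 0 := by
      by_contra ha
      apply hpm
      rw [hp2]
      exact (dvd_pow_self 2 ha).mul_right _
    exact gen_prime_power hp hpm hq (Or.inl (by rw [ha, pow_zero, one_mul])) hα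
  by_cases hpq : p = q
  · have hb : b = 0 := by
      by_contra hb
      apply hpm
      rw [hpq]
      exact (dvd_pow_self q hb).mul_left _
    exact gen_prime_power hp hpm Nat.prime_two (Or.inl (by rw [hb, pow_zero, mul_one])) hα
  have hq2 : q ≠ 2 := by
    rintro rfl
    have h0 : orderOf (2 : ZMod 2) = 0 := by
      rw [orderOf_eq_zero_iff']
      intro n hn h
      rw [show (2 : ZMod 2) = 0 from rfl, zero_pow hn.ne'] at h
      exact absurd h (by decide)
    rw [h0] at h2
    exact absurd h2 (by decide)
  have hqp : ¬ q ∣ p := fun h => hpq ((Nat.prime_dvd_prime_iff_eq hq hp).1 h).symm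
  have hqodd : Odd q := hq.odd_of_ne_two hq2
  refine isGenerated_of_KV_xp hp hm hpm hα ?_
  refine KV.congr ?_ (famG6_decomp hq α)
  have : Fact q.Prime := ⟨hq⟩
  by_cases hs : Odd (orderOf (p : ZMod q))
  · have hx : xp (2 ^ a * q ^ b) α {q} = 0 := by
      by_cases hqm : q ∣ 2 ^ a * q ^ b
      · obtain ⟨χ, e, hprim, hodd, hreal, hsq⟩ := exists_char_two_power hq hq2
        have : NeZero (2 ^ a * q ^ b) := ⟨hm.ne'⟩
        have hpu : IsUnit (p : ZMod q) :=
          (ZMod.isUnit_iff_coprime p q).2 ((Nat.coprime_primes hp hq).2 hpq)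
        have h2u : IsUnit ((2 : ℕ) : ZMod q) :=
          (ZMod.isUnit_iff_coprime 2 q).2 ((Nat.coprime_primes Nat.prime_two hq).2 hq2.symm)
        have hev := good_even_gen (p := p) (m := 2 ^ a * q ^ b) (c := q)
          ((Nat.Prime.coprime_iff_not_dvd hp).2 hpm) hqm hq.one_lt hqodd χ hprim hodd hreal
          (hsq _ hpu hs)
          (by
            intro l hl hlm hlq
            rcases famG6_prime_dvd hq hl hlm with h | h
            · left
              rw [h]
              refine hsq _ h2u ?_
              rw [Nat.cast_ofNat]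
              exact h2
            · exact absurd (h ▸ dvd_rfl) hlq) hα.1
        have hpar : par (2 ^ a * q ^ b) α {q} = Multiset.card (α.filter (fun a => Good χ a)) := by
          unfold par
          congr 1
          refine Multiset.filter_congr ?_
          intro x _
          unfold Good
          refine and_congr_right ?_
          intro hodd'
          constructor
          · intro h
            have hqx : q ∈ (addOrderOf x).primeFactors := by rw [h]; simp
            refine ⟨(Nat.mem_primeFactors.1 hqx).2.1, ?_⟩
            intro l hl hlx hlq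
            exfalso
            have : l ∈ (addOrderOf x).primeFactors :=
              Nat.mem_primeFactors.2 ⟨hl, hlx, (Nat.mem_primeFactors.1 hqx).2.2⟩
            rw [h, Finset.mem_singleton] at this
            exact hlq (this ▸ dvd_rfl)
          · rintro ⟨h1, _⟩
            have hx0 : addOrderOf x ≠ 0 := fun h => by
              rw [h] at hodd'
              exact absurd hodd' (by decide)
            ext l
            rw [Nat.mem_primeFactors, Finset.mem_singleton]
            constructor
            · rintro ⟨hl, hlx, _⟩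
              rcases famG6_prime_dvd hq hl (hlx.trans (addOrderOf_dvd' x)) with h | h
              · exfalso
                rw [h] at hlx
                exact (Nat.not_even_iff_odd.2 hodd') (even_iff_two_dvd.2 hlx)
              · exact h
            · rintro rfl
              exact ⟨hq, h1, hx0⟩
        unfold xp
        rw [hpar]
        exact (ZMod.natCast_eq_zero_iff_even).2 hev
      · have h0 : par (2 ^ a * q ^ b) α {q} = 0 := by
          by_contra h
          have hs := subset_of_par_ne_zero hm h
          have h1 := hs (Finset.mem_singleton_self q)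
          rw [Finset.mem_erase, Nat.mem_primeFactors] at h1
          exact hqm h1.2.2.1
        unfold xp
        rw [h0]
        rfl
    rw [hx]
    exact (KV.zero hp).congr (by simp)
  · obtain ⟨i, hi⟩ := exists_neg_one hq hq2 hqp (Nat.not_odd_iff_even.1 hs) 1
    rw [pow_one] at hi
    have h1 := KV_pure hp hp2 hqodd hq.one_lt hi
    rw [hq.primeFactors] at h1
    exact h1.smul hp _

end Pool.Agent.Lib.MP_021685_agT
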