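import Pool.Agent.Lib.MP_021685_agT.FamB

/-!
JOB FamH1. Values of eigen-distributions for characters of `2`-power order, modulo a prime above `2`.
-/

namespace Pool.Agent.Lib.MP_021685_agT

open Finset

/-- There is a homomorphism from the ring of algebraic integers of `ℂ` to a field of characteristic `2`.

Proof. `2` is not a unit of `integralClosure ℤ ℂ` (its inverse `1 / 2` would be a rational number integral over `ℤ`), so the ideal `(2)` is contained in a maximal ideal `P`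
(`Ideal.exists_le_maximal`); take `κ = integralClosure ℤ ℂ ⧸ P`, `Ideal.Quotient.field`; `2 = 0` in `κ` gives `CharP κ 2` (`CharTwo`/`CharP.of_prime...`; e.g. `CharP.ofNotTrivial...` or directly from
`(2 : κ) = 0` and `1 ≠ 0`: `CharTwo.of_one_ne_zero_of_two_eq_zero`). -/
theorem exists_residue_two : ∃ (κ : Type) (_ : Field κ) (_ : CharP κ 2),
    Nonempty ((integralClosure ℤ ℂ) →+* κ) := by
  have h2 : ¬ IsUnit (2 : integralClosure ℤ ℂ) := by
    intro hu
    obtain ⟨u, hu⟩ := isUnit_iff_exists_inv.1 hu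
    have h4 : (2 : ℂ) * (u : ℂ) = 1 := by
      have := congrArg Subtype.val hu
      exact this
    have h3 : (u : ℂ) = algebraMap ℚ ℂ (1 / 2) := by
      rw [map_div₀, map_one, map_ofNat]
      field_simp
      linear_combination h4
    have h5 : IsIntegral ℤ (u : ℂ) := u.2
    rw [h3, isIntegral_algebraMap_iff (algebraMap ℚ ℂ).injective] at h5
    obtain ⟨y, hy⟩ := IsIntegrallyClosed.isIntegral_iff.1 h5
    have h6 : (2 * y : ℚ) = 1 := by
      have h7 : (y : ℚ) = 1 / 2 := hy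
      rw [h7]
      norm_num
    have h8 : 2 * y = 1 := by exact_mod_cast h6
    omega
  obtain ⟨P, hP, hle⟩ := Ideal.exists_le_maximal (Ideal.span {(2 : integralClosure ℤ ℂ)}) (by
    rwa [Ne, Ideal.span_singleton_eq_top])
  refine ⟨integralClosure ℤ ℂ ⧸ P, Ideal.Quotient.field P, ?_, ⟨Ideal.Quotient.mk P⟩⟩
  apply CharTwo.of_one_ne_zero_of_two_eq_zero
  · exact one_ne_zero
  · have h3 : Ideal.Quotient.mk P 2 = 0 :=
      Ideal.Quotient.eq_zero_iff_mem.2 (hle (Ideal.mem_span_singleton_self _))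
    exact h3

/-- multiplication of a point by a unit -/
private theorem FamH1_mul {m : ℕ} [NeZero m] {n : ℕ} (hn : n ∣ m) (g : (ZMod m)ˣ) {j j' : ℕ}
    (hg : (ZMod.unitsMap hn g : ZMod n) * (j : ZMod n) = (j' : ZMod n)) :
    (g : ZMod m) * ((m / n * j : ℕ) : ZMod m) = ((m / n * j' : ℕ) : ZMod m) := by
  rw [ZMod.unitsMap_val, ← ZMod.natCast_val, ← Nat.cast_mul, ZMod.natCast_eq_natCast_iff] at hg
  have h1 : (g : ZMod m) = (((g : ZMod m).val : ℕ) : ZMod m) := (ZMod.natCast_zmod_val _).symm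
  rw [h1, ← Nat.cast_mul, ZMod.natCast_eq_natCast_iff]
  have h2 := hg.mul_left' (m / n)
  rw [Nat.div_mul_cancel hn] at h2
  rw [show (g : ZMod m).val * (m / n * j) = m / n * ((g : ZMod m).val * j) by ring]
  exact h2

/-- reduced form of a point -/
private theorem FamH1_red {m : ℕ} [NeZero m] {n : ℕ} (hn : n ∣ m) (j : ℕ) (hj : 0 < n) :
    ∃ n' j' : ℕ, n' ∣ n ∧ n' * Nat.gcd j n = n ∧ Nat.Coprime j' n' ∧
      ((m / n * j : ℕ) : ZMod m) = ((m / n' * j' : ℕ) : ZMod m) := by
  have hg : 0 < Nat.gcd j n := Nat.gcd_pos_of_pos_right _ hj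
  have hgn : Nat.gcd j n ∣ n := Nat.gcd_dvd_right _ _
  have hgj : Nat.gcd j n ∣ j := Nat.gcd_dvd_left _ _
  refine ⟨n / Nat.gcd j n, j / Nat.gcd j n, Nat.div_dvd_of_dvd hgn, Nat.div_mul_cancel hgn,
    Nat.coprime_div_gcd_div_gcd hg, ?_⟩
  have h1 : m / (n / Nat.gcd j n) = m / n * Nat.gcd j n := by
    have hn' : 0 < n / Nat.gcd j n := Nat.div_pos (Nat.le_of_dvd hj hgn) hg
    refine Nat.div_eq_of_eq_mul_left hn' ?_
    calc m = m / n * n := (Nat.div_mul_cancel hn).symm
      _ = m / n * (Nat.gcd j n * (n / Nat.gcd j n)) := by rw [Nat.mul_div_cancel' hgn]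
      _ = m / n * Nat.gcd j n * (n / Nat.gcd j n) := by ring
  rw [h1]
  congr 1
  calc m / n * j = m / n * (Nat.gcd j n * (j / Nat.gcd j n)) := by rw [Nat.mul_div_cancel' hgj]
    _ = _ := by ring

/-- the value at a unit multiple -/
private theorem FamH1_eig {m c : ℕ} [NeZero m] (hcm : c ∣ m) (χ : DirichletCharacter ℂ c)
    {h : ZMod m → ℂ}
    (heig : ∀ (g : (ZMod m)ˣ) (a : ZMod m),
      h ((g : ZMod m) * a) = χ (ZMod.castHom hcm (ZMod c) (g : ZMod m)) * h a)
    {n : ℕ} (hn : n ∣ m) (hcn : c ∣ n) {k k' : ℕ} (hk : Nat.Coprime k n) (hk' : Nat.Coprime k' n) :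
    χ (k : ZMod c) * h ((m / n * k' : ℕ) : ZMod m) = χ (k' : ZMod c) * h ((m / n * k : ℕ) : ZMod m) := by
  obtain ⟨g, hg⟩ := ZMod.unitsMap_surjective hn
    (ZMod.unitOfCoprime k' hk' * (ZMod.unitOfCoprime k hk)⁻¹)
  have h0 : (ZMod.unitsMap hn g : ZMod n) * (k : ZMod n) = (k' : ZMod n) := by
    rw [hg, ← ZMod.coe_unitOfCoprime k hk, ← Units.val_mul, inv_mul_cancel_right,
      ZMod.coe_unitOfCoprime]
  have h3 : (g : ZMod m) * ((m / n * k : ℕ) : ZMod m) = ((m / n * k' : ℕ) : ZMod m) :=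
    FamH1_mul hn g h0
  have h4 : ZMod.castHom hcm (ZMod c) (g : ZMod m) * (k : ZMod c) = (k' : ZMod c) := by
    have h5 := congrArg (ZMod.castHom hcn (ZMod c)) h0
    rw [map_mul, map_natCast, map_natCast] at h5
    rw [← h5]
    congr 1
    have h6 := RingHom.congr_fun (ZMod.castHom_comp hcn hn) (g : ZMod m)
    rw [RingHom.comp_apply] at h6
    exact h6.symm
  rw [← h3, heig, ← h4, map_mul]
  ring

/-- the values at points of order not divisible by the conductor -/
private theorem FamH1_zero {m c : ℕ} [NeZero m] (hcm : c ∣ m) (χ : DirichletCharacter ℂ c)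
    (hprim : χ.IsPrimitive) {h : ZMod m → ℂ}
    (heig : ∀ (g : (ZMod m)ˣ) (a : ZMod m),
      h ((g : ZMod m) * a) = χ (ZMod.castHom hcm (ZMod c) (g : ZMod m)) * h a)
    {n : ℕ} (hn : n ∣ m) (hcn : ¬ c ∣ n) (k : ℕ) : h ((m / n * k : ℕ) : ZMod m) = 0 := by
  set ψ : DirichletCharacter ℂ m := DirichletCharacter.changeLevel hcm χ with hψ
  have hcond : ψ.conductor = c := by
    rw [hψ, DirichletCharacter.conductor_changeLevel]
    exact hprim
  have hval : ∀ g : (ZMod m)ˣ, ψ (g : ZMod m) = χ (ZMod.castHom hcm (ZMod c) (g : ZMod m)) := by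
    intro g
    rw [hψ, DirichletCharacter.changeLevel_eq_cast_of_dvd, ZMod.castHom_apply]
  have h1 : ¬ (ZMod.unitsMap hn).ker ≤ ψ.toUnitHom.ker := by
    intro hcon
    apply hcn
    have := ψ.conductor_dvd_of_mem_conductorSet
      ((DirichletCharacter.factorsThrough_iff_ker_unitsMap hn).2 hcon)
    rwa [hcond] at this
  obtain ⟨g, hg1, hg2⟩ := SetLike.not_le_iff_exists.1 h1
  rw [MonoidHom.mem_ker] at hg1 hg2
  have h2 : (g : ZMod m) * ((m / n * k : ℕ) : ZMod m) = ((m / n * k : ℕ) : ZMod m) := by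
    refine FamH1_mul hn g ?_
    rw [hg1]
    simp
  have h3 := heig g ((m / n * k : ℕ) : ZMod m)
  rw [h2, ← hval] at h3
  have h4 : ψ (g : ZMod m) ≠ 1 := by
    intro hcon
    apply hg2
    rw [← Units.val_inj, MulChar.coe_toUnitHom]
    simpa using hcon
  have h5 : (ψ (g : ZMod m) - 1) * h ((m / n * k : ℕ) : ZMod m) = 0 := by
    rw [sub_mul, one_mul, ← h3, sub_self]
  rcases mul_eq_zero.1 h5 with h6 | h6
  · exact absurd (sub_eq_zero.1 h6) h4
  · exact h6

private theorem FamH1_ne {c : ℕ} (χ : DirichletCharacter ℂ c) {k : ℕ} (hk : Nat.Coprime k c) :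
    χ (k : ZMod c) ≠ 0 := by
  have h1 : IsUnit ((k : ℕ) : ZMod c) := (ZMod.isUnit_iff_coprime k c).2 hk
  exact (h1.map χ).ne_zero

/-- the values at two points congruent modulo the conductor -/
private theorem FamH1_same {m c : ℕ} [NeZero m] (hcm : c ∣ m) (χ : DirichletCharacter ℂ c)
    {h : ZMod m → ℂ}
    (heig : ∀ (g : (ZMod m)ˣ) (a : ZMod m),
      h ((g : ZMod m) * a) = χ (ZMod.castHom hcm (ZMod c) (g : ZMod m)) * h a)
    {n : ℕ} (hn : n ∣ m) (hcn : c ∣ n) {k k' : ℕ} (hk : Nat.Coprime k n) (hk' : Nat.Coprime k' n)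
    (hkk : (k : ZMod c) = (k' : ZMod c)) :
    h ((m / n * k' : ℕ) : ZMod m) = h ((m / n * k : ℕ) : ZMod m) := by
  have h1 := FamH1_eig hcm χ heig hn hcn hk hk'
  rw [← hkk] at h1
  exact mul_left_cancel₀ (FamH1_ne χ (hk.coprime_dvd_right hcn)) h1

private theorem FamH1_div {m n n' l : ℕ} [NeZero m] (hn : n ∣ m) (hnn : n = l * n') :
    m / n' = m / n * l ∧ m / l = m / n * n' ∧ 0 < n' ∧ 0 < l := by
  have hm0 : 0 < m := Nat.pos_of_ne_zero (NeZero.ne m)
  have hn0 : 0 < n := Nat.pos_of_dvd_of_pos hn hm0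
  have hl0 : 0 < l := by
    rcases Nat.eq_zero_or_pos l with h | h
    · rw [h, zero_mul] at hnn
      omega
    · exact h
  have hn'0 : 0 < n' := by
    rcases Nat.eq_zero_or_pos n' with h | h
    · rw [h, mul_zero] at hnn
      omega
    · exact h
  have hmn : m = m / n * (l * n') := by rw [← hnn, Nat.div_mul_cancel hn]
  refine ⟨?_, ?_, hn'0, hl0⟩
  · refine Nat.div_eq_of_eq_mul_left hn'0 ?_
    calc m = m / n * (l * n') := hmn
      _ = _ := by ring
  · refine Nat.div_eq_of_eq_mul_left hl0 ?_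
    calc m = m / n * (l * n') := hmn
      _ = _ := by ring

/-- the distribution relation in terms of orders -/
private theorem FamH1_rel {m : ℕ} [NeZero m] {h : ZMod m → ℂ} (hh : IsDZ m h) {n n' l : ℕ}
    (hl : l.Prime) (hn : n ∣ m) (hnn : n = l * n') (k : ℕ) :
    h ((m / n' * k : ℕ) : ZMod m) = ∑ i ∈ range l, h ((m / n * (k + i * n') : ℕ) : ZMod m) := by
  obtain ⟨e1, e2, -, -⟩ := FamH1_div hn hnn
  have hlm : l ∣ m := (Dvd.intro n' hnn.symm).trans hn
  have h1 := hh.dist l hl hlm ((m / n * k : ℕ) : ZMod m)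
  rw [← Nat.cast_mul, show l * (m / n * k) = m / n' * k by rw [e1]; ring] at h1
  rw [h1]
  refine Finset.sum_congr rfl fun i _ => ?_
  rw [e2]
  congr 1
  push_cast
  ring

/-- the case in which `l` divides `n / l` -/
private theorem FamH1_ram {m c : ℕ} [NeZero m] (hcm : c ∣ m) (χ : DirichletCharacter ℂ c)
    {h : ZMod m → ℂ} (hh : IsDZ m h)
    (heig : ∀ (g : (ZMod m)ˣ) (a : ZMod m),
      h ((g : ZMod m) * a) = χ (ZMod.castHom hcm (ZMod c) (g : ZMod m)) * h a)
    {n n' l : ℕ} (hl : l.Prime) (hn : n ∣ m) (hnn : n = l * n') (hcn : c ∣ n') (hln : l ∣ n')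
    {k : ℕ} (hk : Nat.Coprime k n) :
    h ((m / n' * k : ℕ) : ZMod m) = l * h ((m / n * k : ℕ) : ZMod m) := by
  rw [FamH1_rel hh hl hn hnn k]
  have h1 : ∀ i ∈ range l, h ((m / n * (k + i * n') : ℕ) : ZMod m) =
      h ((m / n * k : ℕ) : ZMod m) := by
    intro i _
    have h2 : Nat.Coprime (k + i * n') n' := by
      rw [Nat.coprime_add_mul_right_left]
      exact hk.coprime_dvd_right ⟨l, by rw [hnn]; ring⟩
    have h3 : Nat.Coprime (k + i * n') n := by
      rw [hnn]
      exact Nat.Coprime.mul_right (h2.coprime_dvd_right hln) h2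
    have hcn2 : c ∣ n := hcn.trans ⟨l, by rw [hnn]; ring⟩
    refine FamH1_same hcm χ heig hn hcn2 hk h3 ?_
    push_cast
    rw [(ZMod.natCast_eq_zero_iff n' c).2 hcn, mul_zero, add_zero]
  rw [Finset.sum_congr rfl h1, Finset.sum_const, Finset.card_range, nsmul_eq_mul]

/-- the case in which `l` does not divide `n / l` -/
private theorem FamH1_unr {m c : ℕ} [NeZero m] (hcm : c ∣ m) (χ : DirichletCharacter ℂ c)
    {h : ZMod m → ℂ} (hh : IsDZ m h)
    (heig : ∀ (g : (ZMod m)ˣ) (a : ZMod m),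
      h ((g : ZMod m) * a) = χ (ZMod.castHom hcm (ZMod c) (g : ZMod m)) * h a)
    {n n' l : ℕ} (hl : l.Prime) (hn : n ∣ m) (hnn : n = l * n') (hcn : c ∣ n') (hln : ¬ l ∣ n')
    {w : ℂ} (hw : w * χ (l : ZMod c) = 1) {k : ℕ} (hk : Nat.Coprime k n) :
    ((l : ℂ) - 1) * h ((m / n * k : ℕ) : ZMod m) =
      (1 - w) * h ((m / n' * k : ℕ) : ZMod m) := by
  have hn'n : n' ∣ n := ⟨l, by rw [hnn]; ring⟩
  have hn'm : n' ∣ m := hn'n.trans hn
  have hcn2 : c ∣ n := hcn.trans hn'n
  have hkn' : Nat.Coprime k n' := hk.coprime_dvd_right hn'n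
  obtain ⟨e1, e2, hn'0, hl0⟩ := FamH1_div hn hnn
  have hcop : Nat.Coprime n' l := ((Nat.Prime.coprime_iff_not_dvd hl).2 hln).symm
  -- the exceptional index
  obtain ⟨i0, hi0, hi1⟩ : ∃ i0 < l, l ∣ k + i0 * n' := by
    have : NeZero l := ⟨hl.ne_zero⟩
    have hu : IsUnit ((n' : ℕ) : ZMod l) := (ZMod.isUnit_iff_coprime n' l).2 hcop
    obtain ⟨u, hu⟩ := hu
    refine ⟨(-(k : ZMod l) * ((u⁻¹ : (ZMod l)ˣ) : ZMod l)).val, ZMod.val_lt _, ?_⟩
    rw [← ZMod.natCast_eq_zero_iff]
    push_cast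
    rw [ZMod.natCast_zmod_val, ← hu, mul_assoc, Units.inv_mul, mul_one, add_neg_cancel]
  have huniq : ∀ i < l, l ∣ k + i * n' → i = i0 := by
    intro i hi hd
    have h1 : ((k + i * n' : ℕ) : ZMod l) = ((k + i0 * n' : ℕ) : ZMod l) := by
      rw [(ZMod.natCast_eq_zero_iff _ _).2 hd, (ZMod.natCast_eq_zero_iff _ _).2 hi1]
    have hu : IsUnit ((n' : ℕ) : ZMod l) := (ZMod.isUnit_iff_coprime n' l).2 hcop
    push_cast at h1
    have h2 := hu.mul_right_cancel (add_left_cancel h1)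
    rw [ZMod.natCast_eq_natCast_iff] at h2
    exact Nat.ModEq.eq_of_lt_of_lt h2 hi hi0
  obtain ⟨j, hj⟩ := hi1
  have hjn' : Nat.Coprime j n' := by
    have h2 : Nat.Coprime (k + i0 * n') n' := by
      rw [Nat.coprime_add_mul_right_left]
      exact hkn'
    rw [hj] at h2
    exact Nat.Coprime.coprime_mul_left h2
  have hln' : Nat.Coprime l n' := hcop.symm
  have hval : h ((m / n * (k + i0 * n') : ℕ) : ZMod m) =
      w * h ((m / n' * k : ℕ) : ZMod m) := by
    have h1 : m / n * (k + i0 * n') = m / n' * j := by rw [hj, e1]; ring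
    rw [h1]
    have h2 := FamH1_eig hcm χ heig hn'm hcn hjn' hkn'
    have h3 : (k : ZMod c) = (l : ZMod c) * (j : ZMod c) := by
      have h4 : ((k + i0 * n' : ℕ) : ZMod c) = ((l * j : ℕ) : ZMod c) := by rw [hj]
      push_cast at h4
      rwa [(ZMod.natCast_eq_zero_iff n' c).2 hcn, mul_zero, add_zero] at h4
    rw [h3, map_mul] at h2
    have h5 : χ (j : ZMod c) ≠ 0 := FamH1_ne χ (hjn'.coprime_dvd_right hcn)
    have h6 : h ((m / n' * k : ℕ) : ZMod m) = χ (l : ZMod c) * h ((m / n' * j : ℕ) : ZMod m) := by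
      apply mul_left_cancel₀ h5
      rw [h2]
      ring
    rw [h6, ← mul_assoc, hw, one_mul]
  have hterm : ∀ i ∈ (range l).erase i0, h ((m / n * (k + i * n') : ℕ) : ZMod m) =
      h ((m / n * k : ℕ) : ZMod m) := by
    intro i hi
    rw [Finset.mem_erase, Finset.mem_range] at hi
    have h2 : Nat.Coprime (k + i * n') n' := by
      rw [Nat.coprime_add_mul_right_left]
      exact hkn'
    have h4 : Nat.Coprime (k + i * n') l := by
      rw [Nat.coprime_comm, Nat.Prime.coprime_iff_not_dvd hl]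
      exact fun hd => hi.1 (huniq i hi.2 hd)
    have h3 : Nat.Coprime (k + i * n') n := by
      rw [hnn]
      exact Nat.Coprime.mul_right h4 h2
    refine FamH1_same hcm χ heig hn hcn2 hk h3 ?_
    push_cast
    rw [(ZMod.natCast_eq_zero_iff n' c).2 hcn, mul_zero, add_zero]
  have hsum := FamH1_rel hh hl hn hnn k
  rw [← Finset.add_sum_erase _ _ (Finset.mem_range.2 hi0), hval, Finset.sum_congr rfl hterm,
    Finset.sum_const, Finset.card_erase_of_mem (Finset.mem_range.2 hi0), Finset.card_range,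
    nsmul_eq_mul, Nat.cast_sub hl.one_lt.le, Nat.cast_one] at hsum
  linear_combination -hsum

/-- if `χ(2) = 1`, the values at points of even order vanish -/
private theorem FamH1_even {m c : ℕ} [NeZero m] (hcm : c ∣ m) (hc : Odd c)
    (χ : DirichletCharacter ℂ c) (hprim : χ.IsPrimitive)
    {h : ZMod m → ℂ} (hh : IsDZ m h)
    (heig : ∀ (g : (ZMod m)ˣ) (a : ZMod m),
      h ((g : ZMod m) * a) = χ (ZMod.castHom hcm (ZMod c) (g : ZMod m)) * h a)
    (h2 : χ ((2 : ℕ) : ZMod c) = 1) (n : ℕ) :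
    ∀ (_ : n ∣ m) (_ : 2 ∣ n) (k : ℕ), Nat.Coprime k n → h ((m / n * k : ℕ) : ZMod m) = 0 := by
  induction n using Nat.strong_induction_on with
  | _ n ih =>
    intro hn h2n k hk
    by_cases hcn : c ∣ n
    swap
    · exact FamH1_zero hcm χ hprim heig hn hcn k
    obtain ⟨n', hnn⟩ := h2n
    obtain ⟨-, -, hn'0, -⟩ := FamH1_div hn hnn
    have hcn' : c ∣ n' := by
      rw [hnn] at hcn
      exact (Nat.Coprime.dvd_mul_left (hc.coprime_two_right : Nat.Coprime c 2)).1 hcn
    have hn'n : n' ∣ n := ⟨2, by rw [hnn]; ring⟩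
    by_cases h2n' : 2 ∣ n'
    · have h3 := FamH1_ram hcm χ hh heig Nat.prime_two hn hnn hcn' h2n' hk
      rw [ih n' (by omega) (hn'n.trans hn) h2n' k (hk.coprime_dvd_right hn'n)] at h3
      have h4 : ((2 : ℕ) : ℂ) ≠ 0 := by norm_num
      rcases mul_eq_zero.1 h3.symm with h5 | h5
      · exact absurd h5 h4
      · exact h5
    · have h3 := FamH1_unr hcm χ hh heig Nat.prime_two hn hnn hcn' h2n'
        (w := 1) (by rw [h2, mul_one]) hk
      rw [sub_self, zero_mul] at h3
      norm_num at h3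
      exact_mod_cast h3

/-- goodness in terms of the order -/
private def FamH1_good {c : ℕ} (χ : DirichletCharacter ℂ c) (n : ℕ) : Prop :=
  Odd n ∧ c ∣ n ∧ ∀ l : ℕ, l.Prime → l ∣ n → ¬ l ∣ c → χ (l : ZMod c) = -1

private theorem FamH1_one {κ : Type} [Field κ] [CharP κ 2] (ρ : (integralClosure ℤ ℂ) →+* κ)
    {x : ℂ} {e : ℕ} (hx : x ^ (2 ^ e) = 1) :
    ∃ z : integralClosure ℤ ℂ, (z : ℂ) = x ∧ ρ z = 1 := by
  have hint : IsIntegral ℤ x := by
    apply IsIntegral.of_pow (n := 2 ^ e) (by positivity)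
    rw [hx]
    exact isIntegral_one
  refine ⟨⟨x, hint⟩, rfl, ?_⟩
  have h1 : (⟨x, hint⟩ : integralClosure ℤ ℂ) ^ (2 ^ e) = 1 := by
    apply Subtype.ext
    exact hx
  have h2 := congrArg ρ h1
  rw [map_pow, map_one] at h2
  have : Fact (Nat.Prime 2) := ⟨Nat.prime_two⟩
  have h3 : (ρ ⟨x, hint⟩ - 1) ^ (2 ^ e) = 0 := by
    rw [sub_pow_char_pow, h2, one_pow, sub_self]
  exact sub_eq_zero.1 ((pow_eq_zero_iff (by positivity)).1 h3)

private theorem FamH1_main {κ : Type} [Field κ] [CharP κ 2] (ρ : (integralClosure ℤ ℂ) →+* κ)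
    {m c : ℕ} [NeZero m] (hcm : c ∣ m) (hc : Odd c)
    (χ : DirichletCharacter ℂ c) (hprim : χ.IsPrimitive) {e : ℕ}
    (hχe : ∀ k : ZMod c, IsUnit k → χ k ^ (2 ^ e) = 1)
    (hl : ∀ l : ℕ, l.Prime → l ∣ m → ¬ l ∣ c → χ (l : ZMod c) = 1 ∨
      (χ (l : ZMod c) = -1 ∧ l % 4 = 3) ∨ (l = 2 ∧ ¬ 4 ∣ m))
    {h : ZMod m → ℂ} (hh : IsDZ m h)
    (heig : ∀ (g : (ZMod m)ˣ) (a : ZMod m),
      h ((g : ZMod m) * a) = χ (ZMod.castHom hcm (ZMod c) (g : ZMod m)) * h a) (n : ℕ) :
    ∀ (_ : n ∣ m) (k : ℕ), Nat.Coprime k n →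
    ∃ (D : ℕ) (z : integralClosure ℤ ℂ), Odd D ∧ (D : ℂ) * h ((m / n * k : ℕ) : ZMod m) =
      (z : ℂ) * h ((m / c : ℕ) : ZMod m) ∧ (FamH1_good χ n → ρ z = 1) ∧
      (¬ FamH1_good χ n → ρ z = 0) := by
  induction n using Nat.strong_induction_on with
  | _ n ih =>
    intro hn k hk
    have hm0 : 0 < m := Nat.pos_of_ne_zero (NeZero.ne m)
    have hn0 : 0 < n := Nat.pos_of_dvd_of_pos hn hm0
    have hzero : h ((m / n * k : ℕ) : ZMod m) = 0 → ¬ FamH1_good χ n →
        ∃ (D : ℕ) (z : integralClosure ℤ ℂ), Odd D ∧ (D : ℂ) * h ((m / n * k : ℕ) : ZMod m) =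
          (z : ℂ) * h ((m / c : ℕ) : ZMod m) ∧ (FamH1_good χ n → ρ z = 1) ∧
          (¬ FamH1_good χ n → ρ z = 0) := by
      intro h1 h2
      exact ⟨1, 0, odd_one, by rw [h1]; simp, fun h3 => absurd h3 h2, fun _ => map_zero ρ⟩
    by_cases hcn : c ∣ n
    swap
    · exact hzero (FamH1_zero hcm χ hprim heig hn hcn k) (fun hg => hcn hg.2.1)
    by_cases hcn' : n = c
    · subst hcn'
      have h1 := FamH1_eig hcm χ heig hn (dvd_refl n) (Nat.coprime_one_left n) hk
      rw [Nat.cast_one, map_one, one_mul, mul_one] at h1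
      have hgood : FamH1_good χ n := ⟨hc, dvd_refl n, fun l _ h3 h4 => absurd h3 h4⟩
      obtain ⟨z, hz1, hz2⟩ := FamH1_one ρ (hχe (k : ZMod n) ((ZMod.isUnit_iff_coprime k n).2 hk))
      refine ⟨1, z, odd_one, ?_, fun _ => hz2, fun h3 => absurd hgood h3⟩
      rw [h1, hz1]; simp
    · obtain ⟨q, hq⟩ := hcn
      have hq1 : q ≠ 1 := by
        rintro rfl
        exact hcn' (by rw [hq, mul_one])
      obtain ⟨l, hlp, r, hr⟩ := Nat.exists_prime_and_dvd hq1
      obtain ⟨n', hn'⟩ : ∃ n', n' = c * r := ⟨_, rfl⟩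
      have hnn : n = l * n' := by rw [hq, hr, hn']; ring
      have hcn2 : c ∣ n' := ⟨r, hn'⟩
      obtain ⟨-, -, hn'0, hl0⟩ := FamH1_div hn hnn
      have hn'n : n' ∣ n := ⟨l, by rw [hnn]; ring⟩
      have hlm : l ∣ m := (Dvd.intro n' hnn.symm).trans hn
      have hlt : n' < n := by
        rw [hnn]
        have := hlp.two_le
        nlinarith
      have hcn3 : c ∣ n := hcn2.trans hn'n
      have hln : l ∣ n := Dvd.intro n' hnn.symm
      obtain ⟨D, z, hD, hDz, hzg, hzb⟩ := ih n' hlt (hn'n.trans hn) k (hk.coprime_dvd_right hn'n)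
      by_cases hln' : l ∣ n'
      · have h3 := FamH1_ram hcm χ hh heig hlp hn hnn hcn2 hln' hk
        rcases hlp.eq_two_or_odd' with h2 | hodd
        · -- `l = 2`
          subst h2
          have h4m : 4 ∣ m := by
            obtain ⟨t, ht⟩ := hln'
            refine Dvd.dvd.trans ⟨t, ?_⟩ hn
            rw [hnn, ht]; ring
          have h2c : ¬ 2 ∣ c := by
            intro h2c
            rw [← even_iff_two_dvd] at h2c
            exact Nat.not_even_iff_odd.2 hc h2c
          have hχ2 : χ ((2 : ℕ) : ZMod c) = 1 := by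
            rcases hl 2 Nat.prime_two hlm h2c with h5 | ⟨-, h5⟩ | ⟨-, h5⟩
            · exact h5
            · norm_num at h5
            · exact absurd h4m h5
          refine hzero (FamH1_even hcm hc χ hprim hh heig hχ2 n hn hln k hk) (fun hg => ?_)
          exact Nat.not_even_iff_odd.2 hg.1 (even_iff_two_dvd.2 hln)
        · have hiff : FamH1_good χ n' ↔ FamH1_good χ n := by
            constructor
            · rintro ⟨g1, _, g3⟩
              refine ⟨by rw [hnn]; exact hodd.mul g1, hcn3, fun l' hl' hd hnd => ?_⟩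
              apply g3 l' hl' _ hnd
              rw [hnn, hl'.dvd_mul] at hd
              rcases hd with hd | hd
              · exact hd.trans hln'
              · exact hd
            · rintro ⟨g1, _, g3⟩
              refine ⟨?_, hcn2, fun l' hl' hd hnd => g3 l' hl' (hd.trans hn'n) hnd⟩
              exact Nat.Odd.of_mul_right (by rwa [hnn] at g1)
          refine ⟨l * D, z, hodd.mul hD, ?_, fun hg => hzg (hiff.2 hg), fun hg => hzb (fun h => hg (hiff.1 h))⟩
          rw [← hDz, h3]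
          push_cast
          ring
      · -- `l` does not divide `n'`
        have hlc : ¬ l ∣ c := fun hd => hln' (hd.trans hcn2)
        have hlu : IsUnit ((l : ℕ) : ZMod c) := by
          rw [ZMod.isUnit_iff_coprime]
          exact (Nat.Prime.coprime_iff_not_dvd hlp).2 hlc
        have hne : χ (l : ZMod c) ≠ 0 := (hlu.map χ).ne_zero
        have hw : (χ (l : ZMod c))⁻¹ * χ (l : ZMod c) = 1 := inv_mul_cancel₀ hne
        have h3 := FamH1_unr hcm χ hh heig hlp hn hnn hcn2 hln' hw hk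
        rcases hl l hlp hlm hlc with h5 | ⟨h5, h6⟩ | ⟨h6, -⟩
        · rw [h5, inv_one, sub_self, zero_mul] at h3
          refine hzero ?_ (fun hg => ?_)
          · rcases mul_eq_zero.1 h3 with h7 | h7
            · exfalso
              rw [sub_eq_zero] at h7
              have : l = 1 := by exact_mod_cast h7
              exact hlp.one_lt.ne' this
            · exact h7
          · have h7 := hg.2.2 l hlp hln hlc
            rw [h5] at h7
            norm_num at h7
        · -- `l ≡ 3 mod 4`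
          rw [h5] at h3
          obtain ⟨t, ht⟩ : ∃ t, l = 4 * t + 3 := ⟨l / 4, by omega⟩
          have hodd : Odd l := ⟨2 * t + 1, by omega⟩
          have hiff : FamH1_good χ n' ↔ FamH1_good χ n := by
            constructor
            · rintro ⟨g1, _, g3⟩
              refine ⟨by rw [hnn]; exact hodd.mul g1, hcn3, fun l' hl' hd hnd => ?_⟩
              rw [hnn, hl'.dvd_mul] at hd
              rcases hd with hd | hd
              · have : l' = l := (Nat.prime_dvd_prime_iff_eq hl' hlp).1 hd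
                rw [this]
                exact h5
              · exact g3 l' hl' hd hnd
            · rintro ⟨g1, _, g3⟩
              refine ⟨?_, hcn2, fun l' hl' hd hnd => g3 l' hl' (hd.trans hn'n) hnd⟩
              exact Nat.Odd.of_mul_right (by rwa [hnn] at g1)
          refine ⟨D * (2 * t + 1), z, hD.mul ⟨t, rfl⟩, ?_, fun hg => hzg (hiff.2 hg),
            fun hg => hzb (fun h => hg (hiff.1 h))⟩
          have h7 : ((2 * t + 1 : ℕ) : ℂ) * h ((m / n * k : ℕ) : ZMod m) =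
              h ((m / n' * k : ℕ) : ZMod m) := by
            have h8 : (l : ℂ) = 4 * t + 3 := by rw [ht]; push_cast; ring
            have h9 : ((2 * t + 1 : ℕ) : ℂ) = 2 * t + 1 := by push_cast; ring
            have h10 : ((-1 : ℂ))⁻¹ = -1 := by norm_num
            rw [h8, h10] at h3
            rw [h9]
            linear_combination h3 / 2
          rw [← hDz, ← h7]
          push_cast
          ring
        · -- `l = 2`
          subst h6
          obtain ⟨w, hw1, hw2⟩ := FamH1_one ρ (x := (χ ((2 : ℕ) : ZMod c))⁻¹) (e := e) (by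
            rw [inv_pow, hχe _ hlu, inv_one])
          refine ⟨D, (1 - w) * z, hD, ?_, fun hg => ?_, fun _ => ?_⟩
          · have e1 : ((2 : ℕ) : ℂ) = 2 := by norm_num
            have e2 : (((1 - w) * z : integralClosure ℤ ℂ) : ℂ) = (1 - (w : ℂ)) * (z : ℂ) := by
              push_cast
              ring
            rw [e1, ← hw1] at h3
            rw [e2]
            linear_combination (D : ℂ) * h3 + (1 - (w : ℂ)) * hDz
          · exact absurd (even_iff_two_dvd.2 hln) (Nat.not_even_iff_odd.2 hg.1)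
          · rw [map_mul, map_sub, map_one, hw2, sub_self, zero_mul]

/-- Same as `real_char_values` for a character `χ` with values of `2`-power order; `z` is an algebraic integer and z odd is replaced by `ρ z = 1`, z even by
`ρ z = 0`, `ρ` a homomorphism from the algebraic integers to a field of characteristic `2`.

Proof: the proof of `real_char_values` (`FamB.lean`, see the delivered file `team-store get MP_021685_agT_FamB.lean` when it is there, and the docstring of FamB in the skeleton) with these changes: in (2) `z = χ(g)`, an algebraic integer with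
`z ^ (2 ^ e) = 1`, so `(ρ z - 1) ^ (2 ^ e) = 0` (`sub_pow_char_pow`) and `ρ z = 1`. In (3b) for `l = 2`: `h a = (1 - χ(2)) h(2 a)`, `z = (1 - χ(2)) z'`, `ρ z = 0` because `ρ (χ 2) = 1`; `a` is not good (even order).
For `l ≠ 2` only `χ(l) = 1` (`h a = 0`) and `χ(l) = -1`, `l % 4 = 3` (`z = z'`, `D = D' (l - 1) / 2`) occur. -/
theorem char_values_gen {κ : Type} [Field κ] [CharP κ 2] (ρ : (integralClosure ℤ ℂ) →+* κ)
    {m c : ℕ} [NeZero m] (hcm : c ∣ m) (hc1 : 1 < c) (hc : Odd c)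
    (χ : DirichletCharacter ℂ c) (hprim : χ.IsPrimitive) {e : ℕ}
    (hχ : ∀ k : ZMod c, IsUnit k → χ k ^ (2 ^ e) = 1)
    (hl : ∀ l : ℕ, l.Prime → l ∣ m → ¬ l ∣ c → χ (l : ZMod c) = 1 ∨
      (χ (l : ZMod c) = -1 ∧ l % 4 = 3) ∨ (l = 2 ∧ ¬ 4 ∣ m))
    {h : ZMod m → ℂ} (hh : IsDZ m h)
    (heig : ∀ (g : (ZMod m)ˣ) (a : ZMod m),
      h ((g : ZMod m) * a) = χ (ZMod.castHom hcm (ZMod c) (g : ZMod m)) * h a) (a : ZMod m) :
    ∃ (D : ℕ) (z : integralClosure ℤ ℂ), Odd D ∧
      (D : ℂ) * h a = (z : ℂ) * h ((m / c : ℕ) : ZMod m) ∧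
      (Good χ a → ρ z = 1) ∧ (¬ Good χ a → ρ z = 0) := by
  have hm0 : 0 < m := Nat.pos_of_ne_zero (NeZero.ne m)
  obtain ⟨n, k, hd, -, hcop, heq⟩ := FamH1_red (m := m) (dvd_refl m) a.val hm0
  rw [Nat.div_self hm0, one_mul, ZMod.natCast_zmod_val] at heq
  have hord : addOrderOf a = n := by
    have hn0 : 0 < n := Nat.pos_of_dvd_of_pos hd hm0
    rw [heq, ZMod.addOrderOf_coe _ hm0.ne']
    have h2 : m.gcd (m / n * k) = m / n := by
      conv_lhs => rw [show m = m / n * n from (Nat.div_mul_cancel hd).symm]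
      rw [Nat.mul_div_cancel _ hn0, Nat.gcd_mul_left, Nat.gcd_comm, hcop.gcd_eq_one, mul_one]
    rw [h2]
    exact Nat.div_div_self hd hm0.ne'
  obtain ⟨D, z, hD, hDz, hz1, hz2⟩ := FamH1_main ρ hcm hc χ hprim hχ hl hh heig n hd k hcop
  have hgood : Good χ a ↔ FamH1_good χ n := by
    unfold Good FamH1_good
    rw [hord]
  exact ⟨D, z, hD, by rw [heq]; exact hDz, fun hg => hz1 (hgood.1 hg), fun hg => hz2 (fun h' => hg (hgood.2 h'))⟩

end Pool.Agent.Lib.MP_021685_agT
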