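import Pool.Agent.Lib.MP_021685_agT.FamG1
import Pool.Agent.Lib.MP_021685_agT.FamG2
import Pool.Agent.Lib.MP_021685_agT.FamG4
import Pool.Agent.Lib.MP_021685_agT.FamG5
import Pool.Agent.Lib.MP_021685_agT.FamG6
import Pool.Agent.Lib.MP_021685_agT.FamDefs

/-!
The degrees all of whose Tate characters are generated, in every characteristic.
-/

namespace Pool.Agent.Lib.MP_021685_agT

open Finset Pool.Agent.Lib.MP_021685_ag.Fermat

theorem gen_of_goodDegree {p m : ℕ} (hp : p.Prime) (hpm : ¬ p ∣ m) (hm : IsGoodDegree m)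
    {α : Multiset (ZMod m)} (hα : IsTate p m α) : IsGenerated p m α := by
  rcases hm with ⟨l, k, hl, h⟩ | ⟨a, b, c, h | h⟩ | ⟨q, a, b, hq, h2, h⟩ | ⟨a, b, h | h | h | h⟩
  · exact gen_prime_power hp hpm hl h hα
  · subst h
    exact fam_2_3_5 hp hpm hα
  · subst h
    exact fam_2_3_7 hp hpm hα
  · subst h
    exact fam_2_q_odd hp hq h2 hpm hα
  · exact fam_3_11 (Or.inl h) hp hpm hα
  · exact fam_3_11 (Or.inr h) hp hpm hα
  · exact fam_3_13 (Or.inl h) hp hpm hα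
  · exact fam_3_13 (Or.inr h) hp hpm hα

theorem goodDegree_small {m : ℕ} (hm : 0 < m) (h43 : m ≤ 43) (h35 : m ≠ 35) : IsGoodDegree m := by
  interval_cases m
  · exact Or.inl ⟨2, 0, by norm_num, Or.inl (by norm_num)⟩ -- 1
  · exact Or.inl ⟨2, 1, by norm_num, Or.inl (by norm_num)⟩ -- 2
  · exact Or.inl ⟨3, 1, by norm_num, Or.inl (by norm_num)⟩ -- 3
  · exact Or.inl ⟨2, 2, by norm_num, Or.inl (by norm_num)⟩ -- 4
  · exact Or.inl ⟨5, 1, by norm_num, Or.inl (by norm_num)⟩ -- 5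
  · exact Or.inl ⟨3, 1, by norm_num, Or.inr (by norm_num)⟩ -- 6
  · exact Or.inl ⟨7, 1, by norm_num, Or.inl (by norm_num)⟩ -- 7
  · exact Or.inl ⟨2, 3, by norm_num, Or.inl (by norm_num)⟩ -- 8
  · exact Or.inl ⟨3, 2, by norm_num, Or.inl (by norm_num)⟩ -- 9
  · exact Or.inl ⟨5, 1, by norm_num, Or.inr (by norm_num)⟩ -- 10
  · exact Or.inl ⟨11, 1, by norm_num, Or.inl (by norm_num)⟩ -- 11
  · exact Or.inr (Or.inl ⟨2, 1, 0, Or.inl (by norm_num)⟩) -- 12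
  · exact Or.inl ⟨13, 1, by norm_num, Or.inl (by norm_num)⟩ -- 13
  · exact Or.inl ⟨7, 1, by norm_num, Or.inr (by norm_num)⟩ -- 14
  · exact Or.inr (Or.inl ⟨0, 1, 1, Or.inl (by norm_num)⟩) -- 15
  · exact Or.inl ⟨2, 4, by norm_num, Or.inl (by norm_num)⟩ -- 16
  · exact Or.inl ⟨17, 1, by norm_num, Or.inl (by norm_num)⟩ -- 17
  · exact Or.inl ⟨3, 2, by norm_num, Or.inr (by norm_num)⟩ -- 18
  · exact Or.inl ⟨19, 1, by norm_num, Or.inl (by norm_num)⟩ -- 19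
  · exact Or.inr (Or.inl ⟨2, 0, 1, Or.inl (by norm_num)⟩) -- 20
  · exact Or.inr (Or.inl ⟨0, 1, 1, Or.inr (by norm_num)⟩) -- 21
  · exact Or.inl ⟨11, 1, by norm_num, Or.inr (by norm_num)⟩ -- 22
  · exact Or.inl ⟨23, 1, by norm_num, Or.inl (by norm_num)⟩ -- 23
  · exact Or.inr (Or.inl ⟨3, 1, 0, Or.inl (by norm_num)⟩) -- 24
  · exact Or.inl ⟨5, 2, by norm_num, Or.inl (by norm_num)⟩ -- 25
  · exact Or.inl ⟨13, 1, by norm_num, Or.inr (by norm_num)⟩ -- 26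
  · exact Or.inl ⟨3, 3, by norm_num, Or.inl (by norm_num)⟩ -- 27
  · exact Or.inr (Or.inl ⟨2, 0, 1, Or.inr (by norm_num)⟩) -- 28
  · exact Or.inl ⟨29, 1, by norm_num, Or.inl (by norm_num)⟩ -- 29
  · exact Or.inr (Or.inl ⟨1, 1, 1, Or.inl (by norm_num)⟩) -- 30
  · exact Or.inl ⟨31, 1, by norm_num, Or.inl (by norm_num)⟩ -- 31
  · exact Or.inl ⟨2, 5, by norm_num, Or.inl (by norm_num)⟩ -- 32
  · exact Or.inr (Or.inr (Or.inr ⟨1, 1, Or.inl (by norm_num)⟩)) -- 33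
  · exact Or.inl ⟨17, 1, by norm_num, Or.inr (by norm_num)⟩ -- 34
  · exact absurd rfl h35
  · exact Or.inr (Or.inl ⟨2, 2, 0, Or.inl (by norm_num)⟩) -- 36
  · exact Or.inl ⟨37, 1, by norm_num, Or.inl (by norm_num)⟩ -- 37
  · exact Or.inl ⟨19, 1, by norm_num, Or.inr (by norm_num)⟩ -- 38
  · exact Or.inr (Or.inr (Or.inr ⟨1, 1, Or.inr (Or.inr (Or.inl (by norm_num)))⟩)) -- 39
  · exact Or.inr (Or.inl ⟨3, 0, 1, Or.inl (by norm_num)⟩) -- 40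
  · exact Or.inl ⟨41, 1, by norm_num, Or.inl (by norm_num)⟩ -- 41
  · exact Or.inr (Or.inl ⟨1, 1, 1, Or.inr (by norm_num)⟩) -- 42
  · exact Or.inl ⟨43, 1, by norm_num, Or.inl (by norm_num)⟩ -- 43

end Pool.Agent.Lib.MP_021685_agT
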