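import Pool.Agent.Lib.MP_021685_agT.FinDefs
import Pool.Agent.Lib.MP_021685_ag.Fermat3

/-!
JOB FinB. The parity of Davenport–Hasse characters.
-/

namespace Pool.Agent.Lib.MP_021685_agT

open Finset Pool.Agent.Lib.MP_021685_ag.Fermat

/-- Orders of the preimages under multiplication by a prime. -/
private lemma FinB_ord {M : ℕ} [NeZero M] {l : ℕ} (hl : l.Prime) (a : ZMod M) :
    (l ∣ addOrderOf a ∧ addOrderOf a = l * addOrderOf (l • a)) ∨
      (¬ l ∣ addOrderOf a ∧ addOrderOf a = addOrderOf (l • a)) := by
  have h1 : addOrderOf (l • a) = addOrderOf a / Nat.gcd (addOrderOf a) l := addOrderOf_nsmul' a hl.ne_zero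
  by_cases h : l ∣ addOrderOf a
  · left
    refine ⟨h, ?_⟩
    rw [h1, Nat.gcd_eq_right h, Nat.mul_div_cancel' h]
  · right
    refine ⟨h, ?_⟩
    have h2 : Nat.gcd (addOrderOf a) l = 1 := ((Nat.Prime.coprime_iff_not_dvd hl).2 h).symm
    rw [h1, h2, Nat.div_one]

/-- The element `M / l` has order `l`. -/
private lemma FinB_omega {M : ℕ} [NeZero M] {l : ℕ} (hl : l.Prime) (hlM : l ∣ M) (j : ℕ) :
    ((j * (M / l) : ℕ) : ZMod M) = 0 ↔ l ∣ j := by
  obtain ⟨k, rfl⟩ := hlM
  have hk : k ≠ 0 := fun h => NeZero.ne (l * k) (by rw [h, mul_zero])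
  rw [Nat.mul_div_cancel_left _ hl.pos, ZMod.natCast_eq_zero_iff, Nat.mul_dvd_mul_iff_right (Nat.pos_of_ne_zero hk)]

/-- The kernel of multiplication by `l`. -/
private lemma FinB_ker {M : ℕ} [NeZero M] {l : ℕ} (hl : l.Prime) (hlM : l ∣ M) {a : ZMod M} (ha : l • a = 0) :
    ∃ i < l, a = ((i * (M / l) : ℕ) : ZMod M) := by
  obtain ⟨k, hk⟩ := hlM
  have hk0 : k ≠ 0 := fun h => NeZero.ne M (by rw [hk, h, mul_zero])
  have hMl : M / l = k := by rw [hk, Nat.mul_div_cancel_left _ hl.pos]
  have h1 : ((l * a.val : ℕ) : ZMod M) = 0 := by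
    rw [Nat.cast_mul, ZMod.natCast_val, ZMod.cast_id', id, ← nsmul_eq_mul]
    exact ha
  rw [ZMod.natCast_eq_zero_iff] at h1
  have h2 : k ∣ a.val := by
    have h3 : l * k ∣ l * a.val := by
      have h4 : l * k = M := hk.symm
      rw [h4]
      exact h1
    exact (Nat.mul_dvd_mul_iff_left hl.pos).1 h3
  obtain ⟨i, hi⟩ := h2
  refine ⟨i, ?_, ?_⟩
  · have h3 := ZMod.val_lt a
    rw [hi, hk, mul_comm k i] at h3
    exact lt_of_mul_lt_mul_right h3 (Nat.zero_le _)
  · rw [hMl, mul_comm, ← hi, ZMod.natCast_val, ZMod.cast_id', id]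

/-- JOB FinB. The parity vector of a Davenport–Hasse character is zero.
Proof. Let `n` be the order of `l y`. If `n` is even all elements have even order. If `n` is odd, with set of primes `I0 ≠ ∅`:
all orders are odd; if `l ∣ n` all `y + i / l` have order `l n`, set of primes `I0`, so `l + 1` elements have set `I0`; if `l ∤ n` exactly
one `y + i / l` has order `n`, the others order `l n`: two elements with set `I0`, `l - 1` with set `I0 ∪ {l}`. -/
theorem par_std {M : ℕ} (hM : 0 < M) {β : Multiset (ZMod M)} (hβ : IsStd M β) (I : Finset ℕ) :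
    Even (par M β I) := by
  classical
  obtain ⟨l, y, hl, hl5, hlM2, hy, rfl⟩ := hβ
  have hlM : l ∣ M := (dvd_pow_self l two_ne_zero).trans hlM2
  have : NeZero M := ⟨hM.ne'⟩
  set z : ZMod M := (l : ZMod M) * y with hz
  set n := addOrderOf z with hn
  have hn0 : 0 < n := addOrderOf_pos z
  set f : ℕ → ZMod M := fun i => y + ((i * (M / l) : ℕ) : ZMod M) with hf
  have hlf : ∀ i, l • f i = z := by
    intro i
    simp only [hf]
    rw [nsmul_eq_mul, mul_add, ← Nat.cast_mul]
    have : ((l * (i * (M / l)) : ℕ) : ZMod M) = 0 := by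
      have h1 := (FinB_omega hl hlM (l * i)).2 (dvd_mul_right _ _)
      rw [mul_assoc] at h1
      exact h1
    rw [this, add_zero]
  have hord : ∀ i, (l ∣ addOrderOf (f i) ∧ addOrderOf (f i) = l * n) ∨ (¬ l ∣ addOrderOf (f i) ∧ addOrderOf (f i) = n) := by
    intro i
    have h1 := FinB_ord hl (f i)
    rw [hlf i] at h1
    exact h1
  have hordz : addOrderOf (-z) = n := by rw [addOrderOf_neg]
  have hlodd : Odd l := hl.odd_of_ne_two (by omega)
  -- the count
  have hpar : par M (std M l y) I =
      ((Finset.range l).filter (fun i => Odd (addOrderOf (f i)) ∧ (addOrderOf (f i)).primeFactors = I)).card +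
      (if Odd n ∧ n.primeFactors = I then 1 else 0) := by
    unfold par std
    rw [← Multiset.countP_eq_card_filter, Multiset.countP_add, Multiset.countP_map]
    congr 1
    rw [← hz, ← hordz, Multiset.countP_eq_card_filter, Multiset.filter_singleton]
    split_ifs <;> simp
  rw [hpar]
  by_cases hnodd : Odd n
  swap
  · -- all orders are even
    have h1 : (Finset.range l).filter (fun i => Odd (addOrderOf (f i)) ∧ (addOrderOf (f i)).primeFactors = I) = ∅ := by
      refine Finset.filter_eq_empty_iff.2 fun i _ h => ?_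
      rcases hord i with ⟨-, h2⟩ | ⟨-, h2⟩
      · rw [h2] at h
        exact hnodd (Nat.Odd.of_mul_right h.1)
      · rw [h2] at h
        exact hnodd h.1
    rw [h1, if_neg (fun h => hnodd h.1)]
    simp
  have hlnodd : Odd (l * n) := hlodd.mul hnodd
  by_cases hln : l ∣ n
  · -- all orders are l n
    have h1 : ∀ i, addOrderOf (f i) = l * n := by
      intro i
      rcases hord i with ⟨-, h2⟩ | ⟨h3, h2⟩
      · exact h2
      · rw [h2] at h3
        exact absurd hln h3
    have h2 : (l * n).primeFactors = n.primeFactors := by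
      rw [Nat.primeFactors_mul hl.ne_zero hn0.ne', Nat.Prime.primeFactors hl]
      refine Finset.union_eq_right.2 ?_
      rw [Finset.singleton_subset_iff, Nat.mem_primeFactors]
      exact ⟨hl, hln, hn0.ne'⟩
    by_cases hI : n.primeFactors = I
    · rw [if_pos ⟨hnodd, hI⟩]
      have h3 : (Finset.range l).filter (fun i => Odd (addOrderOf (f i)) ∧ (addOrderOf (f i)).primeFactors = I) = Finset.range l := by
        refine Finset.filter_true_of_mem fun i _ => ?_
        rw [h1 i, h2]
        exact ⟨hlnodd, hI⟩
      rw [h3, Finset.card_range]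
      exact hlodd.add_odd odd_one
    · rw [if_neg (fun h => hI h.2)]
      have h3 : (Finset.range l).filter (fun i => Odd (addOrderOf (f i)) ∧ (addOrderOf (f i)).primeFactors = I) = ∅ := by
        refine Finset.filter_eq_empty_iff.2 fun i _ h => ?_
        rw [h1 i, h2] at h
        exact hI h.2
      rw [h3]
      simp
  · -- exactly one order is n
    have hcop : Nat.Coprime l n := (Nat.Prime.coprime_iff_not_dvd hl).2 hln
    have hex : ∃ i0 < l, ∀ i < l, (addOrderOf (f i) = n ↔ i = i0) := by
      have hbez : (1 : ℤ) = l * Nat.gcdA l n + n * Nat.gcdB l n := by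
        have h1 := Nat.gcd_eq_gcd_ab l n
        rw [hcop] at h1
        exact_mod_cast h1
      set u : ℤ := Nat.gcdA l n with hu
      set v : ℤ := Nat.gcdB l n with hv
      set a : ZMod M := u • z with ha
      have hnz : (n : ℤ) • z = 0 := by
        rw [natCast_zsmul]
        exact addOrderOf_nsmul_eq_zero z
      have hla : l • a = z := by
        have h1 : ((l : ℤ) * u) • z = z := by
          have h2 : (l : ℤ) * u = 1 - v * n := by rw [hbez]; ring
          rw [h2, sub_smul, one_smul, mul_smul, hnz, smul_zero, sub_zero]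
        rw [ha, ← natCast_zsmul, ← mul_smul]
        exact h1
      have hna : n • a = 0 := by
        rw [ha, ← natCast_zsmul, smul_comm, hnz, smul_zero]
      have hna' : addOrderOf a = n := by
        rcases FinB_ord hl a with ⟨h1, -⟩ | ⟨-, h2⟩
        · exact absurd (h1.trans (addOrderOf_dvd_of_nsmul_eq_zero hna)) hln
        · rw [h2, hla]
      have hker : l • (a - y) = 0 := by
        rw [smul_sub, hla, nsmul_eq_mul, ← hz, sub_self]
      obtain ⟨i0, hi0, hi0a⟩ := FinB_ker hl hlM hker
      have hfa : f i0 = a := by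
        simp only [hf]
        rw [← hi0a]
        abel
      have hcmp : ∀ i j : ℕ, j ≤ i → i < l → f i = f j → i = j := by
        intro i j hji hi hfij
        have h1 : ((i * (M / l) : ℕ) : ZMod M) = ((j * (M / l) : ℕ) : ZMod M) := add_left_cancel hfij
        have h2 : (((i - j) * (M / l) : ℕ) : ZMod M) = 0 := by
          rw [Nat.sub_mul, Nat.cast_sub (Nat.mul_le_mul_right _ hji), h1, sub_self]
        have h3 := (FinB_omega hl hlM (i - j)).1 h2
        by_contra hne
        have h4 := Nat.le_of_dvd (by omega) h3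
        omega
      refine ⟨i0, hi0, fun i hi => ⟨fun h => ?_, fun h => ?_⟩⟩
      · have hd : f i - f i0 = 0 := by
          have h1 : l • (f i - f i0) = 0 := by rw [smul_sub, hlf, hlf, sub_self]
          have h2 : n • (f i - f i0) = 0 := by
            rw [smul_sub, hfa, hna, sub_zero, ← h]
            exact addOrderOf_nsmul_eq_zero (f i)
          have h3 := Nat.dvd_gcd (addOrderOf_dvd_of_nsmul_eq_zero h1) (addOrderOf_dvd_of_nsmul_eq_zero h2)
          rw [hcop, Nat.dvd_one, AddMonoid.addOrderOf_eq_one_iff] at h3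
          exact h3
        have hfe : f i = f i0 := sub_eq_zero.1 hd
        rcases le_total i0 i with h1 | h1
        · exact hcmp i i0 h1 hi hfe
        · exact (hcmp i0 i h1 hi0 hfe.symm).symm
      · rw [h, hfa, hna']
    obtain ⟨i0, hi0, hu⟩ := hex
    have hpf : (l * n).primeFactors ≠ n.primeFactors := by
      intro h
      have : l ∈ (l * n).primeFactors := Nat.mem_primeFactors.2 ⟨hl, dvd_mul_right _ _, (Nat.mul_pos hl.pos hn0).ne'⟩
      rw [h] at this
      exact hln (Nat.dvd_of_mem_primeFactors this)
    have hne : ∀ i < l, i ≠ i0 → addOrderOf (f i) = l * n := by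
      intro i hi hii
      rcases hord i with ⟨-, h2⟩ | ⟨-, h2⟩
      · exact h2
      · exact absurd ((hu i hi).1 h2) hii
    have h0 : addOrderOf (f i0) = n := (hu i0 hi0).2 rfl
    by_cases hI : n.primeFactors = I
    · rw [if_pos ⟨hnodd, hI⟩]
      have h3 : (Finset.range l).filter (fun i => Odd (addOrderOf (f i)) ∧ (addOrderOf (f i)).primeFactors = I) = {i0} := by
        ext i
        rw [Finset.mem_filter, Finset.mem_range, Finset.mem_singleton]
        constructor
        · rintro ⟨hi, -, h4⟩
          by_contra hii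
          rw [hne i hi hii, ← hI] at h4
          exact hpf h4
        · rintro rfl
          rw [h0]
          exact ⟨hi0, hnodd, hI⟩
      rw [h3, Finset.card_singleton]
      exact ⟨1, rfl⟩
    · rw [if_neg (fun h => hI h.2), add_zero]
      by_cases hI2 : (l * n).primeFactors = I
      · have h3 : (Finset.range l).filter (fun i => Odd (addOrderOf (f i)) ∧ (addOrderOf (f i)).primeFactors = I) = (Finset.range l).erase i0 := by
          ext i
          rw [Finset.mem_filter, Finset.mem_erase, Finset.mem_range]
          constructor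
          · rintro ⟨hi, -, h4⟩
            refine ⟨?_, hi⟩
            rintro rfl
            rw [h0] at h4
            exact hI h4
          · rintro ⟨hii, hi⟩
            rw [hne i hi hii]
            exact ⟨hi, hlnodd, hI2⟩
        rw [h3, Finset.card_erase_of_mem (Finset.mem_range.2 hi0), Finset.card_range]
        exact Nat.Odd.sub_odd hlodd odd_one
      · have h3 : (Finset.range l).filter (fun i => Odd (addOrderOf (f i)) ∧ (addOrderOf (f i)).primeFactors = I) = ∅ := by
          refine Finset.filter_eq_empty_iff.2 fun i hi h => ?_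
          rcases hord i with ⟨-, h2⟩ | ⟨-, h2⟩
          · rw [h2] at h
            exact hI2 h.2
          · rw [h2] at h
            exact hI h.2
        rw [h3]
        simp

end Pool.Agent.Lib.MP_021685_agT
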