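import Pool.Agent.Lib.MP_021685_agT.ParDefs
import Pool.Agent.Lib.MP_021685_agT.Deep

/-!
JOB ParB. Points of even order.
-/

namespace Pool.Agent.Lib.MP_021685_agT

open Finset

variable {V : Type*} [AddCommGroup V]

private theorem ParB_half {p m' b : ℕ} (hm' : m' ≠ 0) (hpm' : Nat.Coprime p m')
    (hp2 : Nat.Coprime p 2) {h : QZ → V} (hh : IsDistG p h) (hb : 1 ≤ b) {x : QZ}
    (hx : (m' * 2 ^ b) • x = 0) (hne : (m' * 2 ^ (b - 1)) • x ≠ 0) {z : QZ} (hz : 2 • z = x) :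
    (m' * 2 ^ (b + 1)) • z = 0 ∧ (m' * 2 ^ b) • z ≠ 0 ∧ h x = h z + h (z + e 2) := by
  have h1 : (m' * 2 ^ (b + 1)) • z = 0 := by
    rw [pow_succ, ← mul_assoc, mul_smul, hz, hx]
  have h2 : (m' * 2 ^ b) • z ≠ 0 := by
    obtain ⟨c, rfl⟩ : ∃ c, b = c + 1 := ⟨b - 1, by omega⟩
    rw [Nat.add_sub_cancel] at hne
    rw [pow_succ, ← mul_assoc, mul_smul, hz]
    exact hne
  refine ⟨h1, h2, ?_⟩
  have hlvl := hh.lvl (m' * 2 ^ (b + 1)) (mul_ne_zero hm' (pow_ne_zero _ two_ne_zero))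
    (Nat.Coprime.mul_right hpm' (Nat.Coprime.pow_right _ hp2))
  have hd := hlvl.dist 2 Nat.prime_two (dvd_mul_of_dvd_right (dvd_pow_self 2 (Nat.succ_ne_zero b)) _) z h1
  rw [hz] at hd
  rw [hd, Finset.sum_range_succ, Finset.sum_range_one, zero_smul, add_zero, one_smul]

private theorem ParB_all {p m' v : ℕ} (hp : p.Prime) (hm' : m' ≠ 0) (hpm' : Nat.Coprime p m')
    (h2m : ¬ 2 ∣ m') (hp2 : Nat.Coprime p 2) (hv : 2 ≤ v) (hT : Tower p 2 m' v)
    {h : QZ → V} (hh : IsDistG p h) : ∀ n b : ℕ, 1 ≤ b → v ≤ b + n → ∀ x : QZ, (m' * 2 ^ b) • x = 0 →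
      (m' * 2 ^ (b - 1)) • x ≠ 0 → Div2 (h x) := by
  have hp2' : (2 : ℕ) ≠ p := by
    rintro rfl
    simp at hp2
  have hdeep : ∀ b : ℕ, 1 ≤ b → v ≤ b → ∀ x : QZ, (m' * 2 ^ b) • x = 0 →
      (m' * 2 ^ (b - 1)) • x ≠ 0 → Div2 (h x) := by
    intro b hb hvb x hx hne
    obtain ⟨z, hz⟩ := exists_nsmul_eq two_ne_zero x
    obtain ⟨h1, h2, h3⟩ := ParB_half hm' hpm' hp2 hh hb hx hne hz
    have h4 : h (z + e 2) = h z := by
      apply deep hp Nat.prime_two hp2' hm' hpm' h2m hv hT hh 1 (b + 1) z (e 2) h1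
      · intro h0
        apply h2
        have e1 : 1 + v - 1 = v := by omega
        rw [e1] at h0
        exact nsmul_eq_zero_of_dvd (Nat.mul_dvd_mul_left m' (pow_dvd_pow 2 hvb)) h0
      · rw [pow_one]
        exact nsmul_e_self 2
    refine ⟨h z, ?_⟩
    rw [h3, h4, two_smul]
  intro n
  induction n with
  | zero =>
    intro b hb hvb
    exact hdeep b hb hvb
  | succ n ih =>
    intro b hb hvb x hx hne
    obtain ⟨z, hz⟩ := exists_nsmul_eq two_ne_zero x
    obtain ⟨h1, h2, h3⟩ := ParB_half hm' hpm' hp2 hh hb hx hne hz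
    have hz' : 2 • (z + e 2) = x := by
      rw [smul_add, nsmul_e_self, add_zero, hz]
    obtain ⟨h1', h2', _⟩ := ParB_half hm' hpm' hp2 hh hb hx hne hz'
    rw [h3]
    apply Div2.add
    · exact ih (b + 1) (by omega) (by omega) z h1 (by rw [Nat.add_sub_cancel]; exact h2)
    · exact ih (b + 1) (by omega) (by omega) _ h1' (by rw [Nat.add_sub_cancel]; exact h2')

/-- JOB ParB. For `x` of even order prime to `p` (so `p ≠ 2`), `h x` is divisible by `2`.
Proof. Let `addOrderOf x = m' * 2 ^ b`, `m'` odd, `b ≥ 1`; `exists_tower` for `l = 2` gives `v`. Downward induction on `b` (e.g. induction on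
`v - b`): if `b ≥ v`, let `2 z = x`; by the distribution relation for `2` (level `m' 2 ^ (b + 1)`),
`h x = h z + h (z + 1 / 2)`, and `h (z + 1/2) = h z` by `deep` with `k = 1` (`(m' 2 ^ v) z ≠ 0` because the order of `z` is divisible by
`2 ^ (b + 1)`, `b + 1 > v`; precisely `(m' 2 ^ v) z = 0` would give `(m' 2 ^ (v - 1)) x = 0` but `b > v - 1`). If `b < v`: `z` and `z + 1/2` have order
`m'' 2 ^ (b + 1)` with `m''` odd dividing `m'` (`m'' = m'` if `z` is chosen well; the statement proved by induction should be about all `x` with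
`(m' 2 ^ K) x = 0` and `(m' 2 ^ (b - 1)) x ≠ 0`, fixed `m'`), and both values are divisible by `2` by the induction hypothesis. -/
theorem div2_even_order {p : ℕ} (hp : p.Prime) {h : QZ → V} (hh : IsDistG p h) {x : QZ}
    (hx : Even (addOrderOf x)) (hx0 : addOrderOf x ≠ 0) (hpx : Nat.Coprime p (addOrderOf x)) :
    Div2 (h x) := by
  obtain ⟨b, m', hm'odd, hN⟩ := Nat.exists_eq_two_pow_mul_odd hx0
  have hm' : m' ≠ 0 := by
    rintro rfl
    simp at hm'odd
  have hb : 1 ≤ b := by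
    rcases Nat.eq_zero_or_pos b with h0 | h0
    · subst h0
      rw [pow_zero, one_mul] at hN
      rw [hN] at hx
      exact absurd hx (Nat.not_even_iff_odd.mpr hm'odd)
    · exact h0
  have hN' : addOrderOf x = m' * 2 ^ b := by rw [hN, mul_comm]
  have h2m : ¬ 2 ∣ m' := by
    rw [← even_iff_two_dvd]
    exact Nat.not_even_iff_odd.mpr hm'odd
  have hpm' : Nat.Coprime p m' := Nat.Coprime.coprime_dvd_right ⟨2 ^ b, hN'⟩ hpx
  have hp2 : Nat.Coprime p 2 := Nat.Coprime.coprime_dvd_right (even_iff_two_dvd.mp hx) hpx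
  have hp2' : (2 : ℕ) ≠ p := by
    rintro rfl
    simp at hp2
  obtain ⟨v, hv, hT⟩ := exists_tower hp Nat.prime_two hp2' hm' hpm' h2m
  refine ParB_all hp hm' hpm' h2m hp2 hv hT hh v b hb (by omega) x ?_ ?_
  · rw [← hN']
    exact addOrderOf_nsmul_eq_zero x
  · intro h0
    have h1 := addOrderOf_dvd_of_nsmul_eq_zero h0
    rw [hN'] at h1
    have h2 : m' * 2 ^ b ≤ m' * 2 ^ (b - 1) := Nat.le_of_dvd (by positivity) h1
    have h3 : 2 ^ b ≤ 2 ^ (b - 1) := Nat.le_of_mul_le_mul_left h2 (Nat.pos_of_ne_zero hm')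
    have h4 := (Nat.pow_le_pow_iff_right (by norm_num : 1 < 2)).mp h3
    omega

end Pool.Agent.Lib.MP_021685_agT
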