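import Pool.Agent.Lib.MP_021685_agT.ParA

/-!
JOB ParC. Reduction to squarefree orders.
-/

namespace Pool.Agent.Lib.MP_021685_agT

open Finset

variable {V : Type*} [AddCommGroup V]

/-- JOB ParC. For `N` odd and prime to `p`, `h (1 / N) - h (1 / rad N)` is divisible by `2`.
Proof. Strong induction on `N`. If some prime `q` satisfies `q ^ 2 ∣ N`: `q • e N = e (N / q)`, and the distribution relation for `q` gives
`h (e (N / q)) = ∑_{i < q} h (e N + i • e q)`; all `e N + i • e q = (1 + i (N / q)) • e N` have order `N` (`1 + i (N / q)` is prime to `N` because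
every prime dividing `N` divides `N / q`). By `div2_same_order` the sum is `q * h (e N)` up to `2 V`, and `q` is odd: `h (e (N / q)) - h (e N)` is
divisible by `2`. The radical of `N / q` is that of `N` (`Nat.primeFactors` equal). Otherwise `N` is squarefree and equals `∏ p ∈ N.primeFactors, p`
(`Nat.prod_primeFactors_of_squarefree`). -/
theorem div2_rad {p : ℕ} (hp : p.Prime) {h : QZ → V} (hh : IsDistG p h) :
    ∀ N : ℕ, Odd N → Nat.Coprime p N → Div2 (h (e N) - h (e (∏ q ∈ N.primeFactors, q))) := by
  intro N
  induction N using Nat.strong_induction_on with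
  | _ N ih =>
    intro hN hpN
    have hN0 : N ≠ 0 := by
      rintro rfl
      exact absurd hN (by decide)
    by_cases hsq : Squarefree N
    · rw [Nat.prod_primeFactors_of_squarefree hsq, sub_self]
      exact ⟨0, by simp⟩
    · rw [Nat.squarefree_iff_prime_squarefree] at hsq
      push Not at hsq
      obtain ⟨q, hq, k, hk⟩ := hsq
      set M := q * k with hM
      have hNM : N = q * M := by rw [hk, hM, mul_assoc]
      have hM0 : M ≠ 0 := by
        intro h0
        rw [h0, mul_zero] at hNM
        exact hN0 hNM
      have hqM : q ∣ M := ⟨k, hM⟩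
      have hlt : M < N := by
        rw [hNM]
        have := hq.two_le
        have := Nat.pos_of_ne_zero hM0
        nlinarith
      have hMN : M ∣ N := ⟨q, by rw [hNM, mul_comm]⟩
      have hModd : Odd M := Odd.of_dvd_nat hN hMN
      have hqodd : Odd q := Odd.of_dvd_nat hN ⟨M, hNM⟩
      have hpM : Nat.Coprime p M := Nat.Coprime.coprime_dvd_right hMN hpN
      have hord : addOrderOf (e N) = N :=
        Nat.dvd_antisymm (addOrderOf_dvd_of_nsmul_eq_zero (nsmul_e_self N))
          ((nsmul_e_eq_zero_iff hN0 _).1 (addOrderOf_nsmul_eq_zero _))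
      have hpf : M.primeFactors = N.primeFactors := by
        rw [hNM, Nat.primeFactors_mul hq.ne_zero hM0, hq.primeFactors]
        symm
        rw [Finset.union_eq_right, Finset.singleton_subset_iff]
        exact Nat.mem_primeFactors.2 ⟨hq, hqM, hM0⟩
      have hrel := (hh.lvl N hN0 hpN).dist q hq ⟨M, hNM⟩ (e N) (nsmul_e_self N)
      have e1 : q • e N = e M := by rw [hNM, nsmul_e_mul' hq.ne_zero]
      rw [e1] at hrel
      have key : ∀ i : ℕ, Div2 (h (e N) - h (e N + i • e q)) := by
        intro i
        apply div2_same_order hp hh
        · rw [hord]; exact hN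
        · rw [hord]; exact hpN
        · have e2 : e N + i • e q = (1 + i * M) • e N := by
            have hdiv : N / q = M := by
              rw [hNM]
              exact Nat.mul_div_cancel_left _ hq.pos
            rw [e_of_dvd hN0 (⟨M, hNM⟩ : q ∣ N), hdiv, add_smul, one_smul, mul_smul i M (e N)]
          have hc1 : Nat.Coprime M (1 + i * M) := by
            rw [Nat.coprime_add_mul_right_right]
            exact Nat.coprime_one_right M
          have hc2 : Nat.Coprime q (1 + i * M) := Nat.Coprime.coprime_dvd_left hqM hc1
          have hc : Nat.Coprime N (1 + i * M) := by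
            rw [hNM]
            exact Nat.Coprime.mul_left hc2 hc1
          rw [e2, Nat.Coprime.addOrderOf_nsmul (by rw [hord]; exact hc)]
      choose w hw using key
      have hsum : h (e M) = q • h (e N) - 2 • ∑ i ∈ range q, w i := by
        rw [hrel]
        have : ∀ i ∈ range q, h (e N + i • e q) = h (e N) - 2 • w i := by
          intro i _
          rw [← hw i]
          abel
        rw [Finset.sum_congr rfl this, Finset.sum_sub_distrib, Finset.sum_const, card_range,
          Finset.smul_sum]
      obtain ⟨t, ht⟩ := hqodd
      have h1 : Div2 (h (e M) - h (e N)) := by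
        refine ⟨t • h (e N) - ∑ i ∈ range q, w i, ?_⟩
        rw [hsum, smul_sub, ← mul_smul]
        nth_rewrite 1 [ht]
        rw [add_smul, one_smul]
        abel
      have h2 := ih M hlt hModd hpM
      rw [hpf] at h2
      have h3 := h1.neg.add h2
      have e3 : -(h (e M) - h (e N)) + (h (e M) - h (e (∏ q ∈ N.primeFactors, q))) =
          h (e N) - h (e (∏ q ∈ N.primeFactors, q)) := by abel
      rwa [e3] at h3

end Pool.Agent.Lib.MP_021685_agT
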