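import Pool.Agent.Lib.MP_021685_agT.ParA
import Pool.Agent.Lib.MP_021685_agT.ParB
import Pool.Agent.Lib.MP_021685_agT.ParC

/-!
JOB ParD. Elements of parity zero are divisible by `2`.
-/

namespace Pool.Agent.Lib.MP_021685_agT

open Finset

variable {V : Type*} [AddCommGroup V]

private lemma ParD_zsmul {a : V} (n : ℤ) (ha : Div2 a) : Div2 (n • a) := by
  obtain ⟨a', rfl⟩ := ha
  exact ⟨n • a', smul_comm _ _ _⟩

private lemma ParD_sum {ι : Type*} (s : Finset ι) (f : ι → V) (hf : ∀ i ∈ s, Div2 (f i)) : Div2 (∑ i ∈ s, f i) := by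
  classical
  induction s using Finset.induction_on with
  | empty => exact ⟨0, by simp⟩
  | insert a s ha ih =>
    rw [Finset.sum_insert ha]
    exact (hf a (Finset.mem_insert_self _ _)).add (ih fun i hi => hf i (Finset.mem_insert_of_mem hi))

private lemma ParD_order {n : ℕ} (hn : n ≠ 0) : addOrderOf (e n) = n :=
  Nat.dvd_antisymm (addOrderOf_dvd_of_nsmul_eq_zero (nsmul_e_self n))
    ((nsmul_e_eq_zero_iff hn _).1 (addOrderOf_nsmul_eq_zero _))

/-- JOB ParD. If `T` is supported on the `m`-torsion, `m` prime to `p`, and has parity zero, then `ev h T` is divisible by `2`.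
Proof. Put `θ I = h (e (∏ q ∈ I, q))`. For `x` in the support: if the order of `x` is even, `h x ∈ 2 V` (`div2_even_order`); if it is odd,
`h x - θ (primes of the order)` is in `2 V` (`div2_same_order` with `y = e N`, whose order is `N`, and `div2_rad`). So modulo `2 V`,
`ev h T = ∑_{x of odd order} T x θ(I_x) = ∑_I (∑_{x : I_x = I} T x) θ I` (`Finset.sum_fiberwise_of_maps_to`), and the inner sums are even for `I ≠ ∅`, while
`θ ∅ = h (e 1) = h 0 = 0`. -/
theorem div2_of_par {p m : ℕ} (hp : p.Prime) (hm : m ≠ 0) (hpm : Nat.Coprime p m) {h : QZ → V}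
    (hh : IsDistG p h) {T : QZ →₀ ℤ} (hT : Supp m T) (hpar : Par T) : Div2 (ev h T) := by
  classical
  set θ : Finset ℕ → V := fun I => h (e (∏ q ∈ I, q)) with hθ
  have hord : ∀ x ∈ T.support, addOrderOf x ≠ 0 ∧ Nat.Coprime p (addOrderOf x) := by
    intro x hx
    have h1 := addOrderOf_dvd_of_nsmul_eq_zero (hT x hx)
    exact ⟨fun h0 => hm (by rw [h0] at h1; exact Nat.eq_zero_of_zero_dvd h1), hpm.coprime_dvd_right h1⟩
  have hterm : ∀ x ∈ T.support,
      Div2 (T x • h x - if Odd (addOrderOf x) then T x • θ (addOrderOf x).primeFactors else 0) := by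
    intro x hx
    obtain ⟨h0, h1⟩ := hord x hx
    split_ifs with hodd
    · rw [← smul_sub]
      apply ParD_zsmul
      have h2 := div2_same_order hp hh (x := x) (y := e (addOrderOf x)) hodd h1 (ParD_order h0).symm
      have h3 := div2_rad hp hh (addOrderOf x) hodd h1
      have h4 := h2.add h3
      rwa [sub_add_sub_cancel] at h4
    · rw [sub_zero]
      exact ParD_zsmul _ (div2_even_order hp hh (Nat.not_odd_iff_even.mp hodd) h0 h1)
  have hsum : Div2 (∑ x ∈ T.support, (T x • h x - if Odd (addOrderOf x) then T x • θ (addOrderOf x).primeFactors else 0)) :=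
    ParD_sum _ _ hterm
  rw [Finset.sum_sub_distrib] at hsum
  have hev : ev h T = ∑ x ∈ T.support, T x • h x := by rw [ev_apply]; rfl
  have hsec : Div2 (∑ x ∈ T.support, if Odd (addOrderOf x) then T x • θ (addOrderOf x).primeFactors else 0) := by
    rw [← Finset.sum_filter]
    rw [← Finset.sum_fiberwise_of_maps_to (t := (T.support.filter fun x => Odd (addOrderOf x)).image fun x => (addOrderOf x).primeFactors)
      (g := fun x => (addOrderOf x).primeFactors) (fun x hx => Finset.mem_image_of_mem _ hx)]
    refine ParD_sum _ _ fun I _ => ?_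
    have e1 : ∑ x ∈ (T.support.filter fun x => Odd (addOrderOf x)) with (addOrderOf x).primeFactors = I, T x • θ (addOrderOf x).primeFactors =
        (∑ x ∈ T.support with Odd (addOrderOf x) ∧ (addOrderOf x).primeFactors = I, T x) • θ I := by
      rw [Finset.sum_smul, Finset.filter_filter]
      refine Finset.sum_congr rfl fun x hx => ?_
      rw [(Finset.mem_filter.mp hx).2.2]
    rw [e1]
    rcases I.eq_empty_or_nonempty with hI | hI
    · have h0 : θ I = 0 := by
        rw [hθ, hI]
        simp only [Finset.prod_empty, e_one]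
        exact hh.zero
      rw [h0, smul_zero]
      exact ⟨0, by rw [smul_zero]⟩
    · obtain ⟨k, hk⟩ := hpar I hI
      rw [hk, add_smul]
      exact ⟨k • θ I, by rw [two_smul]⟩
  have h5 := hsum.add hsec
  rw [sub_add_cancel] at h5
  rw [hev]
  exact h5

end Pool.Agent.Lib.MP_021685_agT
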