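import Pool.Agent.Lib.MP_021685_agT.Strip
import Pool.Agent.Lib.MP_021685_agT.ParD

/-!
Theorem A: a torsion element of parity zero is a relation.
-/

namespace Pool.Agent.Lib.MP_021685_agT

open Finset

/-- Proof. Induction on `N`: `N = 1` trivial, or strip odd primes by `strip_odd`: there is `e` with `2 ^ e T ∈ R`. -/
theorem strip_all_odd {p : ℕ} (hp : p.Prime) {T : QZ →₀ ℤ} {N : ℕ} (hN : N ≠ 0)
    (h : N • T ∈ RelA p) : ∃ k : ℕ, 2 ^ k • T ∈ RelA p := by
  induction N using Nat.strong_induction_on generalizing T with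
  | _ N ih =>
    by_cases h1 : ∃ l : ℕ, l.Prime ∧ l ≠ 2 ∧ l ∣ N
    · obtain ⟨l, hl, hl2, N', rfl⟩ := h1
      have hN' : N' ≠ 0 := fun h => hN (by rw [h, mul_zero])
      rw [mul_smul] at h
      exact ih N' ((Nat.lt_mul_iff_one_lt_left (Nat.pos_of_ne_zero hN')).2 hl.one_lt) hN'
        (strip_odd hp hl hl2 h)
    · have h2 : ∃ k, N = 2 ^ k := by
        refine ⟨N.factorization 2, ?_⟩
        apply Nat.eq_pow_of_factorization_eq_single hN
        ext l
        by_cases hl : l = 2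
        · subst hl; simp
        · rw [Finsupp.single_eq_of_ne hl]
          by_cases hlp : l.Prime
          · exact Nat.factorization_eq_zero_of_not_dvd fun hd => h1 ⟨l, hlp, hl, hd⟩
          · exact Nat.factorization_eq_zero_of_not_prime _ hlp
      obtain ⟨k, rfl⟩ := h2
      exact ⟨k, h⟩

theorem strip_all_two {p : ℕ} (hp : p.Prime) {T : QZ →₀ ℤ} (k : ℕ)
    (h : 2 ^ k • T ∈ RelA p) : 2 • T ∈ RelA p := by
  induction k with
  | zero =>
    rw [pow_zero, one_smul] at h
    exact (RelA p).nsmul_mem h 2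
  | succ k ih =>
    rcases Nat.eq_zero_or_pos k with h0 | h0
    · subst h0
      rwa [zero_add, pow_one] at h
    · apply ih
      obtain ⟨k', rfl⟩ := Nat.exists_eq_add_of_lt h0
      have h1 : 2 ^ (0 + k' + 1 + 1) • T = 4 • (2 ^ k' • T) := by
        rw [← mul_smul]
        congr 1
        ring
      have h2 : 2 ^ (0 + k' + 1) • T = 2 • (2 ^ k' • T) := by
        rw [← mul_smul]
        congr 1
        ring
      rw [h1] at h
      rw [h2]
      exact strip_two hp h

/-- **Theorem A.** -/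
theorem mem_of_torsion_of_par {p : ℕ} (hp : p.Prime) {T : QZ →₀ ℤ} {N : ℕ} (hN : N ≠ 0)
    (h : N • T ∈ RelA p) (hpar : Par T) : T ∈ RelA p := by
  obtain ⟨k, hk⟩ := strip_all_odd hp hN h
  obtain ⟨m, hm, hpm, hT⟩ := mem_RelA.1 hk
  have hS : Supp m T := Supp.of_nsmul (pow_ne_zero k two_ne_zero) (Rel_supp hT)
  obtain ⟨w, hw⟩ := div2_of_par hp hm hpm (u_isDistG p) hS hpar
  obtain ⟨T', rfl⟩ := QuotientAddGroup.mk_surjective w
  rw [ev_u] at hw
  have h1 : (2 ^ (k + 1)) • T' ∈ RelA p := by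
    rw [← mk_eq_zero_iff]
    have h2 : (QuotientAddGroup.mk ((2 ^ (k + 1)) • T') : W p)
        = 2 ^ k • (2 • QuotientAddGroup.mk T') := by
      rw [← mul_smul, ← pow_succ]
      rfl
    rw [h2, ← hw]
    exact mk_eq_zero_iff.2 hk
  have h3 := strip_all_two hp _ h1
  rw [← mk_eq_zero_iff, hw]
  exact mk_eq_zero_iff.2 h3

end Pool.Agent.Lib.MP_021685_agT
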