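import Pool.Agent.Lib.MP_021685_agT.S1Defs
import Pool.Agent.Lib.MP_b95a42_nt.LOne2

/-!
JOB S1B. The Stickelberger function is nonzero at the conductor.
-/

namespace Pool.Agent.Lib.MP_021685_agT

open Finset Pool.Agent.Lib.MP_021685_ag.Fermat

/-- value of a character of level `m` on units through the primitive character -/
private lemma S1B_prim {m : ℕ} [NeZero m] (χ : DirichletCharacter ℂ m) (t : (ZMod m)ˣ) :
    χ (t : ZMod m) =
      χ.primitiveCharacter ((ZMod.unitsMap χ.conductor_dvd_level t : (ZMod χ.conductor)ˣ) :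
        ZMod χ.conductor) := by
  conv_lhs => rw [← χ.changeLevel_primitiveCharacter]
  rw [DirichletCharacter.changeLevel_eq_cast_of_dvd]
  rfl

private lemma S1B_val {m c : ℕ} [NeZero m] (hc : c ∣ m) (t : (ZMod m)ˣ) :
    ((t : ZMod m) * ((m / c : ℕ) : ZMod m)).val =
      (m / c) * ((ZMod.unitsMap hc t : (ZMod c)ˣ) : ZMod c).val := by
  have hm : 0 < m := Nat.pos_of_ne_zero (NeZero.ne m)
  have hc0 : 0 < c := Nat.pos_of_dvd_of_pos hc hm
  have : NeZero c := ⟨hc0.ne'⟩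
  have h1 : ((ZMod.unitsMap hc t : (ZMod c)ˣ) : ZMod c).val = (t : ZMod m).val % c := by
    rw [ZMod.unitsMap_val, ZMod.cast_eq_val, ZMod.val_natCast]
  have h2 : (t : ZMod m) * ((m / c : ℕ) : ZMod m) = (((t : ZMod m).val * (m / c) : ℕ) : ZMod m) := by
    push_cast
    rw [ZMod.natCast_zmod_val]
  rw [h1, h2, ZMod.val_natCast]
  have h3 : ∀ a : ℕ, (a * (m / c)) % m = m / c * (a % c) := by
    intro a
    obtain ⟨q, hq⟩ := hc
    have h3 : m / c = q := by rw [hq, Nat.mul_div_cancel_left _ hc0]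
    rw [h3, hq, Nat.mul_mod_mul_right, mul_comm]
  exact h3 _

private lemma S1B_units_sum {c : ℕ} [NeZero c] (f : ZMod c → ℂ) (hf : ∀ u, ¬ IsUnit u → f u = 0) :
    ∑ s : (ZMod c)ˣ, f (s : ZMod c) = ∑ u : ZMod c, f u := by
  classical
  have h1 : ∑ s : (ZMod c)ˣ, f (s : ZMod c) =
      ∑ u ∈ (univ : Finset (ZMod c)ˣ).map ⟨Units.val, Units.val_injective⟩, f u := by
    rw [sum_map]
    rfl
  rw [h1]
  apply sum_subset (subset_univ _)
  intro u _ hu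
  apply hf
  rintro ⟨v, rfl⟩
  apply hu
  rw [mem_map]
  exact ⟨v, mem_univ _, rfl⟩

private lemma S1B_fiber {m c : ℕ} [NeZero m] [NeZero c] (hc : c ∣ m) (f : (ZMod c)ˣ → ℂ) :
    ∃ D : ℕ, 0 < D ∧ ∑ t : (ZMod m)ˣ, f (ZMod.unitsMap hc t) = D * ∑ s : (ZMod c)ˣ, f s := by
  classical
  have hsurj := ZMod.unitsMap_surjective hc
  refine ⟨(univ.filter (fun t : (ZMod m)ˣ => ZMod.unitsMap hc t = 1)).card, ?_, ?_⟩
  · apply card_pos.2
    exact ⟨1, by simp⟩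
  · rw [← sum_fiberwise univ (fun t : (ZMod m)ˣ => ZMod.unitsMap hc t) (fun t => f (ZMod.unitsMap hc t)), mul_sum]
    refine sum_congr rfl fun s _ => ?_
    have h1 : ∑ t ∈ univ.filter (fun t : (ZMod m)ˣ => ZMod.unitsMap hc t = s), f (ZMod.unitsMap hc t) =
        ∑ t ∈ univ.filter (fun t : (ZMod m)ˣ => ZMod.unitsMap hc t = s), f s := by
      refine sum_congr rfl fun t ht => ?_
      rw [mem_filter] at ht
      rw [ht.2]
    rw [h1, sum_const, nsmul_eq_mul]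
    congr 2
    exact MonoidHom.card_fiber_eq_of_mem_range (ZMod.unitsMap hc) (hsurj s) (hsurj 1)

/-- For `χ` odd with `χ(p) = 1` and conductor `c`: `∑_t χ(t)⁻¹ PT(t (m / c)) ≠ 0`. -/
theorem PT_char_ne_zero {p m : ℕ} [NeZero m] (hpm : Nat.Coprime p m)
    (χ : DirichletCharacter ℂ m) (hodd : χ.Odd) (hχp : χ (p : ZMod m) = 1) :
    ∑ t : (ZMod m)ˣ, (χ (t : ZMod m))⁻¹ *
      ((PT p m (Nat.totient m) ((t : ZMod m) * ((m / χ.conductor : ℕ) : ZMod m)) : ℤ) : ℂ) ≠ 0 := by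
  have hm : 0 < m := Nat.pos_of_ne_zero (NeZero.ne m)
  have hc := χ.conductor_dvd_level
  have hc0 : 0 < χ.conductor := Nat.pos_of_dvd_of_pos hc hm
  have : NeZero χ.conductor := ⟨hc0.ne'⟩
  have hT : 0 < Nat.totient m := Nat.totient_pos.2 hm
  obtain ⟨q, hq⟩ : ∃ q : ℕ, q = m / χ.conductor := ⟨_, rfl⟩
  have hq0 : 0 < q := by rw [hq]; exact Nat.div_pos (Nat.le_of_dvd hm hc) hc0
  -- the sum of the inverse character
  have hS0 : ∑ t : (ZMod m)ˣ, (χ (t : ZMod m))⁻¹ = 0 := by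
    have h1 : ∑ t : (ZMod m)ˣ, (χ (t : ZMod m))⁻¹ = ∑ t : (ZMod m)ˣ, (χ (((-1 : (ZMod m)ˣ) * t : (ZMod m)ˣ) : ZMod m))⁻¹ :=
      (Equiv.sum_comp (Equiv.mulLeft (-1 : (ZMod m)ˣ)) (fun t : (ZMod m)ˣ => (χ (t : ZMod m))⁻¹)).symm
    have h2 : ∀ t : (ZMod m)ˣ, (χ (((-1 : (ZMod m)ˣ) * t : (ZMod m)ˣ) : ZMod m))⁻¹ = -(χ (t : ZMod m))⁻¹ := by
      intro t
      have h3 : χ (-1) = -1 := hodd
      rw [Units.val_mul, Units.val_neg, Units.val_one, map_mul, h3, neg_one_mul, inv_neg]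
    rw [sum_congr rfl (fun t _ => h2 t), sum_neg_distrib] at h1
    have h4 : (2 : ℂ) * ∑ t : (ZMod m)ˣ, (χ (t : ZMod m))⁻¹ = 0 := by
      linear_combination h1
    exact (mul_eq_zero.1 h4).resolve_left two_ne_zero
  -- the value sums
  obtain ⟨V, hV⟩ : ∃ V : ℂ, V = ∑ t : (ZMod m)ˣ, (χ (t : ZMod m))⁻¹ * (((t : ZMod m) * (q : ZMod m)).val : ℂ) := ⟨_, rfl⟩
  have hVj : ∀ j : ℕ, ∑ t : (ZMod m)ˣ, (χ (t : ZMod m))⁻¹ *
      (((p : ZMod m) ^ j * ((t : ZMod m) * (q : ZMod m))).val : ℂ) = V := by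
    intro j
    obtain ⟨u, hu⟩ : ∃ u : (ZMod m)ˣ, (u : ZMod m) = (p : ZMod m) ^ j :=
      ⟨ZMod.unitOfCoprime p hpm ^ j, by rw [Units.val_pow_eq_pow_val, ZMod.coe_unitOfCoprime]⟩
    have hχu : χ (u : ZMod m) = 1 := by rw [hu, map_pow, hχp, one_pow]
    rw [hV, ← Equiv.sum_comp (Equiv.mulLeft u) (fun t : (ZMod m)ˣ => (χ (t : ZMod m))⁻¹ * (((t : ZMod m) * (q : ZMod m)).val : ℂ))]
    refine sum_congr rfl fun t _ => ?_
    rw [Equiv.coe_mulLeft, Units.val_mul, map_mul, hχu, one_mul, hu, mul_assoc]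
  have hmain : ∑ t : (ZMod m)ˣ, (χ (t : ZMod m))⁻¹ *
      ((PT p m (Nat.totient m) ((t : ZMod m) * (q : ZMod m)) : ℤ) : ℂ) = 2 * (Nat.totient m : ℂ) * V := by
    have h1 : ∀ t : (ZMod m)ˣ, (χ (t : ZMod m))⁻¹ *
        ((PT p m (Nat.totient m) ((t : ZMod m) * (q : ZMod m)) : ℤ) : ℂ) =
        ∑ j ∈ range (Nat.totient m), (2 * ((χ (t : ZMod m))⁻¹ *
          (((p : ZMod m) ^ j * ((t : ZMod m) * (q : ZMod m))).val : ℂ)) - (m : ℂ) * (χ (t : ZMod m))⁻¹) := by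
      intro t
      unfold PT
      push_cast
      rw [mul_sum]
      refine sum_congr rfl fun j _ => ?_
      ring
    rw [sum_congr rfl (fun t _ => h1 t), sum_comm]
    have h2 : ∀ j ∈ range (Nat.totient m), ∑ t : (ZMod m)ˣ, (2 * ((χ (t : ZMod m))⁻¹ *
          (((p : ZMod m) ^ j * ((t : ZMod m) * (q : ZMod m))).val : ℂ)) - (m : ℂ) * (χ (t : ZMod m))⁻¹) = 2 * V := by
      intro j _
      rw [sum_sub_distrib, ← mul_sum, ← mul_sum, hVj, hS0, mul_zero, sub_zero]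
    rw [sum_congr rfl h2, sum_const, card_range, nsmul_eq_mul]
    ring
  rw [← hq, hmain]
  -- the value of `V`
  obtain ⟨D, hD, hfib⟩ := S1B_fiber hc (fun s => (χ.primitiveCharacter ((s : (ZMod χ.conductor)ˣ) : ZMod χ.conductor))⁻¹ *
    (((s : (ZMod χ.conductor)ˣ) : ZMod χ.conductor).val : ℂ))
  have hV2 : V = q * (D * ∑ s : ZMod χ.conductor, (χ.primitiveCharacter)⁻¹ s * (s.val : ℂ)) := by
    have h1 : ∑ s : (ZMod χ.conductor)ˣ, (χ.primitiveCharacter (s : ZMod χ.conductor))⁻¹ *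
        ((s : ZMod χ.conductor).val : ℂ) = ∑ s : ZMod χ.conductor, (χ.primitiveCharacter)⁻¹ s * (s.val : ℂ) := by
      rw [← S1B_units_sum (fun s => (χ.primitiveCharacter)⁻¹ s * (s.val : ℂ))]
      · refine sum_congr rfl fun s _ => ?_
        rw [MulChar.inv_apply_eq_inv']
      · intro u hu
        rw [MulChar.map_nonunit _ hu, zero_mul]
    rw [← h1, ← hfib, hV, mul_sum]
    refine sum_congr rfl fun t _ => ?_
    rw [hq, S1B_val hc t, S1B_prim χ t]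
    push_cast
    ring
  have hprim : (χ.primitiveCharacter)⁻¹.IsPrimitive := by
    rw [DirichletCharacter.isPrimitive_def, DirichletCharacter.conductor_inv]
    exact χ.primitiveCharacter_isPrimitive
  have hodd0 : (χ.primitiveCharacter)⁻¹.Odd := by
    have h1 := S1B_prim χ (-1 : (ZMod m)ˣ)
    have h3 : χ (-1) = -1 := hodd
    have h2 : ((ZMod.unitsMap hc (-1 : (ZMod m)ˣ) : (ZMod χ.conductor)ˣ) : ZMod χ.conductor) = -1 := by
      rw [ZMod.unitsMap_val, Units.val_neg, Units.val_one]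
      have h4 := map_neg (ZMod.castHom hc (ZMod χ.conductor)) 1
      rw [map_one] at h4
      exact h4
    rw [Units.val_neg, Units.val_one, h3, h2] at h1
    show (χ.primitiveCharacter)⁻¹ (-1) = -1
    rw [MulChar.inv_apply_eq_inv', ← h1]
    norm_num
  have hne := Pool.Agent.Lib.MP_b95a42_nt.sum_mul_val_ne_zero hprim hodd0
  rw [hV2]
  refine mul_ne_zero (mul_ne_zero two_ne_zero ?_) (mul_ne_zero ?_ (mul_ne_zero ?_ hne))
  · exact_mod_cast hT.ne'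
  · exact_mod_cast hq0.ne'
  · exact_mod_cast hD.ne'

end Pool.Agent.Lib.MP_021685_agT
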