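import Pool.Agent.Lib.MP_021685_agT.S1A
import Pool.Agent.Lib.MP_021685_agT.S1B

/-!
JOB S1C. Odd `p`-invariant distributions kill balanced multisets.
-/

namespace Pool.Agent.Lib.MP_021685_agT

open Finset Pool.Agent.Lib.MP_021685_ag.Fermat

/-- The `χ`-component of a function. -/
private noncomputable def s1cAv {m : ℕ} [NeZero m] (χ : DirichletCharacter ℂ m) (F : ZMod m → ℂ)
    (a : ZMod m) : ℂ := ∑ t : (ZMod m)ˣ, (χ (t : ZMod m))⁻¹ * F ((t : ZMod m) * a)

private lemma s1c_ne {m : ℕ} (χ : DirichletCharacter ℂ m) (t : (ZMod m)ˣ) : χ (t : ZMod m) ≠ 0 :=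
  (t.isUnit.map χ).ne_zero

private lemma s1cAv_unit {m : ℕ} [NeZero m] (χ : DirichletCharacter ℂ m) (F : ZMod m → ℂ)
    (g : (ZMod m)ˣ) (a : ZMod m) : s1cAv χ F ((g : ZMod m) * a) = χ (g : ZMod m) * s1cAv χ F a := by
  unfold s1cAv
  rw [Finset.mul_sum]
  refine Fintype.sum_equiv (Equiv.mulRight g) _ _ ?_
  intro t
  rw [Equiv.coe_mulRight, Units.val_mul, map_mul, mul_inv, mul_assoc (t : ZMod m)]
  have h := s1c_ne χ g
  field_simp

private lemma s1c_sum_unit_mul {M l : ℕ} [NeZero M] [NeZero l] (hl : l ∣ M) (u : (ZMod M)ˣ) (y : ZMod M)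
    (F : ZMod M → ℂ) :
    ∑ i ∈ range l, F ((u : ZMod M) * (y + ((i * (M / l) : ℕ) : ZMod M)))
      = ∑ i ∈ range l, F ((u : ZMod M) * y + ((i * (M / l) : ℕ) : ZMod M)) := by
  rw [sum_range_zmod l (fun i => F ((u : ZMod M) * (y + ((i * (M / l) : ℕ) : ZMod M)))),
    sum_range_zmod l (fun i => F ((u : ZMod M) * y + ((i * (M / l) : ℕ) : ZMod M)))]
  have hc : Nat.Coprime (u : ZMod M).val l :=
    Nat.Coprime.coprime_dvd_right hl (ZMod.val_coe_unit_coprime u)
  set v : (ZMod l)ˣ := ZMod.unitOfCoprime _ hc with hv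
  have hv' : (v : ZMod l) = ((u : ZMod M).val : ZMod l) := by
    rw [hv, ZMod.coe_unitOfCoprime]
  have h1 : ∀ i : ZMod l, F ((u : ZMod M) * (y + ((i.val * (M / l) : ℕ) : ZMod M)))
      = F ((u : ZMod M) * y + kap M l ((v : ZMod l) * i)) := by
    intro i
    rw [hv', ← mul_kap hl, mul_add]
    rfl
  simp only [h1]
  exact Equiv.sum_comp (Units.mulLeft v) (fun i => F ((u : ZMod M) * y + kap M l i))

private lemma s1cAv_dist {m : ℕ} [NeZero m] (χ : DirichletCharacter ℂ m) (F : ZMod m → ℂ)
    (hF : ∀ l : ℕ, l.Prime → l ∣ m → ∀ (t : (ZMod m)ˣ) (a : ZMod m),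
      F ((t : ZMod m) * ((l : ZMod m) * a)) = ∑ i ∈ range l, F ((t : ZMod m) * (a + ((i * (m / l) : ℕ) : ZMod m)))) :
    IsDZ m (s1cAv χ F) := by
  constructor
  intro l hl hlm a
  unfold s1cAv
  rw [Finset.sum_comm]
  refine Finset.sum_congr rfl fun t _ => ?_
  rw [hF l hl hlm t a, Finset.mul_sum]

private lemma s1c_msum {ι : Type*} {m : ℕ} (s : Finset ι) (α : Multiset (ZMod m)) (F : ι → ZMod m → ℂ) :
    (α.map (fun a => ∑ i ∈ s, F i a)).sum = ∑ i ∈ s, (α.map (F i)).sum := by
  induction α using Multiset.induction_on with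
  | empty => simp
  | cons a α ih =>
    rw [Multiset.map_cons, Multiset.sum_cons, ih, ← Finset.sum_add_distrib]
    refine Finset.sum_congr rfl fun i _ => ?_
    rw [Multiset.map_cons, Multiset.sum_cons]

private lemma s1c_mul {m : ℕ} (α : Multiset (ZMod m)) (c : ℂ) (F : ZMod m → ℂ) :
    (α.map (fun a => c * F a)).sum = c * (α.map F).sum := by
  induction α using Multiset.induction_on with
  | empty => simp
  | cons a α ih =>
    rw [Multiset.map_cons, Multiset.sum_cons, ih, Multiset.map_cons, Multiset.sum_cons, mul_add]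

private lemma s1c_cast {m : ℕ} (α : Multiset (ZMod m)) (F : ZMod m → ℤ) :
    (α.map (fun a => ((F a : ℤ) : ℂ))).sum = (((α.map F).sum : ℤ) : ℂ) := by
  induction α using Multiset.induction_on with
  | empty => simp
  | cons a α ih =>
    rw [Multiset.map_cons, Multiset.sum_cons, ih, Multiset.map_cons, Multiset.sum_cons, Int.cast_add]

private lemma s1c_orth {m : ℕ} [NeZero m] (h : ZMod m → ℂ) (a : ZMod m) :
    ∑ χ : DirichletCharacter ℂ m, s1cAv χ h a = (Nat.totient m : ℂ) * h a := by
  unfold s1cAv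
  rw [Finset.sum_comm]
  have h1 : ∀ t : (ZMod m)ˣ, ∑ χ : DirichletCharacter ℂ m, (χ (t : ZMod m))⁻¹ * h ((t : ZMod m) * a) =
      (if t = 1 then (Nat.totient m : ℂ) * h a else 0) := by
    intro t
    rw [← Finset.sum_mul]
    have h2 := DirichletCharacter.sum_char_inv_mul_char_eq ℂ (a := (t : ZMod m)) t.isUnit (1 : ZMod m)
    have h3 : ∀ χ : DirichletCharacter ℂ m, χ ((t : ZMod m)⁻¹) * χ 1 = (χ (t : ZMod m))⁻¹ := by
      intro χ
      rw [map_one, mul_one]
      apply eq_inv_of_mul_eq_one_left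
      rw [← map_mul, ZMod.inv_mul_of_unit _ t.isUnit, map_one]
    simp only [h3] at h2
    rw [h2]
    by_cases ht : t = 1
    · rw [ht, if_pos rfl, if_pos (Units.val_one), Units.val_one, one_mul]
    · have ht' : ¬ (t : ZMod m) = 1 := fun h4 => ht (Units.ext (by rw [h4, Units.val_one]))
      rw [if_neg ht, if_neg ht', zero_mul]
  rw [Finset.sum_congr rfl (fun t _ => h1 t), Finset.sum_ite_eq' Finset.univ (1 : (ZMod m)ˣ),
    if_pos (Finset.mem_univ _)]

/-- Proof. For a Dirichlet character `χ` let `H χ a = ∑_t χ(t)⁻¹ h(t a)`, `Φ χ a = ∑_t χ(t)⁻¹ PT(t a)` (`t` over the units, `PT` with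
`T = φ(m)`). Both are distributions (`IsDZ`: multiplication by a unit permutes the fibre, `sum_unit_mul` in `Fermat2.lean`; for `Φ`
`sum_PT_fiber`) with `H χ (g a) = χ(g) H χ a`. By orthogonality `∑_χ H χ a = φ(m) h a` (`DirichletCharacter.sum_char_inv_mul_char_eq`), so it is
enough that `∑_{a ∈ α} H χ a = 0` for all `χ`. If `χ` is not odd: `H χ (-a) = χ(-1) H χ a = H χ a` (`DirichletCharacter.even_or_odd`) and
`= - H χ a`, so `H χ = 0`. If `χ(p) ≠ 1`: `H χ (p a) = χ(p) H χ a` and `= H χ a`, so `H χ = 0`. Otherwise let `k = Φ χ (m / c) • H χ - H χ (m / c) • Φ χ`;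
by `eigen_eq_zero` `k = 0`. Summing over `α`: `Φ χ (m / c) ∑_{a ∈ α} H χ a = H χ (m / c) ∑_t χ(t)⁻¹ ∑_{a ∈ α} PT(t a) = 0` by
`isBalanced_iff` (`Fermat1.lean`), and `Φ χ (m / c) ≠ 0` by `PT_char_ne_zero`. -/
theorem sum_eq_zero_of_balanced {p m : ℕ} [NeZero m] (hpm : Nat.Coprime p m)
    {α : Multiset (ZMod m)} (hα : IsBalanced p m α) {h : ZMod m → ℂ} (hh : IsDZ m h)
    (hneg : ∀ a, h (-a) = - h a) (hfrob : ∀ a, h ((p : ZMod m) * a) = h a) :
    (α.map h).sum = 0 := by
  have hp : IsUnit (p : ZMod m) := by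
    have := (ZMod.unitOfCoprime p hpm).isUnit
    rwa [ZMod.coe_unitOfCoprime] at this
  have key : ∀ χ : DirichletCharacter ℂ m, (α.map (s1cAv χ h)).sum = 0 := by
    intro χ
    have zero_case : (∀ a, s1cAv χ h a = 0) → (α.map (s1cAv χ h)).sum = 0 := by
      intro h0
      have : s1cAv χ h = fun _ => 0 := funext h0
      rw [this]
      simp
    have hodd_av : ∀ a, s1cAv χ h (-a) = - s1cAv χ h a := by
      intro a
      unfold s1cAv
      rw [← Finset.sum_neg_distrib]
      refine Finset.sum_congr rfl fun t _ => ?_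
      rw [mul_neg (t : ZMod m), hneg, mul_neg]
    rcases DirichletCharacter.even_or_odd χ with hev | hodd
    · apply zero_case
      intro a
      have h1 := s1cAv_unit χ h (-1) a
      rw [Units.val_neg, Units.val_one, neg_one_mul, hodd_av] at h1
      have h2 : χ (-1) = 1 := hev
      rw [h2, one_mul] at h1
      have h3 : s1cAv χ h a + s1cAv χ h a = 0 := by
        nth_rewrite 1 [← h1]
        ring
      have h4 : (2 : ℂ) * s1cAv χ h a = 0 := by rw [two_mul]; exact h3
      exact (mul_eq_zero.1 h4).resolve_left two_ne_zero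
    · by_cases hχp : χ (p : ZMod m) = 1
      · set F : ZMod m → ℂ := fun x => ((PT p m (Nat.totient m) x : ℤ) : ℂ) with hF
        set b : ZMod m := ((m / χ.conductor : ℕ) : ZMod m) with hb
        have hΦ : s1cAv χ F b ≠ 0 := PT_char_ne_zero hpm χ hodd hχp
        have dH : IsDZ m (s1cAv χ h) := by
          apply s1cAv_dist
          intro l hl hlm t a
          have : NeZero l := ⟨hl.ne_zero⟩
          rw [s1c_sum_unit_mul hlm t a h, ← hh.dist l hl hlm]
          congr 1
          ring
        have dΦ : IsDZ m (s1cAv χ F) := by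
          apply s1cAv_dist
          intro l hl hlm t a
          have : NeZero l := ⟨hl.ne_zero⟩
          have h1 := sum_PT_fiber (T := Nat.totient m) hp hlm t a
          simp only [hF]
          rw [← h1]
          push_cast
          rfl
        have dk : IsDZ m (fun a => s1cAv χ F b * s1cAv χ h a - s1cAv χ h b * s1cAv χ F a) := by
          constructor
          intro l hl hlm a
          rw [dH.dist l hl hlm a, dΦ.dist l hl hlm a, Finset.sum_sub_distrib, Finset.mul_sum, Finset.mul_sum]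
        have hk := eigen_eq_zero χ dk (by
          intro g a
          rw [s1cAv_unit, s1cAv_unit]
          ring) (by ring)
        have h1 : ∀ a, s1cAv χ F b * s1cAv χ h a = s1cAv χ h b * s1cAv χ F a :=
          fun a => sub_eq_zero.1 (hk a)
        have h2 : (α.map (s1cAv χ F)).sum = 0 := by
          have h3 : (α.map (s1cAv χ F)).sum = ∑ t : (ZMod m)ˣ,
              (α.map (fun a => (χ (t : ZMod m))⁻¹ * F ((t : ZMod m) * a))).sum :=
            s1c_msum Finset.univ α (fun (t : (ZMod m)ˣ) (a : ZMod m) => (χ (t : ZMod m))⁻¹ * F ((t : ZMod m) * a))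
          rw [h3]
          apply Finset.sum_eq_zero
          intro t _
          rw [s1c_mul α ((χ (t : ZMod m))⁻¹) (fun a => F ((t : ZMod m) * a))]
          have h4 := ((isBalanced_iff p m α).1 hα).2.2 t
          have h5 := s1c_cast α (fun a => PT p m (Nat.totient m) ((t : ZMod m) * a))
          rw [h4, Int.cast_zero] at h5
          simp only [hF]
          rw [h5, mul_zero]
        have h6 : s1cAv χ F b * (α.map (s1cAv χ h)).sum = 0 := by
          rw [← s1c_mul]
          have h7 : (fun a => s1cAv χ F b * s1cAv χ h a) = (fun a => s1cAv χ h b * s1cAv χ F a) :=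
            funext h1
          rw [h7, s1c_mul, h2, mul_zero]
        exact (mul_eq_zero.1 h6).resolve_left hΦ
      · apply zero_case
        intro a
        have h1 := s1cAv_unit χ h (ZMod.unitOfCoprime p hpm) a
        rw [ZMod.coe_unitOfCoprime] at h1
        have h2 : s1cAv χ h ((p : ZMod m) * a) = s1cAv χ h a := by
          unfold s1cAv
          refine Finset.sum_congr rfl fun t _ => ?_
          rw [mul_left_comm, hfrob]
        rw [h2] at h1
        have h3 : (χ (p : ZMod m) - 1) * s1cAv χ h a = 0 := by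
          rw [sub_mul, ← h1, one_mul, sub_self]
        exact (mul_eq_zero.1 h3).resolve_left (sub_ne_zero.2 hχp)
  have hm : (Nat.totient m : ℂ) ≠ 0 := by
    have : 0 < Nat.totient m := Nat.totient_pos.2 (Nat.pos_of_ne_zero (NeZero.ne m))
    exact_mod_cast this.ne'
  have h1 : (Nat.totient m : ℂ) * (α.map h).sum = 0 := by
    rw [← s1c_mul]
    have h2 : (fun a => (Nat.totient m : ℂ) * h a) = fun a => ∑ χ : DirichletCharacter ℂ m, s1cAv χ h a :=
      funext fun a => (s1c_orth h a).symm
    rw [h2, s1c_msum]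
    exact Finset.sum_eq_zero fun χ _ => key χ
  exact (mul_eq_zero.1 h1).resolve_left hm

end Pool.Agent.Lib.MP_021685_agT
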