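import Pool.Agent.Lib.MP_021685_agT.S1D
import Pool.Agent.Lib.MP_021685_agT.S1C

/-!
JOB S1E. Clearing denominators.
-/

namespace Pool.Agent.Lib.MP_021685_agT

open Finset Pool.Agent.Lib.MP_021685_ag.Fermat

/-- JOB S1E. A balanced multiset gives a torsion element of the universal group.

Proof. Suppose `N • TT m α ∉ Rel p m` for all `N ≠ 0`, i.e. the class of `TT m α` in `(QZ →₀ ℤ) ⧸ Rel p m` has infinite order. As `ℂ` is
divisible (Baer's criterion over `ℤ`) there is an additive map `L : (QZ →₀ ℤ) ⧸ Rel p m → ℂ` with value `1` at this class. Let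
`h a = L [single (pt m a) 1]`. It is odd, invariant under
`p` and a distribution by the generators of `Rel p m` (`pt_neg`, `pt_mul`, `pt_add`, `pt_fibre`, `pt_tors`). By
`sum_eq_zero_of_balanced`, `0 = (α.map h).sum = 1`. Contradiction. -/
theorem exists_nsmul_mem {p m : ℕ} [NeZero m] (hpm : Nat.Coprime p m) {α : Multiset (ZMod m)}
    (hα : IsBalanced p m α) : ∃ N : ℕ, N ≠ 0 ∧ N • TT m α ∈ Rel p m := by
  by_contra hcon
  push Not at hcon
  set q : (QZ →₀ ℤ) →+ (QZ →₀ ℤ) ⧸ Rel p m := QuotientAddGroup.mk' (Rel p m) with hq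
  have hinf : ∀ N : ℤ, N • q (TT m α) = 0 → N = 0 := by
    intro N hN
    by_contra hN0
    have h1 : N.natAbs • q (TT m α) = 0 := by
      rcases Int.natAbs_eq N with h | h
      · rw [h, natCast_zsmul] at hN
        exact hN
      · rw [h, neg_smul, natCast_zsmul, neg_eq_zero] at hN
        exact hN
    rw [← map_nsmul, hq, QuotientAddGroup.mk'_apply, QuotientAddGroup.eq_zero_iff] at h1
    exact hcon N.natAbs (Int.natAbs_ne_zero.2 hN0) h1
  set f : ℤ →+ (QZ →₀ ℤ) ⧸ Rel p m := (zmultiplesHom _) (q (TT m α)) with hf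
  have hfinj : Function.Injective f := by
    rw [injective_iff_map_eq_zero]
    intro N hN
    apply hinf N
    rw [← hN, hf, zmultiplesHom_apply]
  obtain ⟨L, hL⟩ := (Module.Baer.of_divisible ℂ).extension_property_addMonoidHom f hfinj
    (Int.castAddHom ℂ)
  have hL1 : L (q (TT m α)) = 1 := by
    have h1 := DFunLike.congr_fun hL 1
    rw [AddMonoidHom.comp_apply, hf, zmultiplesHom_apply, one_smul] at h1
    rw [h1]
    simp
  have hker : ∀ T : QZ →₀ ℤ, Gen p m T → L (q T) = 0 := by
    intro T hT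
    have h1 : q T = 0 := by
      rw [hq, QuotientAddGroup.mk'_apply, QuotientAddGroup.eq_zero_iff]
      exact AddSubgroup.subset_closure hT
    rw [h1, map_zero]
  set g : (QZ →₀ ℤ) →+ ℂ := L.comp q with hg
  have hgen : ∀ T : QZ →₀ ℤ, Gen p m T → g T = 0 := hker
  set h : ZMod m → ℂ := fun a => g (Finsupp.single (pt m a) 1) with hh
  have hdist : IsDZ m h := by
    constructor
    intro l hl hlm a
    have h1 := hgen _ (Gen.dist l hl hlm (pt m a) (pt_tors a))
    rw [map_sub, map_sum, sub_eq_zero] at h1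
    simp only [hh]
    rw [pt_mul, h1]
    refine Finset.sum_congr rfl fun i _ => ?_
    rw [pt_add, pt_fibre hlm]
  have hneg : ∀ a, h (-a) = - h a := by
    intro a
    have h1 := hgen _ (Gen.neg (pt m a) (pt_tors a))
    rw [map_add] at h1
    simp only [hh]
    rw [pt_neg]
    exact eq_neg_of_add_eq_zero_right h1
  have hfrob : ∀ a, h ((p : ZMod m) * a) = h a := by
    intro a
    have h1 := hgen _ (Gen.frob (pt m a) (pt_tors a))
    rw [map_sub, sub_eq_zero] at h1
    simp only [hh]
    rw [pt_mul]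
    exact h1
  have h0 := sum_eq_zero_of_balanced hpm hα hdist hneg hfrob
  have h1 : (α.map h).sum = g (TT m α) := by
    unfold TT
    rw [map_multiset_sum, Multiset.map_map]
    rfl
  rw [h0] at h1
  have h2 : g (TT m α) = 1 := hL1
  rw [h2] at h1
  exact zero_ne_one h1

end Pool.Agent.Lib.MP_021685_agT
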