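import Pool.Agent.Lib.MP_021685_agT.S1D
import Pool.Agent.Lib.MP_021685_ag.Fermat8

/-!
JOB TraB. Relations of level `m` are sums of elementary multisets.
-/

namespace Pool.Agent.Lib.MP_021685_agT

open Finset Pool.Agent.Lib.MP_021685_ag.Fermat

namespace TraB

/-- Formal sum of a multiset. -/
noncomputable def fs {A : Type*} (γ : Multiset A) : A →₀ ℤ :=
  (γ.map (fun a => Finsupp.single a (1 : ℤ))).sum

lemma fs_zero {A : Type*} : fs (0 : Multiset A) = 0 := by simp [fs]

lemma fs_add {A : Type*} (γ δ : Multiset A) : fs (γ + δ) = fs γ + fs δ := by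
  unfold fs
  rw [Multiset.map_add, Multiset.sum_add]

lemma fs_singleton {A : Type*} (a : A) : fs ({a} : Multiset A) = Finsupp.single a 1 := by
  simp [fs]

lemma fs_cons {A : Type*} (a : A) (γ : Multiset A) :
    fs (a ::ₘ γ) = Finsupp.single a 1 + fs γ := by
  simp [fs]

lemma fs_apply {A : Type*} [DecidableEq A] (γ : Multiset A) (x : A) : fs γ x = (γ.count x : ℤ) := by
  induction γ using Multiset.induction_on with
  | empty => simp [fs_zero]
  | cons a s ih =>
    rw [fs_cons, Finsupp.add_apply, ih, Multiset.count_cons, Finsupp.single_apply]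
    by_cases h : a = x
    · subst h
      simp [add_comm]
    · rw [if_neg h, if_neg (fun h1 => h h1.symm)]
      simp

lemma fs_injective {A : Type*} : Function.Injective (fs : Multiset A → A →₀ ℤ) := by
  classical
  intro γ δ h
  ext x
  have h1 := DFunLike.congr_fun h x
  rw [fs_apply, fs_apply] at h1
  exact_mod_cast h1

/-- Sum of the coefficients. -/
noncomputable def deg {A : Type*} : (A →₀ ℤ) →+ ℤ :=
  Finsupp.liftAddHom (fun _ => AddMonoidHom.id ℤ)

lemma deg_single {A : Type*} (a : A) (n : ℤ) : deg (Finsupp.single a n) = n := by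
  simp [deg]

lemma deg_fs {A : Type*} (γ : Multiset A) : deg (fs γ) = (Multiset.card γ : ℤ) := by
  induction γ using Multiset.induction_on with
  | empty => simp [fs_zero]
  | cons a s ih =>
    rw [fs_cons, map_add, ih, deg_single, Multiset.card_cons]
    push_cast
    ring

/-- The subgroup generated by the formal sums of members of `G`. -/
noncomputable def HG {A : Type*} (G : Set (Multiset A)) : AddSubgroup (A →₀ ℤ) :=
  AddSubgroup.closure (fs '' G)

lemma eqv_of_mem_HG {A : Type*} {G : Set (Multiset A)} {α : Multiset A} (h : fs α ∈ HG G) :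
    Eqv G α 0 := by
  have key : ∀ T ∈ HG G, ∃ C D : Multiset (Multiset A), (∀ β ∈ C, β ∈ G) ∧ (∀ β ∈ D, β ∈ G) ∧
      T + fs C.sum = fs D.sum := by
    intro T hT
    induction hT using AddSubgroup.closure_induction with
    | mem x hx =>
      obtain ⟨γ, hγ, rfl⟩ := hx
      refine ⟨0, {γ}, by simp, by simpa using hγ, ?_⟩
      simp [fs_zero]
    | zero => exact ⟨0, 0, by simp, by simp, by simp⟩
    | add x y _ _ hx hy =>
      obtain ⟨C, D, hC, hD, h1⟩ := hx
      obtain ⟨C', D', hC', hD', h2⟩ := hy
      refine ⟨C + C', D + D', ?_, ?_, ?_⟩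
      · intro β hβ
        rcases Multiset.mem_add.1 hβ with hβ | hβ
        · exact hC _ hβ
        · exact hC' _ hβ
      · intro β hβ
        rcases Multiset.mem_add.1 hβ with hβ | hβ
        · exact hD _ hβ
        · exact hD' _ hβ
      · rw [Multiset.sum_add, Multiset.sum_add, fs_add, fs_add, ← h1, ← h2]
        abel
    | neg x _ hx =>
      obtain ⟨C, D, hC, hD, h1⟩ := hx
      refine ⟨D, C, hD, hC, ?_⟩
      rw [← h1]
      abel
  obtain ⟨C, D, hC, hD, h1⟩ := key _ h
  refine ⟨C, D, hC, hD, ?_⟩
  rw [zero_add]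
  apply fs_injective
  rw [fs_add, h1]

section Level

variable {p M : ℕ} {Q : ℕ → Prop}

/-- The formal half. -/
noncomputable def halfS (M : ℕ) : ZMod M →₀ ℤ :=
  if 2 ∣ M then Finsupp.single ((M / 2 : ℕ) : ZMod M) 1 else 0

/-- The distribution relations of level `M` modulo `p`. -/
inductive IsRel (p M : ℕ) : (ZMod M →₀ ℤ) → Prop
  | zero : IsRel p M (Finsupp.single 0 1)
  | neg (x : ZMod M) : IsRel p M (Finsupp.single x 1 + Finsupp.single (-x) 1)
  | frob (x : ZMod M) : IsRel p M (Finsupp.single ((p : ZMod M) * x) 1 - Finsupp.single x 1)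
  | dist (l : ℕ) (x : ZMod M) (hl : l.Prime) (hlM : l ∣ M) :
      IsRel p M (Finsupp.single ((l : ZMod M) * x) 1
        - ∑ i ∈ range l, Finsupp.single (x + ((i * (M / l) : ℕ) : ZMod M)) 1)

/-- Members of the subgroup generated by elements, `[0]` and `[1/2]`. -/
def InK (p M : ℕ) (Q : ℕ → Prop) (T : ZMod M →₀ ℤ) : Prop :=
  ∃ h ∈ HG {γ : Multiset (ZMod M) | IsElem p M Q γ}, ∃ a b : ℤ,
    T = h + a • Finsupp.single 0 1 + b • halfS M

lemma InK.add {T T' : ZMod M →₀ ℤ} (h : InK p M Q T) (h' : InK p M Q T') : InK p M Q (T + T') := by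
  obtain ⟨x, hx, a, b, rfl⟩ := h
  obtain ⟨x', hx', a', b', rfl⟩ := h'
  exact ⟨x + x', add_mem hx hx', a + a', b + b', by module⟩

lemma InK.neg {T : ZMod M →₀ ℤ} (h : InK p M Q T) : InK p M Q (-T) := by
  obtain ⟨x, hx, a, b, rfl⟩ := h
  exact ⟨-x, neg_mem hx, -a, -b, by module⟩

lemma InK.sub {T T' : ZMod M →₀ ℤ} (h : InK p M Q T) (h' : InK p M Q T') : InK p M Q (T - T') := by
  rw [sub_eq_add_neg]
  exact h.add h'.neg

lemma InK.zero : InK p M Q 0 := ⟨0, zero_mem _, 0, 0, by simp⟩

lemma InK.of_elem {γ : Multiset (ZMod M)} (h : IsElem p M Q γ) : InK p M Q (fs γ) :=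
  ⟨fs γ, AddSubgroup.subset_closure ⟨γ, h, rfl⟩, 0, 0, by simp⟩

lemma InK.single_zero : InK p M Q (Finsupp.single 0 1) :=
  ⟨0, zero_mem _, 1, 0, by simp⟩

lemma InK.half : InK p M Q (halfS M) := ⟨0, zero_mem _, 0, 1, by simp⟩

lemma InK.sum {ι : Type*} (s : Finset ι) (f : ι → ZMod M →₀ ℤ) (h : ∀ i ∈ s, InK p M Q (f i)) :
    InK p M Q (∑ i ∈ s, f i) := by
  classical
  induction s using Finset.induction_on with
  | empty => simpa using InK.zero
  | insert a s ha ih =>
    rw [Finset.sum_insert ha]
    exact (h a (Finset.mem_insert_self a s)).add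
      (ih fun i hi => h i (Finset.mem_insert_of_mem hi))

lemma InK.negPair [NeZero M] (hp : Nat.Coprime p M) (x : ZMod M) :
    InK p M Q (Finsupp.single x 1 + Finsupp.single (-x) 1) := by
  by_cases hx : x = 0
  · subst hx
    rw [neg_zero]
    exact InK.single_zero.add InK.single_zero
  · have h : IsElem p M Q ({x, -x} : Multiset (ZMod M)) := by
      refine pair_isElem hx (neg_ne_zero.2 hx) fun t => ?_
      rw [mul_neg, PT_neg ((ZMod.isUnit_iff_coprime p M).2 hp)
        (fun h => hx (t.isUnit.mul_left_cancel (by rw [h, mul_zero])))]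
      ring
    have h2 := InK.of_elem h
    have h3 : fs ({x, -x} : Multiset (ZMod M))
        = Finsupp.single x 1 + Finsupp.single (-x) 1 := by
      rw [Multiset.insert_eq_cons, fs_cons, fs_singleton]
    rwa [h3] at h2

lemma InK.frobPair [NeZero M] (hp : Nat.Coprime p M) (x : ZMod M) :
    InK p M Q (Finsupp.single ((p : ZMod M) * x) 1 - Finsupp.single x 1) := by
  have hpu : IsUnit (p : ZMod M) := (ZMod.isUnit_iff_coprime p M).2 hp
  by_cases hx : x = 0
  · subst hx
    rw [mul_zero, sub_self]
    exact InK.zero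
  · have hpx : (p : ZMod M) * x ≠ 0 := fun h =>
      hx (hpu.mul_left_cancel (by rw [h, mul_zero]))
    have h : IsElem p M Q ({(p : ZMod M) * x, -x} : Multiset (ZMod M)) := by
      refine pair_isElem hpx (neg_ne_zero.2 hx) fun t => ?_
      rw [mul_neg, PT_neg hpu (fun h => hx (t.isUnit.mul_left_cancel (by rw [h, mul_zero]))),
        mul_left_comm, PT_mul_p (pow_totient' hp)]
      ring
    have h2 := InK.of_elem h
    have h3 : fs ({(p : ZMod M) * x, -x} : Multiset (ZMod M))
        = Finsupp.single ((p : ZMod M) * x) 1 + Finsupp.single (-x) 1 := by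
      rw [Multiset.insert_eq_cons, fs_cons, fs_singleton]
    rw [h3] at h2
    have h4 := h2.sub (InK.negPair hp x)
    have h5 : Finsupp.single ((p : ZMod M) * x) (1 : ℤ) + Finsupp.single (-x) 1
        - (Finsupp.single x 1 + Finsupp.single (-x) 1)
        = Finsupp.single ((p : ZMod M) * x) 1 - Finsupp.single x 1 := by abel
    rwa [h5] at h4

/-- Sums over the fiber as formal sum of the standard multiset. -/
lemma fs_std (l : ℕ) (y : ZMod M) :
    fs (std M l y) = ∑ i ∈ range l, Finsupp.single (y + ((i * (M / l) : ℕ) : ZMod M)) 1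
      + Finsupp.single (-((l : ZMod M) * y)) 1 := by
  unfold std
  rw [fs_add, fs_singleton]
  congr 1
  unfold fs
  rw [Multiset.map_map]
  rfl

lemma InK.distZero [NeZero M] (hp : Nat.Coprime p M) {l : ℕ} (hl : l.Prime) (hlM : l ∣ M) :
    InK p M Q (∑ i ∈ range l, Finsupp.single (((i * (M / l) : ℕ) : ZMod M)) 1) := by
  by_cases hl2 : l = 2
  · subst hl2
    rw [Finset.sum_range_succ, Finset.sum_range_one]
    simp only [zero_mul, Nat.cast_zero, one_mul]
    refine InK.single_zero.add ?_
    have h : halfS M = Finsupp.single ((M / 2 : ℕ) : ZMod M) 1 := by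
      unfold halfS
      rw [if_pos hlM]
    rw [← h]
    exact InK.half
  · have hodd := hl.odd_of_ne_two hl2
    obtain ⟨k, hk⟩ := hodd
    have h1 : ∀ n : ℕ, n ≤ k → InK p M Q (∑ i ∈ range n, (Finsupp.single
        ((((i + 1) * (M / l) : ℕ) : ZMod M)) (1 : ℤ)
        + Finsupp.single ((((l - 1 - i) * (M / l) : ℕ) : ZMod M)) 1)) := by
      intro n hn
      refine InK.sum _ _ fun i hi => ?_
      have hi' := Finset.mem_range.1 hi
      have h2 : ((((l - 1 - i) * (M / l) : ℕ) : ZMod M)) = -((((i + 1) * (M / l) : ℕ) : ZMod M)) := by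
        rw [eq_neg_iff_add_eq_zero, ← Nat.cast_add, ← add_mul]
        have h3 : l - 1 - i + (i + 1) = l := by omega
        rw [h3, Nat.mul_div_cancel' hlM]
        simp
      rw [h2]
      exact InK.negPair hp _
    have h2 := h1 k le_rfl
    rw [Finset.sum_add_distrib] at h2
    have h3 : ∑ i ∈ range l, Finsupp.single (((i * (M / l) : ℕ) : ZMod M)) (1 : ℤ)
        = Finsupp.single 0 1 + (∑ i ∈ range k, Finsupp.single
        ((((i + 1) * (M / l) : ℕ) : ZMod M)) (1 : ℤ)
        + ∑ i ∈ range k, Finsupp.single ((((l - 1 - i) * (M / l) : ℕ) : ZMod M)) 1) := by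
      have h4 : ∑ i ∈ range k, Finsupp.single ((((l - 1 - i) * (M / l) : ℕ) : ZMod M)) (1 : ℤ)
          = ∑ i ∈ range k, Finsupp.single ((((k + i + 1) * (M / l) : ℕ) : ZMod M)) 1 := by
        rw [← Finset.sum_range_reflect]
        refine Finset.sum_congr rfl fun i hi => ?_
        have hi' := Finset.mem_range.1 hi
        have h5 : l - 1 - (k - 1 - i) = k + i + 1 := by omega
        rw [h5]
      rw [h4, hk, Finset.sum_range_succ', add_comm]
      simp only [zero_mul, Nat.cast_zero]
      congr 1
      rw [two_mul, Finset.sum_range_add]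
    rw [h3]
    exact InK.single_zero.add h2

lemma IsRel.inK [NeZero M] (hp : Nat.Coprime p M)
    (hQ : ∀ l : ℕ, l.Prime → l ∣ M → Q l) {T : ZMod M →₀ ℤ} (h : IsRel p M T) :
    InK p M Q T := by
  have hpu : IsUnit (p : ZMod M) := (ZMod.isUnit_iff_coprime p M).2 hp
  rcases h with _ | x | x | ⟨l, x, hl, hlM⟩
  · exact InK.single_zero
  · exact InK.negPair hp x
  · exact InK.frobPair hp x
  · by_cases hy : (l : ZMod M) * x = 0
    · -- the fiber of `0`
      have hfib : ∑ i ∈ range l, Finsupp.single (x + ((i * (M / l) : ℕ) : ZMod M)) (1 : ℤ)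
          = ∑ i ∈ range l, Finsupp.single (((i * (M / l) : ℕ) : ZMod M)) 1 := by
        have hl0 : 0 < l := hl.pos
        have : NeZero l := ⟨hl.ne_zero⟩
        obtain ⟨j, hj⟩ : ∃ j : ℕ, x = ((j * (M / l) : ℕ) : ZMod M) := by
          have h1 : l * x.val = l * x.val := rfl
          have h2 : M ∣ l * x.val := by
            rw [← ZMod.natCast_eq_zero_iff]
            push_cast
            rw [ZMod.natCast_zmod_val]
            exact hy
          obtain ⟨c, hc⟩ := h2
          refine ⟨c, ?_⟩
          have h3 : M = l * (M / l) := (Nat.mul_div_cancel' hlM).symm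
          have h4 : x.val = c * (M / l) := by
            have h5 : l * x.val = l * (c * (M / l)) := by
              rw [hc]
              nth_rewrite 1 [h3]
              ring
            exact Nat.eq_of_mul_eq_mul_left hl0 h5
          rw [← h4, ZMod.natCast_zmod_val]
        subst hj
        rw [sum_range_zmod l (fun i => Finsupp.single
            (((j * (M / l) : ℕ) : ZMod M) + ((i * (M / l) : ℕ) : ZMod M)) (1 : ℤ)),
          sum_range_zmod l (fun i => Finsupp.single (((i * (M / l) : ℕ) : ZMod M)) (1 : ℤ))]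
        have h7 : ∀ i : ZMod l, Finsupp.single
            (((j * (M / l) : ℕ) : ZMod M) + ((i.val * (M / l) : ℕ) : ZMod M)) (1 : ℤ)
            = Finsupp.single (kap M l ((j : ZMod l) + i)) 1 := by
          intro i
          rw [kap_add hlM, kap_natCast hlM]
          rfl
        simp only [h7]
        exact Equiv.sum_comp (Equiv.addLeft (j : ZMod l))
          (fun i => Finsupp.single (kap M l i) (1 : ℤ))
      rw [hy, hfib]
      exact InK.single_zero.sub (InK.distZero hp hl hlM)
    · by_cases hl2 : l = 2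
      · subst hl2
        have h1 : IsElem p M Q (std2 M x) := Or.inr (Or.inr ⟨x, hlM, by
          simpa using hy, rfl⟩)
        have h2 := InK.of_elem h1
        have h3 : fs (std2 M x) = Finsupp.single x 1 + (Finsupp.single (x + ((M / 2 : ℕ) : ZMod M)) 1
            + (Finsupp.single (-(2 * x)) 1 + halfS M)) := by
          unfold std2 halfS
          rw [if_pos hlM]
          simp only [Multiset.insert_eq_cons, fs_cons, fs_singleton]
        rw [h3] at h2
        have h4 := (InK.negPair hp (2 * x)).sub (h2.sub InK.half)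
        have h5 : Finsupp.single ((2 : ℕ) * x : ZMod M) (1 : ℤ)
            - ∑ i ∈ range 2, Finsupp.single (x + ((i * (M / 2) : ℕ) : ZMod M)) 1
            = Finsupp.single (2 * x) 1 + Finsupp.single (-(2 * x)) 1
              - (Finsupp.single x 1 + (Finsupp.single (x + ((M / 2 : ℕ) : ZMod M)) 1
            + (Finsupp.single (-(2 * x)) 1 + halfS M)) - halfS M) := by
          rw [Finset.sum_range_succ, Finset.sum_range_one]
          simp only [zero_mul, one_mul, Nat.cast_zero, add_zero, Nat.cast_ofNat]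
          abel
        rw [h5]
        exact h4
      · have h1 : IsElem p M Q (std M l x) :=
          Or.inr (Or.inl ⟨l, x, hl, hl2, hlM, hQ l hl hlM, hy, rfl⟩)
        have h2 := InK.of_elem h1
        rw [fs_std] at h2
        have h4 := (InK.negPair hp ((l : ZMod M) * x)).sub h2
        have h5 : Finsupp.single ((l : ZMod M) * x) (1 : ℤ)
            - ∑ i ∈ range l, Finsupp.single (x + ((i * (M / l) : ℕ) : ZMod M)) 1
            = Finsupp.single ((l : ZMod M) * x) 1 + Finsupp.single (-((l : ZMod M) * x)) 1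
              - (∑ i ∈ range l, Finsupp.single (x + ((i * (M / l) : ℕ) : ZMod M)) 1
              + Finsupp.single (-((l : ZMod M) * x)) 1) := by abel
        rw [h5]
        exact h4

lemma closure_inK [NeZero M] (hp : Nat.Coprime p M)
    (hQ : ∀ l : ℕ, l.Prime → l ∣ M → Q l) {T : ZMod M →₀ ℤ}
    (h : T ∈ AddSubgroup.closure {T : ZMod M →₀ ℤ | IsRel p M T}) : InK p M Q T := by
  induction h using AddSubgroup.closure_induction with
  | mem x hx => exact IsRel.inK hp hQ hx
  | zero => exact InK.zero
  | add x y _ _ hx hy => exact hx.add hy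
  | neg x _ hx => exact hx.neg

/-- A multiset of nonzero elements with an even number of members whose formal sum is a
combination of distribution relations of level `M` is a difference of sums of elements. -/
theorem eqv_of_closure [NeZero M] (hp : Nat.Coprime p M)
    (hQ : ∀ l : ℕ, l.Prime → l ∣ M → Q l) {α : Multiset (ZMod M)}
    (h0 : (0 : ZMod M) ∉ α) (hev : Even (Multiset.card α))
    (h : fs α ∈ AddSubgroup.closure {T : ZMod M →₀ ℤ | IsRel p M T}) :
    Eqv {γ : Multiset (ZMod M) | IsElem p M Q γ} α 0 := by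
  classical
  have hpu : IsUnit (p : ZMod M) := (ZMod.isUnit_iff_coprime p M).2 hp
  obtain ⟨x, hx, a, b, hab⟩ := closure_inK hp hQ h
  have hH : ∀ T ∈ HG {γ : Multiset (ZMod M) | IsElem p M Q γ}, T 0 = 0 ∧ Even (deg T) := by
    intro T hT
    induction hT using AddSubgroup.closure_induction with
    | mem y hy =>
      obtain ⟨γ, hγ, rfl⟩ := hy
      have hb := isElem_balanced hp hγ
      refine ⟨?_, ?_⟩
      · rw [fs_apply, Multiset.count_eq_zero_of_notMem hb.1]
        rfl
      · rw [deg_fs]
        exact_mod_cast hb.2.1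
    | zero => exact ⟨rfl, by simp⟩
    | add y z _ _ hy hz =>
      refine ⟨?_, ?_⟩
      · rw [Finsupp.add_apply, hy.1, hz.1, add_zero]
      · rw [map_add]
        exact hy.2.add hz.2
    | neg y _ hy =>
      refine ⟨?_, ?_⟩
      · rw [Finsupp.neg_apply, hy.1, neg_zero]
      · rw [map_neg]
        exact hy.2.neg
  have hhalf : halfS M 0 = 0 := by
    unfold halfS
    split_ifs with h2
    · rw [Finsupp.single_apply, if_neg (half_facts h2).2]
    · rfl
  have ha : a = 0 := by
    have h1 := DFunLike.congr_fun hab 0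
    rw [fs_apply, Multiset.count_eq_zero_of_notMem h0] at h1
    simp only [Finsupp.add_apply, Finsupp.smul_apply, (hH x hx).1, hhalf,
      Finsupp.single_eq_same] at h1
    simpa using h1.symm
  apply eqv_of_mem_HG
  rw [hab, ha, zero_smul, add_zero]
  refine add_mem hx ?_
  by_cases h2 : 2 ∣ M
  · have hb : Even b := by
      have h1 := congrArg deg hab
      rw [deg_fs, ha, zero_smul, add_zero, map_add, map_zsmul] at h1
      have h3 : deg (halfS M) = 1 := by
        unfold halfS
        rw [if_pos h2, deg_single]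
      rw [h3, smul_eq_mul, mul_one] at h1
      have h4 : Even (deg x + b) := by
        rw [← h1]
        exact_mod_cast hev
      exact (Int.even_add.1 h4).1 (hH x hx).2
    obtain ⟨c, rfl⟩ := hb
    have h5 : IsElem p M Q ({((M / 2 : ℕ) : ZMod M), ((M / 2 : ℕ) : ZMod M)} : Multiset (ZMod M)) := by
      obtain ⟨hh, hh0⟩ := half_facts h2
      refine pair_isElem hh0 hh0 fun t => ?_
      rw [PT_two_torsion hpu (fun h => hh0 (t.isUnit.mul_left_cancel (by rw [h, mul_zero])))
        (by rw [mul_left_comm, hh, mul_zero])]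
      ring
    have h6 : (c + c) • halfS M = c • fs ({((M / 2 : ℕ) : ZMod M), ((M / 2 : ℕ) : ZMod M)} :
        Multiset (ZMod M)) := by
      unfold halfS
      rw [if_pos h2, Multiset.insert_eq_cons, fs_cons, fs_singleton]
      module
    rw [h6]
    have h7 : fs ({((M / 2 : ℕ) : ZMod M), ((M / 2 : ℕ) : ZMod M)} : Multiset (ZMod M)) ∈
        HG {γ : Multiset (ZMod M) | IsElem p M Q γ} :=
      AddSubgroup.subset_closure ⟨_, h5, rfl⟩
    exact zsmul_mem h7 c
  · unfold halfS
    rw [if_neg h2, smul_zero]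
    exact zero_mem _

end Level


end TraB

open TraB

/-- A relation of level `m` is the image of a combination of relations in `ZMod m`. -/
lemma TraB_exists {p m : ℕ} [NeZero m] {T : QZ →₀ ℤ} (hT : T ∈ Rel p m) :
    ∃ T' ∈ AddSubgroup.closure {T : ZMod m →₀ ℤ | IsRel p m T}, T = Finsupp.mapDomain (pt m) T' := by
  unfold Rel at hT
  induction hT using AddSubgroup.closure_induction with
  | mem x hx =>
    have hx' : Gen p m x := hx
    cases hx' with
    | zero =>
      refine ⟨Finsupp.single 0 1, AddSubgroup.subset_closure IsRel.zero, ?_⟩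
      rw [Finsupp.mapDomain_single]
      have := pt_natCast m 0
      rw [Nat.cast_zero, zero_smul] at this
      rw [this]
    | neg y hy =>
      obtain ⟨a, rfl⟩ := exists_pt hy
      refine ⟨_, AddSubgroup.subset_closure (IsRel.neg a), ?_⟩
      rw [Finsupp.mapDomain_add, Finsupp.mapDomain_single, Finsupp.mapDomain_single, pt_neg]
    | frob y hy =>
      obtain ⟨a, rfl⟩ := exists_pt hy
      refine ⟨_, AddSubgroup.subset_closure (IsRel.frob a), ?_⟩
      rw [← pt_mul, sub_eq_add_neg, sub_eq_add_neg, Finsupp.mapDomain_add,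
        Finsupp.mapDomain_single, ← Finsupp.single_neg, ← Finsupp.single_neg,
        Finsupp.mapDomain_single]
    | dist l hl hlm y hy =>
      obtain ⟨a, rfl⟩ := exists_pt hy
      refine ⟨_, AddSubgroup.subset_closure (IsRel.dist l a hl hlm), ?_⟩
      have h1 : Finsupp.mapDomain (pt m) (Finsupp.single ((l : ZMod m) * a) (1 : ℤ)
          - ∑ i ∈ range l, Finsupp.single (a + ((i * (m / l) : ℕ) : ZMod m)) 1)
          = Finsupp.mapDomain (pt m) (Finsupp.single ((l : ZMod m) * a) (1 : ℤ))
          - ∑ i ∈ range l, Finsupp.mapDomain (pt m)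
            (Finsupp.single (a + ((i * (m / l) : ℕ) : ZMod m)) (1 : ℤ)) := by
        have h2 := map_sub (Finsupp.mapDomain.addMonoidHom (pt m) (M := ℤ))
          (Finsupp.single ((l : ZMod m) * a) (1 : ℤ))
          (∑ i ∈ range l, Finsupp.single (a + ((i * (m / l) : ℕ) : ZMod m)) 1)
        rw [map_sum] at h2
        exact h2
      rw [h1]
      simp only [Finsupp.mapDomain_single]
      rw [pt_mul]
      congr 1
      refine Finset.sum_congr rfl fun i _ => ?_
      rw [pt_add, pt_fibre hlm]
  | zero => exact ⟨0, zero_mem _, by rw [Finsupp.mapDomain_zero]⟩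
  | add x y _ _ hx hy =>
    obtain ⟨x', hx', rfl⟩ := hx
    obtain ⟨y', hy', rfl⟩ := hy
    exact ⟨x' + y', add_mem hx' hy', by rw [Finsupp.mapDomain_add]⟩
  | neg x _ hx =>
    obtain ⟨x', hx', rfl⟩ := hx
    refine ⟨-x', neg_mem hx', ?_⟩
    exact (map_neg (Finsupp.mapDomain.addMonoidHom (pt m) (M := ℤ)) x').symm

lemma TraB_TT {m : ℕ} (α : Multiset (ZMod m)) : TT m α = Finsupp.mapDomain (pt m) (fs α) := by
  induction α using Multiset.induction_on with
  | empty => simp [TT, fs]
  | cons a s ih =>
    rw [fs_cons, Finsupp.mapDomain_add, Finsupp.mapDomain_single, ← ih]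
    simp [TT]

/-- JOB TraB. A relation of level `m` coming from a multiset `α` of even length is a sum of elementary multisets. -/
theorem eqv_of_mem_Rel {p m : ℕ} [NeZero m] (hp : p.Prime) (hpm : Nat.Coprime p m)
    {Q : ℕ → Prop} (hQ : ∀ l : ℕ, l.Prime → l ∣ m → Q l) {α : Multiset (ZMod m)}
    (h0 : (0 : ZMod m) ∉ α) (heven : Even (Multiset.card α)) (hT : TT m α ∈ Rel p m) :
    Eqv {δ | IsElem p m Q δ} α 0 := by
  obtain ⟨T', hT', h⟩ := TraB_exists hT
  rw [TraB_TT] at h
  have h1 : fs α = T' := Finsupp.mapDomain_injective (pt_injective m) h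
  exact eqv_of_closure hpm hQ h0 heven (h1 ▸ hT')

end Pool.Agent.Lib.MP_021685_agT
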