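import Pool.Agent.Lib.MP_021685_agT.Sup

/-!
Parity vectors and divisibility by `2`.
-/

namespace Pool.Agent.Lib.MP_021685_agT

open Finset

/-- The parity vector of `T` vanishes: for every nonempty finite set `I` of primes the sum of the coefficients of the `x` of odd order
whose set of primes is `I` is even. -/
def Par (T : QZ →₀ ℤ) : Prop :=
  ∀ I : Finset ℕ, I.Nonempty →
    Even (∑ x ∈ T.support with Odd (addOrderOf x) ∧ (addOrderOf x).primeFactors = I, T x)

/-- `w` is divisible by `2`. -/
def Div2 {V : Type*} [AddCommGroup V] (w : V) : Prop := ∃ w' : V, w = 2 • w'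

variable {V : Type*} [AddCommGroup V]

lemma Div2.add {a b : V} (ha : Div2 a) (hb : Div2 b) : Div2 (a + b) := by
  obtain ⟨a', rfl⟩ := ha
  obtain ⟨b', rfl⟩ := hb
  exact ⟨a' + b', by rw [smul_add]⟩

lemma Div2.neg {a : V} (ha : Div2 a) : Div2 (-a) := by
  obtain ⟨a', rfl⟩ := ha
  exact ⟨-a', by rw [smul_neg]⟩

end Pool.Agent.Lib.MP_021685_agT
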