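import Pool.Agent.Lib.MP_021685_agT.S1D
import Pool.Agent.Lib.MP_021685_agT.ParDefs

/-!
JOB TraC. Change of level and parity for `TT`.
-/

namespace Pool.Agent.Lib.MP_021685_agT

open Finset Pool.Agent.Lib.MP_021685_ag.Fermat

lemma TraC_pt_incl {m d : ℕ} [NeZero m] (hd : 0 < d) (a : ZMod m) :
    pt (m * d) (incl m d a) = pt m a := by
  unfold pt
  rw [incl_val hd a, mul_comm d a.val, mul_smul, nsmul_e_mul hd.ne']

/-- `TT` is compatible with the inclusion `ZMod m → ZMod (m * d)`: `incl m d a` has value `d * a.val` (`incl_val`) and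
`(d * j) • e (m * d) = j • e m`. -/
theorem TT_incl {m d : ℕ} [NeZero m] (hd : 0 < d) (α : Multiset (ZMod m)) :
    TT (m * d) (α.map (incl m d)) = TT m α := by
  unfold TT
  rw [Multiset.map_map]
  congr 1
  refine Multiset.map_congr rfl fun a _ => ?_
  simp only [Function.comp_apply]
  rw [TraC_pt_incl hd]

open Classical in
/-- Sum of the coefficients of the points with a property. -/
noncomputable def TraC_sum (P : QZ → Prop) : (QZ →₀ ℤ) →+ ℤ :=
  Finsupp.liftAddHom (fun x => if P x then AddMonoidHom.id ℤ else 0)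

lemma TraC_sum_apply (P : QZ → Prop) [DecidablePred P] (T : QZ →₀ ℤ) :
    TraC_sum P T = ∑ x ∈ T.support with P x, T x := by
  unfold TraC_sum
  rw [Finsupp.liftAddHom_apply, Finset.sum_filter]
  unfold Finsupp.sum
  refine Finset.sum_congr rfl fun x _ => ?_
  by_cases h : P x
  · simp [h]
  · simp [h]

lemma TraC_sum_TT (P : QZ → Prop) [DecidablePred P] {m : ℕ} (α : Multiset (ZMod m)) :
    TraC_sum P (TT m α) = (Multiset.card (α.filter (fun a => P (pt m a))) : ℤ) := by
  induction α using Multiset.induction_on with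
  | empty => simp [TT]
  | cons a s ih =>
    have h1 : TT m (a ::ₘ s) = Finsupp.single (pt m a) 1 + TT m s := by
      simp [TT]
    rw [h1, map_add, ih]
    have h2 : TraC_sum P (Finsupp.single (pt m a) 1) = if P (pt m a) then 1 else 0 := by
      unfold TraC_sum
      rw [Finsupp.liftAddHom_apply_single]
      by_cases h : P (pt m a)
      · rw [if_pos h, if_pos h]; rfl
      · rw [if_neg h, if_neg h]; rfl
    rw [h2]
    by_cases h : P (pt m a)
    · rw [if_pos h, Multiset.filter_cons_of_pos (p := fun a => P (pt m a)) s h, Multiset.card_cons]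
      push_cast
      ring
    · rw [if_neg h, Multiset.filter_cons_of_neg (p := fun a => P (pt m a)) s h, zero_add]

/-- JOB TraC. The parity of a multiset. -/
theorem par_TT {m : ℕ} [NeZero m] {α : Multiset (ZMod m)}
    (h : ∀ I : Finset ℕ, I.Nonempty → Even (Multiset.card
      (α.filter (fun a => Odd (addOrderOf a) ∧ (addOrderOf a).primeFactors = I)))) :
    Par (TT m α) := by
  intro I hI
  have h1 := TraC_sum_apply
    (fun x => Odd (addOrderOf x) ∧ (addOrderOf x).primeFactors = I) (TT m α)
  have h2 := TraC_sum_TT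
    (fun x => Odd (addOrderOf x) ∧ (addOrderOf x).primeFactors = I) α
  rw [h1] at h2
  rw [h2]
  have h3 : α.filter (fun a => Odd (addOrderOf (pt m a)) ∧
      (addOrderOf (pt m a)).primeFactors = I)
      = α.filter (fun a => Odd (addOrderOf a) ∧ (addOrderOf a).primeFactors = I) :=
    Multiset.filter_congr fun a _ => by rw [addOrderOf_pt]
  rw [h3]
  exact_mod_cast h I hI

end Pool.Agent.Lib.MP_021685_agT
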