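import Pool.Agent.Lib.MP_021685_agT.FinA
import Pool.Agent.Lib.MP_021685_agT.FinB
import Pool.Agent.Lib.MP_021685_agT.S1E
import Pool.Agent.Lib.MP_021685_agT.TraB
import Pool.Agent.Lib.MP_021685_agT.TraC
import Pool.Agent.Lib.MP_021685_agT.Main

/-!
JOB FinC. The final theorem.
-/

namespace Pool.Agent.Lib.MP_021685_agT

open Finset Pool.Agent.Lib.MP_021685_ag.Fermat

lemma Fin_map_sum {A B : Type*} (f : A → B) (C : Multiset (Multiset A)) :
    C.sum.map f = (C.map (Multiset.map f)).sum := by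
  induction C using Multiset.induction_on with
  | empty => simp
  | cons γ s ih => rw [Multiset.sum_cons, Multiset.map_add, ih, Multiset.map_cons,
      Multiset.sum_cons]

lemma Fin_balanced_zero (p M : ℕ) : IsBalanced p M 0 := by
  refine ⟨by simp, by simp, fun t => by simp⟩

lemma Fin_balanced_sum {p M : ℕ} (C : Multiset (Multiset (ZMod M)))
    (hC : ∀ γ ∈ C, IsBalanced p M γ) : IsBalanced p M C.sum := by
  induction C using Multiset.induction_on with
  | empty => rw [Multiset.sum_zero]; exact Fin_balanced_zero p M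
  | cons γ s ih =>
    rw [Multiset.sum_cons]
    exact IsBalanced.add' (hC γ (Multiset.mem_cons_self γ s))
      (ih fun δ hδ => hC δ (Multiset.mem_cons_of_mem hδ))

lemma Fin_sum_zero {M : ℕ} (C : Multiset (Multiset (ZMod M)))
    (hC : ∀ γ ∈ C, γ.sum = 0) : C.sum.sum = 0 := by
  induction C using Multiset.induction_on with
  | empty => simp
  | cons γ s ih =>
    rw [Multiset.sum_cons, Multiset.sum_add, hC γ (Multiset.mem_cons_self γ s),
      ih fun δ hδ => hC δ (Multiset.mem_cons_of_mem hδ), add_zero]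

lemma Fin_eqv_sum {A : Type*} {G : Set (Multiset A)} (C : Multiset (Multiset A))
    (hC : ∀ γ ∈ C, γ ∈ G) : Eqv G C.sum 0 :=
  ⟨0, C, by simp, hC, by simp⟩

lemma Fin_par_sum {M : ℕ} (C : Multiset (Multiset (ZMod M))) (I : Finset ℕ)
    (hC : ∀ γ ∈ C, Even (par M γ I)) : Even (par M C.sum I) := by
  induction C using Multiset.induction_on with
  | empty => simp [par]
  | cons γ s ih =>
    rw [Multiset.sum_cons, par_add]
    exact (hC γ (Multiset.mem_cons_self γ s)).add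
      (ih fun δ hδ => hC δ (Multiset.mem_cons_of_mem hδ))

/-- Good characters in the sense of `FermatDefs` at level `M (p ^ N - 1)` with `Q l = (l ^ 2 ∣ M)`. -/
lemma Fin_good {p M N : ℕ} {β : Multiset (ZMod (M * (p ^ N - 1)))}
    (h : IsGood p (M * (p ^ N - 1)) (fun l => l ^ 2 ∣ M) β) :
    IsDiv p (M * (p ^ N - 1)) β ∨ IsStd (M * (p ^ N - 1)) β := by
  obtain ⟨h1, h2 | h2 | ⟨l, y, hl, h5, hlM, hQ, hβ⟩⟩ := h
  · exact Or.inl ⟨h1, Or.inl h2⟩
  · exact Or.inl ⟨h1, Or.inr (Or.inl h2)⟩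
  · refine Or.inr ⟨l, y, hl, h5, hQ.mul_right _, ?_, hβ⟩
    intro h0
    apply h1.1.1
    rw [hβ]
    refine mem_std.2 (Or.inr ?_)
    rw [h0, neg_zero]

/-- Zero parity implies generated.

Proof. `T = TT M0 (α.map (lift m M0) + C.sum)` has a nonzero multiple in `Rel p M0` (`exists_nsmul_mem`), parity zero (`par_TT`), so
`T ∈ RelA p` (`mem_of_torsion_of_par`), `T ∈ Rel p M1` (`mem_RelA`). Put `d0 = M1 * (M0 * M1)`, `M = M0 * d0 = (M0 * M1) ^ 2`, prime to `p`.
`T = TT M (lifts)` (`TT_incl`), so by `eqv_of_mem_Rel` with `Q l = (l ^ 2 ∣ M)`: `Eqv IsElem (α' + C'.sum) 0` at level `M`, `α', C'` the lifts. The members of `C'` which are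
balanced pairs are in `IsElem`, so they can be cancelled: `Eqv IsElem (α' + C1.sum) 0` with `C1` the lifts of the `IsDiv` members. `α' + C1.sum` has sum zero,
so `generated_of_eqv` with `N = φ(M)` gives `Generated p M N Q (α' + C1.sum)`: a difference of sums of `IsGood` characters of level `M (p ^ N - 1)`; these are
`IsDiv` (card 2, 4) or `IsStd` (the hypothesis `l y ≠ 0` because `0` is not in the multiset), and the lifts of the members of `C1` are `IsDiv`. -/
theorem gen_of_par {p m : ℕ} (hp : p.Prime) (hm : 0 < m) (hpm : ¬ p ∣ m) {α : Multiset (ZMod m)}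
    (hα : IsTate p m α) {M0 : ℕ} (hM0 : 0 < M0) (hmM : m ∣ M0) (hpM : ¬ p ∣ M0)
    (C : Multiset (Multiset (ZMod M0)))
    (hC : ∀ γ ∈ C, IsDiv p M0 γ ∨ (IsBalanced p M0 γ ∧ Multiset.card γ = 2))
    (hpar : ∀ I : Finset ℕ, I.Nonempty → Even (par M0 (α.map (lift m M0) + C.sum) I)) :
    ∃ M : ℕ, 0 < M ∧ m ∣ M ∧ ¬ p ∣ M ∧ ∃ A B : Multiset (Multiset (ZMod M)),
      (∀ β ∈ A, IsDiv p M β ∨ IsStd M β) ∧ (∀ β ∈ B, IsDiv p M β ∨ IsStd M β) ∧
      α.map (lift m M) + A.sum = B.sum := by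
  classical
  have hcop : ∀ {n : ℕ}, ¬ p ∣ n → Nat.Coprime p n := fun h =>
    (Nat.Prime.coprime_iff_not_dvd hp).2 h
  have : NeZero M0 := ⟨hM0.ne'⟩
  have hpM0 := hcop hpM
  have hαl : IsTate p M0 (α.map (lift m M0)) := IsTate.lift hM0 hpM0 hmM hα
  have hCb : ∀ γ ∈ C, IsBalanced p M0 γ := by
    intro γ hγ
    rcases hC γ hγ with h | h
    · exact h.1.1
    · exact h.1
  have hbal : IsBalanced p M0 (α.map (lift m M0) + C.sum) :=
    IsBalanced.add' hαl.1 (Fin_balanced_sum C hCb)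
  set δ := α.map (lift m M0) + C.sum with hδ
  obtain ⟨N0, hN0, hN0T⟩ := exists_nsmul_mem hpM0 hbal
  have hPar : Par (TT M0 δ) := par_TT hpar
  have hTA := mem_of_torsion_of_par hp hN0 (Rel_le_RelA hM0.ne' hpM0 hN0T) hPar
  obtain ⟨M1, hM1, hpM1, hT1⟩ := mem_RelA.1 hTA
  set d0 := M1 * (M0 * M1) with hd0def
  have hM1pos : 0 < M1 := Nat.pos_of_ne_zero hM1
  have hd0 : 0 < d0 := by positivity
  have hMpos : 0 < M0 * d0 := Nat.mul_pos hM0 hd0
  set M := M0 * d0 with hMdef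
  have : NeZero M := ⟨hMpos.ne'⟩
  have : NeZero d0 := ⟨hd0.ne'⟩
  have hpMM : Nat.Coprime p M := by
    rw [hMdef, hd0def]
    exact Nat.Coprime.mul_right hpM0 (Nat.Coprime.mul_right hpM1 (Nat.Coprime.mul_right hpM0 hpM1))
  have hsq : ∀ l : ℕ, l.Prime → l ∣ M → l ^ 2 ∣ M := by
    intro l hl hlM
    have h1 : M = (M0 * M1) ^ 2 := by rw [hMdef, hd0def]; ring
    rw [h1] at hlM ⊢
    exact pow_dvd_pow_of_dvd (hl.dvd_of_dvd_pow hlM) 2
  have hTM : TT M (δ.map (incl M0 d0)) ∈ Rel p M := by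
    have h1 : TT M (δ.map (incl M0 d0)) = TT M0 δ := TT_incl hd0 δ
    rw [h1]
    refine Rel_mono ?_ hT1
    rw [hMdef, hd0def]
    exact Dvd.intro_left (M0 * (M0 * M1)) (by ring)
  have hbalM := balanced_incl (d := d0) hpM0 hbal
  have hE := eqv_of_mem_Rel (Q := fun l => l ^ 2 ∣ M) hp hpMM hsq hbalM.1 hbalM.2.1 hTM
  -- split `C`
  set C1 := C.filter (fun γ => IsDiv p M0 γ) with hC1
  set C2 := C.filter (fun γ => ¬ IsDiv p M0 γ) with hC2
  have hCsplit : C = C1 + C2 := (Multiset.filter_add_not (fun γ => IsDiv p M0 γ) C).symm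
  set D1 := C1.map (Multiset.map (incl M0 d0)) with hD1
  set D2 := C2.map (Multiset.map (incl M0 d0)) with hD2
  have hsplit : δ.map (incl M0 d0) = (α.map (lift m M0)).map (incl M0 d0) + D1.sum + D2.sum := by
    rw [hδ, Multiset.map_add, hCsplit, Multiset.sum_add, Multiset.map_add, Fin_map_sum,
      Fin_map_sum, ← add_assoc]
  have hD2E : ∀ γ ∈ D2, γ ∈ {γ | IsElem p M (fun l => l ^ 2 ∣ M) γ} := by
    intro γ hγ
    obtain ⟨γ', hγ', rfl⟩ := Multiset.mem_map.1 hγ
    have h1 := Multiset.mem_filter.1 hγ'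
    rcases hC γ' h1.1 with h2 | h2
    · exact absurd h2 h1.2
    · refine Or.inl ⟨balanced_incl (d := d0) hpM0 h2.1, ?_⟩
      rw [Multiset.card_map, h2.2]
  have hE1 : Eqv {γ | IsElem p M (fun l => l ^ 2 ∣ M) γ}
      ((α.map (lift m M0)).map (incl M0 d0) + D1.sum) 0 := by
    have h1 := Fin_eqv_sum D2 hD2E
    have h2 : Eqv {γ | IsElem p M (fun l => l ^ 2 ∣ M) γ}
        ((α.map (lift m M0)).map (incl M0 d0) + D1.sum + D2.sum)
        ((α.map (lift m M0)).map (incl M0 d0) + D1.sum) := by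
      have := h1.add_left ((α.map (lift m M0)).map (incl M0 d0) + D1.sum)
      rwa [add_zero] at this
    rw [hsplit] at hE
    exact h2.symm.trans hE
  -- lifts of the members of `C1`
  have hliftincl : ∀ γ : Multiset (ZMod M0), γ.map (incl M0 d0) = γ.map (lift M0 M) := fun γ =>
    Multiset.map_congr rfl fun a _ => (lift_eq_incl hM0 a).symm
  have hM0M : M0 ∣ M := dvd_mul_right _ _
  have hD1div : ∀ γ ∈ D1, IsDiv p M γ := by
    intro γ hγ
    obtain ⟨γ', hγ', rfl⟩ := Multiset.mem_map.1 hγ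
    have h1 := (Multiset.mem_filter.1 hγ').2
    rw [hliftincl]
    exact IsDiv.lift hMpos hpMM hM0M h1
  have hαM : (α.map (lift m M0)).map (incl M0 d0) = α.map (lift m M) := by
    rw [hliftincl, Multiset.map_map]
    exact Multiset.map_congr rfl fun a _ => lift_lift hMpos hmM hM0M a
  rw [hαM] at hE1
  have hmM' : m ∣ M := hmM.trans hM0M
  have hαtM : IsTate p M (α.map (lift m M)) := IsTate.lift hMpos hpMM hmM' hα
  have hsum0 : (α.map (lift m M) + D1.sum).sum = 0 := by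
    rw [Multiset.sum_add, hαtM.2, Fin_sum_zero D1 fun γ hγ => (hD1div γ hγ).1.2, add_zero]
  have hnot0 : (0 : ZMod M) ∉ α.map (lift m M) + D1.sum :=
    (IsBalanced.add' hαtM.1 (Fin_balanced_sum D1 fun γ hγ => (hD1div γ hγ).1.1)).1
  have hN : 0 < Nat.totient M := Nat.totient_pos.2 hMpos
  have hMN : M ∣ p ^ Nat.totient M - 1 :=
    (Nat.modEq_iff_dvd' (Nat.one_le_pow _ _ hp.pos)).1 (Nat.ModEq.pow_totient hpMM).symm
  have hgen := generated_of_eqv (N := Nat.totient M) hp hpMM hN hMN hnot0 hsum0 hE1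
  -- the final level
  generalize Nat.totient M = N at hN hMN hgen
  obtain ⟨A, B, hA, hB, hAB⟩ := hgen
  have hpN : 2 ≤ p ^ N := hp.two_le.trans (Nat.le_self_pow hN.ne' p)
  have hd : 0 < p ^ N - 1 := by omega
  have hLpos : 0 < M * (p ^ N - 1) := Nat.mul_pos hMpos hd
  have hpd : ¬ p ∣ p ^ N - 1 := by
    intro h6
    have h7 : p ∣ p ^ N := dvd_pow_self p hN.ne'
    have h8 : p ∣ 1 := by
      have h9 : p ^ N = (p ^ N - 1) + 1 := by omega
      rw [h9] at h7
      exact (Nat.dvd_add_right h6).1 h7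
    exact hp.one_lt.ne' (Nat.dvd_one.1 h8)
  have hpL : ¬ p ∣ M * (p ^ N - 1) := by
    intro h6
    rcases (Nat.Prime.dvd_mul hp).1 h6 with h7 | h7
    · exact (Nat.Prime.coprime_iff_not_dvd hp).1 hpMM h7
    · exact hpd h7
  have hML : M ∣ M * (p ^ N - 1) := dvd_mul_right _ _
  have hinclL : ∀ γ : Multiset (ZMod M), γ.map (incl M (p ^ N - 1)) = γ.map (lift M (M * (p ^ N - 1))) := fun γ =>
    Multiset.map_congr rfl fun a _ => (lift_eq_incl hMpos a).symm
  refine ⟨M * (p ^ N - 1), hLpos, hmM'.trans hML, hpL, D1.map (Multiset.map (lift M (M * (p ^ N - 1)))) + A, B, ?_,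
    fun β hβ => Fin_good (hB β hβ), ?_⟩
  · intro β hβ
    rcases Multiset.mem_add.1 hβ with hβ | hβ
    · obtain ⟨γ, hγ, rfl⟩ := Multiset.mem_map.1 hβ
      exact Or.inl (IsDiv.lift hLpos (hcop hpL) hML (hD1div γ hγ))
    · exact Fin_good (hA β hβ)
  · have h1 : (α.map (lift m M)).map (lift M (M * (p ^ N - 1)))
        = α.map (lift m (M * (p ^ N - 1))) := by
      rw [Multiset.map_map]
      exact Multiset.map_congr rfl fun a _ => lift_lift hLpos hmM' hML a
    rw [← hAB, hinclL, Multiset.map_add, Fin_map_sum, Multiset.sum_add, h1, ← add_assoc]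

/-- **The structure theorem.** -/
theorem structure_theorem {p m : ℕ} (hp : p.Prime) (hm : 0 < m) (hpm : ¬ p ∣ m)
    {α : Multiset (ZMod m)} (hα : IsTate p m α) :
    (∃ M : ℕ, 0 < M ∧ m ∣ M ∧ ¬ p ∣ M ∧ ∃ A B : Multiset (Multiset (ZMod M)),
      (∀ β ∈ A, IsDiv p M β ∨ IsStd M β) ∧ (∀ β ∈ B, IsDiv p M β ∨ IsStd M β) ∧
      α.map (lift m M) + A.sum = B.sum) ↔
    (∃ M : ℕ, 0 < M ∧ m ∣ M ∧ ¬ p ∣ M ∧ ∃ C : Multiset (Multiset (ZMod M)),
      (∀ γ ∈ C, IsDiv p M γ ∨ (IsBalanced p M γ ∧ Multiset.card γ = 2)) ∧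
      ∀ I : Finset ℕ, I.Nonempty → Even (par M (α.map (lift m M) + C.sum) I)) := by
  classical
  constructor
  · rintro ⟨M, hM, hmM, hpM, A, B, hA, hB, hAB⟩
    set A1 := A.filter (fun γ => IsDiv p M γ) with hA1
    set A2 := A.filter (fun γ => ¬ IsDiv p M γ) with hA2
    set B1 := B.filter (fun γ => IsDiv p M γ) with hB1
    set B2 := B.filter (fun γ => ¬ IsDiv p M γ) with hB2
    have hAs : A = A1 + A2 := (Multiset.filter_add_not (fun γ => IsDiv p M γ) A).symm
    have hBs : B = B1 + B2 := (Multiset.filter_add_not (fun γ => IsDiv p M γ) B).symm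
    refine ⟨M, hM, hmM, hpM, A1 + B1, ?_, ?_⟩
    · intro γ hγ
      rcases Multiset.mem_add.1 hγ with h | h
      · exact Or.inl (Multiset.mem_filter.1 h).2
      · exact Or.inl (Multiset.mem_filter.1 h).2
    · intro I _
      have h2 : Even (par M A2.sum I) := Fin_par_sum A2 I fun γ hγ => by
        have h3 := Multiset.mem_filter.1 hγ
        rcases hA γ h3.1 with h4 | h4
        · exact absurd h4 h3.2
        · exact par_std hM h4 I
      have h3 : Even (par M B2.sum I) := Fin_par_sum B2 I fun γ hγ => by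
        have h3 := Multiset.mem_filter.1 hγ
        rcases hB γ h3.1 with h4 | h4
        · exact absurd h4 h3.2
        · exact par_std hM h4 I
      have h4 := congrArg (fun z => par M z I) hAB
      simp only [hAs, hBs, Multiset.sum_add, par_add] at h4
      rw [Multiset.sum_add, par_add, par_add]
      obtain ⟨a, ha⟩ := h2
      obtain ⟨b, hb⟩ := h3
      rw [Nat.even_iff]
      omega
  · rintro ⟨M, hM, hmM, hpM, C, hC, hpar⟩
    exact gen_of_par hp hm hpm hα hM hmM hpM C hC hpar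

end Pool.Agent.Lib.MP_021685_agT
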