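import Pool.Agent.Lib.MP_021685_agT.Fin
import Pool.Agent.Lib.MP_021685_ag.Fermat9

/-!
Consequences of the structure theorem and the families of `Fermat9`.
-/

namespace Pool.Agent.Lib.MP_021685_agT

open Finset Pool.Agent.Lib.MP_021685_ag.Fermat

/-- `α` is generated: lifted to some degree `M` prime to `p` it is a difference of sums of `IsDiv`
and `IsStd` characters. -/
def Gen' (p m : ℕ) (α : Multiset (ZMod m)) : Prop :=
  ∃ M : ℕ, 0 < M ∧ m ∣ M ∧ ¬ p ∣ M ∧ ∃ A B : Multiset (Multiset (ZMod M)),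
    (∀ β ∈ A, IsDiv p M β ∨ IsStd M β) ∧ (∀ β ∈ B, IsDiv p M β ∨ IsStd M β) ∧
    α.map (lift m M) + A.sum = B.sum

lemma gen_of_generated {p m N : ℕ} (hp : p.Prime) (hm : 0 < m) (hpm : ¬ p ∣ m) (hN : 0 < N)
    {α : Multiset (ZMod m)} (h : Generated p m N (fun l => l ^ 2 ∣ m) α) : Gen' p m α := by
  obtain ⟨A, B, hA, hB, hAB⟩ := h
  have hpN : 2 ≤ p ^ N := hp.two_le.trans (Nat.le_self_pow hN.ne' p)
  have hd : 0 < p ^ N - 1 := by omega
  have hpd : ¬ p ∣ p ^ N - 1 := by
    intro h6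
    have h7 : p ∣ p ^ N := dvd_pow_self p hN.ne'
    have h8 : p ∣ 1 := by
      have h9 : p ^ N = (p ^ N - 1) + 1 := by omega
      rw [h9] at h7
      exact (Nat.dvd_add_right h6).1 h7
    exact hp.one_lt.ne' (Nat.dvd_one.1 h8)
  refine ⟨m * (p ^ N - 1), Nat.mul_pos hm hd, dvd_mul_right _ _, ?_, A, B,
    fun β hβ => Fin_good (hA β hβ), fun β hβ => Fin_good (hB β hβ), ?_⟩
  · intro h6
    rcases (Nat.Prime.dvd_mul hp).1 h6 with h7 | h7
    · exact hpm h7
    · exact hpd h7
  · rw [← hAB]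
    congr 1
    exact Multiset.map_congr rfl fun a _ => lift_eq_incl hm a

lemma exists_level {p m : ℕ} (hp : p.Prime) (hm : 0 < m) (hpm : ¬ p ∣ m) :
    ∃ N : ℕ, 0 < N ∧ m ∣ p ^ N - 1 := by
  have hcop := (Nat.Prime.coprime_iff_not_dvd hp).2 hpm
  exact ⟨Nat.totient m, Nat.totient_pos.2 hm,
    (Nat.modEq_iff_dvd' (Nat.one_le_pow _ _ hp.pos)).1 (Nat.ModEq.pow_totient hcop).symm⟩

/-- Degrees `l ^ k` and `2 * l ^ k`. -/
lemma gen_prime_power {p m l k : ℕ} (hp : p.Prime) (hpm : ¬ p ∣ m)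
    (hl : l.Prime) (hm : m = l ^ k ∨ m = 2 * l ^ k)
    {α : Multiset (ZMod m)} (hα : IsTate p m α) : Gen' p m α := by
  have hm0 : 0 < m := by
    have := Nat.pow_pos (n := k) hl.pos
    rcases hm with hm | hm <;> omega
  obtain ⟨N, hN, hmN⟩ := exists_level hp hm0 hpm
  exact gen_of_generated hp hm0 hpm hN (generated_prime_power hp hpm hN hmN hl hm hα)

/-- Two odd primes modulo whose powers `-1` is a power of `p`. -/
lemma gen_two_primes {p m l k l' k' i i' : ℕ} (hp : p.Prime) (hpm : ¬ p ∣ m)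
    (hl : l.Prime) (hl' : l'.Prime) (hll : l ≠ l')
    (h2 : l ≠ 2) (h2' : l' ≠ 2)
    (hm : m = l ^ k * l' ^ k' ∨ m = 2 * (l ^ k * l' ^ k'))
    (hi : l ^ k ∣ p ^ i + 1) (hi' : l' ^ k' ∣ p ^ i' + 1)
    {α : Multiset (ZMod m)} (hα : IsTate p m α) : Gen' p m α := by
  have hlk : 0 < l ^ k := Nat.pow_pos hl.pos
  have hlk' : 0 < l' ^ k' := Nat.pow_pos hl'.pos
  have hm0 : 0 < m := by
    rcases hm with hm | hm <;> rw [hm] <;> positivity
  obtain ⟨N, hN, hmN⟩ := exists_level hp hm0 hpm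
  exact gen_of_generated hp hm0 hpm hN
    (generated_two_primes hp hpm hN hmN hl hl' hll h2 h2' hm hi hi' hα)

/-- `p` odd and all entries of odd order `n` satisfy `n ∣ p ^ i + 1` for some `i`. -/
lemma gen_of_pure {p m : ℕ} (hp : p.Prime) (hp2 : 2 < p) (hm : 0 < m) (hpm : ¬ p ∣ m)
    {α : Multiset (ZMod m)} (hα : IsTate p m α)
    (h : ∀ a ∈ α, Odd (addOrderOf a) → ∃ i : ℕ, addOrderOf a ∣ p ^ i + 1) : Gen' p m α := by
  classical
  have hcop : Nat.Coprime p (2 * m) := by
    refine Nat.Coprime.mul_right ?_ ((Nat.Prime.coprime_iff_not_dvd hp).2 hpm)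
    exact (Nat.coprime_primes hp Nat.prime_two).2 (by omega)
  have hM : 0 < 2 * m := by omega
  have : NeZero (2 * m) := ⟨hM.ne'⟩
  have hpu : IsUnit (p : ZMod (2 * m)) := (ZMod.isUnit_iff_coprime p (2 * m)).2 hcop
  have hmM : m ∣ 2 * m := dvd_mul_left _ _
  obtain ⟨hh, hh0⟩ := half_facts (M := 2 * m) (dvd_mul_right 2 m)
  set x2 : ZMod (2 * m) := ((2 * m / 2 : ℕ) : ZMod (2 * m)) with hx2
  have hord2 : addOrderOf x2 = 2 := by
    refine addOrderOf_eq_prime ?_ hh0
    rw [two_nsmul, ← two_mul]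
    exact hh
  set β := α.filter (fun a => Odd (addOrderOf a)) with hβ
  set C : Multiset (Multiset (ZMod (2 * m))) := β.map (fun a => {lift m (2 * m) a, x2}) with hC
  refine gen_of_par hp hm hpm hα hM hmM ((Nat.Prime.coprime_iff_not_dvd hp).1 hcop) C ?_ ?_
  · intro γ hγ
    obtain ⟨a, ha, rfl⟩ := Multiset.mem_map.1 hγ
    obtain ⟨haα, hao⟩ := Multiset.mem_filter.1 ha
    obtain ⟨i, hi⟩ := h a haα hao
    have hord : addOrderOf (lift m (2 * m) a) = addOrderOf a := addOrderOf_lift hM hmM a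
    have ha0 : lift m (2 * m) a ≠ 0 := by
      intro h0
      have h1 : addOrderOf a = 1 := by rw [← hord, h0, addOrderOf_zero]
      rw [AddMonoid.addOrderOf_eq_one_iff] at h1
      exact hα.1.1 (h1 ▸ haα)
    have h2 : ∀ t : (ZMod (2 * m))ˣ,
        PT p (2 * m) (Nat.totient (2 * m)) ((t : ZMod (2 * m)) * lift m (2 * m) a) = 0 := by
      intro t
      have h3 := constant_of_pow (i := i) hcop ha0 (by rw [hord]; exact hi) t
      rw [PT_eq]
      have h4 : ((2 * S p (2 * m) ((t : ZMod (2 * m)) * lift m (2 * m) a) : ℕ) : ℤ)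
          = ((Nat.totient (2 * m) * (2 * m) : ℕ) : ℤ) := by rw [h3]
      push_cast at h4 ⊢
      linarith
    have h5 : IsElem p (2 * m) (fun _ => True)
        ({lift m (2 * m) a, x2} : Multiset (ZMod (2 * m))) := by
      refine pair_isElem ha0 hh0 fun t => ?_
      rw [h2 t, PT_two_torsion hpu (fun h => hh0 (t.isUnit.mul_left_cancel (by rw [h, mul_zero])))
        (by rw [mul_left_comm, hh, mul_zero]), add_zero]
    exact Or.inr ⟨isElem_balanced hcop h5, rfl⟩
  · intro I hI
    rw [par_add, par_lift hM hmM]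
    have key : ∀ δ : Multiset (ZMod m), (∀ a ∈ δ, Odd (addOrderOf a)) →
        par (2 * m) (δ.map (fun a => ({lift m (2 * m) a, x2} : Multiset (ZMod (2 * m))))).sum I
          = par m δ I := by
      intro δ
      induction δ using Multiset.induction_on with
      | empty => intro _; simp [par]
      | cons a s ih =>
        intro hs
        rw [Multiset.map_cons, Multiset.sum_cons, par_add,
          ih fun b hb => hs b (Multiset.mem_cons_of_mem hb)]
        have h1 : (a ::ₘ s) = {a} + s := (Multiset.singleton_add a s).symm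
        rw [h1, par_add]
        congr 1
        have h2 : ({lift m (2 * m) a, x2} : Multiset (ZMod (2 * m)))
            = ({a} : Multiset (ZMod m)).map (lift m (2 * m)) + {x2} := by
          rw [Multiset.map_singleton, Multiset.insert_eq_cons, ← Multiset.singleton_add]
        rw [h2, par_add, par_lift hM hmM]
        have h3 : par (2 * m) ({x2} : Multiset (ZMod (2 * m))) I = 0 := by
          unfold par
          rw [Multiset.filter_singleton, if_neg]
          · rfl
          · rw [hord2]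
            rintro ⟨h4, _⟩
            exact absurd h4 (by decide)
        rw [h3, add_zero]
    rw [hC, key β fun a ha => (Multiset.mem_filter.1 ha).2]
    have h1 : par m β I = par m α I := by
      unfold par
      rw [hβ, Multiset.filter_filter]
      congr 1
      refine Multiset.filter_congr fun a _ => ?_
      tauto
    rw [h1]
    exact ⟨_, rfl⟩

end Pool.Agent.Lib.MP_021685_agT
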