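import Pool.Agent.Lib.MP_021685_agT.FinDefs
import Pool.Agent.Lib.MP_021685_ag.Fermat3

/-!
JOB FinA. Change of level.
-/

namespace Pool.Agent.Lib.MP_021685_agT

open Finset Pool.Agent.Lib.MP_021685_ag.Fermat

theorem lift_eq_incl {m d : ℕ} (hm : 0 < m) (a : ZMod m) : lift m (m * d) a = incl m d a := by
  unfold lift incl
  rw [Nat.mul_div_cancel_left d hm]

private lemma FinA_val {m M : ℕ} (hM : 0 < M) (h : m ∣ M) (a : ZMod m) :
    (lift m M a).val = M / m * a.val := by
  obtain ⟨d, rfl⟩ := h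
  have hm : 0 < m := Nat.pos_of_mul_pos_right hM
  have hd : 0 < d := Nat.pos_of_mul_pos_left hM
  have : NeZero m := ⟨hm.ne'⟩
  rw [lift_eq_incl hm, incl_val hd, Nat.mul_div_cancel_left d hm]

theorem lift_lift {m M M' : ℕ} (hM' : 0 < M') (h1 : m ∣ M) (h2 : M ∣ M') (a : ZMod m) :
    lift M M' (lift m M a) = lift m M' a := by
  have hM : 0 < M := Nat.pos_of_dvd_of_pos h2 hM'
  have hm : 0 < m := Nat.pos_of_dvd_of_pos h1 hM
  have h3 := FinA_val hM h1 a
  unfold lift at h3 ⊢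
  have h4 : M' / M * (M / m) = M' / m := by
    obtain ⟨d, rfl⟩ := h1
    obtain ⟨e, rfl⟩ := h2
    rw [Nat.mul_div_cancel_left _ hM, Nat.mul_div_cancel_left _ hm, mul_assoc, Nat.mul_div_cancel_left _ hm,
      mul_comm]
  rw [h3, ← mul_assoc, h4]

theorem lift_add {m M : ℕ} (hM : 0 < M) (h : m ∣ M) (a b : ZMod m) :
    lift m M (a + b) = lift m M a + lift m M b := by
  obtain ⟨d, rfl⟩ := h
  have hm : 0 < m := Nat.pos_of_mul_pos_right hM
  have : NeZero m := ⟨hm.ne'⟩
  rw [lift_eq_incl hm, lift_eq_incl hm, lift_eq_incl hm, incl_add]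

private lemma FinA_zero {m M : ℕ} : lift m M 0 = 0 := by
  unfold lift
  simp

private noncomputable def FinA_hom {m M : ℕ} (hM : 0 < M) (h : m ∣ M) : ZMod m →+ ZMod M where
  toFun := lift m M
  map_zero' := FinA_zero
  map_add' := lift_add hM h

private lemma FinA_inj {m M : ℕ} (hM : 0 < M) (h : m ∣ M) : Function.Injective (lift m M) := by
  intro a b hab
  have hm : 0 < m := Nat.pos_of_dvd_of_pos h hM
  have : NeZero m := ⟨hm.ne'⟩
  have h1 := FinA_val hM h a
  have h2 := FinA_val hM h b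
  rw [hab, h2] at h1
  have h3 : 0 < M / m := Nat.div_pos (Nat.le_of_dvd hM h) hm
  exact ZMod.val_injective m (Nat.eq_of_mul_eq_mul_left h3 h1).symm

theorem addOrderOf_lift {m M : ℕ} (hM : 0 < M) (h : m ∣ M) (a : ZMod m) :
    addOrderOf (lift m M a) = addOrderOf a :=
  addOrderOf_injective (FinA_hom hM h) (FinA_inj hM h) a

theorem par_lift {m M : ℕ} (hM : 0 < M) (h : m ∣ M) (β : Multiset (ZMod m)) (I : Finset ℕ) :
    par M (β.map (lift m M)) I = par m β I := by
  unfold par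
  rw [Multiset.filter_map, Multiset.card_map]
  congr 1
  refine Multiset.filter_congr fun a _ => ?_
  rw [Function.comp_apply, addOrderOf_lift hM h]

theorem par_add {M : ℕ} (β γ : Multiset (ZMod M)) (I : Finset ℕ) :
    par M (β + γ) I = par M β I + par M γ I := by
  unfold par
  rw [Multiset.filter_add, Multiset.card_add]

theorem IsBalanced.add' {p M : ℕ} {β γ : Multiset (ZMod M)} (hβ : IsBalanced p M β)
    (hγ : IsBalanced p M γ) : IsBalanced p M (β + γ) := by
  obtain ⟨h0, hc, hs⟩ := hβ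
  obtain ⟨h0', hc', hs'⟩ := hγ
  refine ⟨?_, ?_, ?_⟩
  · rw [Multiset.mem_add]
    exact fun h => h.elim h0 h0'
  · rw [Multiset.card_add]
    exact hc.add hc'
  · intro t
    rw [Multiset.map_add, Multiset.sum_add, mul_add, hs t, hs' t, Multiset.card_add]
    ring

theorem IsBalanced.lift {p m M : ℕ} (hM : 0 < M) (hp : Nat.Coprime p M) (h : m ∣ M)
    {β : Multiset (ZMod m)} (hβ : IsBalanced p m β) : IsBalanced p M (β.map (lift m M)) := by
  obtain ⟨d, rfl⟩ := h
  have hm : 0 < m := Nat.pos_of_mul_pos_right hM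
  have hd : 0 < d := Nat.pos_of_mul_pos_left hM
  have : NeZero m := ⟨hm.ne'⟩
  have : NeZero d := ⟨hd.ne'⟩
  have h1 := balanced_incl (d := d) (Nat.Coprime.coprime_dvd_right (dvd_mul_right m d) hp) hβ
  have h2 : β.map (Pool.Agent.Lib.MP_021685_agT.lift m (m * d)) = β.map (incl m d) :=
    Multiset.map_congr rfl fun a _ => lift_eq_incl hm a
  rw [h2]
  exact h1

private lemma FinA_sum {m M : ℕ} (hM : 0 < M) (h : m ∣ M) (β : Multiset (ZMod m)) :
    (β.map (lift m M)).sum = lift m M β.sum :=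
  (map_multiset_sum (FinA_hom hM h) β).symm

theorem IsTate.lift {p m M : ℕ} (hM : 0 < M) (hp : Nat.Coprime p M) (h : m ∣ M)
    {β : Multiset (ZMod m)} (hβ : IsTate p m β) : IsTate p M (β.map (lift m M)) := by
  refine ⟨IsBalanced.lift hM hp h hβ.1, ?_⟩
  rw [FinA_sum hM h, hβ.2, FinA_zero]

theorem IsDiv.lift {p m M : ℕ} (hM : 0 < M) (hp : Nat.Coprime p M) (h : m ∣ M)
    {β : Multiset (ZMod m)} (hβ : IsDiv p m β) : IsDiv p M (β.map (lift m M)) := by
  obtain ⟨h1, h2⟩ := hβ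
  refine ⟨IsTate.lift hM hp h h1, ?_⟩
  rcases h2 with h2 | h2 | ⟨β1, β2, hc1, hc2, hs1, rfl⟩
  · left
    rw [Multiset.card_map, h2]
  · right; left
    rw [Multiset.card_map, h2]
  · right; right
    refine ⟨β1.map (Pool.Agent.Lib.MP_021685_agT.lift m M), β2.map (Pool.Agent.Lib.MP_021685_agT.lift m M), ?_, ?_, ?_, ?_⟩
    · rw [Multiset.card_map, hc1]
    · rw [Multiset.card_map, hc2]
    · rw [FinA_sum hM h, hs1, FinA_zero]
    · rw [Multiset.map_add]

end Pool.Agent.Lib.MP_021685_agT
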