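import Pool.Agent.Lib.MP_021685_ag.FermatDefs

/-!
Definitions for the final theorem.
-/

namespace Pool.Agent.Lib.MP_021685_agT

open Pool.Agent.Lib.MP_021685_ag.Fermat

/-- The inclusion `ZMod m → ZMod M`, `a ↦ (M / m) a`, for `m ∣ M`. -/
def lift (m M : ℕ) (a : ZMod m) : ZMod M := ((M / m * a.val : ℕ) : ZMod M)

/-- The number of elements of `β` of odd order whose set of primes is `I`. -/
noncomputable def par (M : ℕ) (β : Multiset (ZMod M)) (I : Finset ℕ) : ℕ :=
  Multiset.card (β.filter (fun a => Odd (addOrderOf a) ∧ (addOrderOf a).primeFactors = I))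

/-- Tate characters of Fermat varieties of dimension `0`, of Fermat surfaces and of products of two
Fermat curves. -/
def IsDiv (p M : ℕ) (β : Multiset (ZMod M)) : Prop :=
  IsTate p M β ∧ (Multiset.card β = 2 ∨ Multiset.card β = 4 ∨
    ∃ β1 β2 : Multiset (ZMod M), Multiset.card β1 = 3 ∧ Multiset.card β2 = 3 ∧ β1.sum = 0 ∧
      β = β1 + β2)

/-- Davenport–Hasse characters for the primes `l ≥ 5` with `l ^ 2 ∣ M`. -/
def IsStd (M : ℕ) (β : Multiset (ZMod M)) : Prop :=
  ∃ (l : ℕ) (y : ZMod M), l.Prime ∧ 5 ≤ l ∧ l ^ 2 ∣ M ∧ (l : ZMod M) * y ≠ 0 ∧ β = std M l y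

/-- `α`, lifted to some degree `M` prime to `p`, is a difference of sums of characters of Fermat
varieties of dimension `0`, Fermat surfaces, products of two Fermat curves, and Davenport–Hasse
characters. -/
def IsGenerated (p m : ℕ) (α : Multiset (ZMod m)) : Prop :=
  ∃ M : ℕ, 0 < M ∧ m ∣ M ∧ ¬ p ∣ M ∧ ∃ A B : Multiset (Multiset (ZMod M)),
    (∀ β ∈ A, IsDiv p M β ∨ IsStd M β) ∧ (∀ β ∈ B, IsDiv p M β ∨ IsStd M β) ∧
    α.map (lift m M) + A.sum = B.sum

/-- The parity vector of `α` is a sum of parity vectors of `IsDiv` characters and of balanced pairs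
(no condition on the sum) of some degree `M` prime to `p`. -/
def IsKilled (p m : ℕ) (α : Multiset (ZMod m)) : Prop :=
  ∃ M : ℕ, 0 < M ∧ m ∣ M ∧ ¬ p ∣ M ∧ ∃ C : Multiset (Multiset (ZMod M)),
    (∀ γ ∈ C, IsDiv p M γ ∨ (IsBalanced p M γ ∧ Multiset.card γ = 2)) ∧
    ∀ I : Finset ℕ, I.Nonempty → Even (par M (α.map (lift m M) + C.sum) I)

end Pool.Agent.Lib.MP_021685_agT
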