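import Mathlib

/-!
JOB GA1. Real radicals are not in cyclotomic fields.
-/

namespace Pool.Agent.Lib.MP_021685_agT

open Polynomial IntermediateField

/-- `X ^ N - p` is irreducible over `ℚ` (Eisenstein at `p`, `N ≥ 1`), e.g. via
`Polynomial.irreducible_of_eisenstein_criterion` over `ℤ` and Gauss' lemma
(`Polynomial.IsPrimitive.Int.irreducible_iff_irreducible_map_cast`), or any Mathlib variant
(`Polynomial.IsEisensteinAt.irreducible`). -/
theorem irreducible_X_pow_sub_prime {p N : ℕ} (hp : p.Prime) (hN : 1 ≤ N) :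
    Irreducible ((X : ℚ[X]) ^ N - C (p : ℚ)) := by
  have hN0 : N ≠ 0 := by omega
  have hpz : Prime (p : ℤ) := Nat.prime_iff_prime_int.1 hp
  have hmonic : ((X : ℤ[X]) ^ N - C (p : ℤ)).Monic := monic_X_pow_sub_C _ hN0
  have hdeg : ((X : ℤ[X]) ^ N - C (p : ℤ)).natDegree = N := natDegree_X_pow_sub_C
  have h : Irreducible ((X : ℤ[X]) ^ N - C (p : ℤ)) := by
    have hE : ((X : ℤ[X]) ^ N - C (p : ℤ)).IsEisensteinAt (Ideal.span {(p : ℤ)}) := by
      refine ⟨?_, ?_, ?_⟩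
      · rw [hmonic.leadingCoeff, Ideal.mem_span_singleton]
        exact fun h => hpz.not_isUnit (isUnit_of_dvd_one h)
      · intro n hn
        rw [hdeg] at hn
        rw [coeff_sub, coeff_X_pow, if_neg hn.ne, coeff_C, Ideal.mem_span_singleton]
        split_ifs
        · exact ⟨-1, by ring⟩
        · simp
      · rw [coeff_sub, coeff_X_pow, if_neg hN0.symm, coeff_C, if_pos rfl, Ideal.span_singleton_pow,
          Ideal.mem_span_singleton, zero_sub, dvd_neg]
        intro h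
        have h1 : (p : ℤ) ^ 2 ∣ (p : ℤ) ^ 1 := by simpa using h
        have h2 := (pow_dvd_pow_iff hpz.ne_zero hpz.not_isUnit).1 h1
        omega
    refine hE.irreducible ?_ hmonic.isPrimitive (by rw [hdeg]; omega)
    rwa [Ideal.span_singleton_prime hpz.ne_zero]
  have h1 := (IsPrimitive.Int.irreducible_iff_irreducible_map_cast hmonic.isPrimitive).1 h
  simpa using h1

/-- If `ζ ^ n = 1` and `b` is a real number with `b ^ N = p`, `N ≥ 3`, then `b ∉ ℚ(ζ)`.

Proof. Let `F = ℚ(ζ) ⊂ ℂ` and suppose `b ∈ F`. Every field homomorphism `σ : F →ₐ[ℚ] ℂ` commutes with complex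
conjugation `κ`: `κ(ζ) = ζ⁻¹ ∈ F`, so `κ` maps `F` to `F` (giving `κ' : F →ₐ[ℚ] F`), and the two homomorphisms `σ ∘ κ'` and
`κ ∘ σ` from `F` to `ℂ` agree at the generator `ζ`: `σ(ζ⁻¹) = σ(ζ)⁻¹ = κ(σ ζ)`, because `σ(ζ)` is a root of unity, of
absolute value `1` (`IntermediateField.algHom_ext_of_eq_adjoin` or `AdjoinSimple` extensionality).
Hence `κ(σ b) = σ(κ b) = σ b`: all `σ b` are real. By `irreducible_X_pow_sub_prime` the minimal polynomial of `b` over `ℚ` is
`X ^ N - p` (`minpoly.eq_of_irreducible_of_monic`). Every complex root `β` of it is `σ b` for some `σ` (`F / ℚ` is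
algebraic and `ℂ` algebraically closed: `IntermediateField.algHomAdjoinIntegralEquiv`/`exists_algHom_of_adjoin_splits`,
or `Algebra.IsAlgebraic.range_eval_eq_rootSet_minpoly`). But `β = b * exp (2 π i / N)` is a root and is not real for
`N ≥ 3` (`b ≠ 0`). Contradiction. -/
theorem not_mem_cyclotomic {p N n : ℕ} (hp : p.Prime) (hN : 3 ≤ N) (hn : n ≠ 0) {ζ : ℂ}
    (hζ : ζ ^ n = 1) {b : ℝ} (hb : b ^ N = p) : (b : ℂ) ∉ ℚ⟮ζ⟯ := by
  intro hmem
  have hint : IsIntegral ℚ ζ := by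
    refine ⟨X ^ n - C 1, monic_X_pow_sub_C 1 hn, ?_⟩
    simp [hζ]
  have hfin : FiniteDimensional ℚ ℚ⟮ζ⟯ := adjoin.finiteDimensional hint
  have hb0 : b ≠ 0 := by
    rintro rfl
    rw [zero_pow (by omega)] at hb
    exact hp.ne_zero (by exact_mod_cast hb.symm)
  -- a polynomial with value `b` at `ζ`
  obtain ⟨f, hf⟩ : ∃ f : ℚ[X], aeval ζ f = (b : ℂ) := by
    have h1 : (b : ℂ) ∈ (ℚ⟮ζ⟯).toSubalgebra := hmem
    rw [adjoin_simple_toSubalgebra_of_isAlgebraic hint.isAlgebraic,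
      Algebra.adjoin_singleton_eq_range_aeval] at h1
    obtain ⟨f, hf⟩ := h1
    exact ⟨f, hf⟩
  -- complex conjugation of a value of a rational polynomial
  have hconj : ∀ z : ℂ, (starRingEnd ℂ) (aeval z f) = aeval ((starRingEnd ℂ) z) f := by
    intro z
    rw [aeval_def, aeval_def, hom_eval₂]
    congr 1
    ext q
    simp
  have hinv : ∀ z : ℂ, z ^ n = 1 → (starRingEnd ℂ) z = z ^ (n - 1) := by
    intro z hz
    have hz1 : ‖z‖ = 1 := Complex.norm_eq_one_of_pow_eq_one hz hn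
    have hz0 : z ≠ 0 := by
      rintro rfl
      simp at hz1
    have h1 : z * (starRingEnd ℂ) z = 1 := by
      rw [Complex.mul_conj, Complex.normSq_eq_norm_sq, hz1]
      simp
    have h2 : z * z ^ (n - 1) = 1 := by
      rw [← pow_succ', Nat.sub_add_cancel (Nat.pos_of_ne_zero hn), hz]
    exact mul_left_cancel₀ hz0 (h1.trans h2.symm)
  -- the elements of the field
  let b' : ℚ⟮ζ⟯ := ⟨(b : ℂ), hmem⟩
  let z' : ℚ⟮ζ⟯ := AdjoinSimple.gen ℚ ζ
  have hz' : (z' : ℂ) = ζ := AdjoinSimple.coe_gen ℚ ζ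
  have e1 : aeval z' f = b' := by
    apply Subtype.ext
    have h1 := aeval_algHom_apply (ℚ⟮ζ⟯).val z' f
    have h2 : (ℚ⟮ζ⟯).val z' = ζ := hz'
    rw [h2, hf] at h1
    exact h1.symm
  have e2 : aeval (z' ^ (n - 1)) f = b' := by
    apply Subtype.ext
    have h1 := aeval_algHom_apply (ℚ⟮ζ⟯).val (z' ^ (n - 1)) f
    have h2 : (ℚ⟮ζ⟯).val z' = ζ := hz'
    rw [map_pow, h2, ← hinv ζ hζ, ← hconj, hf, Complex.conj_ofReal] at h1
    exact h1.symm
  have hzn : z' ^ n = 1 := by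
    apply Subtype.ext
    have h3 : ((z' ^ n : ℚ⟮ζ⟯) : ℂ) = (z' : ℂ) ^ n := rfl
    rw [h3, hz', hζ]
    rfl
  -- every conjugate of `b` is real
  have hreal : ∀ σ : ℚ⟮ζ⟯ →ₐ[ℚ] ℂ, (starRingEnd ℂ) (σ b') = σ b' := by
    intro σ
    have hs : (σ z') ^ n = 1 := by rw [← map_pow, hzn, map_one]
    have h1 : aeval (σ z') f = σ b' := by rw [aeval_algHom_apply, e1]
    have h2 : aeval ((σ z') ^ (n - 1)) f = σ b' := by rw [← map_pow, aeval_algHom_apply, e2]
    rw [← hinv _ hs, ← hconj, h1] at h2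
    exact h2
  have hmonic : ((X : ℚ[X]) ^ N - C (p : ℚ)).Monic := monic_X_pow_sub_C _ (by omega)
  have hbC : (b : ℂ) ^ N = (p : ℂ) := by exact_mod_cast congrArg (fun x : ℝ => (x : ℂ)) hb
  have hmin : (X : ℚ[X]) ^ N - C (p : ℚ) = minpoly ℚ b' := by
    refine minpoly.eq_of_irreducible_of_monic (irreducible_X_pow_sub_prime hp (by omega)) ?_ hmonic
    apply Subtype.ext
    have h1 := aeval_algHom_apply (ℚ⟮ζ⟯).val b' ((X : ℚ[X]) ^ N - C (p : ℚ))
    have h2 : (ℚ⟮ζ⟯).val b' = (b : ℂ) := rfl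
    rw [h2] at h1
    refine h1.symm.trans ?_
    simp [hbC]
  -- a conjugate which is not real
  set β : ℂ := (b : ℂ) * Complex.exp ((2 * Real.pi / N : ℝ) * Complex.I) with hβ
  have hNR : (N : ℝ) ≠ 0 := by
    have : N ≠ 0 := by omega
    exact_mod_cast this
  have hβN : β ^ N = (p : ℂ) := by
    rw [hβ, mul_pow, hbC, ← Complex.exp_nat_mul]
    have h1 : (N : ℂ) * (((2 * Real.pi / N : ℝ) : ℂ) * Complex.I) = 2 * Real.pi * Complex.I := by
      have h2 : (N : ℂ) ≠ 0 := by exact_mod_cast hNR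
      push_cast
      field_simp
    rw [h1, Complex.exp_two_pi_mul_I, mul_one]
  have hroot : β ∈ (minpoly ℚ b').rootSet ℂ := by
    rw [mem_rootSet]
    refine ⟨minpoly.ne_zero (IsIntegral.of_finite ℚ b'), ?_⟩
    rw [← hmin]
    simp [hβN]
  rw [← Algebra.IsAlgebraic.range_eval_eq_rootSet_minpoly] at hroot
  obtain ⟨σ, hσ⟩ := hroot
  have hσ' : σ b' = β := hσ
  have h1 := hreal σ
  rw [hσ', Complex.conj_eq_iff_im] at h1
  have h2 : β.im = b * Real.sin (2 * Real.pi / N) := by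
    rw [hβ, Complex.im_ofReal_mul, Complex.exp_ofReal_mul_I_im]
  rw [h2] at h1
  have hN3 : (3 : ℝ) ≤ N := by exact_mod_cast hN
  have h3 : 0 < Real.sin (2 * Real.pi / N) := by
    apply Real.sin_pos_of_pos_of_lt_pi
    · have := Real.pi_pos
      positivity
    · rw [div_lt_iff₀ (by linarith)]
      nlinarith [Real.pi_pos]
  rcases mul_eq_zero.1 h1 with h4 | h4
  · exact hb0 h4
  · exact h3.ne' h4

end Pool.Agent.Lib.MP_021685_agT
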