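import Mathlib

/-!
JOB GA2. Degrees of radicals (Kummer theory).
-/

namespace Pool.Agent.Lib.MP_021685_agT

open Polynomial IntermediateField

/-- Let `F` be a subfield of `ℂ` containing a primitive `n`-th root of unity and `θ ^ n ∈ F`. Then `θ ^ d ∈ F`, where
`d` is the degree of `θ` over `F`.

Proof. `minpoly F θ` divides `X ^ n - θ ^ n` (`minpoly.dvd`), so its complex roots are `ω θ` with `ω ^ n = 1`, and
such `ω` lie in `F` (powers of the primitive root: `IsPrimitiveRoot.eq_pow_of_pow_eq_one`). The polynomial splits over `ℂ`; its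
constant coefficient, an element of `F`, is `(-1) ^ d` times the product of the `d` roots
(`Polynomial.prod_roots_eq_coeff_zero_of_monic_of_splits` or `coeff_zero_eq_prod_roots_of_monic_of_splits`), that is
`± ω' θ ^ d` with `ω' ∈ F`, `ω' ≠ 0`. So `θ ^ d ∈ F`. (`θ = 0` is harmless.) -/
theorem pow_degree_mem (F : IntermediateField ℚ ℂ) {n : ℕ} (hn : n ≠ 0) {ω θ : ℂ}
    (hω : IsPrimitiveRoot ω n) (hωF : ω ∈ F) (hθ : θ ^ n ∈ F) :
    θ ^ (minpoly F θ).natDegree ∈ F := by
  rcases eq_or_ne θ 0 with h0 | h0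
  · rw [h0]
    rcases Nat.eq_zero_or_pos (minpoly F (0 : ℂ)).natDegree with h | h
    · rw [h, pow_zero]
      exact F.one_mem
    · rw [zero_pow h.ne']
      exact F.zero_mem
  have hnz : NeZero n := ⟨hn⟩
  set a : F := ⟨θ ^ n, hθ⟩ with ha
  have haeval : Polynomial.aeval θ (X ^ n - C a : F[X]) = 0 := by
    rw [map_sub, map_pow, aeval_X, aeval_C]
    exact sub_self _
  have hmonic : (X ^ n - C a : F[X]).Monic := monic_X_pow_sub_C a hn
  have hint : IsIntegral F θ := ⟨X ^ n - C a, hmonic, haeval⟩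
  have hdvd : minpoly F θ ∣ X ^ n - C a := minpoly.dvd F θ haeval
  set P : ℂ[X] := (minpoly F θ).map (algebraMap F ℂ) with hP
  have hPm : P.Monic := (minpoly.monic hint).map _
  have hPs : P.Splits := IsAlgClosed.splits P
  have hPdeg : P.natDegree = (minpoly F θ).natDegree := (minpoly.monic hint).natDegree_map _
  have hroot : ∀ z ∈ P.roots, z / θ ∈ F := by
    intro z hz
    have h1 : P.eval z = 0 := (mem_roots hPm.ne_zero).1 hz
    have h2 : (X ^ n - C a : F[X]).map (algebraMap F ℂ) = P * _ :=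
      (Polynomial.map_dvd (algebraMap F ℂ) hdvd).choose_spec
    have h3 : ((X ^ n - C a : F[X]).map (algebraMap F ℂ)).eval z = 0 := by
      rw [h2, eval_mul, h1, zero_mul]
    rw [Polynomial.map_sub, Polynomial.map_pow, map_X, map_C, eval_sub, eval_pow, eval_X, eval_C] at h3
    have h4 : z ^ n = θ ^ n := by
      rw [sub_eq_zero] at h3
      exact h3
    have h5 : (z / θ) ^ n = 1 := by
      rw [div_pow, h4, div_self (pow_ne_zero n h0)]
    obtain ⟨i, -, hi⟩ := hω.eq_pow_of_pow_eq_one h5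
    rw [← hi]
    exact F.pow_mem hωF i
  have hcoeff : P.coeff 0 = (-1) ^ P.natDegree * P.roots.prod :=
    hPs.coeff_zero_eq_prod_roots_of_monic hPm
  have hcard : P.roots.card = P.natDegree := hPs.natDegree_eq_card_roots.symm
  have hprod : P.roots.prod = θ ^ P.natDegree * (P.roots.map (fun z => z / θ)).prod := by
    rw [← hcard]
    have h1 : P.roots = P.roots.map (fun z => θ * (z / θ)) := by
      conv_lhs => rw [← Multiset.map_id P.roots]
      refine Multiset.map_congr rfl fun z _ => ?_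
      rw [mul_div_cancel₀ _ h0]
      rfl
    conv_lhs => rw [h1]
    rw [Multiset.prod_map_mul, Multiset.map_const', Multiset.prod_replicate]
  have hω' : (P.roots.map (fun z => z / θ)).prod ∈ F := by
    apply multiset_prod_mem
    intro x hx
    obtain ⟨z, hz, rfl⟩ := Multiset.mem_map.1 hx
    exact hroot z hz
  have hω0 : (P.roots.map (fun z => z / θ)).prod ≠ 0 := by
    rw [Ne, Multiset.prod_eq_zero_iff]
    intro h
    obtain ⟨z, hz, hz0⟩ := Multiset.mem_map.1 h
    have h1 : P.eval z = 0 := (mem_roots hPm.ne_zero).1 hz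
    have h2 : z = 0 := by
      rcases div_eq_zero_iff.1 hz0 with h | h
      · exact h
      · exact absurd h h0
    -- then the constant coefficient vanishes
    rw [h2, ← coeff_zero_eq_eval_zero, hP, coeff_map] at h1
    have h3 : (minpoly F θ).coeff 0 = 0 := by
      have : algebraMap F ℂ ((minpoly F θ).coeff 0) = 0 := h1
      exact (map_eq_zero _).1 this
    exact h0 ((minpoly.coeff_zero_eq_zero hint).1 h3)
  have hc : P.coeff 0 ∈ F := by
    rw [hP, coeff_map]
    exact ((minpoly F θ).coeff 0).2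
  have hfin : θ ^ P.natDegree = (-1) ^ P.natDegree * P.coeff 0 /
      (P.roots.map (fun z => z / θ)).prod := by
    rw [hcoeff, hprod, eq_div_iff hω0, ← mul_assoc, ← mul_assoc, ← mul_pow]
    norm_num
  rw [← hPdeg, hfin]
  exact F.div_mem (F.mul_mem (pow_mem (F.neg_mem F.one_mem) _) hc) hω'

/-- Let `l` be a prime, `θ ≠ 0`, `θ ^ (l ^ k) ∈ F`, `θ ^ (l ^ (k - 2)) ∉ F`, `2 ≤ k`, and let `F` contain a primitive `l ^ k`-th
root of unity. Then the degree of `θ` over `F` is at least `l ^ (k - 1)`.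
Proof. Let `d` be the degree, `D = gcd d (l ^ k)`. `θ ^ d ∈ F` and `θ ^ (l ^ k) ∈ F`, `θ ≠ 0`, so `θ ^ D ∈ F` (Bezout with integer
exponents; `Nat.gcd_eq_gcd_ab`). `D = l ^ t` (`Nat.dvd_prime_pow`). `d ≥ 1` (`minpoly.natDegree_pos`: `θ` is integral over `F`). If
`d < l ^ (k - 1)` then `l ^ t ≤ d < l ^ (k - 1)`, so `t ≤ k - 2` and `θ ^ (l ^ (k - 2)) ∈ F`, contradiction. -/
theorem degree_lower (F : IntermediateField ℚ ℂ) {l k : ℕ} (hl : l.Prime) (hk : 2 ≤ k)
    {ω θ : ℂ} (hω : IsPrimitiveRoot ω (l ^ k)) (hωF : ω ∈ F) (hθ0 : θ ≠ 0)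
    (hθ : θ ^ (l ^ k) ∈ F) (hθ2 : θ ^ (l ^ (k - 2)) ∉ F) :
    l ^ (k - 1) ≤ (minpoly F θ).natDegree := by
  have hlk : l ^ k ≠ 0 := pow_ne_zero k hl.ne_zero
  have hd := pow_degree_mem F hlk hω hωF hθ
  set d := (minpoly F θ).natDegree with hddef
  have hint : IsIntegral F θ := by
    refine ⟨X ^ (l ^ k) - C (⟨θ ^ (l ^ k), hθ⟩ : F), monic_X_pow_sub_C _ hlk, ?_⟩
    have : Polynomial.aeval θ (X ^ (l ^ k) - C (⟨θ ^ (l ^ k), hθ⟩ : F) : F[X]) = 0 := by
      rw [map_sub, map_pow, aeval_X, aeval_C]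
      exact sub_self _
    exact this
  have hd0 : 0 < d := minpoly.natDegree_pos hint
  by_contra hcon
  push Not at hcon
  have hD : θ ^ (Nat.gcd d (l ^ k)) ∈ F := by
    have h1 : θ ^ ((Nat.gcd d (l ^ k) : ℕ) : ℤ) ∈ F := by
      rw [Nat.gcd_eq_gcd_ab, zpow_add₀ hθ0, zpow_mul, zpow_mul, zpow_natCast, zpow_natCast]
      exact F.mul_mem (zpow_mem hd _) (zpow_mem hθ _)
    rwa [zpow_natCast] at h1
  obtain ⟨t, -, ht⟩ := (Nat.dvd_prime_pow hl).1 (Nat.gcd_dvd_right d (l ^ k))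
  rw [ht] at hD
  have h2 : l ^ t ≤ d := by
    rw [← ht]
    exact Nat.le_of_dvd hd0 (Nat.gcd_dvd_left _ _)
  have h3 : t < k - 1 := (Nat.pow_lt_pow_iff_right hl.one_lt).1 (h2.trans_lt hcon)
  apply hθ2
  have h4 : l ^ (k - 2) = l ^ t * l ^ (k - 2 - t) := by
    rw [← pow_add]
    congr 1
    omega
  rw [h4, pow_mul]
  exact pow_mem hD _

end Pool.Agent.Lib.MP_021685_agT
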