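import Pool.Agent.Lib.MP_021685_agT.GA1
import Pool.Agent.Lib.MP_021685_agT.GA2

/-!
JOB GA3. The degree of `ℚ(ζ, p ^ (1 / l ^ k))`.
-/

namespace Pool.Agent.Lib.MP_021685_agT

open Polynomial IntermediateField

/-- `[ℚ(ζ, θ) : ℚ] ≥ φ(l ^ S) l ^ (k - 1)` for `ζ` a primitive `l ^ S`-th root of unity, `2 ≤ k ≤ S` and a real
`θ` with `θ ^ (l ^ k) = p`.

Proof. `F = ℚ⟮ζ⟯`, `[F : ℚ] = φ(l ^ S)` (`IntermediateField.adjoin.finrank` and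
`Polynomial.cyclotomic_eq_minpoly_rat`/`IsPrimitiveRoot.minpoly...`, `Polynomial.natDegree_cyclotomic`). `F` contains the primitive
`l ^ k`-th root of unity `ζ ^ (l ^ (S - k))` (`IsPrimitiveRoot.pow`). `b = θ ^ (l ^ (k - 2))` is real with `b ^ (l ^ 2) = p`, `l ^ 2 ≥ 4`, so
`b ∉ F` by `not_mem_cyclotomic`. `degree_lower` gives `[F(θ) : F] ≥ l ^ (k - 1)`, and
`adjoin ℚ {ζ, θ}` is `F⟮θ⟯` restricted to `ℚ` (`IntermediateField.adjoin_adjoin_left`, `Module.finrank_mul_finrank`). -/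
theorem finrank_lower {p l k S : ℕ} (hp : p.Prime) (hl : l.Prime) (hk : 2 ≤ k) (hkS : k ≤ S)
    {ζ : ℂ} (hζ : IsPrimitiveRoot ζ (l ^ S)) {θ : ℝ} (hθ : θ ^ (l ^ k) = p) :
    Nat.totient (l ^ S) * l ^ (k - 1)
      ≤ Module.finrank ℚ (IntermediateField.adjoin ℚ ({ζ, (θ : ℂ)} : Set ℂ)) := by
  have hpos : 0 < l ^ S := pow_pos hl.pos S
  have hζint : IsIntegral ℚ ζ := (hζ.isIntegral hpos).tower_top
  have h1 : Module.finrank ℚ ℚ⟮ζ⟯ = Nat.totient (l ^ S) := by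
    rw [IntermediateField.adjoin.finrank hζint, ← Polynomial.cyclotomic_eq_minpoly_rat hζ hpos,
      Polynomial.natDegree_cyclotomic]
  have hω : IsPrimitiveRoot (ζ ^ (l ^ (S - k))) (l ^ k) := by
    refine hζ.pow hpos ?_
    rw [← pow_add]
    congr 1
    omega
  have hωF : ζ ^ (l ^ (S - k)) ∈ ℚ⟮ζ⟯ := pow_mem (mem_adjoin_simple_self ℚ ζ) _
  have hθ0 : (θ : ℂ) ≠ 0 := by
    intro h
    have h0 : θ = 0 := by exact_mod_cast h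
    rw [h0, zero_pow (pow_pos hl.pos k).ne'] at hθ
    exact hp.ne_zero (by exact_mod_cast hθ.symm)
  have hθC : (θ : ℂ) ^ (l ^ k) = (p : ℂ) := by exact_mod_cast congrArg (fun x : ℝ => (x : ℂ)) hθ
  have hθF : (θ : ℂ) ^ (l ^ k) ∈ ℚ⟮ζ⟯ := by
    rw [hθC]
    exact IntermediateField.natCast_mem _ p
  have hθ2 : (θ : ℂ) ^ (l ^ (k - 2)) ∉ ℚ⟮ζ⟯ := by
    have h2 := not_mem_cyclotomic (N := l ^ 2) (n := l ^ S) hp ?_ hpos.ne' hζ.pow_eq_one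
      (b := θ ^ (l ^ (k - 2))) ?_
    · simpa using h2
    · nlinarith [hl.two_le]
    · rw [← pow_mul, ← pow_add, Nat.sub_add_cancel hk, hθ]
  have h3 := degree_lower ℚ⟮ζ⟯ hl hk hω hωF hθ0 hθF hθ2
  have hθint : IsIntegral ℚ⟮ζ⟯ (θ : ℂ) := by
    have : IsIntegral ℚ⟮ζ⟯ ((θ : ℂ) ^ (l ^ k)) := by
      rw [hθC]
      exact isIntegral_natCast p
    exact IsIntegral.of_pow (pow_pos hl.pos k) this
  have h4 : Module.finrank ℚ⟮ζ⟯ (IntermediateField.adjoin ℚ⟮ζ⟯ {(θ : ℂ)}) = (minpoly ℚ⟮ζ⟯ (θ : ℂ)).natDegree :=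
    IntermediateField.adjoin.finrank hθint
  have h5 : Module.finrank ℚ (IntermediateField.adjoin ℚ ({ζ, (θ : ℂ)} : Set ℂ)) =
      Module.finrank ℚ ℚ⟮ζ⟯ * Module.finrank ℚ⟮ζ⟯ (IntermediateField.adjoin ℚ⟮ζ⟯ {(θ : ℂ)}) := by
    rw [Module.finrank_mul_finrank, ← IntermediateField.adjoin_simple_adjoin_simple]
    rfl
  rw [h5, h1, h4]
  exact Nat.mul_le_mul_left _ h3

end Pool.Agent.Lib.MP_021685_agT
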