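import Mathlib

/-!
JOB GB1. Residue fields of primes at which `p` is a power.
-/

namespace Pool.Agent.Lib.MP_021685_agT

open NumberField

private lemma GB1_clear {K : Type*} [Field K] [CharZero K] (S : Set K) (x : K)
    (hx : x ∈ Algebra.adjoin ℚ S) :
    ∃ N : ℕ, N ≠ 0 ∧ (N : K) * x ∈ Algebra.adjoin ℤ S := by
  induction hx using Algebra.adjoin_induction with
  | mem x hx => exact ⟨1, one_ne_zero, by simpa using Algebra.subset_adjoin hx⟩
  | algebraMap q =>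
    refine ⟨q.den, q.den_ne_zero, ?_⟩
    have h : ((q.den : ℕ) : K) * algebraMap ℚ K q = algebraMap ℤ K q.num := by
      have h1 : ((q.den : ℚ)) * q = q.num := by
        rw [mul_comm]; exact Rat.mul_den_eq_num q
      have h2 := congrArg (algebraMap ℚ K) h1
      rw [map_mul, map_natCast, map_intCast] at h2
      rw [h2, eq_intCast]
    rw [h]
    exact Subalgebra.algebraMap_mem _ _
  | add x y _ _ hx hy =>
    obtain ⟨a, ha, hx⟩ := hx
    obtain ⟨b, hb, hy⟩ := hy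
    refine ⟨a * b, mul_ne_zero ha hb, ?_⟩
    have : ((a * b : ℕ) : K) * (x + y) = (b : K) * ((a : K) * x) + (a : K) * ((b : K) * y) := by
      push_cast; ring
    rw [this]
    exact add_mem (mul_mem (natCast_mem _ _) hx) (mul_mem (natCast_mem _ _) hy)
  | mul x y _ _ hx hy =>
    obtain ⟨a, ha, hx⟩ := hx
    obtain ⟨b, hb, hy⟩ := hy
    refine ⟨a * b, mul_ne_zero ha hb, ?_⟩
    have : ((a * b : ℕ) : K) * (x * y) = ((a : K) * x) * ((b : K) * y) := by
      push_cast; ring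
    rw [this]
    exact mul_mem hx hy

private lemma GB1_clearO {K : Type*} [Field K] [NumberField K] (S : Set (𝓞 K))
    (hgen : IntermediateField.adjoin ℚ ((fun x : 𝓞 K => (x : K)) '' S) = ⊤) (x : 𝓞 K) :
    ∃ N : ℕ, N ≠ 0 ∧ (N : 𝓞 K) * x ∈ Algebra.adjoin ℤ S := by
  have h1 : (x : K) ∈ Algebra.adjoin ℚ ((fun x : 𝓞 K => (x : K)) '' S) := by
    have h2 := IntermediateField.adjoin_toSubalgebra_of_isAlgebraic (F := ℚ) (E := K)
      (S := (fun x : 𝓞 K => (x : K)) '' S) (fun x _ => Algebra.IsAlgebraic.isAlgebraic x)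
    rw [← h2, hgen]
    trivial
  obtain ⟨N, hN, h⟩ := GB1_clear _ _ h1
  refine ⟨N, hN, ?_⟩
  have h3 : Algebra.adjoin ℤ ((fun x : 𝓞 K => (x : K)) '' S)
      = (Algebra.adjoin ℤ S).map (IsScalarTower.toAlgHom ℤ (𝓞 K) K) := by
    rw [AlgHom.map_adjoin]
    rfl
  rw [h3, Subalgebra.mem_map] at h
  obtain ⟨y, hy, hy2⟩ := h
  have : y = (N : 𝓞 K) * x := by
    apply RingOfIntegers.coe_injective
    have h5 : (algebraMap (𝓞 K) K) y = ↑N * ↑x := hy2
    rw [h5, map_mul, map_natCast]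
  rwa [← this]

private lemma GB1_exists {K : Type*} [Field K] [NumberField K] (S : Set (𝓞 K))
    (hgen : IntermediateField.adjoin ℚ ((fun x : 𝓞 K => (x : K)) '' S) = ⊤) :
    ∃ N : ℕ, N ≠ 0 ∧ ∀ x : 𝓞 K, (N : 𝓞 K) * x ∈ Algebra.adjoin ℤ S := by
  choose N hN h using GB1_clearO S hgen
  let b := RingOfIntegers.basis K
  refine ⟨∏ i, N (b i), Finset.prod_ne_zero_iff.mpr (fun i _ => hN _), fun x => ?_⟩
  have h1 : ∀ i, ((∏ i, N (b i) : ℕ) : 𝓞 K) * b i ∈ Algebra.adjoin ℤ S := by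
    intro i
    rw [← Finset.prod_erase_mul _ _ (Finset.mem_univ i)]
    push_cast
    rw [mul_assoc]
    exact mul_mem (prod_mem fun j _ => natCast_mem _ _) (h _)
  rw [← b.sum_repr x, Finset.mul_sum]
  refine sum_mem fun i _ => ?_
  rw [mul_smul_comm]
  exact zsmul_mem (h1 i) _

/-- JOB GB1. Let `K` be a number field generated by integers `ζ, θ`, `ζ ^ n = 1`, `θ ^ k = p`, `k ∣ n`. For all
primes `r` larger than some `B`, `r ≡ 1 mod n`, such that `p` is a `k`-th power modulo `r`, every prime ideal of `𝓞 K`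
containing `r` has norm `r`.

Proof. `𝓞 K` is a finitely generated `ℤ`-module contained in `K = ℚ(ζ, θ) = ℚ[ζ, θ]`, so there is an
integer `N0 ≥ 1` with `N0 x ∈ R := ℤ[ζ, θ]` (`Algebra.adjoin ℤ {ζ, θ}` in `𝓞 K`) for all `x ∈ 𝓞 K`. Take `B = max N0 p`. Let `r > B` be such a
prime, `b ^ k = p` in `ZMod r`, `P` a prime of `𝓞 K` with `r ∈ P`, `κ = 𝓞 K ⧸ P`, a finite field of characteristic `r`
(`P ≠ 0` is maximal). The map `φ : κ → κ, y ↦ y ^ r` is a ring homomorphism (`frobenius`). It fixes the image of `ζ`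
(`ζ ^ n = 1`, `r ≡ 1 mod n`). It fixes the image `t` of `θ`: if `b'` is the image of `b` in `κ` (`ZMod.castHom`, or lift `b` to an
integer), `b' ≠ 0` because `b' ^ k = p ≠ 0` in `κ` (`r > p`), `b' ^ r = b'`, and `(t / b') ^ k = 1` gives `(t / b') ^ n = 1`, so
`(t / b') ^ r = t / b'`. Hence `φ` fixes the image of `R`. For `x ∈ 𝓞 K`: `N0 φ(x) = φ(N0 x) = N0 x` in `κ` and `N0 ≠ 0` in `κ`
(`r > N0`), so `φ(x) = x`. So all elements of `κ` are roots of `X ^ r - X`: `Nat.card κ ≤ r`, and `Nat.card κ` is a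
power `r ^ f`, `f ≥ 1` (`FiniteField.card`), so `absNorm P = Nat.card κ = r` (`Ideal.absNorm_apply`, `Submodule.cardQuot_apply`). -/
theorem norm_eq_of_split {K : Type*} [Field K] [NumberField K] {n k p : ℕ} (hn : n ≠ 0)
    (hk : k ∣ n) (hp : p ≠ 0) (ζ θ : 𝓞 K) (hζ : ζ ^ n = 1) (hθ : θ ^ k = p)
    (hgen : IntermediateField.adjoin ℚ ({(ζ : K), (θ : K)} : Set K) = ⊤) :
    ∃ B : ℕ, ∀ r : ℕ, r.Prime → B < r → r ≡ 1 [MOD n] → (∃ b : ZMod r, b ^ k = (p : ZMod r)) →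
      ∀ P : Ideal (𝓞 K), P.IsPrime → (r : 𝓞 K) ∈ P → Ideal.absNorm P = r := by
  obtain ⟨N0, hN0, hN⟩ := GB1_exists ({ζ, θ} : Set (𝓞 K))
    (by rw [Set.image_pair]; exact hgen)
  refine ⟨max N0 p, fun r hr hB hrn hb P hP hrP => ?_⟩
  have := Fact.mk hr
  have hNr : N0 < r := lt_of_le_of_lt (le_max_left _ _) hB
  have hpr : p < r := lt_of_le_of_lt (le_max_right _ _) hB
  have hP0 : P ≠ ⊥ := by
    rintro rfl
    rw [Ideal.mem_bot] at hrP
    exact hr.ne_zero (by exact_mod_cast hrP)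
  have hPm : P.IsMaximal := hP.isMaximal hP0
  let _ := Ideal.Quotient.field P
  have : Finite (𝓞 K ⧸ P) := Ideal.finiteQuotientOfFreeOfNeBot P hP0
  have hr0 : ((r : ℕ) : 𝓞 K ⧸ P) = 0 := by
    rw [← map_natCast (Ideal.Quotient.mk P), Ideal.Quotient.eq_zero_iff_mem]
    exact hrP
  have hchar : CharP (𝓞 K ⧸ P) r := by
    exact ringChar.of_eq (CharP.ringChar_of_prime_eq_zero hr hr0)
  have hne : ∀ m : ℕ, m ≠ 0 → m < r → ((m : ℕ) : 𝓞 K ⧸ P) ≠ 0 := by
    intro m hm hmr h0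
    rw [CharP.cast_eq_zero_iff (𝓞 K ⧸ P) r] at h0
    exact absurd (Nat.le_of_dvd (Nat.pos_of_ne_zero hm) h0) (not_le.mpr hmr)
  -- n-th roots of unity are fixed
  have hroot : ∀ y : 𝓞 K ⧸ P, y ^ n = 1 → y ^ r = y := by
    intro y hy
    have h1 : 1 ≤ r := hr.one_lt.le
    obtain ⟨q, hq⟩ := (Nat.modEq_iff_dvd' h1).mp hrn.symm
    have h2 : r = n * q + 1 := by omega
    rw [h2, pow_succ, pow_mul, hy, one_pow, one_mul]
  have hζ' : (Ideal.Quotient.mk P ζ) ^ r = Ideal.Quotient.mk P ζ :=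
    hroot _ (by rw [← map_pow, hζ, map_one])
  have hθ' : (Ideal.Quotient.mk P θ) ^ r = Ideal.Quotient.mk P θ := by
    obtain ⟨b, hb⟩ := hb
    set b' : 𝓞 K ⧸ P := ZMod.castHom (dvd_refl r) (𝓞 K ⧸ P) b with hb'
    have hb1 : b' ^ k = (p : 𝓞 K ⧸ P) := by
      rw [hb', ← map_pow, hb, map_natCast]
    have hk0 : k ≠ 0 := by
      rintro rfl
      exact hn (Nat.eq_zero_of_zero_dvd hk)
    have hb0 : b' ≠ 0 := by
      intro h0
      rw [h0, zero_pow hk0] at hb1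
      exact hne p hp hpr hb1.symm
    have hbr : b' ^ r = b' := by
      rw [hb', ← map_pow, ZMod.pow_card]
    have ht : ((Ideal.Quotient.mk P θ) / b') ^ r = (Ideal.Quotient.mk P θ) / b' := by
      apply hroot
      obtain ⟨q, hq⟩ := hk
      rw [hq, pow_mul, div_pow, hb1, ← map_pow, hθ, map_natCast, div_self (hne p hp hpr), one_pow]
    rw [div_pow, hbr, div_left_inj' hb0] at ht
    exact ht
  -- Frobenius fixes everything
  have hR : ∀ y ∈ Algebra.adjoin ℤ ({ζ, θ} : Set (𝓞 K)),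
      (Ideal.Quotient.mk P y) ^ r = Ideal.Quotient.mk P y := by
    intro y hy
    induction hy using Algebra.adjoin_induction with
    | mem x hx =>
      rcases hx with rfl | hx
      · exact hζ'
      · rw [Set.mem_singleton_iff] at hx
        rw [hx]; exact hθ'
    | algebraMap q =>
      have : Ideal.Quotient.mk P (algebraMap ℤ (𝓞 K) q) = ZMod.castHom (dvd_refl r) (𝓞 K ⧸ P) q := by
        simp
      rw [this, ← map_pow, ZMod.pow_card]
    | add x y _ _ hx hy => rw [map_add, add_pow_char, hx, hy]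
    | mul x y _ _ hx hy => rw [map_mul, mul_pow, hx, hy]
  have hall : ∀ y : 𝓞 K ⧸ P, y ^ r = y := by
    intro y
    obtain ⟨x, rfl⟩ := Ideal.Quotient.mk_surjective y
    have h1 := hR _ (hN x)
    rw [map_mul, mul_pow, map_natCast] at h1
    have h2 : ((N0 : ℕ) : 𝓞 K ⧸ P) ^ r = N0 := by
      have : ((N0 : ℕ) : 𝓞 K ⧸ P) = ZMod.castHom (dvd_refl r) (𝓞 K ⧸ P) N0 := by simp
      rw [this, ← map_pow, ZMod.pow_card]
    rw [h2] at h1
    exact mul_left_cancel₀ (hne N0 hN0 hNr) h1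
  have hle : Nat.card (𝓞 K ⧸ P) ≤ r := by
    have := Fintype.ofFinite (𝓞 K ⧸ P)
    classical
    have hX : (Polynomial.X ^ r - Polynomial.X : Polynomial (𝓞 K ⧸ P)) ≠ 0 :=
      FiniteField.X_pow_card_sub_X_ne_zero _ hr.one_lt
    have h1 : (Finset.univ : Finset (𝓞 K ⧸ P)) ⊆
        (Polynomial.X ^ r - Polynomial.X : Polynomial (𝓞 K ⧸ P)).roots.toFinset := by
      intro y _
      rw [Multiset.mem_toFinset, Polynomial.mem_roots hX]
      simp [Polynomial.IsRoot, hall y]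
    calc Nat.card (𝓞 K ⧸ P) = Finset.univ.card := by
          rw [Nat.card_eq_fintype_card]; rfl
      _ ≤ _ := Finset.card_le_card h1
      _ ≤ _ := Multiset.toFinset_card_le _
      _ ≤ _ := Polynomial.card_roots' _
      _ = r := FiniteField.X_pow_card_sub_X_natDegree_eq _ hr.one_lt
  have hge : r ≤ Nat.card (𝓞 K ⧸ P) := by
    have := Fintype.ofFinite (𝓞 K ⧸ P)
    obtain ⟨f, _, hf⟩ := FiniteField.card (𝓞 K ⧸ P) r
    rw [Nat.card_eq_fintype_card, hf]
    exact Nat.le_self_pow f.ne_zero r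
  rw [Ideal.absNorm_apply, Submodule.cardQuot_apply]
  exact le_antisymm hle hge

end Pool.Agent.Lib.MP_021685_agT
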