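import Mathlib

/-!
JOB GB2. Number of primes above an unramified prime.
-/

namespace Pool.Agent.Lib.MP_021685_agT

open NumberField

/-- JOB GB2. For all primes `r` larger than some `B`: if all prime ideals of `𝓞 K` containing `r` have norm `r`, there
are `[K : ℚ]` of them.

Proof. `B = |discr K|`. For `r > B`, `r` does not divide `discr K ≠ 0`, so by `NumberField.not_dvd_discr_iff_forall_mem` (file
`Mathlib/NumberTheory/NumberField/Discriminant/Different.lean`) all primes above `r` are unramified over `ℤ`, hence have ramification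
index `1` (`Ideal.ramificationIdx_eq_one_of_isUnramifiedAt` or similar), and `∑ e f = [K : ℚ]` (`Ideal.sum_ramification_inertia` with
`p = Ideal.span {(r : ℤ)}`, `Ideal.primesOverFinset`); `f = 1` since `absNorm P = r ^ f` (`Ideal.natAbs_pow_inertiaDeg` or
`Ideal.absNorm_eq_pow_inertiaDeg`). -/
theorem card_primes_of_norm {K : Type*} [Field K] [NumberField K] :
    ∃ B : ℕ, ∀ r : ℕ, r.Prime → B < r →
      (∀ P : Ideal (𝓞 K), P.IsPrime → (r : 𝓞 K) ∈ P → Ideal.absNorm P = r) →
      ∃ E : Finset (Ideal (𝓞 K)), E.card = Module.finrank ℚ K ∧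
        ∀ P ∈ E, P.IsPrime ∧ Ideal.absNorm P = r := by
  classical
  refine ⟨(discr K).natAbs, fun r hr hB h => ?_⟩
  have hrZ : Prime (r : ℤ) := Nat.prime_iff_prime_int.mp hr
  have hnd : ¬ (r : ℤ) ∣ discr K := by
    intro hd
    have h1 := Int.natAbs_dvd_natAbs.mpr hd
    rw [Int.natAbs_natCast] at h1
    exact absurd (Nat.le_of_dvd (Int.natAbs_pos.mpr (discr_ne_zero K)) h1) (not_le.mpr hB)
  have hunr := (not_dvd_discr_iff_forall_mem K (𝓞 K) hrZ).mp hnd
  let p : Ideal ℤ := Ideal.span {(r : ℤ)}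
  have hp0 : p ≠ ⊥ := by
    rw [Ne, Ideal.span_singleton_eq_bot]
    exact hrZ.ne_zero
  have hpP : p.IsPrime := (Ideal.span_singleton_prime hrZ.ne_zero).mpr hrZ
  have hfin : (p.primesOver (𝓞 K)).Finite := by
    have := hpP.isMaximal hp0
    exact IsDedekindDomain.primesOver_finite p (𝓞 K)
  let _ : Fintype (p.primesOver (𝓞 K)) := hfin.fintype
  have hsum := Ideal.sum_ramification_inertia_eq_finrank p (𝓞 K)
  have hmem : ∀ q : p.primesOver (𝓞 K), (r : 𝓞 K) ∈ q.1 := by
    intro q
    have h1 := q.2.2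
    have h2 : (r : ℤ) ∈ q.1.under ℤ := by
      rw [← h1.over]
      exact Ideal.mem_span_singleton_self _
    rw [Ideal.mem_comap] at h2
    simpa using h2
  have hone : ∀ q : p.primesOver (𝓞 K), q.1.ramificationIdx ℤ * q.1.inertiaDeg ℤ = 1 := by
    intro q
    have hq1 : q.1.IsPrime := q.2.1
    have hq2 : q.1.LiesOver p := q.2.2
    have hq3 : q.1.LiesOver (Ideal.span {(r : ℤ)}) := q.2.2
    have : Algebra.IsUnramifiedAt ℤ q.1 := hunr q.1 hq1 (by exact_mod_cast hmem q)
    rw [Ideal.ramificationIdx_eq_one_of_isUnramifiedAt, one_mul]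
    have h3 := Ideal.pow_inertiaDeg r q.1
    rw [h q.1 hq1 (hmem q)] at h3
    exact Nat.pow_right_injective hr.two_le (by simpa using h3)
  refine ⟨hfin.toFinset, ?_, ?_⟩
  · rw [Finset.sum_congr rfl (fun q _ => hone q)] at hsum
    rw [← RingOfIntegers.rank K, ← hsum]
    simp
  · intro P hP
    rw [Set.Finite.mem_toFinset] at hP
    exact ⟨hP.1, h P hP.1 (hmem ⟨P, hP⟩)⟩

end Pool.Agent.Lib.MP_021685_agT
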