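import Mathlib

/-!
JOB GC1. Finite Euler products and the Dedekind zeta function.
-/

namespace Pool.Agent.Lib.MP_021685_agT

open NumberField Finset Filter Topology

private theorem GC1_bigO (K : Type*) [Field K] [NumberField K] :
    (fun n : ℕ ↦ ∑ k ∈ Finset.Icc 1 n, (Nat.card {I : Ideal (𝓞 K) // Ideal.absNorm I = k} : ℝ))
      =O[atTop] fun n ↦ (n : ℝ) ^ (1 : ℝ) := by
  have h1 : Tendsto (fun n : ℕ ↦
      (∑ k ∈ Finset.Icc 1 n, (Nat.card {I : Ideal (𝓞 K) // Ideal.absNorm I = k} : ℝ)) / (n : ℝ)) atTop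
      (𝓝 ((2 ^ InfinitePlace.nrRealPlaces K * (2 * Real.pi) ^ InfinitePlace.nrComplexPlaces K *
        Units.regulator K * classNumber K) / (Units.torsionOrder K * Real.sqrt |discr K|))) := by
    refine ((Ideal.tendsto_norm_le_div_atTop₀ K).comp tendsto_natCast_atTop_atTop).congr fun n ↦ ?_
    simp only [Function.comp_apply, Nat.cast_le, ← Nat.cast_sum]
    congr
    rw [← add_left_inj 1, ← Ideal.card_norm_le_eq_card_norm_le_add_one,
      show Finset.Icc 1 n = Finset.Ioc 0 n from Finset.Icc_succ_left_eq_Ioc _ _,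
      show 1 = Nat.card {I : Ideal (𝓞 K) // Ideal.absNorm I = 0} by simp [Ideal.absNorm_eq_zero_iff],
      Finset.sum_Ioc_add_eq_sum_Icc (n.zero_le),
      ← Finset.card_preimage_eq_sum_card_image_eq (fun k _ ↦ Ideal.finite_setOfPred_absNorm_eq k)]
    simp [Set.coe_eq_subtype]
  have h2 := h1.isBigO_one ℝ
  have h3 : (fun n : ℕ ↦ (∑ k ∈ Finset.Icc 1 n, (Nat.card {I : Ideal (𝓞 K) // Ideal.absNorm I = k} : ℝ)))
      =ᶠ[atTop] (fun n : ℕ ↦ ((∑ k ∈ Finset.Icc 1 n,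
        (Nat.card {I : Ideal (𝓞 K) // Ideal.absNorm I = k} : ℝ)) / (n : ℝ)) * (n : ℝ) ^ (1 : ℝ)) := by
    filter_upwards [eventually_gt_atTop 0] with n hn
    have : (n : ℝ) ≠ 0 := by positivity
    rw [Real.rpow_one]
    field_simp
  refine h3.trans_isBigO ?_
  have h4 := h2.mul (Asymptotics.isBigO_refl (fun n : ℕ ↦ (n : ℝ) ^ (1 : ℝ)) atTop)
  simpa using h4

private theorem GC1_summable (K : Type*) [Field K] [NumberField K] {s : ℝ} (hs : 1 < s) :
    LSeriesSummable (fun n ↦ ((Nat.card {I : Ideal (𝓞 K) // Ideal.absNorm I = n} : ℝ) : ℂ)) (s : ℂ) :=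
  LSeriesSummable_of_sum_norm_bigO_and_nonneg (GC1_bigO K) (fun _ => Nat.cast_nonneg _) zero_le_one
    (by simpa using hs)

private theorem GC1_term (a : ℕ → ℕ) (s : ℝ) {n : ℕ} (hn : n ≠ 0) :
    (LSeries.term (fun n ↦ ((a n : ℝ) : ℂ)) (s : ℂ) n).re = (a n : ℝ) * (n : ℝ) ^ (-s) := by
  rw [LSeries.term_of_ne_zero hn]
  have h1 : ((n : ℂ)) ^ (s : ℂ) = (((n : ℝ) ^ s : ℝ) : ℂ) := by
    rw [Complex.ofReal_cpow (Nat.cast_nonneg n)]
    simp
  rw [h1, ← Complex.ofReal_div, Complex.ofReal_re, Real.rpow_neg (Nat.cast_nonneg n)]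
  rfl

private theorem GC1_zeta_ge (K : Type*) [Field K] [NumberField K] {s : ℝ} (hs : 1 < s) (T : Finset ℕ)
    (hT : ∀ n ∈ T, n ≠ 0) :
    ∑ n ∈ T, (Nat.card {I : Ideal (𝓞 K) // Ideal.absNorm I = n} : ℝ) * (n : ℝ) ^ (-s) ≤
      (dedekindZeta K s).re := by
  have hsum := GC1_summable K hs
  have h1 : dedekindZeta K s = ∑' n, LSeries.term
      (fun n ↦ ((Nat.card {I : Ideal (𝓞 K) // Ideal.absNorm I = n} : ℝ) : ℂ)) (s : ℂ) n := by
    unfold dedekindZeta LSeries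
    simp
  rw [h1, Complex.re_tsum hsum]
  have h2 : ∑ n ∈ T, (Nat.card {I : Ideal (𝓞 K) // Ideal.absNorm I = n} : ℝ) * (n : ℝ) ^ (-s) =
      ∑ n ∈ T, (LSeries.term
      (fun n ↦ ((Nat.card {I : Ideal (𝓞 K) // Ideal.absNorm I = n} : ℝ) : ℂ)) (s : ℂ) n).re :=
    Finset.sum_congr rfl fun n hn =>
      (GC1_term (fun n => Nat.card {I : Ideal (𝓞 K) // Ideal.absNorm I = n}) s (hT n hn)).symm
  rw [h2]
  refine Summable.sum_le_tsum T (fun n _ => ?_) ((Complex.reCLM.summable hsum))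
  rcases eq_or_ne n 0 with rfl | hn
  · simp
  · rw [GC1_term (fun n => Nat.card {I : Ideal (𝓞 K) // Ideal.absNorm I = n}) s hn]
    positivity

private theorem GC1_inj {K : Type*} [Field K] [NumberField K] (E : Finset (Ideal (𝓞 K)))
    (hE : ∀ P ∈ E, P.IsPrime ∧ P ≠ ⊥) {A B : Finset (Ideal (𝓞 K))} (hA : A ⊆ E) (hB : B ⊆ E)
    (h : ∏ P ∈ A, P = ∏ P ∈ B, P) : A ⊆ B := by
  intro P hP
  have h1 : P ∣ ∏ Q ∈ B, Q := h ▸ Finset.dvd_prod_of_mem _ hP
  have hPp : Prime P := Ideal.prime_of_isPrime (hE P (hA hP)).2 (hE P (hA hP)).1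
  obtain ⟨Q, hQ, hdvd⟩ := hPp.exists_mem_finset_dvd h1
  have hQp : Prime Q := Ideal.prime_of_isPrime (hE Q (hB hQ)).2 (hE Q (hB hQ)).1
  rw [associated_iff_eq.mp (hPp.associated_of_dvd hQp hdvd)]
  exact hQ

/-- JOB GC1. For a finite set `E` of nonzero prime ideals of `𝓞 K` and real `s > 1`:
`∏_{P ∈ E} (1 + N P ^ (-s)) ≤ ζ_K(s)`.

Proof. By `Finset.prod_one_add` (or `Finset.prod_add`) the left side is `∑_{A ⊆ E} N(∏_{P ∈ A} P) ^ (-s)` (`Ideal.absNorm` is multiplicative).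
The map `A ↦ ∏_{P ∈ A} P` on subsets of `E` is injective (unique factorization of ideals: e.g.
`UniqueFactorizationMonoid.normalizedFactors_prod_of_prime`, or `P ∣ ∏ A` iff `P ∈ A` for prime ideals `P`, maximal). So the left side is
`∑_{I ∈ J} N(I) ^ (-s)` for a finite set `J` of nonzero ideals `= ∑_n #{I ∈ J : N I = n} n ^ (-s) ≤ ∑_n a_n n ^ (-s)`,
`a_n = Nat.card {I // absNorm I = n}` (finite: `Ideal.finite_setOf_absNorm_eq` or similar), the series being summable: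
`LSeriesSummable` for `s > 1`, which follows from the linear growth of the partial sums as in the proof of
`NumberField.tendsto_sub_one_mul_dedekindZeta_nhdsGT` (`Ideal.tendsto_norm_le_div_atTop₀`;
`LSeriesSummable_of_sum_norm_bigO_and_nonneg` or similar). -/
theorem prod_le_zeta {K : Type*} [Field K] [NumberField K] (E : Finset (Ideal (𝓞 K)))
    (hE : ∀ P ∈ E, P.IsPrime ∧ P ≠ ⊥) {s : ℝ} (hs : 1 < s) :
    ∏ P ∈ E, (1 + ((Ideal.absNorm P : ℕ) : ℝ) ^ (-s)) ≤ (dedekindZeta K s).re := by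
  classical
  have hinj : Set.InjOn (fun A : Finset (Ideal (𝓞 K)) => ∏ P ∈ A, P) (E.powerset : Set (Finset (Ideal (𝓞 K)))) := by
    intro A hA B hB h
    rw [Finset.mem_coe, Finset.mem_powerset] at hA hB
    exact Finset.Subset.antisymm (GC1_inj E hE hA hB h) (GC1_inj E hE hB hA h.symm)
  set J : Finset (Ideal (𝓞 K)) := E.powerset.image (fun A => ∏ P ∈ A, P) with hJ
  have h1 : ∏ P ∈ E, (1 + ((Ideal.absNorm P : ℕ) : ℝ) ^ (-s)) =
      ∑ I ∈ J, ((Ideal.absNorm I : ℕ) : ℝ) ^ (-s) := by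
    rw [Finset.prod_one_add, hJ, Finset.sum_image hinj]
    refine Finset.sum_congr rfl fun A _ => ?_
    rw [Real.finsetProd_rpow _ _ (fun _ _ => Nat.cast_nonneg _), map_prod, Nat.cast_prod]
  have hJ0 : ∀ I ∈ J, Ideal.absNorm I ≠ 0 := by
    intro I hI
    rw [hJ, Finset.mem_image] at hI
    obtain ⟨A, hA, rfl⟩ := hI
    rw [map_prod, Finset.prod_ne_zero_iff]
    intro P hP
    exact fun h => (hE P (Finset.mem_powerset.1 hA hP)).2 (Ideal.absNorm_eq_zero_iff.1 h)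
  rw [h1]
  refine le_trans ?_ (GC1_zeta_ge K hs (J.image Ideal.absNorm) ?_)
  · rw [← Finset.sum_fiberwise_of_maps_to (s := J) (t := J.image Ideal.absNorm) (g := Ideal.absNorm)
      (fun I hI => Finset.mem_image_of_mem _ hI)]
    refine Finset.sum_le_sum fun n _ => ?_
    rw [Finset.sum_congr rfl (g := fun _ => (n : ℝ) ^ (-s)) (by
      intro I hI
      rw [(Finset.mem_filter.1 hI).2]), Finset.sum_const, nsmul_eq_mul]
    refine mul_le_mul_of_nonneg_right ?_ (by positivity)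
    rw [Nat.cast_le]
    have hfin : Finite {I : Ideal (𝓞 K) // Ideal.absNorm I = n} :=
      (Ideal.finite_setOfPred_absNorm_eq n).to_subtype
    have : Fintype {I : Ideal (𝓞 K) // Ideal.absNorm I = n} := Fintype.ofFinite _
    rw [Nat.card_eq_fintype_card, ← Fintype.card_coe]
    refine Fintype.card_le_of_injective
      (fun I : {x // x ∈ J.filter (fun I => Ideal.absNorm I = n)} =>
        (⟨I.1, (Finset.mem_filter.1 I.2).2⟩ : {I : Ideal (𝓞 K) // Ideal.absNorm I = n})) ?_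
    intro I I' h
    exact Subtype.ext (congrArg (fun x : {I : Ideal (𝓞 K) // Ideal.absNorm I = n} => x.1) h)
  · intro n hn
    rw [Finset.mem_image] at hn
    obtain ⟨I, hI, rfl⟩ := hn
    exact hJ0 I hI

end Pool.Agent.Lib.MP_021685_agT
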