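import Pool.Agent.Lib.MP_021685_agT.GC1

/-!
JOB GC2. Upper bound from the Dedekind zeta function.
-/

namespace Pool.Agent.Lib.MP_021685_agT

open NumberField Finset Filter Topology

/-- The Dedekind zeta function at `1 + 2 ^ (-i)` is at most `C0 * 2 ^ i`. -/
private theorem GC2_zeta_bound (K : Type*) [Field K] [NumberField K] :
    ∃ C0 : ℝ, 1 ≤ C0 ∧ ∀ i : ℕ, (dedekindZeta K ((1 + (1 / 2 : ℝ) ^ i : ℝ) : ℂ)).re ≤ C0 * 2 ^ i := by
  have h1 := NumberField.tendsto_sub_one_mul_dedekindZeta_nhdsGT K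
  have h2 : Tendsto (fun i : ℕ => 1 + (1 / 2 : ℝ) ^ i) atTop (𝓝[>] 1) := by
    rw [tendsto_nhdsWithin_iff]
    constructor
    · have := (tendsto_pow_atTop_nhds_zero_of_lt_one (r := (1 / 2 : ℝ)) (by norm_num) (by norm_num)).const_add 1
      simpa using this
    · exact Eventually.of_forall fun i => by
        have h0 : (0 : ℝ) < (1 / 2 : ℝ) ^ i := by positivity
        exact Set.mem_Ioi.mpr (lt_add_of_pos_right 1 h0)
  have h3 := (Complex.continuous_re.tendsto _).comp (h1.comp h2)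
  obtain ⟨M, hM⟩ := h3.bddAbove_range
  refine ⟨max M 1, le_max_right _ _, fun i => ?_⟩
  have h4 : ((((1 + (1 / 2 : ℝ) ^ i : ℝ) : ℂ) - 1) * dedekindZeta K ((1 + (1 / 2 : ℝ) ^ i : ℝ) : ℂ)).re ≤ M :=
    hM ⟨i, rfl⟩
  have h5 : (((1 + (1 / 2 : ℝ) ^ i : ℝ) : ℂ) - 1) = (((1 / 2 : ℝ) ^ i : ℝ) : ℂ) := by
    push_cast
    ring
  rw [h5, Complex.re_ofReal_mul] at h4
  have h6 : (1 / 2 : ℝ) ^ i * 2 ^ i = 1 := by
    rw [← mul_pow]
    norm_num
  have h7 : (0 : ℝ) < 2 ^ i := by positivity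
  calc (dedekindZeta K ((1 + (1 / 2 : ℝ) ^ i : ℝ) : ℂ)).re
      = ((1 / 2 : ℝ) ^ i * (dedekindZeta K ((1 + (1 / 2 : ℝ) ^ i : ℝ) : ℂ)).re) * 2 ^ i := by
        linear_combination (-(dedekindZeta K ((1 + (1 / 2 : ℝ) ^ i : ℝ) : ℂ)).re) * h6
    _ ≤ M * 2 ^ i := mul_le_mul_of_nonneg_right h4 h7.le
    _ ≤ max M 1 * 2 ^ i := mul_le_mul_of_nonneg_right (le_max_left _ _) h7.le

private theorem GC2_log {x : ℝ} (h0 : 0 ≤ x) : x - x ^ 2 ≤ Real.log (1 + x) := by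
  have h1 := Real.one_sub_inv_le_log_of_pos (show (0 : ℝ) < 1 + x by linarith)
  have h2 : x - x ^ 2 ≤ 1 - (1 + x)⁻¹ := by
    have h3 : (1 : ℝ) + x ≠ 0 := by linarith
    have h4 : (1 : ℝ) - (1 + x)⁻¹ - (x - x ^ 2) = x ^ 3 / (1 + x) := by
      field_simp
      ring
    have h5 : 0 ≤ x ^ 3 / (1 + x) := by positivity
    linarith
  linarith

/-- JOB GC2. Let `n = [K : ℚ]` (or any number). There is `C` such that for every `i` and every finite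
set `R` of primes for each of which there are `n` prime ideals of norm `r`,
`n ∑_{r ∈ R} r ^ (-(1 + 2 ^ (-i))) ≤ i log 2 + C`.

Proof. By `NumberField.tendsto_sub_one_mul_dedekindZeta_nhdsGT` there are `i0` and `C0 > 0` with
`(dedekindZeta K s).re ≤ C0 / (s - 1) = C0 * 2 ^ i` for `s = 1 + 2 ^ (-i)`, `i ≥ i0`. For `i < i0` the value is some number; enlarging `C0`
the inequality holds for all `i`. Let `E` be the (disjoint) union of the sets `E r` of `n` prime ideals of norm `r`, `r ∈ R`. `prod_le_zeta`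
gives `∏_{r ∈ R} (1 + r ^ (-s)) ^ n ≤ C0 2 ^ i`; take logarithms and use `log (1 + x) ≥ x - x ^ 2` for `0 ≤ x ≤ 1` and
`∑_{r ∈ R} r ^ (-2 s) ≤ ∑_{m ≥ 1} m ^ (-2)`. -/
theorem sum_le_of_split {K : Type*} [Field K] [NumberField K] (n : ℕ) :
    ∃ C : ℝ, ∀ (i : ℕ) (R : Finset ℕ), (∀ r ∈ R, r.Prime ∧ ∃ E : Finset (Ideal (𝓞 K)),
      E.card = n ∧ ∀ P ∈ E, P.IsPrime ∧ Ideal.absNorm P = r) →
      (n : ℝ) * ∑ r ∈ R, (r : ℝ) ^ (-(1 + (1 / 2 : ℝ) ^ i)) ≤ i * Real.log 2 + C := by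
  classical
  obtain ⟨C0, hC0, hz⟩ := GC2_zeta_bound K
  have hsum : Summable (fun m : ℕ => ((m : ℝ) ^ 2)⁻¹) := by
    simp
  refine ⟨n * (∑' m : ℕ, ((m : ℝ) ^ 2)⁻¹) + Real.log C0, ?_⟩
  intro i R hR
  set s : ℝ := 1 + (1 / 2 : ℝ) ^ i with hs
  have hs1 : 1 < s := by
    have : (0 : ℝ) < (1 / 2 : ℝ) ^ i := by positivity
    linarith
  have hchoose : ∀ r : ℕ, ∃ E : Finset (Ideal (𝓞 K)), r ∈ R → E.card = n ∧ ∀ P ∈ E, P.IsPrime ∧ Ideal.absNorm P = r := by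
    intro r
    by_cases hr : r ∈ R
    · obtain ⟨-, E, hE⟩ := hR r hr
      exact ⟨E, fun _ => hE⟩
    · exact ⟨∅, fun h => absurd h hr⟩
  choose E hE using hchoose
  have hprod := prod_le_zeta (K := K) (R.biUnion E) (by
    intro P hP
    rw [Finset.mem_biUnion] at hP
    obtain ⟨r, hr, hP⟩ := hP
    have h1 := (hE r hr).2 P hP
    refine ⟨h1.1, fun h => ?_⟩
    rw [h, Ideal.absNorm_bot] at h1
    exact (hR r hr).1.ne_zero h1.2.symm) hs1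
  have hdisj : ∀ r ∈ R, ∀ r' ∈ R, r ≠ r' → Disjoint (E r) (E r') := by
    intro r hr r' hr' hne
    rw [Finset.disjoint_left]
    intro P hP hP'
    exact hne (((hE r hr).2 P hP).2.symm.trans ((hE r' hr').2 P hP').2)
  rw [Finset.prod_biUnion (by
    intro r hr r' hr' hne
    exact hdisj r hr r' hr' hne)] at hprod
  have h1 : ∏ r ∈ R, ∏ P ∈ E r, (1 + ((Ideal.absNorm P : ℕ) : ℝ) ^ (-s)) = ∏ r ∈ R, (1 + (r : ℝ) ^ (-s)) ^ n := by
    apply Finset.prod_congr rfl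
    intro r hr
    rw [Finset.prod_congr rfl (g := fun _ => (1 + (r : ℝ) ^ (-s)))
      (fun P hP => by rw [((hE r hr).2 P hP).2]), Finset.prod_const, (hE r hr).1]
  rw [h1] at hprod
  have h2 := hprod.trans (hz i)
  have hpos : ∀ r ∈ R, 0 < 1 + (r : ℝ) ^ (-s) := by
    intro r hr
    have : 0 ≤ (r : ℝ) ^ (-s) := Real.rpow_nonneg (Nat.cast_nonneg r) _
    linarith
  have h3 := Real.log_le_log (Finset.prod_pos fun r hr => pow_pos (hpos r hr) n) h2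
  rw [Real.log_prod (fun r hr => (pow_pos (hpos r hr) n).ne'), Real.log_mul (by linarith) (by positivity),
    Real.log_pow] at h3
  have h4 : ∑ r ∈ R, Real.log ((1 + (r : ℝ) ^ (-s)) ^ n) = n * ∑ r ∈ R, Real.log (1 + (r : ℝ) ^ (-s)) := by
    rw [Finset.mul_sum]
    exact Finset.sum_congr rfl fun r _ => Real.log_pow _ _
  rw [h4] at h3
  have h5 : ∑ r ∈ R, (r : ℝ) ^ (-s) - ∑ r ∈ R, ((r : ℝ) ^ (-s)) ^ 2 ≤ ∑ r ∈ R, Real.log (1 + (r : ℝ) ^ (-s)) := by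
    rw [← Finset.sum_sub_distrib]
    exact Finset.sum_le_sum fun r _ => GC2_log (Real.rpow_nonneg (Nat.cast_nonneg r) _)
  have h6 : ∑ r ∈ R, ((r : ℝ) ^ (-s)) ^ 2 ≤ ∑' m : ℕ, ((m : ℝ) ^ 2)⁻¹ := by
    calc ∑ r ∈ R, ((r : ℝ) ^ (-s)) ^ 2 ≤ ∑ r ∈ R, ((r : ℝ) ^ 2)⁻¹ := by
          apply Finset.sum_le_sum
          intro r hr
          have hr1 : (1 : ℝ) ≤ r := by exact_mod_cast (hR r hr).1.one_le
          have h7 : (r : ℝ) ^ (-s) ≤ (r : ℝ)⁻¹ := by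
            rw [← Real.rpow_neg_one]
            exact Real.rpow_le_rpow_of_exponent_le hr1 (by linarith)
          rw [← inv_pow]
          exact pow_le_pow_left₀ (Real.rpow_nonneg (Nat.cast_nonneg r) _) h7 2
      _ ≤ ∑' m : ℕ, ((m : ℝ) ^ 2)⁻¹ := hsum.sum_le_tsum R (fun m _ => by positivity)
  have hn : (0 : ℝ) ≤ n := Nat.cast_nonneg n
  have h8 := mul_le_mul_of_nonneg_left h5 hn
  have h9 := mul_le_mul_of_nonneg_left h6 hn
  rw [mul_sub] at h8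
  linarith

end Pool.Agent.Lib.MP_021685_agT
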