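import Mathlib

/-!
JOB GD1. Lower bound from Dirichlet's theorem.
-/

namespace Pool.Agent.Lib.MP_021685_agT

open Finset

/-- JOB GD1. For `c` prime to `M` there is `C` such that for `1 < x ≤ 2` and every `ε > 0` (here `ε = 1`) some finite set `R` of
primes `r ≡ c mod M`, `r > B`, satisfies `∑_{r ∈ R} log r * r ^ (-x) ≥ (1 / φ(M)) / (x - 1) - C`.

Proof. `ArithmeticFunction.vonMangoldt.LSeries_residueClass_lower_bound` (file `Mathlib/NumberTheory/LSeries/PrimesInAP.lean`) for the unit
`(c : ZMod M)`; the sum over non-primes is at most the finite sum of `summable_residueClass_non_primes_div`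
(`n ^ (-x) ≤ n⁻¹`), for a prime `r` in the class the term is `log r * r ^ (-x)`; the primes `r ≤ B` contribute at most
`∑_{r ≤ B} log r`; and the remaining series of nonnegative terms, being convergent (or: having this lower bound as its `tsum`, which would be
`0` if it were not summable), has a finite partial sum which is at least its value minus `1`. -/
theorem dirichlet_lower {M c : ℕ} (hM : M ≠ 0) (hc : Nat.Coprime c M) (B : ℕ) :
    ∃ C : ℝ, ∀ x : ℝ, 1 < x → x ≤ 2 → ∃ R : Finset ℕ,
      (∀ r ∈ R, r.Prime ∧ B < r ∧ r ≡ c [MOD M]) ∧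
      1 / (Nat.totient M : ℝ) / (x - 1) - C ≤ ∑ r ∈ R, Real.log r * (r : ℝ) ^ (-x) := by
  classical
  haveI : NeZero M := ⟨hM⟩
  set a : ZMod M := (c : ZMod M) with ha
  have hau : IsUnit a := (ZMod.isUnit_iff_coprime c M).mpr hc
  obtain ⟨C0, hC0⟩ := ArithmeticFunction.vonMangoldt.LSeries_residueClass_lower_bound hau
  set rc : ℕ → ℝ := ArithmeticFunction.vonMangoldt.residueClass a with hrc
  have hrc0 : ∀ n, 0 ≤ rc n := fun n => ArithmeticFunction.vonMangoldt.residueClass_nonneg a n
  set G : ℕ → ℝ := fun n => (if n.Prime then 0 else rc n) / n with hG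
  have hGs : Summable G := ArithmeticFunction.vonMangoldt.summable_residueClass_non_primes_div a
  have hG0 : ∀ n, 0 ≤ G n := by
    intro n
    simp only [hG]
    refine div_nonneg ?_ (Nat.cast_nonneg n)
    split_ifs
    · exact le_rfl
    · exact hrc0 n
  set K2 : ℝ := ∑ n ∈ Finset.range (B + 1), Real.log n with hK2
  have hlog0 : ∀ n : ℕ, 0 ≤ Real.log n := fun n => Real.log_natCast_nonneg n
  refine ⟨C0 + ∑' n, G n + K2 + 1, fun x hx1 hx2 => ?_⟩
  have hlow := hC0 (x := x) ⟨hx1, hx2⟩
  set t : ℕ → ℝ := fun n => rc n / (n : ℝ) ^ x with ht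
  have hts : Summable t :=
    LSeries.summable_real_of_abscissaOfAbsConv_lt <|
        (ArithmeticFunction.vonMangoldt.abscissaOfAbsConv_residueClass_le_one a).trans_lt <| mod_cast hx1
  have hlt : ∑' n, t n - 1 < ∑' n, t n := by linarith
  obtain ⟨s, hs⟩ := (hts.hasSum.eventually (lt_mem_nhds hlt)).exists
  refine ⟨s.filter (fun r => r.Prime ∧ B < r ∧ r ≡ c [MOD M]), fun r hr => (Finset.mem_filter.1 hr).2, ?_⟩
  have hpt : ∀ n : ℕ, t n ≤ (if n.Prime ∧ B < n ∧ n ≡ c [MOD M] then Real.log n * (n : ℝ) ^ (-x) else 0) + G n +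
      (if n < B + 1 then Real.log n else 0) := by
    intro n
    have h1 : 0 ≤ (if n.Prime ∧ B < n ∧ n ≡ c [MOD M] then Real.log n * (n : ℝ) ^ (-x) else 0) := by
      split_ifs
      · exact mul_nonneg (hlog0 n) (Real.rpow_nonneg (Nat.cast_nonneg n) _)
      · exact le_rfl
    have h2 : 0 ≤ (if n < B + 1 then Real.log (n : ℝ) else 0) := by
      split_ifs
      · exact hlog0 n
      · exact le_rfl
    rcases Nat.eq_zero_or_pos n with hn0 | hn0
    · have h3 : t n = 0 := by
        simp only [ht, hn0, hrc, ArithmeticFunction.vonMangoldt.residueClass_apply_zero, zero_div]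
      rw [h3]
      have := hG0 n
      linarith
    have hn1 : (1 : ℝ) ≤ n := by exact_mod_cast hn0
    have hpow : (n : ℝ) ≤ (n : ℝ) ^ x := by
      conv_lhs => rw [← Real.rpow_one (n : ℝ)]
      exact Real.rpow_le_rpow_of_exponent_le hn1 hx1.le
    by_cases hp : n.Prime
    · have hGn : G n = 0 := by simp only [hG, if_pos hp, zero_div]
      by_cases hmod : n ≡ c [MOD M]
      · have hmem : rc n ≤ Real.log n := by
          have h3 := ArithmeticFunction.vonMangoldt.residueClass_le a n
          rw [ArithmeticFunction.vonMangoldt_apply_prime hp] at h3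
          exact h3
        by_cases hB : B < n
        · rw [if_pos ⟨hp, hB, hmod⟩]
          have h4 : t n ≤ Real.log n * (n : ℝ) ^ (-x) := by
            simp only [ht]
            rw [Real.rpow_neg (Nat.cast_nonneg n), ← div_eq_mul_inv]
            exact div_le_div_of_nonneg_right hmem (Real.rpow_nonneg (Nat.cast_nonneg n) _)
          linarith [hG0 n]
        · have h5 : t n ≤ Real.log n := by
            simp only [ht]
            refine (div_le_self (hrc0 n) (hn1.trans hpow)).trans hmem
          rw [if_pos (show n < B + 1 by omega)]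
          linarith [hG0 n]
      · have h3 : t n = 0 := by
          have h4 : rc n = 0 := by
            simp only [hrc]
            refine Set.indicator_of_notMem ?_ _
            intro hmem
            exact hmod ((ZMod.natCast_eq_natCast_iff n c M).1 hmem)
          simp only [ht, h4, zero_div]
        rw [h3]
        linarith [hG0 n]
    · have h3 : t n ≤ G n := by
        simp only [ht, hG, if_neg hp]
        exact div_le_div_of_nonneg_left (hrc0 n) (by linarith) hpow
      linarith
  have hsum : ∑ n ∈ s, t n ≤ ∑ r ∈ s.filter (fun r => r.Prime ∧ B < r ∧ r ≡ c [MOD M]), Real.log r * (r : ℝ) ^ (-x) +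
      ∑' n, G n + K2 := by
    calc ∑ n ∈ s, t n ≤ ∑ n ∈ s, ((if n.Prime ∧ B < n ∧ n ≡ c [MOD M] then Real.log n * (n : ℝ) ^ (-x) else 0) + G n +
          (if n < B + 1 then Real.log n else 0)) := Finset.sum_le_sum fun n _ => hpt n
      _ = ∑ n ∈ s, (if n.Prime ∧ B < n ∧ n ≡ c [MOD M] then Real.log n * (n : ℝ) ^ (-x) else 0) + ∑ n ∈ s, G n +
          ∑ n ∈ s, (if n < B + 1 then Real.log n else 0) := by
          rw [Finset.sum_add_distrib, Finset.sum_add_distrib]
      _ ≤ _ := by
          have h1 : ∑ n ∈ s, (if n.Prime ∧ B < n ∧ n ≡ c [MOD M] then Real.log n * (n : ℝ) ^ (-x) else 0) =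
              ∑ r ∈ s.filter (fun r => r.Prime ∧ B < r ∧ r ≡ c [MOD M]), Real.log r * (r : ℝ) ^ (-x) := by
            rw [Finset.sum_filter]
          have h2 : ∑ n ∈ s, G n ≤ ∑' n, G n := hGs.sum_le_tsum s fun n _ => hG0 n
          have h3 : ∑ n ∈ s, (if n < B + 1 then Real.log (n : ℝ) else 0) ≤ K2 := by
            rw [← Finset.sum_filter, hK2]
            refine Finset.sum_le_sum_of_subset_of_nonneg ?_ (fun n _ _ => hlog0 n)
            intro n hn
            exact Finset.mem_range.2 (Finset.mem_filter.1 hn).2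
          linarith
  have h1 : (1 : ℝ) / (Nat.totient M : ℝ) / (x - 1) = (M.totient : ℝ)⁻¹ / (x - 1) := by rw [one_div]
  rw [h1]
  linarith

end Pool.Agent.Lib.MP_021685_agT
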