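import Pool.Agent.Lib.MP_021685_agT.GD1

/-!
JOB GD2. Lower bound for the sum over primes.
-/

namespace Pool.Agent.Lib.MP_021685_agT

open Finset

private theorem GD2_step (r : ℕ) (hr : r.Prime) (i : ℕ) :
    (r : ℝ) ^ (-(1 + (1 / 2 : ℝ) ^ i)) + (1 / 2 : ℝ) ^ (i + 1) * (Real.log r * (r : ℝ) ^ (-(1 + (1 / 2 : ℝ) ^ i)))
      ≤ (r : ℝ) ^ (-(1 + (1 / 2 : ℝ) ^ (i + 1))) := by
  have hr0 : (0 : ℝ) < r := by exact_mod_cast hr.pos
  have h1 : (r : ℝ) ^ (-(1 + (1 / 2 : ℝ) ^ (i + 1)))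
      = (r : ℝ) ^ (-(1 + (1 / 2 : ℝ) ^ i)) * Real.exp ((1 / 2 : ℝ) ^ (i + 1) * Real.log r) := by
    rw [Real.rpow_def_of_pos hr0, Real.rpow_def_of_pos hr0, ← Real.exp_add]
    congr 1
    rw [pow_succ]
    ring
  rw [h1]
  have h2 := Real.add_one_le_exp ((1 / 2 : ℝ) ^ (i + 1) * Real.log r)
  have h3 : 0 < (r : ℝ) ^ (-(1 + (1 / 2 : ℝ) ^ i)) := Real.rpow_pos_of_pos hr0 _
  nlinarith

private theorem GD2_mono (r : ℕ) (hr : r.Prime) (i : ℕ) :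
    (r : ℝ) ^ (-(1 + (1 / 2 : ℝ) ^ i)) ≤ (r : ℝ) ^ (-(1 + (1 / 2 : ℝ) ^ (i + 1))) := by
  have h := GD2_step r hr i
  have hr0 : (0 : ℝ) < r := by exact_mod_cast hr.pos
  have h3 : 0 < (r : ℝ) ^ (-(1 + (1 / 2 : ℝ) ^ i)) := Real.rpow_pos_of_pos hr0 _
  have h4 : 0 ≤ Real.log r := Real.log_natCast_nonneg r
  have h5 : 0 ≤ (1 / 2 : ℝ) ^ (i + 1) * (Real.log r * (r : ℝ) ^ (-(1 + (1 / 2 : ℝ) ^ i))) := by positivity
  linarith

/-- JOB GD2. `∑_{r ∈ R} r ^ (-(1 + 2 ^ (-i))) ≥ i / (2 φ(M)) - C` for a suitable finite set `R` of primes `r ≡ c mod M`, `r > B`.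

Proof. `x_i = 1 + 2 ^ (-i)`. For `r ≥ 1`: `r ^ (-x_{i+1}) - r ^ (-x_i) ≥ (x_i - x_{i+1}) log r * r ^ (-x_i)` (`exp t ≥ 1 + t` with
`t = (x_i - x_{i+1}) log r`), `x_i - x_{i+1} = 2 ^ (-i-1)`. Let `R_i` be the set of `dirichlet_lower` for `x = x_i`; so
`∑_{r ∈ R_i} (r ^ (-x_{i+1}) - r ^ (-x_i)) ≥ 2 ^ (-i-1) (2 ^ i / φ(M) - C) = 1 / (2 φ(M)) - C 2 ^ (-i-1)`.
Given `I`, let `R = ⋃_{i < I} R_i`. As `r ^ (-x_{i+1}) ≥ r ^ (-x_i)`, also the sum over `R` of the difference is at least this, and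
`∑_{r ∈ R} r ^ (-x_I) ≥ ∑_{i < I} ∑_{r ∈ R} (r ^ (-x_{i+1}) - r ^ (-x_i)) ≥ I / (2 φ(M)) - |C|`. -/
theorem primes_lower {M c : ℕ} (hM : M ≠ 0) (hc : Nat.Coprime c M) (B : ℕ) :
    ∃ C : ℝ, ∀ i : ℕ, ∃ R : Finset ℕ, (∀ r ∈ R, r.Prime ∧ B < r ∧ r ≡ c [MOD M]) ∧
      (i : ℝ) / (2 * Nat.totient M) - C ≤ ∑ r ∈ R, (r : ℝ) ^ (-(1 + (1 / 2 : ℝ) ^ i)) := by
  obtain ⟨C, hC⟩ := dirichlet_lower hM hc B
  have hx1 : ∀ i : ℕ, (1 : ℝ) < 1 + (1 / 2 : ℝ) ^ i := fun i => by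
    have : (0 : ℝ) < (1 / 2 : ℝ) ^ i := by positivity
    linarith
  have hx2 : ∀ i : ℕ, (1 : ℝ) + (1 / 2 : ℝ) ^ i ≤ 2 := fun i => by
    have : (1 / 2 : ℝ) ^ i ≤ 1 := pow_le_one₀ (by norm_num) (by norm_num)
    linarith
  choose Rf hRf hRf2 using fun i : ℕ => hC (1 + (1 / 2 : ℝ) ^ i) (hx1 i) (hx2 i)
  have hφ : (0 : ℝ) < (Nat.totient M : ℝ) := by
    exact_mod_cast Nat.totient_pos.2 (Nat.pos_of_ne_zero hM)
  refine ⟨|C|, fun I => ⟨(range I).biUnion Rf, ?_, ?_⟩⟩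
  · intro r hr
    obtain ⟨i, _, hi⟩ := mem_biUnion.1 hr
    exact hRf i r hi
  · have hprime : ∀ r ∈ (range I).biUnion Rf, r.Prime := by
      intro r hr
      obtain ⟨i, _, hi⟩ := mem_biUnion.1 hr
      exact (hRf i r hi).1
    have key : ∀ k : ℕ, k ≤ I → (k : ℝ) / (2 * Nat.totient M) - |C| * (1 - (1 / 2 : ℝ) ^ k)
        ≤ ∑ r ∈ (range I).biUnion Rf, (r : ℝ) ^ (-(1 + (1 / 2 : ℝ) ^ k)) := by
      intro k
      induction k with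
      | zero =>
        intro _
        have : (0 : ℝ) ≤ ∑ r ∈ (range I).biUnion Rf, (r : ℝ) ^ (-(1 + (1 / 2 : ℝ) ^ 0)) :=
          sum_nonneg fun r _ => Real.rpow_nonneg (Nat.cast_nonneg r) _
        simpa using this
      | succ k ih =>
        intro hk
        have ih' := ih (by omega)
        have hsub : Rf k ⊆ (range I).biUnion Rf := by
          intro r hr
          exact mem_biUnion.2 ⟨k, mem_range.2 (by omega), hr⟩
        have h1 : ∑ r ∈ Rf k, (1 / 2 : ℝ) ^ (k + 1) * (Real.log r * (r : ℝ) ^ (-(1 + (1 / 2 : ℝ) ^ k)))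
            ≤ ∑ r ∈ (range I).biUnion Rf, ((r : ℝ) ^ (-(1 + (1 / 2 : ℝ) ^ (k + 1))) - (r : ℝ) ^ (-(1 + (1 / 2 : ℝ) ^ k))) := by
          calc ∑ r ∈ Rf k, (1 / 2 : ℝ) ^ (k + 1) * (Real.log r * (r : ℝ) ^ (-(1 + (1 / 2 : ℝ) ^ k)))
              ≤ ∑ r ∈ Rf k, ((r : ℝ) ^ (-(1 + (1 / 2 : ℝ) ^ (k + 1))) - (r : ℝ) ^ (-(1 + (1 / 2 : ℝ) ^ k))) := by
                apply sum_le_sum
                intro r hr
                have := GD2_step r (hRf k r hr).1 k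
                linarith
            _ ≤ _ := by
                apply sum_le_sum_of_subset_of_nonneg hsub
                intro r hr _
                have := GD2_mono r (hprime r hr) k
                linarith
        rw [← mul_sum, sum_sub_distrib] at h1
        have h2 := hRf2 k
        have h3 : (1 / 2 : ℝ) ^ (k + 1) * (1 / (Nat.totient M : ℝ) / (1 + (1 / 2 : ℝ) ^ k - 1) - C)
            = 1 / (2 * Nat.totient M) - C * (1 / 2 : ℝ) ^ (k + 1) := by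
          have h4 : (1 / 2 : ℝ) ^ k ≠ 0 := by positivity
          rw [add_sub_cancel_left, pow_succ]
          field_simp
        have h5 : (1 / 2 : ℝ) ^ (k + 1) * (1 / (Nat.totient M : ℝ) / (1 + (1 / 2 : ℝ) ^ k - 1) - C)
            ≤ (1 / 2 : ℝ) ^ (k + 1) * ∑ r ∈ Rf k, Real.log r * (r : ℝ) ^ (-(1 + (1 / 2 : ℝ) ^ k)) :=
          mul_le_mul_of_nonneg_left h2 (by positivity)
        rw [h3] at h5
        have h6 : C * (1 / 2 : ℝ) ^ (k + 1) ≤ |C| * (1 / 2 : ℝ) ^ (k + 1) :=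
          mul_le_mul_of_nonneg_right (le_abs_self C) (by positivity)
        have h7 : ((k + 1 : ℕ) : ℝ) / (2 * Nat.totient M) = (k : ℝ) / (2 * Nat.totient M) + 1 / (2 * Nat.totient M) := by
          push_cast
          ring
        have h11 : |C| * (1 / 2 : ℝ) ^ k = 2 * (|C| * (1 / 2 : ℝ) ^ (k + 1)) := by
          rw [pow_succ]; ring
        rw [h7]
        linarith [h1, h5, h6, ih', h11]
    have hI := key I le_rfl
    have h9 : |C| * (1 - (1 / 2 : ℝ) ^ I) ≤ |C| := by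
      have h10 : (0 : ℝ) ≤ (1 / 2 : ℝ) ^ I := by positivity
      nlinarith [abs_nonneg C]
    linarith

end Pool.Agent.Lib.MP_021685_agT
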