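import Pool.Agent.Lib.MP_021685_agT.GC2
import Pool.Agent.Lib.MP_021685_agT.GD2

/-!
JOB GE. Comparison of the two bounds.
-/

namespace Pool.Agent.Lib.MP_021685_agT

open NumberField Finset

/-- If all large primes `r ≡ c mod M` have `n` prime ideals of norm `r` in `K`, then `n < 2 φ(M)`.

Proof. Let `B` be the bound. `primes_lower` and `sum_le_of_split` give, with `n ≥ 0`,
`n (i / (2 φ(M)) - C1) ≤ i log 2 + C2` for all `i`. If `n ≥ 2 φ(M)` then `i - n C1 ≤ i log 2 + C2`, that is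
`i (1 - log 2) ≤ C2 + n C1` for all `i`, impossible since `log 2 < 1` (`Real.log_two_lt_d9`). -/
theorem lt_of_split {K : Type*} [Field K] [NumberField K] {n M c B : ℕ} (hM : M ≠ 0)
    (hc : Nat.Coprime c M)
    (h : ∀ r : ℕ, r.Prime → B < r → r ≡ c [MOD M] → ∃ E : Finset (Ideal (𝓞 K)),
      E.card = n ∧ ∀ P ∈ E, P.IsPrime ∧ Ideal.absNorm P = r) :
    n < 2 * Nat.totient M := by
  by_contra hcon
  push Not at hcon
  obtain ⟨C1, h1⟩ := primes_lower hM hc B
  obtain ⟨C2, h2⟩ := sum_le_of_split (K := K) n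
  have hphi : 0 < Nat.totient M := Nat.totient_pos.2 (Nat.pos_of_ne_zero hM)
  have hphi' : (0 : ℝ) < 2 * (Nat.totient M : ℝ) := by positivity
  have hn : (2 * (Nat.totient M : ℝ)) ≤ n := by exact_mod_cast hcon
  have key : ∀ i : ℕ, (i : ℝ) * (3 / 10) ≤ C2 + n * C1 := by
    intro i
    obtain ⟨R, hR, hR2⟩ := h1 i
    have h3 := h2 i R (fun r hr => ⟨(hR r hr).1, h r (hR r hr).1 (hR r hr).2.1 (hR r hr).2.2⟩)
    have h4 : (n : ℝ) * ((i : ℝ) / (2 * Nat.totient M) - C1) ≤ i * Real.log 2 + C2 :=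
      le_trans (mul_le_mul_of_nonneg_left hR2 (Nat.cast_nonneg n)) h3
    have h5 : (i : ℝ) ≤ n * ((i : ℝ) / (2 * Nat.totient M)) := by
      rw [mul_div_assoc', le_div_iff₀ hphi', mul_comm (n : ℝ)]
      exact mul_le_mul_of_nonneg_left hn (Nat.cast_nonneg i)
    have h6 := Real.log_two_lt_d9
    have h7 : (i : ℝ) * Real.log 2 ≤ i * (7 / 10) :=
      mul_le_mul_of_nonneg_left (by linarith) (Nat.cast_nonneg i)
    linarith
  obtain ⟨i, hi⟩ := exists_nat_gt ((C2 + n * C1) / (3 / 10))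
  have h8 := key i
  rw [div_lt_iff₀ (by norm_num)] at hi
  linarith

end Pool.Agent.Lib.MP_021685_agT
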