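import Mathlib

/-!
JOB GF. Orders modulo `r` of elements which are not `l ^ k`-th powers.
-/

namespace Pool.Agent.Lib.MP_021685_agT

/-- Let `r` be a prime, `l ^ (S + k) ∣ r - 1`, and `x ≠ 0` in `ZMod r` not an `l ^ k`-th power. Then `l ^ S ∣ orderOf x`.

Proof. Suppose not. Let `N = r - 1`, `o = orderOf x ∣ N`. `o ∣ N / l ^ k`: write `N = l ^ t N'`, `¬ l ∣ N'`, `t ≥ S + k`, and
`o = l ^ u o'`, `o' ∣ N'`, `u < S ≤ t - k`. So `x ^ (N / l ^ k) = 1`. The group of units is cyclic of order `N`: `x = g ^ a`, `N ∣ a (N / l ^ k)`,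
hence `l ^ k ∣ a` and `x = (g ^ (a / l ^ k)) ^ (l ^ k)`, contradiction. -/
theorem pow_dvd_orderOf {r l k S : ℕ} (hr : r.Prime) (hl : l.Prime) (hS : l ^ (S + k) ∣ r - 1)
    {x : ZMod r} (hx : x ≠ 0) (h : ¬ ∃ b : ZMod r, b ^ (l ^ k) = x) : l ^ S ∣ orderOf x := by
  have : Fact r.Prime := ⟨hr⟩
  by_contra hcon
  apply h
  have hN : 0 < r - 1 := by
    have := hr.two_le
    omega
  have hcard : Nat.card (ZMod r)ˣ = r - 1 := by
    rw [Nat.card_eq_fintype_card, ZMod.card_units]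
  set y : (ZMod r)ˣ := Units.mk0 x hx with hy
  have hxy : (y : ZMod r) = x := Units.val_mk0 hx
  have hoy : orderOf y = orderOf x := by
    rw [← hxy, orderOf_units]
  have hoN : orderOf x ∣ r - 1 := by
    rw [← hoy, ← hcard]
    exact orderOf_dvd_natCard y
  have ho0 : orderOf x ≠ 0 := fun h0 => by
    rw [h0, zero_dvd_iff] at hoN
    omega
  obtain ⟨u, o', ho', hou⟩ := Nat.exists_eq_pow_mul_and_not_dvd ho0 l hl.ne_one
  have huS : u < S := by
    by_contra hlt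
    push Not at hlt
    exact hcon (by rw [hou]; exact (pow_dvd_pow l hlt).mul_right _)
  have hcop : Nat.Coprime o' (l ^ (S + k)) :=
    ((Nat.Prime.coprime_iff_not_dvd hl).mpr ho').symm.pow_right _
  have ho'N : o' ∣ r - 1 := (Dvd.intro_left _ hou.symm).trans hoN
  have h1 : o' * l ^ (S + k) ∣ r - 1 := hcop.mul_dvd_of_dvd_of_dvd ho'N hS
  have h2 : orderOf x * l ^ k ∣ r - 1 := by
    refine Dvd.dvd.trans ?_ h1
    rw [hou, mul_right_comm, ← pow_add, mul_comm]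
    exact mul_dvd_mul_left _ (pow_dvd_pow _ (by omega))
  obtain ⟨M, hM⟩ := h2
  have hNM : r - 1 = l ^ k * (orderOf x * M) := by
    rw [hM]
    ring
  have hM0 : 0 < orderOf x * M := by
    rcases Nat.eq_zero_or_pos (orderOf x * M) with h0 | h0
    · rw [h0, mul_zero] at hNM
      omega
    · exact h0
  obtain ⟨g, hg⟩ := IsCyclic.exists_generator (α := (ZMod r)ˣ)
  have hog : orderOf g = r - 1 := by
    rw [orderOf_eq_card_of_forall_mem_zpowers hg, hcard]
  obtain ⟨a, ha⟩ := (mem_powers_iff_mem_zpowers.mpr (hg y) : y ∈ Submonoid.powers g)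
  have ha' : g ^ a = y := ha
  have h3 : g ^ (a * (orderOf x * M)) = 1 := by
    rw [pow_mul, ha', pow_mul, ← hoy, pow_orderOf_eq_one, one_pow]
  have h4 : l ^ k * (orderOf x * M) ∣ a * (orderOf x * M) := by
    rw [← hNM, ← hog]
    exact orderOf_dvd_of_pow_eq_one h3
  have h5 : l ^ k ∣ a := Nat.dvd_of_mul_dvd_mul_right hM0 h4
  obtain ⟨b, hb⟩ := h5
  refine ⟨((g ^ b : (ZMod r)ˣ) : ZMod r), ?_⟩
  rw [← Units.val_pow_eq_pow_val, ← pow_mul, mul_comm b, ← hb, ha', hxy]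

end Pool.Agent.Lib.MP_021685_agT
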