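import Pool.Agent.Lib.MP_021685_agT.GA3
import Pool.Agent.Lib.MP_021685_agT.GB1
import Pool.Agent.Lib.MP_021685_agT.GB2
import Pool.Agent.Lib.MP_021685_agT.GE
import Pool.Agent.Lib.MP_021685_agT.GF

/-!
JOB GoodPrimes. Lemma G.
-/

namespace Pool.Agent.Lib.MP_021685_agT

open NumberField

/-- The field generated by two numbers is generated by the corresponding elements. -/
private theorem GP_gen0 (F : Type*) [Field F] {L : Type*} [Field L] [Algebra F L] (a b : L)
    (ha : a ∈ IntermediateField.adjoin F ({a, b} : Set L)) (hb : b ∈ IntermediateField.adjoin F ({a, b} : Set L)) :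
    IntermediateField.adjoin F
      ({⟨a, ha⟩, ⟨b, hb⟩} : Set (IntermediateField.adjoin F ({a, b} : Set L))) = ⊤ := by
  apply IntermediateField.map_injective (IntermediateField.adjoin F ({a, b} : Set L)).val
  rw [IntermediateField.adjoin_map, ← AlgHom.fieldRange_eq_map, IntermediateField.fieldRange_val]
  simp [Set.image_pair]

private theorem GP_gen {L : Type*} [Field L] [Algebra ℚ L] (a b : L)
    (ha : a ∈ IntermediateField.adjoin ℚ ({a, b} : Set L)) (hb : b ∈ IntermediateField.adjoin ℚ ({a, b} : Set L))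
    (inst : Algebra ℚ (IntermediateField.adjoin ℚ ({a, b} : Set L))) :
    @IntermediateField.adjoin ℚ _ (IntermediateField.adjoin ℚ ({a, b} : Set L)) _ inst
      ({⟨a, ha⟩, ⟨b, hb⟩} : Set (IntermediateField.adjoin ℚ ({a, b} : Set L))) = ⊤ := by
  have h : inst = (IntermediateField.adjoin ℚ ({a, b} : Set L)).algebra' := Subsingleton.elim _ _
  subst h
  exact GP_gen0 ℚ a b ha hb

/-- **Lemma G.** `p, l` primes (possibly equal), `m'` prime to `p` and to `l`, `c` prime to `m'`. There is a prime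
`r ≡ c mod m'`, `r ≡ 1 mod l ^ S`, `r ≠ p`, such that `l ^ S` divides the order of `p` modulo `r`.

Proof. Choose `k ≥ 2` with `l ^ (k - 1) ≥ 2 φ(m')` and put `S' = S + k`, `M = m' * l ^ S'`, `φ(M) = φ(m') φ(l ^ S')`. Let `c'` be
`≡ c mod m'`, `≡ 1 mod l ^ S'` (`Nat.chineseRemainder`), prime to `M`. Let `ζ : ℂ` be a primitive `l ^ S'`-th root of unity
(`Complex.isPrimitiveRoot_exp`), `θ = (p : ℝ) ^ (1 / l ^ k : ℝ)`, `K = ℚ(ζ, θ)`, a number field (`adjoin` of two algebraic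
numbers: finite dimensional), `n = [K : ℚ] ≥ φ(l ^ S') l ^ (k - 1) ≥ 2 φ(M)` by `finrank_lower`. Suppose for every prime `r > B` with
`r ≡ c' mod M` the number `p` is an `l ^ k`-th power modulo `r`, with `B` the maximum of the bounds of `norm_eq_of_split` (for
`n = l ^ S'`, `k = l ^ k`, and `ζ, θ` as elements of `𝓞 K`) and `card_primes_of_norm`. Then `lt_of_split` gives `n < 2 φ(M)`, a
contradiction. So there is a prime `r > max B p`, `r ≡ c' mod M` such that `p` is not an `l ^ k`-th power modulo `r`, and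
`pow_dvd_orderOf` gives `l ^ S ∣ orderOf (p : ZMod r)`. (Take `B ≥ p`.) -/
theorem good_primes {p l m' : ℕ} (hp : p.Prime) (hl : l.Prime) (hm' : m' ≠ 0)
    (hpm' : Nat.Coprime p m') (hlm : Nat.Coprime l m') {c : ℕ} (hc : Nat.Coprime c m') (S : ℕ) :
    ∃ r : ℕ, r.Prime ∧ r ≠ p ∧ r ≡ c [MOD m'] ∧ r ≡ 1 [MOD l ^ S] ∧
      l ^ S ∣ orderOf (p : ZMod r) := by
  -- the exponent
  obtain ⟨k, hk2, hk⟩ : ∃ k, 2 ≤ k ∧ 2 * Nat.totient m' ≤ l ^ (k - 1) := by
    refine ⟨2 * Nat.totient m' + 1, ?_, ?_⟩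
    · have := Nat.totient_pos.mpr (Nat.pos_of_ne_zero hm')
      omega
    · rw [Nat.add_sub_cancel]
      exact (Nat.lt_pow_self hl.one_lt).le
  set S' := S + k with hS'
  set M := m' * l ^ S' with hMdef
  have hcop : Nat.Coprime m' (l ^ S') := (Nat.Coprime.pow_left S' hlm).symm
  have hM : M ≠ 0 := mul_ne_zero hm' (pow_ne_zero _ hl.ne_zero)
  obtain ⟨c', hc'1, hc'2⟩ := Nat.chineseRemainder hcop c 1
  have hc' : Nat.Coprime c' M := by
    apply Nat.Coprime.mul_right
    · have : Nat.gcd c' m' = Nat.gcd c m' := hc'1.gcd_eq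
      rw [Nat.Coprime, this]
      exact hc
    · have : Nat.gcd c' (l ^ S') = Nat.gcd 1 (l ^ S') := hc'2.gcd_eq
      rw [Nat.Coprime, this, Nat.gcd_one_left]
  -- the field
  have hlS : l ^ S' ≠ 0 := pow_ne_zero _ hl.ne_zero
  have hζ := Complex.isPrimitiveRoot_exp (l ^ S') hlS
  set ζ : ℂ := Complex.exp (2 * Real.pi * Complex.I / (l ^ S' : ℕ)) with hζdef
  have hlk : l ^ k ≠ 0 := pow_ne_zero _ hl.ne_zero
  obtain ⟨θ, hθ⟩ : ∃ θ : ℝ, θ ^ (l ^ k) = p :=
    ⟨(p : ℝ) ^ ((l ^ k : ℕ) : ℝ)⁻¹, Real.rpow_inv_natCast_pow (Nat.cast_nonneg p) hlk⟩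
  have hθC : (θ : ℂ) ^ (l ^ k) = (p : ℂ) := by exact_mod_cast congrArg (fun x : ℝ => (x : ℂ)) hθ
  have hζint : IsIntegral ℤ ζ := hζ.isIntegral (Nat.pos_of_ne_zero hlS)
  have hθint : IsIntegral ℤ (θ : ℂ) := by
    apply IsIntegral.of_pow (Nat.pos_of_ne_zero hlk)
    rw [hθC]
    exact isIntegral_natCast p
  let K := IntermediateField.adjoin ℚ ({ζ, (θ : ℂ)} : Set ℂ)
  have hζK : ζ ∈ K := IntermediateField.subset_adjoin _ _ (by simp)
  have hθK : (θ : ℂ) ∈ K := IntermediateField.subset_adjoin _ _ (by simp)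
  have : FiniteDimensional ℚ K := by
    apply IntermediateField.finiteDimensional_adjoin
    intro x hx
    rcases hx with rfl | hx
    · exact hζint.tower_top
    · rw [Set.mem_singleton_iff] at hx
      rw [hx]
      exact hθint.tower_top
  have : NumberField K := { to_charZero := inferInstance, to_finiteDimensional := inferInstance }
  have hζ'int : IsIntegral ℤ (⟨ζ, hζK⟩ : K) := by
    rw [← isIntegral_algebraMap_iff (B := ℂ) (algebraMap K ℂ).injective]
    exact hζint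
  have hθ'int : IsIntegral ℤ (⟨(θ : ℂ), hθK⟩ : K) := by
    rw [← isIntegral_algebraMap_iff (B := ℂ) (algebraMap K ℂ).injective]
    exact hθint
  let ζ' : 𝓞 K := ⟨⟨ζ, hζK⟩, hζ'int⟩
  let θ' : 𝓞 K := ⟨⟨(θ : ℂ), hθK⟩, hθ'int⟩
  have hinj : Function.Injective (fun x : 𝓞 K => ((x : K) : ℂ)) := by
    intro x y hxy
    exact NumberField.RingOfIntegers.ext (Subtype.ext hxy)
  have hζ'1 : ζ' ^ (l ^ S') = 1 := by
    apply hinj
    simp only [map_pow, map_one]
    show ζ ^ (l ^ S') = 1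
    exact hζ.pow_eq_one
  have hθ'1 : θ' ^ (l ^ k) = (p : 𝓞 K) := by
    apply hinj
    simp only [map_pow, map_natCast]
    show (θ : ℂ) ^ (l ^ k) = _
    rw [hθC]
    simp
  obtain ⟨B1, hB1⟩ := norm_eq_of_split (K := K) hlS (pow_dvd_pow l (by omega : k ≤ S')) hp.ne_zero ζ' θ' hζ'1 hθ'1
    (GP_gen ζ (θ : ℂ) hζK hθK _)
  obtain ⟨B2, hB2⟩ := card_primes_of_norm (K := K)
  have hlow := finrank_lower hp hl hk2 (by omega : k ≤ S') hζ hθ
  have hex : ∃ r : ℕ, r.Prime ∧ max (max B1 B2) p < r ∧ r ≡ c' [MOD M] ∧ ¬ ∃ b : ZMod r, b ^ (l ^ k) = (p : ZMod r) := by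
    by_contra hcon
    push Not at hcon
    have h1 := lt_of_split (K := K) (n := Module.finrank ℚ K) (M := M) (c := c') (B := max (max B1 B2) p) hM hc' (by
      intro r hr hBr hrc
      have hb := hcon r hr hBr hrc
      have hr1 : r ≡ 1 [MOD l ^ S'] := (Nat.ModEq.of_mul_left m' hrc).trans hc'2
      apply hB2 r hr (by omega)
      exact hB1 r hr (by omega) hr1 hb)
    have h2 : Nat.totient M = Nat.totient m' * Nat.totient (l ^ S') := Nat.totient_mul hcop
    rw [h2] at h1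
    have h3 : Nat.totient (l ^ S') * (2 * Nat.totient m') ≤ Nat.totient (l ^ S') * l ^ (k - 1) :=
      Nat.mul_le_mul_left _ hk
    have h4 : 2 * (Nat.totient m' * Nat.totient (l ^ S')) = Nat.totient (l ^ S') * (2 * Nat.totient m') := by ring
    have h5 : Nat.totient (l ^ S') * l ^ (k - 1) ≤ Module.finrank ℚ K := hlow
    omega
  obtain ⟨r, hr, hBr, hrc, hb⟩ := hex
  have hrS' : r ≡ 1 [MOD l ^ S'] := (Nat.ModEq.of_mul_left m' hrc).trans hc'2
  refine ⟨r, hr, by omega, (Nat.ModEq.of_mul_right (l ^ S') hrc).trans hc'1, ?_, ?_⟩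
  · exact hrS'.of_dvd (pow_dvd_pow l (by omega))
  · apply pow_dvd_orderOf hr hl (k := k) _ _ hb
    · exact (Nat.modEq_iff_dvd' hr.one_le).mp hrS'.symm
    · intro h0
      rw [ZMod.natCast_eq_zero_iff] at h0
      have := Nat.le_of_dvd hp.pos h0
      omega

end Pool.Agent.Lib.MP_021685_agT
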