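import Pool.Agent.Lib.MP_021685_agT.Op1
import Pool.Agent.Lib.MP_021685_agT.GoodPrimes

/-!
JOB KeyA. The identity for a class `c`.
-/

namespace Pool.Agent.Lib.MP_021685_agT

open Finset

/-- If `l ^ (S + f + 1) ∣ orderOf x` and `f ≠ 0` then `l ^ S ∣ orderOf (x ^ f)`. -/
lemma KeyA_order {M : Type*} [Monoid M] {x : M} {l S f : ℕ} (hl : l.Prime) (hf : f ≠ 0)
    (h : l ^ (S + f + 1) ∣ orderOf x) : l ^ S ∣ orderOf (x ^ f) := by
  rw [orderOf_pow' x hf]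
  set o := orderOf x with ho
  have hg : Nat.gcd o f ∣ f := Nat.gcd_dvd_right _ _
  obtain ⟨q, hq⟩ := Nat.gcd_dvd_left o f
  have hgpos : 0 < Nat.gcd o f := Nat.gcd_pos_of_pos_right _ (Nat.pos_of_ne_zero hf)
  have hq' : o / Nat.gcd o f = q := Nat.div_eq_of_eq_mul_right hgpos hq
  rw [hq']
  obtain ⟨t, ht1, ht2⟩ := (Nat.finiteMultiplicity_iff.2 ⟨hl.ne_one, hgpos⟩).exists_eq_pow_mul_and_not_dvd
  have hlt : multiplicity l (Nat.gcd o f) ≤ f := by
    have h1 : l ^ multiplicity l (Nat.gcd o f) ∣ f := (pow_multiplicity_dvd _ _).trans hg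
    have h2 := Nat.le_of_dvd (Nat.pos_of_ne_zero hf) h1
    have h3 := Nat.lt_pow_self hl.one_lt (n := multiplicity l (Nat.gcd o f))
    omega
  have h3 : l ^ (S + f + 1) ∣ l ^ multiplicity l (Nat.gcd o f) * (t * q) := by
    have h4 : o = l ^ multiplicity l (Nat.gcd o f) * (t * q) := by
      rw [← mul_assoc, ← ht1]
      exact hq
    rw [← h4]
    exact h
  have h5 : l ^ multiplicity l (Nat.gcd o f) * l ^ S ∣
      l ^ multiplicity l (Nat.gcd o f) * (t * q) := by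
    rw [← pow_add]
    exact (pow_dvd_pow l (by omega)).trans h3
  have h6 : l ^ S ∣ t * q :=
    (Nat.mul_dvd_mul_iff_left (pow_pos hl.pos _)).1 h5
  exact Nat.Coprime.dvd_of_dvd_mul_left
    (Nat.Coprime.pow_left _ ((Nat.Prime.coprime_iff_not_dvd hl).2 ht2)) h6

theorem class_identity {p l m' a : ℕ} (hp : p.Prime) (hl : l.Prime) (hm' : m' ≠ 0)
    (hpm : Nat.Coprime p (m' * l ^ a)) (hpm' : Nat.Coprime p m') (hlm : Nat.Coprime l m')
    {c : ℕ} (hc : Nat.Coprime c m') (hc1 : c ≡ 1 [MOD l ^ a]) (S : ℕ)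
    {V : Type*} [AddCommGroup V] {h : QZ → V} (hh : IsDistG p h) :
    ∃ (G : QZ → V) (n : ℕ), IsDist p (m' * l ^ a) G ∧ l ^ S ∣ n ∧
      ∀ x : QZ, (m' * l ^ a) • x = 0 → h (c • x) = h x + n • G x := by
  have hm : m' * l ^ a ≠ 0 := mul_ne_zero hm' (pow_ne_zero _ hl.ne_zero)
  have hf : Nat.totient (m' * l ^ a) ≠ 0 := by
    rw [Ne, Nat.totient_eq_zero]
    exact hm
  obtain ⟨r, hr, hrp, hrc, hr1, hro⟩ := good_primes hp hl hm' hpm' hlm hc
    (S + Nat.totient (m' * l ^ a) + 1 + a)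
  have hr1' : r ≡ 1 [MOD l] :=
    Nat.ModEq.of_dvd (dvd_pow_self l (by omega)) hr1
  have hrl : r ≠ l := by
    rintro rfl
    have h1 : r ∣ 1 := by
      have := (Nat.modEq_zero_iff_dvd.2 (dvd_refl r)).symm.trans hr1'
      exact Nat.modEq_zero_iff_dvd.1 this.symm
    exact hr.one_lt.ne' (Nat.dvd_one.1 h1)
  have hrm : ¬ r ∣ m' * l ^ a := by
    intro h1
    rcases (Nat.Prime.dvd_mul hr).1 h1 with h2 | h2
    · have h3 : c ≡ 0 [MOD r] :=
        (hrc.symm.of_dvd h2).trans (Nat.modEq_zero_iff_dvd.2 (dvd_refl r))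
      have h4 : r ∣ c := Nat.modEq_zero_iff_dvd.1 h3
      have h5 := Nat.dvd_gcd h4 h2
      rw [hc] at h5
      exact hr.one_lt.ne' (Nat.dvd_one.1 h5)
    · exact hrl ((Nat.prime_dvd_prime_iff_eq hr hl).1 (hr.dvd_of_dvd_pow h2))
  obtain ⟨G, hG, H⟩ := exists_G hp hr hm hpm hrm hrp (Nat.ModEq.pow_totient hpm) hh
  refine ⟨G, orderOf ((p : ZMod r) ^ Nat.totient (m' * l ^ a)), hG, ?_, ?_⟩
  · apply KeyA_order hl hf
    exact (pow_dvd_pow l (by omega)).trans hro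
  · intro x hx
    rw [← H x hx]
    congr 1
    refine nsmul_congr hx ?_
    have hr2 : r ≡ 1 [MOD l ^ a] := hr1.of_dvd (pow_dvd_pow l (by omega))
    have hcop : Nat.Coprime m' (l ^ a) := (Nat.Coprime.pow_left a hlm).symm
    exact (Nat.modEq_and_modEq_iff_modEq_mul hcop).1 ⟨hrc.symm, hc1.trans hr2.symm⟩

end Pool.Agent.Lib.MP_021685_agT
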