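import Pool.Agent.Lib.MP_021685_agT.Op2
import Pool.Agent.Lib.MP_021685_agT.KeyA

/-!
JOB KeyB. The key identity.
-/

namespace Pool.Agent.Lib.MP_021685_agT

open Finset

theorem key_identity {p l m : ℕ} (hp : p.Prime) (hl : l.Prime) (hm : m ≠ 0)
    (hpm : Nat.Coprime p m) {j : ℕ} (hj : 1 ≤ j) (S : ℕ) {V : Type*} [AddCommGroup V]
    {h : QZ → V} (hh : IsDistG p h) :
    ∃ (G g : QZ → V) (n : ℕ), IsDist p m G ∧ IsDist p m g ∧ g 0 = 0 ∧ l ^ S ∣ n ∧
      ∀ x : QZ, m • x = 0 → 2 • h x + n • G x = l ^ j • g x := by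
  by_cases hlp : l = p
  · subst hlp
    have hc : Nat.Coprime (2 * m - 1) m := by
      have h1 : 2 * m - 1 + 1 = 2 * m := by omega
      have h2 : Nat.Coprime (2 * m - 1) (2 * m) := by
        rw [← h1]
        simp
      exact Nat.Coprime.coprime_dvd_right (dvd_mul_left m 2) h2
    obtain ⟨G, n, hG, hn, H⟩ := class_identity (a := 0) hp hl hm (by simpa using hpm) hpm hpm hc
      (by rw [pow_zero]; exact Nat.modEq_one) S hh
    rw [pow_zero, mul_one] at hG H
    refine ⟨G, fun _ => 0, n, hG, ⟨by simp, by simp, by simp⟩, rfl, hn, ?_⟩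
    intro x hx
    have h1 : (2 * m - 1) • x = -x := by
      rw [eq_neg_iff_add_eq_zero]
      have h2 : (2 * m - 1) • x + x = (2 * m - 1 + 1) • x := by rw [add_smul, one_smul]
      rw [h2, show 2 * m - 1 + 1 = 2 * m by omega, mul_smul, hx, smul_zero]
    have h2 := H x hx
    rw [h1, (hh.lvl m hm hpm).neg x hx] at h2
    rw [smul_zero, two_smul, add_assoc, ← h2, add_neg_cancel]
  · obtain ⟨a, m', hlm', rfl⟩ := Nat.exists_eq_pow_mul_and_not_dvd hm l hl.ne_one
    have hm' : m' ≠ 0 := by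
      rintro rfl
      exact hlm' (dvd_zero _)
    rw [mul_comm (l ^ a) m'] at hm hpm ⊢
    have hpm' : Nat.Coprime p m' := Nat.Coprime.coprime_dvd_right (dvd_mul_right _ _) hpm
    have hlm : Nat.Coprime l m' := (Nat.Prime.coprime_iff_not_dvd hl).2 hlm'
    obtain ⟨v, hv, hT⟩ := exists_tower hp hl hlp hm' hpm' hlm'
    set K := a + v + j + 1 with hK
    have hcop : Nat.Coprime m' (l ^ K) := (Nat.Coprime.pow_left K hlm).symm
    obtain ⟨c, hc1, hc2⟩ := Nat.chineseRemainder hcop (2 * m' - 1) 1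
    have hcm : Nat.Coprime c m' := by
      have h1 : 2 * m' - 1 + 1 = 2 * m' := by omega
      have h2 : Nat.Coprime (2 * m' - 1) (2 * m') := by
        rw [← h1]
        simp
      have h3 : Nat.Coprime (2 * m' - 1) m' :=
        Nat.Coprime.coprime_dvd_right (dvd_mul_left m' 2) h2
      have h4 := hc1.gcd_eq
      unfold Nat.Coprime at h3 ⊢
      rw [h4]
      exact h3
    have hca : c ≡ 1 [MOD l ^ a] := hc2.of_dvd (pow_dvd_pow l (by omega))
    obtain ⟨G, n, hG, hn, H⟩ := class_identity hp hl hm' hpm hpm' hlm hcm hca S hh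
    have hc1' : (c : ℤ) ≡ -1 [ZMOD m'] := by
      have h1 : ((c : ℕ) : ℤ) ≡ ((2 * m' - 1 : ℕ) : ℤ) [ZMOD m'] :=
        Int.natCast_modEq_iff.2 hc1
      refine h1.trans ?_
      rw [Int.modEq_iff_dvd]
      refine ⟨-2, ?_⟩
      have h2 : 1 ≤ 2 * m' := by omega
      push_cast [Nat.cast_sub h2]
      ring
    have hc2' : (c : ℤ) ≡ 1 [ZMOD ((l ^ K : ℕ) : ℤ)] := by
      have := Int.natCast_modEq_iff.2 hc2
      simpa using this
    obtain ⟨g, hg, hg0, Hg⟩ := exists_g (a := a) hp hl hlp hm' hpm' hlm' hv hT hj hK.ge hc1' hc2' hh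
    refine ⟨G, g, n, hG, hg, hg0, hn, ?_⟩
    intro x hx
    rw [← Hg x hx, natCast_zsmul, H x hx, two_smul, add_assoc]

end Pool.Agent.Lib.MP_021685_agT
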