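import Pool.Agent.Lib.MP_021685_agT.Defs

/-!
JOB Op1. The operator attached to a prime `r` not dividing the level.
-/

namespace Pool.Agent.Lib.MP_021685_agT

open Finset

/-- the value of an integer multiple of a residue, times `e r` -/
private lemma Op1_val {r : ℕ} (k : ℕ) (a b : ZMod r) [NeZero r] (h : (k : ZMod r) * a = b) :
    k • (a.val • e r) = b.val • e r := by
  rw [← mul_smul]
  apply nsmul_congr (nsmul_e_self r)
  rw [← ZMod.natCast_eq_natCast_iff]
  push_cast
  rw [ZMod.natCast_zmod_val, ZMod.natCast_zmod_val, h]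

private lemma Op1_neg {r : ℕ} (a : ZMod r) [NeZero r] :
    (-a).val • e r = -(a.val • e r) := by
  rw [eq_neg_iff_add_eq_zero, ← add_smul, nsmul_e_eq_zero_iff (NeZero.ne r)]
  rw [← ZMod.natCast_eq_zero_iff]
  push_cast
  rw [ZMod.natCast_zmod_val, ZMod.natCast_zmod_val, neg_add_cancel]

private lemma Op1_const {A : Type*} [CommGroup A] {V : Type*} (P : A) {φ : A → V}
    (hφ : ∀ w, φ (P * w) = φ w) {w w' : A} (h : w⁻¹ * w' ∈ Subgroup.zpowers P) : φ w = φ w' := by
  obtain ⟨k, hk⟩ := Subgroup.mem_zpowers_iff.1 h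
  have hw : w' = P ^ k * w := by
    rw [hk]
    rw [mul_comm w⁻¹ w', mul_assoc, inv_mul_cancel, mul_one]
  rw [hw]
  clear hk hw h
  induction k using Int.induction_on with
  | zero => simp
  | succ i ih => rw [ih, zpow_add_one, mul_comm (P ^ (i : ℤ)) P, mul_assoc, hφ]
  | pred i ih =>
    rw [ih, zpow_sub_one, mul_comm (P ^ (-(i : ℤ))) P⁻¹, mul_assoc]
    rw [← hφ (P⁻¹ * (P ^ (-(i : ℤ)) * w)), mul_inv_cancel_left]

/-- the sum over the cosets of `P` -/
private noncomputable def Op1_S {A : Type*} [CommGroup A] [Fintype A] {V : Type*}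
    [AddCommGroup V] (P : A) (φ : A → V) : V :=
  ∑ᶠ q : A ⧸ Subgroup.zpowers P, φ q.out

private lemma Op1_mulLeft {A : Type*} [CommGroup A] [Fintype A] {V : Type*}
    [AddCommGroup V] (P : A) {φ : A → V} (hφ : ∀ w, φ (P * w) = φ w) (b : A) :
    Op1_S P (fun w => φ (b * w)) = Op1_S P φ := by
  unfold Op1_S
  have h1 : ∀ q : A ⧸ Subgroup.zpowers P, φ (b * q.out) =
      φ ((Equiv.mulLeft (b : A ⧸ Subgroup.zpowers P) q).out) := by
    intro q
    apply Op1_const P hφ
    rw [← QuotientGroup.eq, QuotientGroup.mk_mul, QuotientGroup.out_eq', QuotientGroup.out_eq']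
    rfl
  calc ∑ᶠ q : A ⧸ Subgroup.zpowers P, φ (b * q.out)
      = ∑ᶠ q : A ⧸ Subgroup.zpowers P,
        φ ((Equiv.mulLeft (b : A ⧸ Subgroup.zpowers P) q).out) := finsum_congr h1
    _ = ∑ᶠ q : A ⧸ Subgroup.zpowers P, φ q.out :=
        finsum_comp_equiv (Equiv.mulLeft (b : A ⧸ Subgroup.zpowers P))
          (f := fun q => φ q.out)

private lemma Op1_total {A : Type*} [CommGroup A] [Fintype A] {V : Type*}
    [AddCommGroup V] (P : A) {φ : A → V} (hφ : ∀ w, φ (P * w) = φ w) :
    ∑ w, φ w = orderOf P • Op1_S P φ := by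
  classical
  unfold Op1_S
  rw [finsum_eq_sum_of_fintype]
  have h1 : ∀ w : A, φ w = φ ((w : A ⧸ Subgroup.zpowers P).out) := by
    intro w
    apply Op1_const P hφ
    rw [← QuotientGroup.eq, QuotientGroup.out_eq']
  have h2 : ∑ w : A, φ w = ∑ x : (A ⧸ Subgroup.zpowers P) × Subgroup.zpowers P, φ (x.1.out) := by
    refine Fintype.sum_equiv Subgroup.groupEquivQuotientProdSubgroup _ _ ?_
    intro w
    exact h1 w
  rw [h2, Fintype.sum_prod_type]
  simp only [Finset.sum_const, Finset.card_univ]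
  rw [← Finset.smul_sum]
  congr 1
  rw [← Nat.card_eq_fintype_card, Nat.card_zpowers]

private lemma Op1_units {r : ℕ} [Fact r.Prime] {V : Type*} [AddCommGroup V] (K : ℕ → V) :
    ∑ i ∈ range r, K i = K 0 + ∑ w : (ZMod r)ˣ, K (w : ZMod r).val := by
  classical
  have h1 : ∑ i ∈ range r, K i = ∑ z : ZMod r, K z.val := by
    refine Finset.sum_nbij' (fun i : ℕ => (i : ZMod r)) (fun z : ZMod r => z.val) ?_ ?_ ?_ ?_ ?_
    · intro i _
      exact Finset.mem_univ _
    · intro z _
      exact Finset.mem_range.2 (ZMod.val_lt z)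
    · intro i hi
      exact ZMod.val_cast_of_lt (Finset.mem_range.1 hi)
    · intro z _
      exact ZMod.natCast_zmod_val z
    · intro i hi
      rw [ZMod.val_cast_of_lt (Finset.mem_range.1 hi)]
  rw [h1, ← Finset.add_sum_erase univ _ (Finset.mem_univ (0 : ZMod r)), ZMod.val_zero]
  congr 1
  refine Finset.sum_bij' (fun z hz => Units.mk0 z (Finset.mem_erase.1 hz).1)
    (fun w _ => (w : ZMod r)) ?_ ?_ ?_ ?_ ?_
  · intro z hz
    exact Finset.mem_univ _
  · intro w _
    exact Finset.mem_erase.2 ⟨w.ne_zero, Finset.mem_univ _⟩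
  · intro z hz
    rfl
  · intro w _
    exact Units.ext rfl
  · intro z hz
    rfl

/-- Let `h` be a global distribution, `m` a level prime to `p`, `r ≠ p` a prime not dividing `m`,
`P = p ^ f ≡ 1 mod m`. There is a distribution `G` of level `m` with
`h (r x) = h x + n G x` on the `m`-torsion, where `n` is the order of `P` modulo `r`.

Proof. For `w : (ZMod r)ˣ` put `F x w = h (x + (w : ZMod r).val • e r)`.
* For `m • x = 0`: `F x (P * w) = F x w`, where `P` is the unit of `ZMod r` given by `p ^ f`: indeed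
  `p ^ f • (x + w.val • e r) = x + (p ^ f * w.val) • e r` (`nsmul_congr` with `p ^ f ≡ 1 [MOD m]`), which is
  `x + (P * w).val • e r` (`nsmul_congr` with `nsmul_e_self r`), and `h (p • y) = h y` for `y` killed by `m * r`
  (`hh.lvl (m * r)`), iterated `f` times.
* Let `Z = Subgroup.zpowers P` and `G x = ∑ q : (ZMod r)ˣ ⧸ Z, F x q.out` (`Quotient.out`). The map
  `F x` is constant on the cosets, so `∑ w, F x w = (Nat.card Z) • G x`
  (e.g. `Subgroup.groupEquivQuotientProdSubgroup`, or `Finset.sum_fiberwise` with fibres of cardinality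
  `Nat.card Z`), and `Nat.card Z = orderOf P = orderOf ((p : ZMod r) ^ f)` (`Nat.card_zpowers`, `orderOf_units`).
* The distribution relation of `h` for the prime `r` at `x` (level `m * r`):
  `h (r • x) = ∑ i ∈ range r, h (x + i • e r) = h x + ∑ w : (ZMod r)ˣ, F x w` (the residues `i ≠ 0` are the units).
* `G` is a distribution of level `m`. More generally, if `b` is an integer prime to `r` then for `x` killed
  by `m`, `∑ q, F x (b * q.out) = G x` (`b` the unit), because multiplication by `b` permutes the quotient group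
  (commutative) and `F x` is constant on cosets. Odd: `h (-x + w.val • e r) = - h (x + (-w).val • e r)`, `b = -1`.
  `G (p • x) = G x`: `h (p • x + w.val • e r) = h (p • (x + (p⁻¹ w).val • e r)) = F x (p⁻¹ w)`. For a prime
  `l ∣ m`: `h (l • x + w.val • e r) = h (l • (x + (l⁻¹ w).val • e r)) = ∑ i ∈ range l, h (x + (l⁻¹ w).val • e r + i • e l)`
  and sum over the classes. -/
theorem exists_G {p r m f : ℕ} (hp : p.Prime) (hr : r.Prime) (hm : m ≠ 0)
    (hpm : Nat.Coprime p m) (hrm : ¬ r ∣ m) (hrp : r ≠ p) (hf : p ^ f ≡ 1 [MOD m])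
    {V : Type*} [AddCommGroup V] {h : QZ → V} (hh : IsDistG p h) :
    ∃ G : QZ → V, IsDist p m G ∧
      ∀ x : QZ, m • x = 0 → h (r • x) = h x + orderOf ((p : ZMod r) ^ f) • G x := by
  classical
  have : Fact r.Prime := ⟨hr⟩
  have : NeZero r := ⟨hr.ne_zero⟩
  have hcop : Nat.Coprime p (m * r) :=
    Nat.Coprime.mul_right hpm ((Nat.coprime_primes hp hr).2 (Ne.symm hrp))
  have hmr : m * r ≠ 0 := mul_ne_zero hm hr.ne_zero
  have hD := hh.lvl (m * r) hmr hcop
  -- the unit of a number prime to `r`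
  have hunit : ∀ k : ℕ, ¬ r ∣ k → ∃ b : (ZMod r)ˣ, (b : ZMod r) = (k : ZMod r) := by
    intro k hk
    refine ⟨Units.mk0 (k : ZMod r) ?_, rfl⟩
    rwa [Ne, ZMod.natCast_eq_zero_iff]
  obtain ⟨bp, hbp⟩ := hunit p (fun h => hrp ((Nat.prime_dvd_prime_iff_eq hr hp).1 h))
  let F : QZ → (ZMod r)ˣ → V := fun x w => h (x + (w : ZMod r).val • e r)
  have htor : ∀ (x : QZ) (w : (ZMod r)ˣ), m • x = 0 → (m * r) • (x + (w : ZMod r).val • e r) = 0 := by
    intro x w hx
    rw [smul_add, mul_comm m r, mul_smul, hx, smul_zero, zero_add, mul_comm r m, mul_smul,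
      smul_comm r, nsmul_e_self, smul_zero, smul_zero]
  have hmulk : ∀ (k : ℕ) (b : (ZMod r)ˣ), (b : ZMod r) = (k : ZMod r) → ∀ (x : QZ)
      (w : (ZMod r)ˣ), k • x + ((b * w : (ZMod r)ˣ) : ZMod r).val • e r =
        k • (x + (w : ZMod r).val • e r) := by
    intro k b hb x w
    rw [smul_add, Op1_val k (w : ZMod r) ((b * w : (ZMod r)ˣ) : ZMod r) (by
      rw [Units.val_mul, hb])]
  have hfrob : ∀ (x : QZ), m • x = 0 → ∀ w, F (p • x) (bp * w) = F x w := by
    intro x hx w
    show h (p • x + ((bp * w : (ZMod r)ˣ) : ZMod r).val • e r) = _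
    rw [hmulk p bp hbp x w]
    exact hD.frob _ (htor x w hx)
  have hmp : ∀ (k : ℕ) (x : QZ), m • x = 0 → m • (k • x) = 0 := by
    intro k x hx
    rw [smul_comm, hx, smul_zero]
  have hiter : ∀ (i : ℕ) (x : QZ), m • x = 0 → ∀ w, F (p ^ i • x) (bp ^ i * w) = F x w := by
    intro i
    induction i with
    | zero => intro x _ w; simp
    | succ i ih =>
      intro x hx w
      have e1 : p ^ (i + 1) • x = p • (p ^ i • x) := by rw [pow_succ', mul_smul]
      have e2 : bp ^ (i + 1) * w = bp * (bp ^ i * w) := by rw [pow_succ', mul_assoc]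
      rw [e1, e2, hfrob _ (hmp _ _ hx), ih x hx]
  have hinv : ∀ (x : QZ), m • x = 0 → ∀ w, F x (bp ^ f * w) = F x w := by
    intro x hx w
    have h1 := hiter f x hx w
    have h2 : p ^ f • x = x := by
      have := nsmul_congr hx hf
      rwa [one_smul] at this
    rwa [h2] at h1
  refine ⟨fun x => Op1_S (bp ^ f) (F x), ?_, ?_⟩
  · constructor
    · intro x hx
      have h1 : F (-x) = fun w => -F x (-1 * w) := by
        funext w
        show h (-x + (w : ZMod r).val • e r) = -h (x + ((-1 * w : (ZMod r)ˣ) : ZMod r).val • e r)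
        rw [← hD.neg _ (htor x (-1 * w) hx)]
        congr 1
        have : ((-1 * w : (ZMod r)ˣ) : ZMod r) = -(w : ZMod r) := by
          rw [Units.val_mul]; simp
        rw [this, Op1_neg]
        abel
      show Op1_S (bp ^ f) (F (-x)) = -Op1_S (bp ^ f) (F x)
      rw [h1, ← Op1_mulLeft (bp ^ f) (hinv x hx) (-1)]
      unfold Op1_S
      rw [← finsum_neg_distrib]
    · intro x hx
      show Op1_S (bp ^ f) (F (p • x)) = Op1_S (bp ^ f) (F x)
      rw [← Op1_mulLeft (bp ^ f) (hinv (p • x) (hmp p x hx)) bp]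
      congr 1
      funext w
      exact hfrob x hx w
    · intro l hl hlm x hx
      have hrl : ¬ r ∣ l := by
        intro h1
        exact hrm (h1.trans hlm)
      obtain ⟨bl, hbl⟩ := hunit l hrl
      show Op1_S (bp ^ f) (F (l • x)) = ∑ i ∈ range l, Op1_S (bp ^ f) (F (x + i • e l))
      rw [← Op1_mulLeft (bp ^ f) (hinv (l • x) (hmp l x hx)) bl]
      have h1 : (fun w => F (l • x) (bl * w)) = fun w => ∑ i ∈ range l, F (x + i • e l) w := by
        funext w
        show h (l • x + ((bl * w : (ZMod r)ˣ) : ZMod r).val • e r) = _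
        rw [hmulk l bl hbl x w, hD.dist l hl (hlm.mul_right r) _ (htor x w hx)]
        refine Finset.sum_congr rfl fun i _ => ?_
        show _ = h (x + i • e l + (w : ZMod r).val • e r)
        congr 1
        abel
      rw [h1]
      unfold Op1_S
      rw [finsum_eq_sum_of_fintype]
      simp only [finsum_eq_sum_of_fintype]
      rw [Finset.sum_comm]
  · intro x hx
    have hx' : (m * r) • x = 0 := by
      rw [mul_comm, mul_smul, hx, smul_zero]
    rw [hD.dist r hr (dvd_mul_left r m) x hx', Op1_units (fun i => h (x + i • e r))]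
    have h1 := Op1_total (bp ^ f) (hinv x hx)
    have h2 : orderOf ((p : ZMod r) ^ f) = orderOf (bp ^ f) := by
      rw [← orderOf_units, Units.val_pow_eq_pow_val, hbp]
    rw [h2]
    show h (x + 0 • e r) + ∑ w : (ZMod r)ˣ, F x w = h x + orderOf (bp ^ f) • Op1_S (bp ^ f) (F x)
    rw [h1, zero_smul, add_zero]

end Pool.Agent.Lib.MP_021685_agT
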