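import Pool.Agent.Lib.MP_021685_agT.Op2B

/-!
JOB Op2B2. `F x = l ^ j g x`.
-/

namespace Pool.Agent.Lib.MP_021685_agT

open Finset

variable {V : Type*} [AddCommGroup V]

/-- Iterated distribution relation for `F`. -/
theorem Op2B2_dist_pow {p l m' K v : ℕ} {c : ℤ} {F : QZ → V} (hl : l.Prime)
    (hF : Inv p l m' K v c F) (n : ℕ) : n ≤ K → ∀ s : QZ, (m' * l ^ K) • s = 0 →
      F (l ^ n • s) = ∑ i ∈ range (l ^ n), F (s + (i : ℤ) • e (l ^ n)) := by
  induction n with
  | zero =>
    intro _ s _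
    simp
  | succ n ih =>
    intro hn s hs
    have hl0 : l ≠ 0 := hl.ne_zero
    have h1 : (m' * l ^ K) • (l ^ n • s) = 0 := by
      rw [smul_comm, hs, smul_zero]
    have h2 : F (l ^ (n + 1) • s) = ∑ i ∈ range l, F (l ^ n • s + i • e l) := by
      rw [pow_succ', mul_smul]
      exact hF.dist l hl (dvd_mul_left _ _) _ h1
    have h3 : l ^ n • e (l ^ (n + 1)) = e l := by
      rw [pow_succ']
      exact nsmul_e_mul (pow_ne_zero n hl0) l
    have h4 : l • e (l ^ (n + 1)) = e (l ^ n) := by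
      rw [pow_succ]
      exact nsmul_e_mul hl0 (l ^ n)
    have h5 : ∀ i : ℕ, F (l ^ n • s + i • e l) =
        ∑ j ∈ range (l ^ n), F (s + ((i + l * j : ℕ) : ℤ) • e (l ^ (n + 1))) := by
      intro i
      have h6 : l ^ n • s + i • e l = l ^ n • (s + i • e (l ^ (n + 1))) := by
        rw [smul_add, smul_comm (l ^ n) i, h3]
      have h7 : (m' * l ^ K) • (s + i • e (l ^ (n + 1))) = 0 := by
        rw [smul_add, hs, zero_add, smul_comm]
        have h8 : (m' * l ^ K) • e (l ^ (n + 1)) = 0 :=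
          nsmul_eq_zero_of_dvd (dvd_mul_of_dvd_right (pow_dvd_pow l hn) m') (nsmul_e_self _)
        rw [h8, smul_zero]
      rw [h6, ih (by omega) _ h7]
      refine Finset.sum_congr rfl fun j _ => ?_
      congr 1
      rw [← h4, natCast_zsmul, natCast_zsmul, add_smul, add_assoc, mul_comm, mul_smul]
    rw [h2]
    simp only [h5]
    rw [← sum_range_mul_split (fun i : ℕ => F (s + (i : ℤ) • e (l ^ (n + 1)))) l (l ^ n),
      ← pow_succ']

/-- `F x = l ^ j g x`.
Proof. If `m' x = 0` both sides vanish (`Inv.triv`, `gg_zero`). Otherwise let `s = sec (l ^ (v + j)) x`. The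
distribution relation for `l`, iterated (`F (l ^ n • s) = ∑_{i < l ^ n} F (s + i • e (l ^ n))` whenever
`(m' l ^ K) • s = 0`, by induction on `n ≤ K` as in `IsDistG.dist_pow`; here `n = v + j`), gives
`F x = ∑_{i < l ^ (v + j)} F (s + i • e (l ^ (v + j)))`, which is `l ^ j` times the sum over one period `l ^ v`
(`per_mul_card`, `inv_period`). -/
theorem F_eq_gg {p l m' K v a j : ℕ} {c : ℤ} {F : QZ → V} (hl : l.Prime)
    (hF : Inv p l m' K v c F) (hv : 2 ≤ v) (hj : 1 ≤ j) (hK : a + v + j + 1 ≤ K)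
    {x : QZ} (hx : (m' * l ^ a) • x = 0) : F x = l ^ j • gg l m' v j F x := by
  by_cases hx' : m' • x = 0
  · rw [hF.triv x hx', gg_zero hx', smul_zero]
  · have hl0 : l ≠ 0 := hl.ne_zero
    have hs : l ^ (v + j) • sec (l ^ (v + j)) x = x := sec_spec (pow_ne_zero _ hl0) x
    have h1 := tors_of_sec hx hs
    have h2 : (m' * l ^ K) • sec (l ^ (v + j)) x = 0 :=
      nsmul_eq_zero_of_dvd (mul_dvd_mul_left m' (pow_dvd_pow l (by omega))) h1
    have h3 := Op2B2_dist_pow hl hF (v + j) (by omega) _ h2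
    rw [hs] at h3
    rw [gg_eq hl hF hv hj hK hx hx' hs]
    have h4 := per_mul_card (N := l ^ v) (q := l ^ j)
      (K := fun i : ℤ => F (sec (l ^ (v + j)) x + i • e (l ^ (v + j))))
      (fun i => inv_period hl hF hv hj hK hx hx' hs i)
    rw [← h4, h3, ← pow_add, add_comm j v]

end Pool.Agent.Lib.MP_021685_agT
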