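import Pool.Agent.Lib.MP_021685_agT.Op2B

/-!
JOB Op2C. `g` is odd and `p`-invariant.
-/

namespace Pool.Agent.Lib.MP_021685_agT

open Finset

variable {V : Type*} [AddCommGroup V]

/-- Torsion of the points in the sum defining `g`. -/
theorem Op2C_tors {l m' K v a j : ℕ} (hK : a + v + j + 1 ≤ K)
    {x s : QZ} (hx : (m' * l ^ a) • x = 0) (hs : l ^ (v + j) • s = x) (i : ℤ) :
    (m' * l ^ K) • (s + i • e (l ^ (v + j))) = 0 := by
  have h2 : (m' * l ^ K) • s = 0 :=
    nsmul_eq_zero_of_dvd (mul_dvd_mul_left m' (pow_dvd_pow l (by omega))) (tors_of_sec hx hs)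
  have h3 : (m' * l ^ K) • e (l ^ (v + j)) = 0 :=
    nsmul_eq_zero_of_dvd (dvd_mul_of_dvd_right (pow_dvd_pow l (by omega)) m') (nsmul_e_self _)
  rw [smul_add, h2, zero_add, smul_comm, h3, smul_zero]

/-- Proof. `gg_eq` with `-s` in place of `s`, `Inv.neg`, `per_mul` with `b = -1`. (`m' x = 0`: `gg_zero`.) -/
theorem gg_neg {p l m' K v a j : ℕ} {c : ℤ} {F : QZ → V} (hl : l.Prime)
    (hF : Inv p l m' K v c F) (hv : 2 ≤ v) (hj : 1 ≤ j) (hK : a + v + j + 1 ≤ K)
    {x : QZ} (hx : (m' * l ^ a) • x = 0) : gg l m' v j F (-x) = - gg l m' v j F x := by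
  by_cases hx' : m' • x = 0
  · have h1 : m' • (-x) = 0 := by rw [smul_neg, hx', neg_zero]
    rw [gg_zero hx', gg_zero h1, neg_zero]
  · have hl0 : l ≠ 0 := hl.ne_zero
    have hs : l ^ (v + j) • sec (l ^ (v + j)) x = x := sec_spec (pow_ne_zero _ hl0) x
    set s := sec (l ^ (v + j)) x with hsdef
    have hs' : l ^ (v + j) • (-s) = -x := by rw [smul_neg, hs]
    have hxn : (m' * l ^ a) • (-x) = 0 := by rw [smul_neg, hx, neg_zero]
    have hxn' : m' • (-x) ≠ 0 := by
      rw [smul_neg]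
      exact neg_ne_zero.2 hx'
    rw [gg_eq hl hF hv hj hK hx hx' hs, gg_eq hl hF hv hj hK hxn hxn' hs', ← Finset.sum_neg_distrib]
    have h4 := per_mul (N := l ^ v) (b := -1)
      (K := fun i : ℤ => - F (s + i • e (l ^ (v + j))))
      (fun i => by
        have := inv_period hl hF hv hj hK hx hx' hs i
        show - F (s + (i + (l ^ v : ℕ)) • e (l ^ (v + j))) = - F (s + i • e (l ^ (v + j)))
        rw [this]) (isCoprime_one_left.neg_left)
    rw [← h4]
    refine Finset.sum_congr rfl fun i _ => ?_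
    have h5 : -s + (i : ℤ) • e (l ^ (v + j)) = -(s + (-1 * (i : ℤ)) • e (l ^ (v + j))) := by
      rw [neg_one_mul, neg_smul]
      abel
    rw [h5]
    exact hF.neg _ (Op2C_tors hK hx hs _)

/-- Proof. `p` is prime to `m' * l` so `m' (p x) = 0` iff `m' x = 0`. `gg_eq` with `p • s`; `i • e (l ^ (v + j))` is
`p • (b i) • e (l ^ (v + j))` with `p b ≡ 1 mod l ^ (v + j)`; `Inv.frob` and `per_mul` with this `b`. -/
theorem gg_frob {p l m' K v a j : ℕ} {c : ℤ} {F : QZ → V} (hp : p.Prime) (hl : l.Prime)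
    (hlp : l ≠ p) (hpm' : Nat.Coprime p m')
    (hF : Inv p l m' K v c F) (hv : 2 ≤ v) (hj : 1 ≤ j) (hK : a + v + j + 1 ≤ K)
    {x : QZ} (hx : (m' * l ^ a) • x = 0) : gg l m' v j F (p • x) = gg l m' v j F x := by
  by_cases hx' : m' • x = 0
  · have h1 : m' • (p • x) = 0 := by rw [smul_comm, hx', smul_zero]
    rw [gg_zero hx', gg_zero h1]
  · have hl0 : l ≠ 0 := hl.ne_zero
    have hpl : Nat.Coprime p l := (Nat.coprime_primes hp hl).2 (Ne.symm hlp)
    have hs : l ^ (v + j) • sec (l ^ (v + j)) x = x := sec_spec (pow_ne_zero _ hl0) x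
    set s := sec (l ^ (v + j)) x with hsdef
    have hs' : l ^ (v + j) • (p • s) = p • x := by rw [smul_comm, hs]
    have hxn : (m' * l ^ a) • (p • x) = 0 := by rw [smul_comm, hx, smul_zero]
    have hxn' : m' • (p • x) ≠ 0 := by
      intro h
      apply hx'
      refine eq_zero_of_coprime (m := p) (n := l ^ a) (Nat.Coprime.pow_right a hpl) ?_ ?_
      · rw [smul_comm]
        exact h
      · rw [smul_smul, mul_comm]
        exact hx
    rw [gg_eq hl hF hv hj hK hx hx' hs, gg_eq hl hF hv hj hK hxn hxn' hs']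
    have hcop : IsCoprime (p : ℤ) ((l ^ (v + j) : ℕ) : ℤ) :=
      Nat.isCoprime_iff_coprime.2 (Nat.Coprime.pow_right _ hpl)
    obtain ⟨b, d, hbd⟩ := hcop
    have hb1 : IsCoprime b ((l ^ v : ℕ) : ℤ) := by
      have h1 : IsCoprime b ((l ^ (v + j) : ℕ) : ℤ) := ⟨(p : ℤ), d, by rw [mul_comm]; exact hbd⟩
      refine IsCoprime.of_isCoprime_of_dvd_right h1 ?_
      exact Int.natCast_dvd_natCast.2 (pow_dvd_pow l (by omega))
    have h4 := per_mul (N := l ^ v) (b := b)
      (K := fun i : ℤ => F (s + i • e (l ^ (v + j))))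
      (fun i => inv_period hl hF hv hj hK hx hx' hs i) hb1
    rw [← h4]
    refine Finset.sum_congr rfl fun i _ => ?_
    have h5 : p • s + (i : ℤ) • e (l ^ (v + j)) = p • (s + (b * (i : ℤ)) • e (l ^ (v + j))) := by
      rw [smul_add]
      congr 1
      rw [← natCast_zsmul ((b * (i : ℤ)) • e (l ^ (v + j))) p, smul_smul]
      refine zsmul_congr (nsmul_e_self _) ?_
      have h6 : (p : ℤ) * (b * (i : ℤ)) = i - ((l ^ (v + j) : ℕ) : ℤ) * (d * i) := by
        have : (p : ℤ) * b = 1 - d * ((l ^ (v + j) : ℕ) : ℤ) := by linarith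
        calc (p : ℤ) * (b * (i : ℤ)) = (p * b) * i := by ring
          _ = _ := by rw [this]; ring
      rw [h6]
      exact (Int.modEq_iff_dvd.2 ⟨-(d * i), by ring⟩)
    rw [h5]
    exact hF.frob _ (Op2C_tors hK hx hs _)

end Pool.Agent.Lib.MP_021685_agT
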