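import Pool.Agent.Lib.MP_021685_agT.Op2B

/-!
JOB Op2C2. `g` satisfies the distribution relations for `q ≠ l`.
-/

namespace Pool.Agent.Lib.MP_021685_agT

open Finset

variable {V : Type*} [AddCommGroup V]

/-- The distribution relation for a prime `q ∣ m'` (so `q ≠ l`).
Proof. If `m' x = 0` then `m' (q x) = 0`, `m' (x + i / q) = 0` (`q ∣ m'`), all terms vanish. Otherwise `m' (q x) ≠ 0` (`m' x` is
killed by `l ^ a`, which is prime to `q`) and `m' (x + i / q) = m' x ≠ 0`. Let `l ^ (v + j) s = x`, `N = l ^ (v + j)`. By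
`gg_eq` with `q • s`: `g (q x) = ∑_{i < l ^ v} F (q s + i / N) = ∑_{i < l ^ v} F (q (s + i / N))` (`per_mul`: replace
`i` by `q i`, the function `i ↦ F (q s + i / N)` having period `l ^ v` by `inv_period` for `q x`)
`= ∑_{i < l ^ v} ∑_{t < q} F (s + i / N + t / q)` (`Inv.dist`). On the other side, `l ^ (v + j) (s + t / q) = x + (l ^ (v + j) t) / q`, so by
`gg_eq` `g (x + (l ^ (v + j) t) / q) = ∑_{i < l ^ v} F (s + t / q + i / N)`, and `t ↦ l ^ (v + j) t` permutes the residues modulo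
`q` (`per_mul` for `t ↦ g (x + t / q)`). -/
theorem gg_dist_ne {p l m' K v a j q : ℕ} {c : ℤ} {F : QZ → V} (hl : l.Prime)
    (hlm : ¬ l ∣ m') (hF : Inv p l m' K v c F) (hv : 2 ≤ v) (hj : 1 ≤ j) (hK : a + v + j + 1 ≤ K)
    (hq : q.Prime) (hqm : q ∣ m') {x : QZ} (hx : (m' * l ^ a) • x = 0) :
    gg l m' v j F (q • x) = ∑ i ∈ range q, gg l m' v j F (x + i • e q) := by
  have hm'q : ∀ t : ℤ, m' • (t • e q) = 0 := by
    intro t
    rw [smul_comm, nsmul_eq_zero_of_dvd hqm (nsmul_e_self q), smul_zero]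
  have hm'q' : ∀ t : ℕ, m' • (t • e q) = 0 := by
    intro t
    rw [smul_comm, nsmul_eq_zero_of_dvd hqm (nsmul_e_self q), smul_zero]
  by_cases hx' : m' • x = 0
  · rw [gg_zero (by rw [smul_comm, hx', smul_zero]), Finset.sum_eq_zero]
    intro i _
    exact gg_zero (by rw [smul_add, hx', hm'q', add_zero])
  have hql : q ≠ l := fun h => hlm (h ▸ hqm)
  have hqlc : Nat.Coprime q l := (Nat.coprime_primes hq hl).mpr hql
  have hqx' : m' • (q • x) ≠ 0 := by
    intro h0
    apply hx'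
    refine eq_zero_of_coprime (m := q) (n := l ^ a) (Nat.Coprime.pow_right _ hqlc) ?_ ?_
    · rw [smul_comm]; exact h0
    · rw [← mul_smul, mul_comm]; exact hx
  obtain ⟨s, hs⟩ := exists_nsmul_eq (pow_ne_zero (v + j) hl.ne_zero) x
  set N := l ^ (v + j) with hN
  have hxq : (m' * l ^ a) • (q • x) = 0 := by rw [smul_comm, hx, smul_zero]
  have hsq : N • (q • s) = q • x := by rw [smul_comm, hs]
  have hper1 : ∀ i : ℤ, (fun i : ℤ => F (q • s + i • e N)) (i + (l ^ v : ℕ)) = (fun i : ℤ => F (q • s + i • e N)) i :=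
    fun i => inv_period hl hF hv hj hK hxq hqx' hsq i
  have hcop1 : IsCoprime (q : ℤ) ((l ^ v : ℕ) : ℤ) := by
    rw [Nat.isCoprime_iff_coprime]
    exact Nat.Coprime.pow_right _ hqlc
  have h1 := per_mul (N := l ^ v) (K := fun i : ℤ => F (q • s + i • e N)) hper1 hcop1
  have hsK : (m' * l ^ K) • s = 0 := by
    have h2 := tors_of_sec (n := v + j) hx hs
    exact nsmul_eq_zero_of_dvd (mul_dvd_mul_left m' (pow_dvd_pow l (by omega))) h2
  have heK : ∀ i : ℤ, (m' * l ^ K) • (i • e N) = 0 := by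
    intro i
    rw [smul_comm, nsmul_eq_zero_of_dvd ((pow_dvd_pow l (by omega : v + j ≤ K)).trans (dvd_mul_left _ _)) (nsmul_e_self N), smul_zero]
  have hL : gg l m' v j F (q • x) = ∑ i ∈ range (l ^ v), ∑ t ∈ range q, F (s + (i : ℤ) • e N + t • e q) := by
    rw [gg_eq hl hF hv hj hK hxq hqx' hsq, ← h1]
    refine Finset.sum_congr rfl fun i _ => ?_
    have e1 : q • s + ((q : ℤ) * (i : ℤ)) • e N = q • (s + (i : ℤ) • e N) := by
      rw [smul_add, mul_smul, natCast_zsmul]
    rw [e1, hF.dist q hq (hqm.trans (dvd_mul_right _ _)) _ (by rw [smul_add, hsK, heK, add_zero])]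
  have hper2 : ∀ t : ℤ, (fun t : ℤ => gg l m' v j F (x + t • e q)) (t + (q : ℕ)) = (fun t : ℤ => gg l m' v j F (x + t • e q)) t := by
    intro t
    show gg l m' v j F (x + (t + (q : ℤ)) • e q) = gg l m' v j F (x + t • e q)
    rw [add_smul, natCast_zsmul (e q) q, nsmul_e_self, add_zero]
  have hcop2 : IsCoprime (N : ℤ) (q : ℤ) := by
    rw [Nat.isCoprime_iff_coprime, hN]
    exact Nat.Coprime.pow_left _ hqlc.symm
  have h2 := per_mul (N := q) (K := fun t : ℤ => gg l m' v j F (x + t • e q)) hper2 hcop2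
  have hR : ∑ t ∈ range q, gg l m' v j F (x + t • e q) = ∑ t ∈ range q, ∑ i ∈ range (l ^ v), F (s + t • e q + (i : ℤ) • e N) := by
    calc ∑ t ∈ range q, gg l m' v j F (x + t • e q) = ∑ t ∈ range q, gg l m' v j F (x + (t : ℤ) • e q) :=
          Finset.sum_congr rfl fun t _ => by rw [natCast_zsmul]
      _ = ∑ t ∈ range q, gg l m' v j F (x + ((N : ℤ) * (t : ℤ)) • e q) := h2.symm
      _ = _ := by
        refine Finset.sum_congr rfl fun t _ => ?_
        have hs2 : l ^ (v + j) • (s + t • e q) = x + ((N : ℤ) * (t : ℤ)) • e q := by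
          rw [smul_add, ← hN, hs, mul_smul, natCast_zsmul, natCast_zsmul]
        have hx2 : (m' * l ^ a) • (x + ((N : ℤ) * (t : ℤ)) • e q) = 0 := by
          rw [smul_add, hx, zero_add, mul_comm, mul_smul, hm'q, smul_zero]
        have hx3 : m' • (x + ((N : ℤ) * (t : ℤ)) • e q) ≠ 0 := by
          rw [smul_add, hm'q, add_zero]; exact hx'
        exact gg_eq hl hF hv hj hK hx2 hx3 hs2
  rw [hL, hR, Finset.sum_comm]
  refine Finset.sum_congr rfl fun t _ => Finset.sum_congr rfl fun i _ => ?_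
  rw [add_right_comm]

end Pool.Agent.Lib.MP_021685_agT
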