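import Pool.Agent.Lib.MP_021685_agT.Op2B

/-!
JOB Op2D. `g` satisfies the distribution relation for `l`, first case.
-/

namespace Pool.Agent.Lib.MP_021685_agT

open Finset

variable {V : Type*} [AddCommGroup V]

private lemma Op2D_tors {l m' a v j K : ℕ} {x s : QZ} (hK : a + v + j + 1 ≤ K)
    (hx : (m' * l ^ a) • x = 0) (hs : l ^ (v + j) • s = x) (n : ℤ) :
    (m' * l ^ K) • (s + n • e (l ^ (v + j + 1))) = 0 := by
  have h1 := tors_of_sec hx hs
  have h2 : (m' * l ^ K) • s = 0 := by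
    refine nsmul_eq_zero_of_dvd ?_ h1
    exact mul_dvd_mul_left _ (pow_dvd_pow _ (by omega))
  have h3 : (m' * l ^ K) • e (l ^ (v + j + 1)) = 0 := by
    refine nsmul_eq_zero_of_dvd ?_ (nsmul_e_self (l ^ (v + j + 1)))
    exact Dvd.dvd.mul_left (pow_dvd_pow _ (by omega)) _
  rw [smul_add, h2, smul_comm, h3, smul_zero, add_zero]

private lemma Op2D_e1 {l v j : ℕ} (hl : l.Prime) : l ^ (v + j) • e (l ^ (v + j + 1)) = e l := by
  rw [pow_succ']
  exact nsmul_e_mul (pow_ne_zero _ hl.ne_zero) l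

private lemma Op2D_e2 {l v j : ℕ} (hl : l.Prime) : l • e (l ^ (v + j + 1)) = e (l ^ (v + j)) := by
  rw [pow_succ]
  exact nsmul_e_mul hl.ne_zero _

private lemma Op2D_ne {l m' v j : ℕ} {x s : QZ} (hx' : (m' * l) • x ≠ 0)
    (hs : l ^ (v + j) • s = x) (n : ℤ) :
    (m' * l ^ (v + j)) • (s + n • e (l ^ (v + j + 1))) ≠ 0 := by
  intro h0
  apply hx'
  have h1 : l • ((m' * l ^ (v + j)) • (s + n • e (l ^ (v + j + 1)))) = 0 := by
    rw [h0, smul_zero]
  have h2 : l • ((m' * l ^ (v + j)) • (s + n • e (l ^ (v + j + 1)))) =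
      (m' * l) • (l ^ (v + j) • s) + m' • (n • (l ^ (v + j + 1) • e (l ^ (v + j + 1)))) := by
    have e1 : l * (m' * l ^ (v + j)) = m' * l * l ^ (v + j) := by ring
    have e2 : m' * l ^ (v + j + 1) = m' * l * l ^ (v + j) := by ring
    rw [smul_smul, smul_add, e1, smul_smul (m' * l), smul_comm m' n, smul_smul m', e2,
      smul_comm (m' * l * l ^ (v + j)) n]
  rw [h2, hs, nsmul_e_self, smul_zero, smul_zero, add_zero] at h1
  exact h1

/-- The distribution relation for `l` at `x` with `(m' l) x ≠ 0`; `1 ≤ a`. -/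
theorem gg_dist_l1 {p l m' K v a j : ℕ} {c : ℤ} {F : QZ → V} (hl : l.Prime)
    (hF : Inv p l m' K v c F) (hv : 2 ≤ v) (hj : 1 ≤ j) (hK : a + v + j + 1 ≤ K) (ha : 1 ≤ a)
    {x : QZ} (hx : (m' * l ^ a) • x = 0) (hx' : (m' * l) • x ≠ 0) :
    gg l m' v j F (l • x) = ∑ i ∈ range l, gg l m' v j F (x + i • e l) := by
  obtain ⟨s, hs⟩ := exists_nsmul_eq (pow_ne_zero (v + j) hl.ne_zero) x
  -- the function `Kf`
  obtain ⟨Kf, hKf⟩ : ∃ Kf : ℤ → V, ∀ n, Kf n = F (s + n • e (l ^ (v + j + 1))) :=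
    ⟨fun n => F (s + n • e (l ^ (v + j + 1))), fun _ => rfl⟩
  have htors := Op2D_tors hK hx hs
  have hne := Op2D_ne hx' hs
  -- (i)
  have hper : ∀ n : ℤ, Kf (n + (l ^ v : ℕ)) = Kf n := by
    intro n
    rw [hKf, hKf, add_smul, ← add_assoc]
    apply hF.deep (j + 1) _ _ (htors n)
    · rw [show j + 1 + v - 1 = v + j by omega]
      exact hne n
    · rw [natCast_zsmul, smul_smul, ← pow_add, show j + 1 + v = v + j + 1 by omega, nsmul_e_self]
  -- (ii)
  have hii : ∀ (n : ℤ) (t : ℕ), F (s + n • e (l ^ (v + j + 1)) + t • e l) = Kf n := by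
    intro n t
    rw [hKf]
    apply hF.deep 1 _ _ (htors n)
    · intro h0
      apply hne n
      refine nsmul_eq_zero_of_dvd ?_ h0
      exact mul_dvd_mul_left _ (pow_dvd_pow _ (by omega))
    · rw [pow_one, smul_comm, nsmul_e_self, smul_zero]
  -- left side
  have hL : gg l m' v j F (l • x) = l • ∑ i ∈ range (l ^ v), Kf i := by
    have h1 : (m' * l ^ a) • (l • x) = 0 := by rw [smul_comm, hx, smul_zero]
    have h2 : m' • (l • x) ≠ 0 := by rw [smul_smul]; exact hx'
    have h3 : l ^ (v + j) • (l • s) = l • x := by rw [smul_comm, hs]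
    rw [gg_eq hl hF hv hj hK h1 h2 h3, smul_sum]
    refine sum_congr rfl fun i _ => ?_
    have h4 : l • s + (i : ℤ) • e (l ^ (v + j)) = l • (s + (i : ℤ) • e (l ^ (v + j + 1))) := by
      rw [smul_add, ← Op2D_e2 hl (v := v) (j := j), smul_comm l (i : ℤ)]
    rw [h4, hF.dist l hl (dvd_mul_left _ _) _ (htors i)]
    rw [sum_congr rfl (fun t _ => hii i t), sum_const, card_range]
  -- right side
  have hR : ∀ t ∈ range l, gg l m' v j F (x + t • e l) =
      ∑ i ∈ range (l ^ v), Kf (((t + l * i : ℕ)) : ℤ) := by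
    intro t _
    have h1 : (m' * l ^ a) • (x + t • e l) = 0 := by
      rw [smul_add, hx, zero_add, smul_comm]
      have : (m' * l ^ a) • e l = 0 := by
        refine nsmul_eq_zero_of_dvd ?_ (nsmul_e_self l)
        exact Dvd.dvd.mul_left (dvd_pow_self _ (by omega)) _
      rw [this, smul_zero]
    have h2 : m' • (x + t • e l) ≠ 0 := by
      intro h0
      apply hx'
      have h3 : l • (m' • (x + t • e l)) = (m' * l) • x + m' • t • (l • e l) := by
        rw [smul_add, smul_add, smul_smul, smul_smul, smul_smul, smul_smul, smul_smul]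
        congr 1
        · rw [mul_comm]
        · congr 1
          ring
      rw [h0, smul_zero, nsmul_e_self, smul_zero, smul_zero, add_zero] at h3
      exact h3.symm
    have h3 : l ^ (v + j) • (s + t • e (l ^ (v + j + 1))) = x + t • e l := by
      rw [smul_add, hs, smul_comm, Op2D_e1 hl]
    rw [gg_eq hl hF hv hj hK h1 h2 h3]
    refine sum_congr rfl fun i _ => ?_
    rw [hKf]
    congr 1
    rw [← Op2D_e2 hl (v := v) (j := j), natCast_zsmul, natCast_zsmul, add_smul, mul_comm l i, mul_smul, add_assoc]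
  rw [hL, sum_congr rfl hR, ← sum_range_mul_split (fun n : ℕ => Kf (n : ℤ)) l (l ^ v),
    per_mul_card hper]

end Pool.Agent.Lib.MP_021685_agT
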