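import Pool.Agent.Lib.MP_021685_agT.Op2B

/-!
JOB Op2D2. `g` satisfies the distribution relation for `l`, second case.
-/

namespace Pool.Agent.Lib.MP_021685_agT

open Finset

variable {V : Type*} [AddCommGroup V]

private lemma Op2D2_e1 {l v j : ℕ} (hl : l.Prime) : l ^ (v + j) • e (l ^ (v + j + 1)) = e l := by
  rw [pow_succ']
  exact nsmul_e_mul (pow_ne_zero _ hl.ne_zero) l

private lemma Op2D2_e2 {l v j : ℕ} (hl : l.Prime) : l • e (l ^ (v + j + 1)) = e (l ^ (v + j)) := by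
  rw [pow_succ]
  exact nsmul_e_mul hl.ne_zero _

private lemma Op2D2_ne0 {l m' : ℕ} (hl : l.Prime) (hlm : ¬ l ∣ m') {n : ℤ} (hn : ¬ (l : ℤ) ∣ n) :
    m' • (n • e l) ≠ 0 := by
  intro h0
  rw [← natCast_zsmul, smul_smul, zsmul_e_eq_zero_iff hl.ne_zero] at h0
  rcases (Nat.prime_iff_prime_int.1 hl).dvd_or_dvd h0 with h | h
  · exact hlm (Int.natCast_dvd_natCast.1 h)
  · exact hn h

private lemma Op2D2_ne {l m' v j : ℕ} (hl : l.Prime) (hlm : ¬ l ∣ m') (hj : 1 ≤ j) {s : QZ}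
    (hs : m' • s = 0) {n : ℤ} (hn : ¬ (l : ℤ) ∣ n) :
    (m' * l ^ (j + v - 1)) • (s + n • e (l ^ (v + j + 1))) ≠ 0 := by
  intro h0
  apply Op2D2_ne0 hl hlm hn
  have h1 : l • ((m' * l ^ (j + v - 1)) • (s + n • e (l ^ (v + j + 1)))) = 0 := by
    rw [h0, smul_zero]
  have h2 : l • ((m' * l ^ (j + v - 1)) • (s + n • e (l ^ (v + j + 1)))) =
      l ^ (v + j) • (m' • s) + m' • (n • (l ^ (v + j) • e (l ^ (v + j + 1)))) := by
    have e1 : l * (m' * l ^ (j + v - 1)) = m' * l ^ (v + j) := by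
      have : v + j = (j + v - 1) + 1 := by omega
      rw [this, pow_succ]
      ring
    rw [smul_smul, smul_add, e1, smul_smul (l ^ (v + j)), smul_comm m' n, smul_smul m',
      mul_comm (l ^ (v + j)) m', smul_comm (m' * l ^ (v + j)) n]
  rw [h2, hs, Op2D2_e1 hl, smul_zero, zero_add] at h1
  exact h1

/-- The distribution relation for `l` at `x` with `(m' l) x = 0`. -/
theorem gg_dist_l2 {p l m' K v a j : ℕ} {c : ℤ} {F : QZ → V} (hl : l.Prime) (hm' : m' ≠ 0)
    (hlm : ¬ l ∣ m') (hc1 : c ≡ -1 [ZMOD m']) (hc2 : c ≡ 1 [ZMOD ((l ^ K : ℕ) : ℤ)])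
    (hF : Inv p l m' K v c F) (hv : 2 ≤ v) (hj : 1 ≤ j) (hK : a + v + j + 1 ≤ K) (ha : 1 ≤ a)
    {x : QZ} (hx' : (m' * l) • x = 0) :
    gg l m' v j F (l • x) = ∑ i ∈ range l, gg l m' v j F (x + i • e l) := by
  have hL : gg l m' v j F (l • x) = 0 := by
    apply gg_zero
    rw [smul_smul]
    exact hx'
  rw [hL]
  symm
  have hcop : Nat.Coprime m' l := ((Nat.Prime.coprime_iff_not_dvd hl).2 hlm).symm
  -- the point `x0`
  obtain ⟨t1, ht1⟩ : ∃ t1 : ℤ, m' • (x + t1 • e l) = 0 := by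
    have h1 : l • (m' • x) = 0 := by rw [smul_smul, mul_comm]; exact hx'
    obtain ⟨t0, _, ht0⟩ := exists_nsmul_e hl.ne_zero h1
    obtain ⟨u, w, huw⟩ := Nat.isCoprime_iff_coprime.2 hcop
    refine ⟨-(u * t0), ?_⟩
    have h2 : m' • (x + (-(u * t0)) • e l) = ((t0 : ℤ) + m' * (-(u * t0))) • e l := by
      rw [smul_add, ht0, add_smul, natCast_zsmul, mul_smul, natCast_zsmul]
    rw [h2, zsmul_e_eq_zero_iff hl.ne_zero]
    refine ⟨t0 * w, ?_⟩
    have h3 : (t0 : ℤ) + m' * (-(u * t0)) = t0 * (1 - u * m') := by ring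
    rw [h3, ← huw]
    ring
  obtain ⟨x0, hx0⟩ : ∃ x0 : QZ, x0 = x + t1 • e l := ⟨_, rfl⟩
  rw [← hx0] at ht1
  have hshift : ∑ i ∈ range l, gg l m' v j F (x + i • e l) =
      ∑ i ∈ range l, gg l m' v j F (x0 + (i : ℤ) • e l) := by
    have h1 : ∀ i : ℤ, (fun n : ℤ => gg l m' v j F (x0 + n • e l)) (i + l) =
        (fun n : ℤ => gg l m' v j F (x0 + n • e l)) i := by
      intro i
      dsimp only
      rw [add_smul, natCast_zsmul, nsmul_e_self, add_zero]
    have h2 := per_shift (N := l) (K := fun n : ℤ => gg l m' v j F (x0 + n • e l)) h1 (-t1)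
    rw [← h2]
    refine sum_congr rfl fun i _ => ?_
    congr 1
    rw [hx0, add_smul, neg_smul, natCast_zsmul]
    abel
  rw [hshift]
  -- the point `s`
  obtain ⟨s, hs1, hs2⟩ : ∃ s : QZ, m' • s = 0 ∧ l ^ (v + j) • s = x0 := by
    have hcop2 : Nat.Coprime (l ^ (v + j)) m' := (Nat.Coprime.pow_right _ hcop).symm
    obtain ⟨u, w, huw⟩ := Nat.isCoprime_iff_coprime.2 hcop2
    refine ⟨u • x0, ?_, ?_⟩
    · rw [smul_comm, ht1, smul_zero]
    · have h1 : (l ^ (v + j) : ℕ) • (u • x0) = (u * ((l ^ (v + j) : ℕ) : ℤ)) • x0 := by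
        rw [← natCast_zsmul, smul_smul, mul_comm]
      have h2 : u * ((l ^ (v + j) : ℕ) : ℤ) = 1 - w * (m' : ℤ) := by linarith
      rw [h1, h2, sub_smul, one_smul, mul_smul, natCast_zsmul, ht1, smul_zero, sub_zero]
  obtain ⟨Kf, hKf⟩ : ∃ Kf : ℤ → V, ∀ n, Kf n = F (s + n • e (l ^ (v + j + 1))) :=
    ⟨fun n => F (s + n • e (l ^ (v + j + 1))), fun _ => rfl⟩
  have hEK : l ^ K • e (l ^ (v + j + 1)) = 0 :=
    nsmul_eq_zero_of_dvd (pow_dvd_pow _ (by omega)) (nsmul_e_self (l ^ (v + j + 1)))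
  have htors : ∀ n : ℤ, (m' * l ^ K) • (s + n • e (l ^ (v + j + 1))) = 0 := by
    intro n
    have h1 : (m' * l ^ K) • s = 0 := nsmul_eq_zero_of_dvd (dvd_mul_right _ _) hs1
    have h2 : (m' * l ^ K) • e (l ^ (v + j + 1)) = 0 :=
      nsmul_eq_zero_of_dvd (dvd_mul_left _ _) hEK
    rw [smul_add, h1, smul_comm, h2, smul_zero, add_zero]
  -- the terms
  have hterm : ∀ t ∈ range l, gg l m' v j F (x0 + (t : ℤ) • e l) =
      ∑ i ∈ range (l ^ v), (if l ∣ (t + l * i) then 0 else Kf (((t + l * i : ℕ)) : ℤ)) := by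
    intro t ht
    rw [mem_range] at ht
    have hdvd : ∀ i : ℕ, l ∣ (t + l * i) ↔ t = 0 := by
      intro i
      rw [Nat.dvd_add_left (dvd_mul_right l i)]
      constructor
      · intro h
        exact Nat.eq_zero_of_dvd_of_lt h ht
      · rintro rfl
        exact dvd_zero l
    by_cases ht0 : t = 0
    · rw [sum_eq_zero]
      · apply gg_zero
        rw [ht0, Nat.cast_zero, zero_smul, add_zero]
        exact ht1
      · intro i _
        rw [if_pos ((hdvd i).2 ht0)]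
    · have htn : ¬ (l : ℤ) ∣ (t : ℤ) := by
        intro h
        exact ht0 (Nat.eq_zero_of_dvd_of_lt (Int.natCast_dvd_natCast.1 h) ht)
      have h1 : (m' * l ^ a) • (x0 + (t : ℤ) • e l) = 0 := by
        have h3 : (m' * l ^ a) • x0 = 0 := nsmul_eq_zero_of_dvd (dvd_mul_right _ _) ht1
        have h4 : (m' * l ^ a) • e l = 0 := by
          refine nsmul_eq_zero_of_dvd ?_ (nsmul_e_self l)
          exact Dvd.dvd.mul_left (dvd_pow_self _ (by omega)) _
        rw [smul_add, h3, smul_comm, h4, smul_zero, add_zero]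
      have h2 : m' • (x0 + (t : ℤ) • e l) ≠ 0 := by
        rw [smul_add, ht1, zero_add]
        exact Op2D2_ne0 hl hlm htn
      have h3 : l ^ (v + j) • (s + (t : ℤ) • e (l ^ (v + j + 1))) = x0 + (t : ℤ) • e l := by
        rw [smul_add, hs2, smul_comm, Op2D2_e1 hl]
      rw [gg_eq hl hF hv hj hK h1 h2 h3]
      refine sum_congr rfl fun i _ => ?_
      rw [if_neg (fun h => ht0 ((hdvd i).1 h)), hKf]
      congr 1
      rw [← Op2D2_e2 hl (v := v) (j := j), natCast_zsmul, natCast_zsmul, natCast_zsmul, add_smul, mul_comm l i,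
        mul_smul, add_assoc]
  rw [sum_congr rfl hterm, ← sum_range_mul_split (fun n : ℕ => if l ∣ n then 0 else Kf (n : ℤ)) l (l ^ v),
    ← pow_succ']
  have hfil : ∑ n ∈ range (l ^ (v + 1)), (if l ∣ n then 0 else Kf (n : ℤ)) =
      ∑ n ∈ (range (l ^ (v + 1))).filter (fun i => ¬ l ∣ i), Kf (n : ℤ) := by
    rw [sum_filter]
    refine sum_congr rfl fun n _ => ?_
    by_cases h : l ∣ n
    · rw [if_pos h, if_neg (not_not.2 h)]
    · rw [if_neg h, if_pos h]
  rw [hfil]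
  apply per_odd hl
  · calc 2 < 2 ^ 3 := by norm_num
      _ ≤ 2 ^ (v + 1) := Nat.pow_le_pow_right (by norm_num) (by omega)
      _ ≤ l ^ (v + 1) := Nat.pow_le_pow_left hl.two_le _
  · intro i hi
    rw [hKf, hKf, add_smul, ← add_assoc]
    apply hF.deep j _ _ (htors i)
    · exact Op2D2_ne hl hlm hj hs1 hi
    · rw [natCast_zsmul, smul_smul, ← pow_add, show j + (v + 1) = v + j + 1 by omega, nsmul_e_self]
  · intro i _
    rw [hKf, hKf, ← hF.anti _ (htors i)]
    congr 1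
    have h1 : c • s = -s := by
      rw [zsmul_congr hs1 hc1, neg_smul, one_smul]
    have h2 : c • e (l ^ (v + j + 1)) = e (l ^ (v + j + 1)) := by
      rw [zsmul_congr hEK hc2, one_smul]
    rw [smul_add, h1, smul_comm c i, h2, neg_smul]
    abel

end Pool.Agent.Lib.MP_021685_agT
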