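import Pool.Agent.Lib.MP_021685_agT.Op2A
import Pool.Agent.Lib.MP_021685_agT.Op2B2
import Pool.Agent.Lib.MP_021685_agT.Op2C
import Pool.Agent.Lib.MP_021685_agT.Op2C2
import Pool.Agent.Lib.MP_021685_agT.Op2D
import Pool.Agent.Lib.MP_021685_agT.Op2D2

/-!
Assembly of step (3c).
-/

namespace Pool.Agent.Lib.MP_021685_agT

open Finset

theorem exists_g {p l m' v a j K : ℕ} {c : ℤ} (hp : p.Prime) (hl : l.Prime) (hlp : l ≠ p)
    (hm' : m' ≠ 0) (hpm' : Nat.Coprime p m') (hlm : ¬ l ∣ m') (hv : 2 ≤ v)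
    (hT : Tower p l m' v) (hj : 1 ≤ j) (hK : a + v + j + 1 ≤ K)
    (hc1 : c ≡ -1 [ZMOD m']) (hc2 : c ≡ 1 [ZMOD ((l ^ K : ℕ) : ℤ)])
    {V : Type*} [AddCommGroup V] {h : QZ → V} (hh : IsDistG p h) :
    ∃ g : QZ → V, IsDist p (m' * l ^ a) g ∧ g 0 = 0 ∧
      ∀ x : QZ, (m' * l ^ a) • x = 0 → h x + h (c • x) = l ^ j • g x := by
  have hF := inv_of_dist hp hl hlp hm' hpm' hlm hv hT (by omega : 1 ≤ K) hc1 hc2 hh
  refine ⟨gg l m' v j (fun x => h x + h (c • x)), ⟨?_, ?_, ?_⟩, gg_zero (smul_zero _), ?_⟩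
  · intro x hx
    exact gg_neg hl hF hv hj hK hx
  · intro x hx
    exact gg_frob hp hl hlp hpm' hF hv hj hK hx
  · intro q hq hqm x hx
    rcases (Nat.Prime.dvd_mul hq).1 hqm with h1 | h1
    · exact gg_dist_ne hl hlm hF hv hj hK hq h1 hx
    · have hql : q = l := (Nat.prime_dvd_prime_iff_eq hq hl).1 (hq.dvd_of_dvd_pow h1)
      subst hql
      have ha : 1 ≤ a := by
        rcases Nat.eq_zero_or_pos a with h2 | h2
        · rw [h2, pow_zero, Nat.dvd_one] at h1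
          exact absurd h1 hq.ne_one
        · exact h2
      by_cases hx' : (m' * q) • x = 0
      · exact gg_dist_l2 hl hm' hlm hc1 hc2 hF hv hj hK ha hx'
      · exact gg_dist_l1 hl hF hv hj hK ha hx hx'
  · intro x hx
    exact F_eq_gg hl hF hv hj hK hx

end Pool.Agent.Lib.MP_021685_agT
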