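import Pool.Agent.Lib.MP_021685_agT.Op2Defs

/-!
JOB Op2A. `F x = h x + h (c x)` has the properties `Inv`.
-/

namespace Pool.Agent.Lib.MP_021685_agT

open Finset

/-- `F x = h x + h (c x)` has the properties `Inv` if `c ≡ -1 mod m'` and `c ≡ 1 mod l ^ K`.

Proof. Write `M = m' * l ^ K` (`K ≥ 1`), a level prime to `p`; for `M • x = 0` also `M • (c • x) = 0`.
`neg`, `frob`: from `hh.lvl M` (`c • (-x) = -(c • x)`, `c • (p • x) = p • (c • x)`).
`dist`: `q ∣ m' * l` so `q ∣ M`; `h (c • (q • x)) = h (q • (c • x)) = ∑_{i<q} h (c • x + i • e q)`, and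
`c • (x + i • e q) = c • x + (c i) • e q`. As `c` is prime to `q` (`c ≡ -1` or `1` modulo `q`), `i ↦ c i` permutes the
residues: `per_mul` with `K i = h (c • x + i • e q)` (`i : ℤ`, period `q`).
`anti`: `c * c ≡ 1 mod M` (it is so modulo `m'` and modulo `l ^ K`, coprime: `Int.modEq_and_modEq_iff_modEq_mul` or
`IsCoprime.mul_dvd`), so `F (-(c x)) = h (-(c x)) + h (-(c c x)) = -h (c x) - h x`.
`triv`: `m' • x = 0` gives `c • x = -x` (`zsmul_congr`), so `F x = h x + h (-x) = 0`.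
`deep`: `deep` of `Deep.lean` at `x` and at `c • x`: `c • y = y` because `l ^ k • y = 0` and `k ≤ K` (`k + v - 1 < K`, since
`m' l ^ K` kills `x` and `m' l ^ (k + v - 1)` does not; `v ≥ 2`); and `(m' l ^ (k+v-1)) • (c • x) ≠ 0` since `c` is
invertible modulo `M` (apply `c` again: `c • c • x = x`). -/
theorem inv_of_dist {p l m' v K : ℕ} {c : ℤ} (hp : p.Prime) (hl : l.Prime) (hlp : l ≠ p)
    (hm' : m' ≠ 0) (hpm' : Nat.Coprime p m') (hlm : ¬ l ∣ m') (hv : 2 ≤ v)
    (hT : Tower p l m' v) (hK : 1 ≤ K) (hc1 : c ≡ -1 [ZMOD m']) (hc2 : c ≡ 1 [ZMOD ((l ^ K : ℕ) : ℤ)])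
    {V : Type*} [AddCommGroup V] {h : QZ → V} (hh : IsDistG p h) :
    Inv p l m' K v c (fun x => h x + h (c • x)) := by
  have hlpos := hl.pos
  have hM0 : m' * l ^ K ≠ 0 := mul_ne_zero hm' (pow_ne_zero _ hl.ne_zero)
  have hpl : Nat.Coprime p l := (Nat.coprime_primes hp hl).mpr (Ne.symm hlp)
  have hpM : Nat.Coprime p (m' * l ^ K) := Nat.Coprime.mul_right hpm' (Nat.Coprime.pow_right _ hpl)
  have hD : IsDist p (m' * l ^ K) h := hh.lvl _ hM0 hpM
  have hcx : ∀ x : QZ, (m' * l ^ K) • x = 0 → (m' * l ^ K) • (c • x) = 0 := by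
    intro x hx
    rw [smul_comm, hx, smul_zero]
  have hcop : (m' : ℤ).natAbs.Coprime ((l ^ K : ℕ) : ℤ).natAbs := by
    rw [Int.natAbs_natCast, Int.natAbs_natCast]
    exact Nat.Coprime.pow_right _ ((Nat.Prime.coprime_iff_not_dvd hl).mpr hlm).symm
  have hcc : c * c ≡ 1 [ZMOD ((m' * l ^ K : ℕ) : ℤ)] := by
    have h1 : c * c ≡ 1 [ZMOD (m' : ℤ)] := by
      have := hc1.mul hc1
      simpa using this
    have h2 : c * c ≡ 1 [ZMOD ((l ^ K : ℕ) : ℤ)] := by
      have := hc2.mul hc2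
      simpa using this
    have h3 := (Int.modEq_and_modEq_iff_modEq_mul hcop).1 ⟨h1, h2⟩
    have e1 : ((m' * l ^ K : ℕ) : ℤ) = (m' : ℤ) * ((l ^ K : ℕ) : ℤ) := by push_cast; ring
    rw [e1]
    exact h3
  have hccx : ∀ x : QZ, (m' * l ^ K) • x = 0 → c • (c • x) = x := by
    intro x hx
    rw [← mul_smul, zsmul_congr hx hcc, one_smul]
  constructor
  · intro x hx
    show h (-x) + h (c • (-x)) = -(h x + h (c • x))
    rw [smul_neg, hD.neg x hx, hD.neg _ (hcx x hx)]
    abel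
  · intro x hx
    show h (p • x) + h (c • (p • x)) = h x + h (c • x)
    rw [smul_comm c p x, hD.frob x hx, hD.frob _ (hcx x hx)]
  · intro q hq hqd x hx
    have hqM : q ∣ m' * l ^ K := hqd.trans (mul_dvd_mul_left m' (dvd_pow_self l (by omega)))
    have hcq : IsCoprime c (q : ℤ) := by
      rcases (Nat.Prime.dvd_mul hq).mp hqd with h1 | h1
      · have h2 : c ≡ -1 [ZMOD (q : ℤ)] := hc1.of_dvd (by exact_mod_cast h1)
        obtain ⟨k, hk⟩ := h2.symm.dvd
        exact ⟨-1, k, by linear_combination (-1 : ℤ) * hk⟩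
      · have h2 : c ≡ 1 [ZMOD (q : ℤ)] := hc2.of_dvd (by
          have : q ∣ l ^ K := h1.trans (dvd_pow_self l (by omega))
          exact_mod_cast this)
        obtain ⟨k, hk⟩ := h2.symm.dvd
        exact ⟨1, -k, by linear_combination hk⟩
    show h (q • x) + h (c • (q • x)) = ∑ i ∈ range q, (h (x + i • e q) + h (c • (x + i • e q)))
    rw [Finset.sum_add_distrib, hD.dist q hq hqM x hx]
    congr 1
    rw [smul_comm c q x, hD.dist q hq hqM _ (hcx x hx)]
    have hper : ∀ i : ℤ, (fun i : ℤ => h (c • x + i • e q)) (i + (q : ℕ)) = (fun i : ℤ => h (c • x + i • e q)) i := by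
      intro i
      show h (c • x + (i + (q : ℤ)) • e q) = h (c • x + i • e q)
      rw [add_smul, natCast_zsmul, nsmul_e_self, add_zero]
    have h3 := per_mul (N := q) (K := fun i : ℤ => h (c • x + i • e q)) hper hcq
    calc ∑ i ∈ range q, h (c • x + i • e q) = ∑ i ∈ range q, h (c • x + (i : ℤ) • e q) :=
          Finset.sum_congr rfl fun i _ => by rw [natCast_zsmul]
      _ = ∑ i ∈ range q, h (c • x + (c * (i : ℤ)) • e q) := h3.symm
      _ = ∑ i ∈ range q, h (c • (x + i • e q)) :=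
          Finset.sum_congr rfl fun i _ => by rw [smul_add, mul_smul, natCast_zsmul]
  · intro x hx
    show h (-(c • x)) + h (c • (-(c • x))) = -(h x + h (c • x))
    rw [smul_neg, hccx x hx, hD.neg x hx, hD.neg _ (hcx x hx)]
    abel
  · intro x hx
    show h x + h (c • x) = 0
    have h1 : c • x = -x := by
      rw [zsmul_congr hx hc1, neg_smul, one_smul]
    rw [h1, hD.neg x (nsmul_eq_zero_of_dvd (dvd_mul_right _ _) hx), add_neg_cancel]
  · intro k x y hx hne hy
    show h (x + y) + h (c • (x + y)) = h x + h (c • x)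
    have hkK : k + v - 1 < K := by
      by_contra hcon
      push Not at hcon
      exact hne (nsmul_eq_zero_of_dvd (mul_dvd_mul_left m' (pow_dvd_pow l hcon)) hx)
    have hyK : (l ^ K) • y = 0 := nsmul_eq_zero_of_dvd (pow_dvd_pow l (by omega)) hy
    have hcy : c • y = y := by
      rw [zsmul_congr hyK hc2, one_smul]
    have hne' : (m' * l ^ (k + v - 1)) • (c • x) ≠ 0 := by
      intro h0
      apply hne
      have h1 : (m' * l ^ (k + v - 1)) • (c • (c • x)) = 0 := by
        rw [smul_comm, h0, smul_zero]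
      rwa [hccx x hx] at h1
    rw [smul_add, hcy, deep hp hl hlp hm' hpm' hlm hv hT hh k K x y hx hne hy,
      deep hp hl hlp hm' hpm' hlm hv hT hh k K (c • x) y (hcx x hx) hne' hy]

end Pool.Agent.Lib.MP_021685_agT
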