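import Pool.Agent.Lib.MP_021685_agT.Op2Defs

/-!
JOB Op2B. Basic properties of `g`.
-/

namespace Pool.Agent.Lib.MP_021685_agT

open Finset

variable {V : Type*} [AddCommGroup V]

/-- If `(m' l ^ a) x = 0` and `l ^ n s = x`, then `(m' l ^ (a + n)) s = 0`. -/
theorem tors_of_sec {l m' a n : ℕ} {x s : QZ} (hx : (m' * l ^ a) • x = 0) (hs : l ^ n • s = x) :
    (m' * l ^ (a + n)) • s = 0 := by
  rw [pow_add, ← mul_assoc, mul_smul, hs, hx]

/-- If `m' x ≠ 0`, `l ^ (n + 1) s = x`, then `(m' l ^ n) (s + y) ≠ 0` for every `y` with `l ^ (n + 1) y = 0`.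
Proof. Otherwise multiply by `l`: `0 = (m' l ^ (n + 1)) (s + y) = m' • x`. -/
theorem ne_of_sec {l m' n : ℕ} {x s y : QZ} (hx : m' • x ≠ 0)
    (hs : l ^ (n + 1) • s = x) (hy : l ^ (n + 1) • y = 0) : (m' * l ^ n) • (s + y) ≠ 0 := by
  intro h
  apply hx
  have h1 : (m' * l ^ (n + 1)) • (s + y) = 0 := by
    rw [pow_succ, ← mul_assoc, mul_comm _ l, mul_smul, h, smul_zero]
  rwa [mul_smul, smul_add, hs, hy, add_zero] at h1

/-- The function `i ↦ F (s + i / l ^ (v + j))`, `i : ℤ`, has period `l ^ v` if `l ^ (v + j) s = x`, `m' x ≠ 0`.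
Proof. `l ^ v • e (l ^ (v + j)) = e (l ^ j)` (`nsmul_e_mul`), killed by `l ^ j`; apply `Inv.deep` with `k = j` at
`s + i • e (l ^ (v + j))`; its hypothesis is `ne_of_sec` with `n + 1 = v + j` and `tors_of_sec`. -/
theorem inv_period {p l m' K v a j : ℕ} {c : ℤ} {F : QZ → V} (hl : l.Prime)
    (hF : Inv p l m' K v c F) (hv : 2 ≤ v) (hj : 1 ≤ j) (hK : a + v + j + 1 ≤ K)
    {x s : QZ} (hx : (m' * l ^ a) • x = 0) (hx' : m' • x ≠ 0) (hs : l ^ (v + j) • s = x) (i : ℤ) :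
    F (s + (i + (l ^ v : ℕ)) • e (l ^ (v + j))) = F (s + i • e (l ^ (v + j))) := by
  have hl0 : l ^ v ≠ 0 := pow_ne_zero _ hl.ne_zero
  have he : ((l ^ v : ℕ) : ℤ) • e (l ^ (v + j)) = e (l ^ j) := by
    rw [natCast_zsmul, pow_add, nsmul_e_mul' hl0]
  have hez : l ^ (v + j) • (i • e (l ^ (v + j))) = 0 := by
    rw [smul_comm, nsmul_e_self, smul_zero]
  rw [add_smul, ← add_assoc, he]
  refine hF.deep j _ _ ?_ ?_ (nsmul_e_self _)
  · rw [smul_add]
    have h1 : (m' * l ^ K) • s = 0 := by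
      refine nsmul_eq_zero_of_dvd ?_ (tors_of_sec hx hs)
      exact mul_dvd_mul_left _ (pow_dvd_pow _ (by omega))
    have h2 : (m' * l ^ K) • (i • e (l ^ (v + j))) = 0 := by
      refine nsmul_eq_zero_of_dvd ?_ hez
      exact Dvd.dvd.mul_left (pow_dvd_pow _ (by omega)) _
    rw [h1, h2, add_zero]
  · have hn : v + j = (j + v - 1) + 1 := by omega
    have hs' : l ^ ((j + v - 1) + 1) • s = x := by rw [← hn]; exact hs
    have hy' : l ^ ((j + v - 1) + 1) • (i • e (l ^ (v + j))) = 0 := by rw [← hn]; exact hez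
    exact ne_of_sec hx' hs' hy'

/-- `g x` can be computed with any `s` such that `l ^ (v + j) s = x`.
Proof. `sec (l ^ (v + j)) x = s + t • e (l ^ (v + j))` for some `t` (`exists_fibre`); then `per_shift` and
`inv_period`. -/
theorem gg_eq {p l m' K v a j : ℕ} {c : ℤ} {F : QZ → V} (hl : l.Prime)
    (hF : Inv p l m' K v c F) (hv : 2 ≤ v) (hj : 1 ≤ j) (hK : a + v + j + 1 ≤ K)
    {x s : QZ} (hx : (m' * l ^ a) • x = 0) (hx' : m' • x ≠ 0) (hs : l ^ (v + j) • s = x) :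
    gg l m' v j F x = ∑ i ∈ range (l ^ v), F (s + (i : ℤ) • e (l ^ (v + j))) := by
  have hl0 : l ^ (v + j) ≠ 0 := pow_ne_zero _ hl.ne_zero
  unfold gg
  rw [if_neg hx']
  obtain ⟨t, _, ht⟩ := exists_fibre hl0 ((sec_spec hl0 x).trans hs.symm)
  have hK := per_shift (N := l ^ v) (K := fun i : ℤ => F (s + i • e (l ^ (v + j))))
    (fun i => inv_period hl hF hv hj hK hx hx' hs i) t
  rw [← hK]
  refine Finset.sum_congr rfl fun i _ => ?_
  rw [ht, add_smul, natCast_zsmul, natCast_zsmul]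
  congr 1
  abel

/-- `g x = 0` if `m' x = 0`. -/
theorem gg_zero {l m' v j : ℕ} {F : QZ → V} {x : QZ} (hx : m' • x = 0) :
    gg l m' v j F x = 0 := by
  unfold gg
  rw [if_pos hx]

end Pool.Agent.Lib.MP_021685_agT
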