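import Pool.Agent.Lib.MP_021685_agT.Defs

/-!
JOB Per. Sums of periodic functions over one period.
-/

namespace Pool.Agent.Lib.MP_021685_agT

open Finset

variable {V : Type*} [AddCommGroup V]

/-- A sum over one period does not change under a translation.
Proof. It is enough to treat `t = 1` and `t = -1` (induction on `t : ℤ`, `Int.induction_on`), where
`Finset.sum_range_succ`, `Finset.sum_range_succ'` and `K N = K 0` give the claim. -/
theorem per_shift {N : ℕ} {K : ℤ → V} (hK : ∀ i, K (i + N) = K i) (t : ℤ) :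
    ∑ i ∈ range N, K (i + t) = ∑ i ∈ range N, K i := by
  have h1 : ∀ (K : ℤ → V), (∀ i, K (i + N) = K i) →
      ∑ i ∈ range N, K (i + 1) = ∑ i ∈ range N, K i := by
    intro K hK
    have h2 : ∑ i ∈ range N, K ((i : ℤ) + 1) = ∑ i ∈ range N, K (((i + 1 : ℕ) : ℤ)) := by
      refine Finset.sum_congr rfl fun i _ => ?_
      push_cast
      rfl
    have h3 := Finset.sum_range_succ (fun i : ℕ => K (i : ℤ)) N
    have h4 := Finset.sum_range_succ' (fun i : ℕ => K (i : ℤ)) N
    have h5 : K ((N : ℕ) : ℤ) = K ((0 : ℕ) : ℤ) := by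
      have := hK 0
      rw [zero_add] at this
      rw [this]
      rfl
    rw [h2]
    rw [h3, h5] at h4
    exact (add_right_cancel h4).symm
  have h6 : ∀ (t : ℕ) (K : ℤ → V), (∀ i, K (i + N) = K i) →
      ∑ i ∈ range N, K (i + t) = ∑ i ∈ range N, K i := by
    intro t
    induction t with
    | zero =>
      intro K _
      refine Finset.sum_congr rfl fun i _ => ?_
      simp
    | succ t ih =>
      intro K hK
      have h7 := ih (fun i => K (i + 1)) (fun i => by
        have := hK (i + 1)
        rw [← this]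
        congr 1
        ring)
      rw [← h1 K hK, ← h7]
      refine Finset.sum_congr rfl fun i _ => ?_
      have h8 : ((i : ℤ) + ((t + 1 : ℕ) : ℤ)) = (i : ℤ) + t + 1 := by
        push_cast
        ring
      rw [h8]
  obtain ⟨n, rfl | rfl⟩ := t.eq_nat_or_neg
  · exact h6 n K hK
  · have h8 := h6 n (fun i => K (i + (-(n : ℤ)))) (fun i => by
      have := hK (i + -(n : ℤ))
      rw [← this]
      congr 1
      ring)
    rw [← h8]
    refine Finset.sum_congr rfl fun i _ => ?_
    congr 1
    ring

/-- A sum over one period does not change under multiplication of the variable by `b` prime to `N`.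
Proof. `K` factors through `ZMod N` (`N ≠ 0`; the case `N = 0` is trivial, both sums are empty):
`K i = K' (i : ZMod N)` with `K' z = K z.val`; the sum over `range N` is the sum over `z : ZMod N` of
`K' z` (compare `sum_range_zmod` in `Pool/Agent/Lib/MP_021685_ag/Fermat2.lean`), and multiplication by the
unit `b` permutes `ZMod N`. -/
theorem per_mul {N : ℕ} {K : ℤ → V} (hK : ∀ i, K (i + N) = K i) {b : ℤ}
    (hb : IsCoprime b (N : ℤ)) :
    ∑ i ∈ range N, K (b * i) = ∑ i ∈ range N, K i := by
  rcases Nat.eq_zero_or_pos N with rfl | hN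
  · simp
  have : NeZero N := ⟨hN.ne'⟩
  have hper : ∀ (q : ℕ) (i : ℤ), K (i + N * q) = K i := by
    intro q
    induction q with
    | zero => intro i; simp
    | succ q ih =>
      intro i
      have h1 := hK (i + N * q)
      rw [ih i] at h1
      rw [← h1]
      congr 1
      push_cast
      ring
  have hper' : ∀ (q i : ℤ), K (i + N * q) = K i := by
    intro q i
    obtain ⟨n, rfl | rfl⟩ := q.eq_nat_or_neg
    · exact hper n i
    · have h1 := hper n (i + N * (-(n : ℤ)))
      rw [← h1]
      congr 1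
      ring
  have hcong : ∀ i j : ℤ, ((i : ℤ) : ZMod N) = ((j : ℤ) : ZMod N) → K i = K j := by
    intro i j hij
    rw [ZMod.intCast_eq_intCast_iff_dvd_sub] at hij
    obtain ⟨q, hq⟩ := hij
    have h1 := hper' q i
    rw [← h1]
    congr 1
    linarith
  have hsum : ∀ f : ℕ → V, ∑ i ∈ range N, f i = ∑ i : ZMod N, f i.val := by
    intro f
    symm
    refine Finset.sum_nbij' (fun i => i.val) (fun j => (j : ZMod N)) ?_ ?_ ?_ ?_ ?_
    · intro i _
      exact Finset.mem_range.2 (ZMod.val_lt i)
    · intro j _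
      exact Finset.mem_univ _
    · intro i _
      exact ZMod.natCast_zmod_val i
    · intro j hj
      exact ZMod.val_cast_of_lt (Finset.mem_range.1 hj)
    · intro i _
      rfl
  obtain ⟨u, v, huv⟩ := hb
  have hunit : ((u : ℤ) : ZMod N) * ((b : ℤ) : ZMod N) = 1 := by
    have h1 : (((u * b + v * N : ℤ)) : ZMod N) = ((1 : ℤ) : ZMod N) := by rw [huv]
    push_cast at h1
    rw [ZMod.natCast_self, mul_zero, add_zero] at h1
    exact h1
  set B : (ZMod N)ˣ := ⟨(b : ZMod N), (u : ZMod N), by rw [mul_comm]; exact hunit, hunit⟩ with hB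
  rw [hsum (fun i => K (b * i)), hsum (fun i => K i)]
  rw [← Equiv.sum_comp (Units.mulLeft B) (fun i : ZMod N => K (i.val : ℤ))]
  refine Finset.sum_congr rfl fun i _ => ?_
  apply hcong
  rw [Units.mulLeft_apply]
  push_cast
  rw [ZMod.natCast_zmod_val, ZMod.natCast_zmod_val]

/-- Sum over `q` periods (`Finset.sum_range_add` and induction on `q`). -/
theorem per_mul_card {N q : ℕ} {K : ℤ → V} (hK : ∀ i, K (i + N) = K i) :
    ∑ i ∈ range (q * N), K i = q • ∑ i ∈ range N, K i := by
  induction q with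
  | zero => simp
  | succ q ih =>
    have h1 : ∀ (q : ℕ) (i : ℤ), K ((q * N : ℕ) + i) = K i := by
      intro q
      induction q with
      | zero => intro i; simp
      | succ q ih =>
        intro i
        have h2 := hK (((q * N : ℕ) : ℤ) + i)
        rw [ih i] at h2
        rw [← h2]
        congr 1
        push_cast
        ring
    rw [add_mul, one_mul, Finset.sum_range_add, ih, add_smul, one_smul]
    congr 1
    refine Finset.sum_congr rfl fun i _ => ?_
    rw [← h1 q (i : ℤ)]
    congr 1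

/-- Sum over `range (a * b)` written `i = t + a * s` (no periodicity).
Proof. Induction on `b`, `Finset.sum_range_add`, `Finset.sum_range_succ`, `Finset.sum_comm`. -/
theorem sum_range_mul_split (K : ℕ → V) (a b : ℕ) :
    ∑ i ∈ range (a * b), K i = ∑ t ∈ range a, ∑ s ∈ range b, K (t + a * s) := by
  induction b with
  | zero => simp
  | succ b ih =>
    rw [mul_add, mul_one, Finset.sum_range_add, ih, ← Finset.sum_add_distrib]
    refine Finset.sum_congr rfl fun t _ => ?_
    rw [Finset.sum_range_succ, add_comm (a * b) t]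

/-- An odd function on the integers prime to `l` modulo `N = l ^ n > 2` has sum zero over one
period. Here `K` is `N`-periodic on the integers prime to `l` and `K (-i) = - K i` there.
Proof. `Finset.sum_involution` with `i ↦ (N - i)` on `{i ∈ range N | ¬ l ∣ i}` (here `1 ≤ n`, so `l ∣ N` and
`i ≠ 0` for `i` in this set): `K i + K (N - i) = K i + K (-i) = 0` and `N - i ≠ i`, since `2 * i = N = l ^ n` would
give, as `l` is prime and `¬ l ∣ i`: `l ∣ 2`, so `l = 2` and `i = 2 ^ (n - 1)`, so `n = 1` (`¬ 2 ∣ i`), `N = 2`. -/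
theorem per_odd {l n : ℕ} (hl : l.Prime) (hN : 2 < l ^ n) {K : ℤ → V}
    (hK : ∀ i : ℤ, ¬ (l : ℤ) ∣ i → K (i + (l ^ n : ℕ)) = K i)
    (hneg : ∀ i : ℤ, ¬ (l : ℤ) ∣ i → K (-i) = - K i) :
    ∑ i ∈ (range (l ^ n)).filter (fun i => ¬ l ∣ i), K (i : ℤ) = 0 := by
  have hn : n ≠ 0 := by
    rintro rfl
    rw [pow_zero] at hN
    omega
  have hdvd : l ∣ l ^ n := dvd_pow_self l hn
  have hne0 : ∀ i : ℕ, ¬ l ∣ i → i ≠ 0 := by
    intro i hi h0
    apply hi
    rw [h0]
    exact dvd_zero l
  have hcast : ∀ i : ℕ, i < l ^ n → ((l ^ n - i : ℕ) : ℤ) = -(i : ℤ) + (l ^ n : ℕ) := by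
    intro i hi
    rw [Nat.cast_sub hi.le]
    ring
  have hndvd : ∀ i : ℕ, i < l ^ n → ¬ l ∣ i → ¬ l ∣ l ^ n - i := by
    intro i hi h1 h2
    apply h1
    have h3 := (Nat.dvd_sub hdvd h2)
    rwa [Nat.sub_sub_self hi.le] at h3
  have hval : ∀ i : ℕ, i < l ^ n → ¬ l ∣ i → K ((l ^ n - i : ℕ) : ℤ) = - K (i : ℤ) := by
    intro i hi h1
    have h2 : ¬ (l : ℤ) ∣ (i : ℤ) := fun h => h1 (Int.natCast_dvd_natCast.1 h)
    rw [hcast i hi, hK (-(i : ℤ)) (fun h => h2 ((dvd_neg).1 h)), hneg (i : ℤ) h2]
  refine Finset.sum_involution (fun i _ => l ^ n - i) ?_ ?_ ?_ ?_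
  · intro i hi
    rw [Finset.mem_filter, Finset.mem_range] at hi
    rw [hval i hi.1 hi.2, add_neg_cancel]
  · intro i hi _ heq
    rw [Finset.mem_filter, Finset.mem_range] at hi
    have h1 : 2 * i = l ^ n := by
      have := hi.1
      omega
    have h2 : l ∣ 2 * i := by rw [h1]; exact hdvd
    have h3 : l ∣ 2 := ((Nat.Prime.dvd_mul hl).1 h2).resolve_right hi.2
    have h4 : l = 2 := (Nat.prime_dvd_prime_iff_eq hl Nat.prime_two).1 h3
    subst h4
    obtain ⟨k, rfl⟩ := Nat.exists_eq_succ_of_ne_zero hn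
    rw [Nat.succ_eq_add_one, pow_succ] at h1 hN
    have h5 : i = 2 ^ k := by omega
    rcases Nat.eq_zero_or_pos k with h6 | h6
    · rw [h6] at hN
      norm_num at hN
    · apply hi.2
      rw [h5]
      exact dvd_pow_self 2 h6.ne'
  · intro i hi
    rw [Finset.mem_filter, Finset.mem_range] at hi ⊢
    refine ⟨?_, hndvd i hi.1 hi.2⟩
    have h1 := hne0 i hi.2
    omega
  · intro i hi
    rw [Finset.mem_filter, Finset.mem_range] at hi
    exact Nat.sub_sub_self hi.1.le

end Pool.Agent.Lib.MP_021685_agT
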