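import Pool.Agent.Lib.MP_021685_agT.Deep
import Pool.Agent.Lib.MP_021685_agT.Per

/-!
Definitions for step (3b), (3c).
-/

namespace Pool.Agent.Lib.MP_021685_agT

open Finset

/-- Properties of `F x = h x + h (c x)`, `c ≡ -1 mod m'`, `c ≡ 1 mod l ^ K`. -/
structure Inv (p l m' K v : ℕ) (c : ℤ) {V : Type*} [AddCommGroup V] (F : QZ → V) : Prop where
  neg : ∀ x : QZ, (m' * l ^ K) • x = 0 → F (-x) = - F x
  frob : ∀ x : QZ, (m' * l ^ K) • x = 0 → F (p • x) = F x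
  dist : ∀ q : ℕ, q.Prime → q ∣ m' * l → ∀ x : QZ, (m' * l ^ K) • x = 0 →
    F (q • x) = ∑ i ∈ range q, F (x + i • e q)
  anti : ∀ x : QZ, (m' * l ^ K) • x = 0 → F (-(c • x)) = - F x
  triv : ∀ x : QZ, m' • x = 0 → F x = 0
  deep : ∀ (k : ℕ) (x y : QZ), (m' * l ^ K) • x = 0 → (m' * l ^ (k + v - 1)) • x ≠ 0 →
    l ^ k • y = 0 → F (x + y) = F x

/-- A chosen `y` with `n • y = x` (for `n ≠ 0`). -/
noncomputable def sec (n : ℕ) (x : QZ) : QZ :=
  if hn : n ≠ 0 then Classical.choose (exists_nsmul_eq hn x) else 0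

lemma sec_spec {n : ℕ} (hn : n ≠ 0) (x : QZ) : n • sec n x = x := by
  unfold sec
  rw [dif_pos hn]
  exact Classical.choose_spec (exists_nsmul_eq hn x)

open Classical in
/-- The function `g` of step (3c). -/
noncomputable def gg {V : Type*} [AddCommGroup V] (l m' v j : ℕ) (F : QZ → V) (x : QZ) : V :=
  if m' • x = 0 then 0
  else ∑ i ∈ range (l ^ v), F (sec (l ^ (v + j)) x + i • e (l ^ (v + j)))

end Pool.Agent.Lib.MP_021685_agT
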