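import Pool.Agent.Lib.MP_021685_agT.ParDefs
import Pool.Agent.Lib.MP_021685_agT.KeyA

/-!
JOB ParA. Points of the same odd order.
-/

namespace Pool.Agent.Lib.MP_021685_agT

open Finset

variable {V : Type*} [AddCommGroup V]

theorem div2_same_order {p : ℕ} (hp : p.Prime) {h : QZ → V} (hh : IsDistG p h) {x y : QZ}
    (hx : Odd (addOrderOf x)) (hpx : Nat.Coprime p (addOrderOf x))
    (hxy : addOrderOf x = addOrderOf y) : Div2 (h x - h y) := by
  set N := addOrderOf x with hN
  have hN0 : N ≠ 0 := by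
    intro h0
    rw [h0] at hx
    exact (by decide : ¬ Odd 0) hx
  have hxN : N • x = 0 := addOrderOf_nsmul_eq_zero x
  have hyN : N • y = 0 := by rw [hxy]; exact addOrderOf_nsmul_eq_zero y
  obtain ⟨i, hi, hxi⟩ := exists_nsmul_e hN0 hxN
  obtain ⟨j, hj, hyj⟩ := exists_nsmul_e hN0 hyN
  have hord : addOrderOf (e N) = N := by
    apply Nat.dvd_antisymm (addOrderOf_dvd_of_nsmul_eq_zero (nsmul_e_self N))
    have := addOrderOf_nsmul_eq_zero (e N)
    exact (nsmul_e_eq_zero_iff hN0 _).1 this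
  have hic : Nat.Coprime N i := by
    have h1 : addOrderOf (i • e N) = N := by rw [← hxi]
    rcases Nat.eq_zero_or_pos i with h0 | h0
    · subst h0
      rw [zero_smul, addOrderOf_zero] at h1
      rw [← h1]
      simp
    · rw [addOrderOf_nsmul' _ h0.ne', hord] at h1
      have h2 : Nat.gcd N i ∣ N := Nat.gcd_dvd_left _ _
      have h3 := Nat.div_mul_cancel h2
      rw [h1] at h3
      exact Nat.eq_of_mul_eq_mul_left (Nat.pos_of_ne_zero hN0) (by rw [h3, mul_one])
  have hjc : Nat.Coprime N j := by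
    have h1 : addOrderOf (j • e N) = N := by rw [← hyj, ← hxy]
    rcases Nat.eq_zero_or_pos j with h0 | h0
    · subst h0
      rw [zero_smul, addOrderOf_zero] at h1
      rw [← h1]
      simp
    · rw [addOrderOf_nsmul' _ h0.ne', hord] at h1
      have h2 : Nat.gcd N j ∣ N := Nat.gcd_dvd_left _ _
      have h3 := Nat.div_mul_cancel h2
      rw [h1] at h3
      exact Nat.eq_of_mul_eq_mul_left (Nat.pos_of_ne_zero hN0) (by rw [h3, mul_one])
  -- the inverse of `i` modulo `N`
  obtain ⟨i', hi'⟩ : ∃ i' : ℕ, i' * i ≡ 1 [MOD N] := by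
    have h1 : IsUnit ((i : ℕ) : ZMod N) := (ZMod.isUnit_iff_coprime i N).2 hic.symm
    have : NeZero N := ⟨hN0⟩
    obtain ⟨b, hb⟩ := h1.exists_left_inv
    refine ⟨b.val, ?_⟩
    rw [← ZMod.natCast_eq_natCast_iff]
    push_cast
    rw [ZMod.natCast_zmod_val, hb]
  have hyx : y = (j * i') • x := by
    rw [hyj]
    conv_rhs => rw [hxi]
    rw [← mul_smul]
    refine nsmul_congr (nsmul_e_self N) ?_
    have := hi'.mul_left j
    rw [mul_one, ← mul_assoc] at this
    exact this.symm
  have hcop : Nat.Coprime (j * i') N := by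
    refine Nat.Coprime.mul_left hjc.symm ?_
    have h1 := hi'.gcd_eq
    have h2 : Nat.Coprime (i' * i) N := by
      unfold Nat.Coprime
      rw [h1]
      simp
    exact Nat.Coprime.coprime_dvd_left (dvd_mul_right _ _) h2
  have h2N : Nat.Coprime 2 N := (Nat.coprime_two_left).2 hx
  obtain ⟨G, n, hG, ⟨n', hn⟩, H⟩ := class_identity (a := 0) hp Nat.prime_two hN0
    (by simpa using hpx) hpx h2N hcop (by rw [pow_zero]; exact Nat.modEq_one) 1 hh
  rw [pow_zero, mul_one] at H
  have h1 := H x hxN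
  rw [← hyx] at h1
  refine ⟨-(n' • G x), ?_⟩
  rw [h1, hn, pow_one, mul_smul, smul_neg]
  abel

end Pool.Agent.Lib.MP_021685_agT
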