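import Mathlib

/-!
The group `ℚ / ℤ` and its elements `e n = 1 / n`.
-/

namespace Pool.Agent.Lib.MP_021685_agT

open Finset

/-- The group `ℚ / ℤ`. -/
abbrev QZ : Type := AddCircle (1 : ℚ)

/-- The class of `1 / n`. -/
def e (n : ℕ) : QZ := ((1 / (n : ℚ) : ℚ) : AddCircle (1 : ℚ))

lemma zsmul_e (n : ℕ) (j : ℤ) : j • e n = ((j / (n : ℚ) : ℚ) : AddCircle (1 : ℚ)) := by
  unfold e
  rw [← AddCircle.coe_zsmul]
  congr 1
  rw [zsmul_eq_mul]
  ring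

lemma nsmul_e' (n j : ℕ) : j • e n = ((j / (n : ℚ) : ℚ) : AddCircle (1 : ℚ)) := by
  have := zsmul_e n j
  rwa [natCast_zsmul, Int.cast_natCast] at this

lemma zsmul_e_eq_zero_iff {n : ℕ} (hn : n ≠ 0) (j : ℤ) : j • e n = 0 ↔ (n : ℤ) ∣ j := by
  rw [zsmul_e, AddCircle.coe_eq_zero_iff]
  have hn' : (n : ℚ) ≠ 0 := Nat.cast_ne_zero.2 hn
  constructor
  · rintro ⟨k, hk⟩
    rw [zsmul_eq_mul, mul_one, eq_div_iff hn'] at hk
    refine ⟨k, ?_⟩
    have : ((k * n : ℤ) : ℚ) = (j : ℚ) := by push_cast; exact hk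
    have h2 : k * n = j := by exact_mod_cast this
    rw [← h2]
    ring
  · rintro ⟨k, hk⟩
    refine ⟨k, ?_⟩
    rw [hk, zsmul_eq_mul, mul_one]
    push_cast
    field_simp

lemma nsmul_e_eq_zero_iff {n : ℕ} (hn : n ≠ 0) (j : ℕ) : j • e n = 0 ↔ n ∣ j := by
  rw [← natCast_zsmul, zsmul_e_eq_zero_iff hn, Int.natCast_dvd_natCast]

@[simp] lemma nsmul_e_self (n : ℕ) : n • e n = 0 := by
  rcases Nat.eq_zero_or_pos n with rfl | h
  · simp
  · rw [nsmul_e_eq_zero_iff h.ne']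

@[simp] lemma e_one : e 1 = 0 := by
  have := nsmul_e_self 1
  rwa [one_smul] at this

lemma nsmul_e_mul {k : ℕ} (hk : k ≠ 0) (n : ℕ) : k • e (n * k) = e n := by
  rw [nsmul_e']
  unfold e
  congr 1
  have hk' : (k : ℚ) ≠ 0 := Nat.cast_ne_zero.2 hk
  push_cast
  rcases eq_or_ne (n : ℚ) 0 with h | h
  · rw [h]; simp
  · field_simp

lemma nsmul_e_mul' {k : ℕ} (hk : k ≠ 0) (n : ℕ) : k • e (k * n) = e n := by
  rw [mul_comm, nsmul_e_mul hk]

/-- `e n = (m / n) • e m` for `n ∣ m`. -/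
lemma e_of_dvd {n m : ℕ} (hm : m ≠ 0) (h : n ∣ m) : e n = (m / n) • e m := by
  obtain ⟨k, rfl⟩ := h
  have hn : n ≠ 0 := fun h => hm (by rw [h, zero_mul])
  have hk : k ≠ 0 := fun h => hm (by rw [h, mul_zero])
  rw [Nat.mul_div_cancel_left _ (Nat.pos_of_ne_zero hn), nsmul_e_mul hk]

/-- `m`-torsion elements are multiples of `e m`. -/
lemma exists_nsmul_e {m : ℕ} (hm : m ≠ 0) {x : QZ} (hx : m • x = 0) :
    ∃ j : ℕ, j < m ∧ x = j • e m := by
  obtain ⟨q, rfl⟩ := QuotientAddGroup.mk_surjective x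
  have hm' : (m : ℚ) ≠ 0 := Nat.cast_ne_zero.2 hm
  have h1 : ((m • q : ℚ) : AddCircle (1 : ℚ)) = 0 := by
    rw [AddCircle.coe_nsmul]; exact hx
  rw [AddCircle.coe_eq_zero_iff] at h1
  obtain ⟨k, hk⟩ := h1
  rw [zsmul_eq_mul, mul_one, nsmul_eq_mul] at hk
  have hq : q = k / m := by rw [hk]; field_simp
  have h3 : ((QuotientAddGroup.mk q : QZ)) = k • e m := by
    rw [zsmul_e, ← hq]
  refine ⟨(k % m).toNat, ?_, ?_⟩
  · have h1 := Int.emod_nonneg k (Int.natCast_ne_zero.2 hm)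
    have h2 := Int.emod_lt_of_pos k (Int.natCast_pos.2 (Nat.pos_of_ne_zero hm))
    omega
  · rw [h3, ← natCast_zsmul, Int.toNat_of_nonneg (Int.emod_nonneg k (Int.natCast_ne_zero.2 hm))]
    have h4 : k = m * (k / m) + k % m := (Int.mul_ediv_add_emod k m).symm
    have h5 : ((m : ℤ) * (k / m)) • e m = 0 := by
      rw [zsmul_e_eq_zero_iff hm]
      exact dvd_mul_right _ _
    conv_lhs => rw [h4, add_smul, h5, zero_add]

lemma exists_nsmul_eq {n : ℕ} (hn : n ≠ 0) (x : QZ) : ∃ y : QZ, n • y = x := by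
  obtain ⟨q, rfl⟩ := QuotientAddGroup.mk_surjective x
  have hn' : (n : ℚ) ≠ 0 := Nat.cast_ne_zero.2 hn
  refine ⟨((q / n : ℚ) : AddCircle (1 : ℚ)), ?_⟩
  rw [← AddCircle.coe_nsmul]
  have : n • (q / n : ℚ) = q := by rw [nsmul_eq_mul]; field_simp
  rw [this]

lemma exists_nsmul_eq_zero (x : QZ) : ∃ n : ℕ, n ≠ 0 ∧ n • x = 0 := by
  obtain ⟨q, rfl⟩ := QuotientAddGroup.mk_surjective x
  refine ⟨q.den, q.den_nz, ?_⟩
  have h1 : ((q.den • q : ℚ) : AddCircle (1 : ℚ)) = 0 := by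
    rw [AddCircle.coe_eq_zero_iff]
    refine ⟨q.num, ?_⟩
    rw [zsmul_eq_mul, mul_one, nsmul_eq_mul, mul_comm, Rat.mul_den_eq_num]
  rw [AddCircle.coe_nsmul] at h1
  exact h1

/-- Elements of the same fibre of multiplication by `n`. -/
lemma exists_fibre {n : ℕ} (hn : n ≠ 0) {y y' : QZ} (h : n • y = n • y') :
    ∃ i : ℕ, i < n ∧ y = y' + i • e n := by
  have h1 : n • (y - y') = 0 := by rw [smul_sub, h, sub_self]
  obtain ⟨i, hi, h2⟩ := exists_nsmul_e hn h1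
  exact ⟨i, hi, by rw [← h2]; abel⟩

/-- Integer multiples modulo `m` on `m`-torsion. -/
lemma zsmul_congr {m : ℕ} {x : QZ} (hx : m • x = 0) {a b : ℤ} (h : a ≡ b [ZMOD m]) :
    a • x = b • x := by
  obtain ⟨k, hk⟩ := h.symm.dvd
  have : a = b + m * k := by linarith
  rw [this, add_smul, mul_comm, mul_smul, natCast_zsmul, hx, smul_zero, add_zero]

lemma nsmul_congr {m : ℕ} {x : QZ} (hx : m • x = 0) {a b : ℕ} (h : a ≡ b [MOD m]) :
    a • x = b • x := by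
  rw [← natCast_zsmul, ← natCast_zsmul]
  exact zsmul_congr hx (Int.natCast_modEq_iff.2 h)

/-- Torsion for coprime orders. -/
lemma eq_zero_of_coprime {m n : ℕ} (h : Nat.Coprime m n) {x : QZ} (hm : m • x = 0)
    (hn : n • x = 0) : x = 0 := by
  have h1 := addOrderOf_dvd_of_nsmul_eq_zero hm
  have h2 := addOrderOf_dvd_of_nsmul_eq_zero hn
  have h3 := Nat.dvd_gcd h1 h2
  rw [h, Nat.dvd_one, AddMonoid.addOrderOf_eq_one_iff] at h3
  exact h3

lemma nsmul_eq_zero_of_dvd {m n : ℕ} (h : m ∣ n) {x : QZ} (hm : m • x = 0) : n • x = 0 := by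
  obtain ⟨k, rfl⟩ := h
  rw [mul_comm, mul_smul, hm, smul_zero]

end Pool.Agent.Lib.MP_021685_agT
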