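import Pool.Agent.Lib.MP_021685_agT.S1Defs

/-!
JOB S1A. Eigen-distributions vanishing at one point vanish.
-/

namespace Pool.Agent.Lib.MP_021685_agT

open Finset

/-- multiplication of a point by a unit -/
private theorem S1A_mul {m : ℕ} [NeZero m] {n : ℕ} (hn : n ∣ m) (g : (ZMod m)ˣ) {j j' : ℕ}
    (hg : (ZMod.unitsMap hn g : ZMod n) * (j : ZMod n) = (j' : ZMod n)) :
    (g : ZMod m) * ((m / n * j : ℕ) : ZMod m) = ((m / n * j' : ℕ) : ZMod m) := by
  rw [ZMod.unitsMap_val, ← ZMod.natCast_val, ← Nat.cast_mul, ZMod.natCast_eq_natCast_iff] at hg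
  have h1 : (g : ZMod m) = (((g : ZMod m).val : ℕ) : ZMod m) := (ZMod.natCast_zmod_val _).symm
  rw [h1, ← Nat.cast_mul, ZMod.natCast_eq_natCast_iff]
  have h2 := hg.mul_left' (m / n)
  rw [Nat.div_mul_cancel hn] at h2
  rw [show (g : ZMod m).val * (m / n * j) = m / n * ((g : ZMod m).val * j) by ring]
  exact h2

/-- reduced form of a point -/
private theorem S1A_red {m : ℕ} [NeZero m] {n : ℕ} (hn : n ∣ m) (j : ℕ) (hj : 0 < n) :
    ∃ n' j' : ℕ, n' ∣ n ∧ n' * Nat.gcd j n = n ∧ Nat.Coprime j' n' ∧
      ((m / n * j : ℕ) : ZMod m) = ((m / n' * j' : ℕ) : ZMod m) := by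
  have hg : 0 < Nat.gcd j n := Nat.gcd_pos_of_pos_right _ hj
  have hgn : Nat.gcd j n ∣ n := Nat.gcd_dvd_right _ _
  have hgj : Nat.gcd j n ∣ j := Nat.gcd_dvd_left _ _
  refine ⟨n / Nat.gcd j n, j / Nat.gcd j n, Nat.div_dvd_of_dvd hgn, Nat.div_mul_cancel hgn,
    Nat.coprime_div_gcd_div_gcd hg, ?_⟩
  have h1 : m / (n / Nat.gcd j n) = m / n * Nat.gcd j n := by
    have hn' : 0 < n / Nat.gcd j n := Nat.div_pos (Nat.le_of_dvd hj hgn) hg
    refine Nat.div_eq_of_eq_mul_left hn' ?_
    calc m = m / n * n := (Nat.div_mul_cancel hn).symm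
      _ = m / n * (Nat.gcd j n * (n / Nat.gcd j n)) := by rw [Nat.mul_div_cancel' hgn]
      _ = m / n * Nat.gcd j n * (n / Nat.gcd j n) := by ring
  rw [h1]
  congr 1
  calc m / n * j = m / n * (Nat.gcd j n * (j / Nat.gcd j n)) := by rw [Nat.mul_div_cancel' hgj]
    _ = _ := by ring

private theorem S1A_main {m : ℕ} [NeZero m] (χ : DirichletCharacter ℂ m) {h : ZMod m → ℂ}
    (hh : IsDZ m h) (hχ : ∀ (g : (ZMod m)ˣ) (a : ZMod m), h ((g : ZMod m) * a) = χ (g : ZMod m) * h a)
    (h0 : h ((m / χ.conductor : ℕ) : ZMod m) = 0) (n : ℕ) :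
    ∀ (_ : n ∣ m) (k : ℕ), Nat.Coprime k n → h ((m / n * k : ℕ) : ZMod m) = 0 := by
  induction n using Nat.strong_induction_on with
  | _ n ih =>
    intro hn k hk
    have hm0 : 0 < m := Nat.pos_of_ne_zero (NeZero.ne m)
    have hn0 : 0 < n := Nat.pos_of_dvd_of_pos hn hm0
    have hc0 : 0 < χ.conductor := Nat.pos_of_ne_zero χ.conductor_ne_zero
    by_cases hcn : χ.conductor ∣ n
    swap
    · -- the character is not trivial on units congruent to 1 modulo n
      have h1 : ¬ (ZMod.unitsMap hn).ker ≤ χ.toUnitHom.ker := by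
        intro hcon
        exact hcn (χ.conductor_dvd_of_mem_conductorSet
          ((DirichletCharacter.factorsThrough_iff_ker_unitsMap hn).2 hcon))
      obtain ⟨g, hg1, hg2⟩ := SetLike.not_le_iff_exists.1 h1
      rw [MonoidHom.mem_ker] at hg1 hg2
      have h2 : (g : ZMod m) * ((m / n * k : ℕ) : ZMod m) = ((m / n * k : ℕ) : ZMod m) := by
        refine S1A_mul hn g ?_
        rw [hg1]
        simp
      have h3 := hχ g ((m / n * k : ℕ) : ZMod m)
      rw [h2] at h3
      have h4 : χ (g : ZMod m) ≠ 1 := by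
        intro hcon
        apply hg2
        rw [← Units.val_inj, MulChar.coe_toUnitHom]
        simpa using hcon
      have h5 : (χ (g : ZMod m) - 1) * h ((m / n * k : ℕ) : ZMod m) = 0 := by
        rw [sub_mul, one_mul, ← h3, sub_self]
      rcases mul_eq_zero.1 h5 with h6 | h6
      · exact absurd (sub_eq_zero.1 h6) h4
      · exact h6
    by_cases hcn' : n = χ.conductor
    · obtain ⟨g, hg⟩ := ZMod.unitsMap_surjective hn (ZMod.unitOfCoprime k hk)
      have h2 : (g : ZMod m) * ((m / n * 1 : ℕ) : ZMod m) = ((m / n * k : ℕ) : ZMod m) := by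
        refine S1A_mul hn g ?_
        rw [hg, ZMod.coe_unitOfCoprime]
        simp
      rw [← h2, hχ, mul_one, hcn', h0, mul_zero]
    · obtain ⟨q, hq⟩ := hcn
      have hq1 : q ≠ 1 := by
        rintro rfl
        exact hcn' (by rw [hq, mul_one])
      obtain ⟨l, hl, r, hr⟩ := Nat.exists_prime_and_dvd hq1
      have hl0 := hl.pos
      -- n = c * l * r
      set n' := χ.conductor * r with hn'
      have hnn : n = l * n' := by rw [hq, hr, hn']; ring
      have hn'0 : 0 < n' := by
        rcases Nat.eq_zero_or_pos n' with h1 | h1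
        · rw [h1, mul_zero] at hnn
          omega
        · exact h1
      have hn'n : n' ∣ n := ⟨l, by rw [hnn]; ring⟩
      have hn'm : n' ∣ m := hn'n.trans hn
      have hln : l ∣ n := ⟨n', hnn⟩
      have hlm : l ∣ m := hln.trans hn
      have hlt : n' < n := by
        rw [hnn]
        have := hl.two_le
        nlinarith
      have hmn : m = m / n * (l * n') := by rw [← hnn, Nat.div_mul_cancel hn]
      have e1 : m / n' = m / n * l := by
        refine Nat.div_eq_of_eq_mul_left hn'0 ?_
        calc m = m / n * (l * n') := hmn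
          _ = _ := by ring
      have e2 : m / l = m / n * n' := by
        refine Nat.div_eq_of_eq_mul_left hl0 ?_
        calc m = m / n * (l * n') := hmn
          _ = _ := by ring
      have hkn' : Nat.Coprime k n' := hk.coprime_dvd_right hn'n
      have h1 : h ((l : ZMod m) * ((m / n * k : ℕ) : ZMod m)) = 0 := by
        have h2 := ih n' hlt hn'm k hkn'
        rw [e1] at h2
        rw [← Nat.cast_mul]
        rw [show l * (m / n * k) = m / n * l * k by ring]
        exact h2
      rw [hh.dist l hl hlm] at h1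
      -- the terms
      have hterm : ∀ i ∈ range l, h (((m / n * k : ℕ) : ZMod m) + ((i * (m / l) : ℕ) : ZMod m)) =
          (if Nat.Coprime (k + i * n') n then (1 : ℂ) else 0) * h ((m / n * k : ℕ) : ZMod m) := by
        intro i _
        have h2 : ((m / n * k : ℕ) : ZMod m) + ((i * (m / l) : ℕ) : ZMod m) =
            ((m / n * (k + i * n') : ℕ) : ZMod m) := by
          rw [e2]
          push_cast
          ring
        rw [h2]
        split_ifs with hcop
        · -- same orbit under a unit congruent to 1 modulo n'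
          obtain ⟨g, hg⟩ := ZMod.unitsMap_surjective hn
            (ZMod.unitOfCoprime (k + i * n') hcop * (ZMod.unitOfCoprime k hk)⁻¹)
          have h3 : (g : ZMod m) * ((m / n * k : ℕ) : ZMod m) = ((m / n * (k + i * n') : ℕ) : ZMod m) := by
            refine S1A_mul hn g ?_
            rw [hg, ← ZMod.coe_unitOfCoprime k hk, ← Units.val_mul, inv_mul_cancel_right,
              ZMod.coe_unitOfCoprime]
          have h4 : ZMod.unitsMap hn'm g = 1 := by
            rw [← ZMod.unitsMap_comp hn'n hn, MonoidHom.comp_apply, hg, map_mul, map_inv, mul_inv_eq_one]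
            apply Units.ext
            rw [ZMod.unitsMap_val, ZMod.unitsMap_val, ZMod.coe_unitOfCoprime, ZMod.coe_unitOfCoprime,
              ZMod.cast_natCast hn'n, ZMod.cast_natCast hn'n]
            push_cast
            simp
          have h5 : DirichletCharacter.FactorsThrough χ n' :=
            χ.factorsThrough_conductor.mono χ ⟨r, hn'⟩ hn'm
          have h6 := (DirichletCharacter.factorsThrough_iff_ker_unitsMap hn'm).1 h5
            ((MonoidHom.mem_ker).2 h4)
          rw [MonoidHom.mem_ker] at h6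
          have h7 : χ (g : ZMod m) = 1 := by
            have := congrArg Units.val h6
            rw [MulChar.coe_toUnitHom] at this
            simpa using this
          rw [← h3, hχ, h7]
        · obtain ⟨n₁, j₁, hd, hmul, hcop1, heq⟩ := S1A_red (m := m) hn (k + i * n') hn0
          rw [heq, zero_mul]
          refine ih n₁ ?_ (hd.trans hn) j₁ hcop1
          have hg1 : Nat.gcd (k + i * n') n ≠ 1 := hcop
          have hg0 : 0 < Nat.gcd (k + i * n') n := Nat.gcd_pos_of_pos_right _ hn0
          have hn1 : 0 < n₁ := Nat.pos_of_dvd_of_pos hd hn0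
          calc n₁ < n₁ * Nat.gcd (k + i * n') n := by
                have : 2 ≤ Nat.gcd (k + i * n') n := by omega
                nlinarith
            _ = n := hmul
      rw [Finset.sum_congr rfl hterm, ← Finset.sum_mul] at h1
      rcases mul_eq_zero.1 h1 with h2 | h2
      · exfalso
        rw [Finset.sum_boole] at h2
        have h3 : ((range l).filter (fun i => Nat.Coprime (k + i * n') n)).card ≠ 0 := by
          rw [Finset.card_ne_zero]
          refine ⟨0, ?_⟩
          rw [Finset.mem_filter, Finset.mem_range]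
          exact ⟨hl0, by simpa using hk⟩
        exact h3 (by exact_mod_cast h2)
      · exact h2

/-- A distribution `h` with `h (g a) = χ(g) h(a)` for the units `g` and `h (m / c) = 0`, `c` the conductor of `χ`, is zero.

Proof. Strong induction on the order `n` of `a` (`n ∣ m`). Write `a = (m / n) k` with `k` prime to `n`.
(1) If `c ∤ n`: there is a unit `g` of `ZMod m`, `g ≡ 1 mod n`, with `χ g ≠ 1` (otherwise `χ` factors through `n`,
`DirichletCharacter.factorsThrough_iff_ker_unitsMap`, so `c ∣ n` by `DirichletCharacter.conductor_dvd_of_mem_conductorSet`).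
`g * a = a` (`(g - 1) (m / n) = 0`), so `h a = χ g * h a`, `h a = 0`.
(2) If `n = c`: `a = g * (m / c)` with a unit `g` (lift `k` to a unit of `ZMod m`: `ZMod.unitsMap_surjective`), `h a = χ g * 0 = 0`.
(3) Otherwise `c ∣ n`, `c ≠ n`; let `l` be a prime dividing `n / c`. `l * a` has order `n / l < n`, so `h (l * a) = 0` by induction. In
`h (l * a) = ∑_{i < l} h (a + i (m / l))`, `a + i (m / l) = (m / n) (k + i (n / l))`. If its order is less than `n` the term is `0` by
induction; if its order is `n` (i.e. `k + i n / l` prime to `n`), it is `g * a` with a unit `g ≡ 1 mod n / l` (`g k ≡ k + i (n / l) mod n`, lift to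
`ZMod m`), and as `c ∣ n / l`, `χ g = 1` (`χ` factors through `c`), so the term is `h a`. Hence `N h a = 0` where `N ≥ 1` is the
number of `i < l` with order `n` (`i = 0` is one). So `h a = 0`. -/
theorem eigen_eq_zero {m : ℕ} [NeZero m] (χ : DirichletCharacter ℂ m) {h : ZMod m → ℂ}
    (hh : IsDZ m h) (hχ : ∀ (g : (ZMod m)ˣ) (a : ZMod m), h ((g : ZMod m) * a) = χ (g : ZMod m) * h a)
    (h0 : h ((m / χ.conductor : ℕ) : ZMod m) = 0) (a : ZMod m) : h a = 0 := by
  have hm0 : 0 < m := Nat.pos_of_ne_zero (NeZero.ne m)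
  obtain ⟨n', j', hd, -, hcop, heq⟩ := S1A_red (m := m) (dvd_refl m) a.val hm0
  rw [Nat.div_self hm0, one_mul, ZMod.natCast_zmod_val] at heq
  rw [heq]
  exact S1A_main χ hh hχ h0 n' hd j' hcop

end Pool.Agent.Lib.MP_021685_agT
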