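import Pool.Agent.Lib.MP_021685_agT.S1Defs

/-!
JOB S1D. Basic facts on `pt`.
-/

namespace Pool.Agent.Lib.MP_021685_agT

open Finset Pool.Agent.Lib.MP_021685_ag.Fermat

/-- JOB S1D (the six lemmas `pt_*`). `pt` is additive: `pt m a = j • e m` whenever `(j : ZMod m) = a` (`nsmul_congr`). -/
theorem pt_natCast (m : ℕ) [NeZero m] (j : ℕ) : pt m (j : ZMod m) = j • e m := by
  unfold pt
  rw [ZMod.val_natCast]
  exact nsmul_congr (nsmul_e_self m) (Nat.mod_modEq j m)

theorem pt_add {m : ℕ} [NeZero m] (a b : ZMod m) : pt m (a + b) = pt m a + pt m b := by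
  unfold pt
  rw [ZMod.val_add, ← add_smul]
  exact nsmul_congr (nsmul_e_self m) (Nat.mod_modEq _ m)

theorem pt_neg {m : ℕ} [NeZero m] (a : ZMod m) : pt m (-a) = - pt m a := by
  have h := pt_add (-a) a
  rw [neg_add_cancel] at h
  have h0 : pt m (0 : ZMod m) = 0 := by unfold pt; rw [ZMod.val_zero, zero_smul]
  rw [h0] at h
  exact eq_neg_of_add_eq_zero_left h.symm

theorem pt_mul {m : ℕ} [NeZero m] (k : ℕ) (a : ZMod m) : pt m ((k : ZMod m) * a) = k • pt m a := by
  have h : (k : ZMod m) * a = ((k * a.val : ℕ) : ZMod m) := by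
    push_cast
    rw [ZMod.natCast_zmod_val]
  rw [h, pt_natCast, mul_smul]
  rfl

theorem pt_injective (m : ℕ) [NeZero m] : Function.Injective (pt m) := by
  intro a b h
  unfold pt at h
  have hm : m ≠ 0 := NeZero.ne m
  have h1 : ((a.val : ℤ) - (b.val : ℤ)) • e m = 0 := by
    rw [sub_smul, natCast_zsmul, natCast_zsmul, h, sub_self]
  rw [zsmul_e_eq_zero_iff hm] at h1
  have h2 := ZMod.val_lt a
  have h3 := ZMod.val_lt b
  apply ZMod.val_injective m
  obtain ⟨k, hk⟩ := h1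
  have hk0 : k = 0 := by
    by_contra hne
    rcases lt_or_gt_of_ne hne with hlt | hgt
    · nlinarith [Int.natCast_pos.2 (Nat.pos_of_ne_zero hm)]
    · nlinarith [Int.natCast_pos.2 (Nat.pos_of_ne_zero hm)]
  rw [hk0, mul_zero] at hk
  omega

theorem pt_tors {m : ℕ} [NeZero m] (a : ZMod m) : m • pt m a = 0 := by
  unfold pt
  rw [smul_comm, nsmul_e_self, smul_zero]

/-- Every `m`-torsion element is some `pt m a` (`exists_nsmul_e`). -/
theorem exists_pt {m : ℕ} [NeZero m] {x : QZ} (hx : m • x = 0) : ∃ a : ZMod m, pt m a = x := by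
  obtain ⟨j, _, h⟩ := exists_nsmul_e (NeZero.ne m) hx
  exact ⟨(j : ZMod m), by rw [pt_natCast, h]⟩

/-- `pt m (i (m / l)) = i • e l` for `l ∣ m` (`e_of_dvd`). -/
theorem pt_fibre {m l : ℕ} [NeZero m] (hl : l ∣ m) (i : ℕ) :
    pt m ((i * (m / l) : ℕ) : ZMod m) = i • e l := by
  rw [pt_natCast, mul_smul, ← e_of_dvd (NeZero.ne m) hl]

/-- The order of `pt m a` is that of `a`. -/
theorem addOrderOf_pt {m : ℕ} [NeZero m] (a : ZMod m) : addOrderOf (pt m a) = addOrderOf a := by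
  exact addOrderOf_injective (AddMonoidHom.mk' (pt m) pt_add) (pt_injective m) a

end Pool.Agent.Lib.MP_021685_agT
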