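import Pool.Agent.Lib.MP_021685_agT.Defs
import Pool.Agent.Lib.MP_021685_ag.Fermat3

/-!
Definitions for Step 1 and for the passage between `ZMod m` and `ℚ / ℤ`.
-/

namespace Pool.Agent.Lib.MP_021685_agT

open Finset Pool.Agent.Lib.MP_021685_ag.Fermat

/-- The element of `ℚ / ℤ` attached to `a : ZMod m`. -/
noncomputable def pt (m : ℕ) (a : ZMod m) : QZ := a.val • e m

/-- The formal sum attached to a multiset of `ZMod m`. -/
noncomputable def TT (m : ℕ) (α : Multiset (ZMod m)) : QZ →₀ ℤ :=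
  (α.map (fun a => Finsupp.single (pt m a) (1 : ℤ))).sum

/-- Complex distributions of level `m`, on `ZMod m` (no oddness). -/
structure IsDZ (m : ℕ) (h : ZMod m → ℂ) : Prop where
  dist : ∀ l : ℕ, l.Prime → l ∣ m → ∀ a : ZMod m,
    h ((l : ZMod m) * a) = ∑ i ∈ range l, h (a + ((i * (m / l) : ℕ) : ZMod m))

end Pool.Agent.Lib.MP_021685_agT
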