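import Pool.Agent.Lib.MP_021685_agT.KeyB

/-!
JOB Strip. Odd torsion vanishes, `4 T ∈ R` implies `2 T ∈ R`.
-/

namespace Pool.Agent.Lib.MP_021685_agT

open Finset

lemma Strip_abs {V : Type*} [AddCommGroup V] {a b c : V} {l n n' : ℕ} (hn : n = l * n')
    (H : 2 • a + n • b = l • c) (h1 : l • c = 0) (h2 : 2 • (l • b) = 0) : 4 • a = 0 := by
  have h4 : 2 • (2 • a + n • b) = 0 := by rw [H, h1, smul_zero]
  have h5 : 2 • (n • b) = 0 := by
    rw [hn, mul_comm, mul_smul, smul_comm, h2, smul_zero]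
  rw [smul_add, h5, add_zero, ← mul_smul] at h4
  exact h4

/-- The key identity evaluated at a formal sum. -/
lemma Strip_key {p l m : ℕ} (hp : p.Prime) (hl : l.Prime) (hm : m ≠ 0)
    (hpm : Nat.Coprime p m) {j : ℕ} (hj : 1 ≤ j) (S : ℕ) {T : QZ →₀ ℤ} (hT : Supp m T) :
    ∃ (G g : QZ → W p) (n : ℕ), IsDist p m G ∧ IsDist p m g ∧ g 0 = 0 ∧ l ^ S ∣ n ∧
      2 • ev (u p) T + n • ev G T = l ^ j • ev g T := by
  obtain ⟨G, g, n, hG, hg, hg0, hn, H⟩ := key_identity (l := l) hp hl hm hpm hj S (u_isDistG p)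
  refine ⟨G, g, n, hG, hg, hg0, hn, ?_⟩
  have h1 : ev (fun x => 2 • u p x + n • G x) T = ev (fun x => l ^ j • g x) T :=
    ev_congr fun x hx => H x (hT x hx)
  have h2 := ev_add_fun (fun x => 2 • u p x) (fun x => n • G x) T
  rw [ev_nsmul_fun, ev_nsmul_fun] at h2
  rw [← h2, h1, ev_nsmul_fun]

theorem strip_odd {p l : ℕ} (hp : p.Prime) (hl : l.Prime) (hl2 : l ≠ 2) {T : QZ →₀ ℤ}
    (h : l • T ∈ RelA p) : T ∈ RelA p := by
  obtain ⟨m, hm, hpm, hT⟩ := mem_RelA.1 h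
  have hS : Supp m T := Supp.of_nsmul hl.ne_zero (Rel_supp hT)
  obtain ⟨G, g, n, hG, hg, hg0, ⟨n', hn⟩, H⟩ := Strip_key (l := l) hp hl hm hpm le_rfl 1 hS
  rw [pow_one] at H hn
  have h1 : l • ev g T = 0 := by
    obtain ⟨c, hc⟩ := hg.ev_mem hT
    rw [map_nsmul] at hc
    rw [hc, hg0, smul_zero]
  have h2 : 2 • (l • ev G T) = 0 := by
    obtain ⟨c, hc⟩ := hG.ev_mem hT
    rw [map_nsmul] at hc
    rw [hc, smul_comm, hG.two_zero, smul_zero]
  have h3 : 4 • ev (u p) T = 0 := Strip_abs hn H h1 h2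
  have h4 : l • ev (u p) T = 0 := by
    rw [ev_u]
    exact mk_eq_zero_iff.2 h
  have hodd : Nat.Coprime l 4 := by
    have h5 : Nat.Coprime l 2 := (Nat.coprime_primes hl Nat.prime_two).2 hl2
    have := Nat.Coprime.pow_right 2 h5
    simpa using this
  have h5 : ev (u p) T = 0 := by
    have h6 := addOrderOf_dvd_of_nsmul_eq_zero h4
    have h7 := addOrderOf_dvd_of_nsmul_eq_zero h3
    have h8 := Nat.dvd_gcd h6 h7
    rw [hodd, Nat.dvd_one, AddMonoid.addOrderOf_eq_one_iff] at h8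
    exact h8
  rw [ev_u] at h5
  exact mk_eq_zero_iff.1 h5

theorem strip_two {p : ℕ} (hp : p.Prime) {T : QZ →₀ ℤ} (h : 4 • T ∈ RelA p) :
    2 • T ∈ RelA p := by
  obtain ⟨m, hm, hpm, hT⟩ := mem_RelA.1 h
  have hS : Supp m T := Supp.of_nsmul (by norm_num) (Rel_supp hT)
  obtain ⟨G, g, n, hG, hg, hg0, ⟨n', hn⟩, H⟩ :=
    Strip_key (l := 2) hp Nat.prime_two hm hpm one_le_two 3 hS
  have h1 : 2 ^ 2 • ev g T = 0 := by
    obtain ⟨c, hc⟩ := hg.ev_mem hT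
    rw [map_nsmul] at hc
    rw [show (2 ^ 2 : ℕ) = 4 by norm_num, hc, hg0, smul_zero]
  have h2 : 2 • (4 • ev G T) = 0 := by
    obtain ⟨c, hc⟩ := hG.ev_mem hT
    rw [map_nsmul] at hc
    rw [hc, smul_comm, hG.two_zero, smul_zero]
  have h5 : n • ev G T = 0 := by
    rw [hn, show (2 ^ 3 * n' : ℕ) = n' * (2 * 4) by ring, mul_smul, mul_smul, h2, smul_zero]
  rw [h5, add_zero, h1, ev_u] at H
  exact mk_eq_zero_iff.1 H

end Pool.Agent.Lib.MP_021685_agT
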