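import Pool.Agent.Lib.MP_021685_agT.Defs
import Pool.Agent.Lib.MP_021685_agT.Per

/-!
JOB Sup. Supports of relations; small facts on global distributions.
-/

namespace Pool.Agent.Lib.MP_021685_agT

open Finset

variable {V : Type*} [AddCommGroup V]

lemma Supp.add {m : ℕ} {S T : QZ →₀ ℤ} (hS : Supp m S) (hT : Supp m T) : Supp m (S + T) := by
  intro x hx
  rcases Finset.mem_union.1 (Finsupp.support_add hx) with h | h
  · exact hS x h
  · exact hT x h

lemma Supp.neg {m : ℕ} {S : QZ →₀ ℤ} (hS : Supp m S) : Supp m (-S) := by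
  intro x hx
  rw [Finsupp.support_neg] at hx
  exact hS x hx

/-- Relations of level `m` are supported on the `m`-torsion.
Proof. `AddSubgroup.closure_induction`; generators: `m • e l = 0` for `l ∣ m` (`m ≠ 0` is not needed:
`nsmul_e_self` and `nsmul_eq_zero_of_dvd`); `Finsupp.support_single_ne_zero`, `Finsupp.support_add`,
`Finsupp.support_sub`, `Finsupp.support_finset_sum` (or induction over the range with `Supp.add`). -/
theorem Rel_supp {p m : ℕ} {T : QZ →₀ ℤ} (hT : T ∈ Rel p m) : Supp m T := by
  have hzero : Supp m (0 : QZ →₀ ℤ) := by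
    intro x hx
    simp at hx
  have hsingle : ∀ (x : QZ) (n : ℤ), m • x = 0 → Supp m (Finsupp.single x n) := by
    intro x n hx y hy
    have h1 := Finsupp.support_single_subset hy
    rw [Finset.mem_singleton] at h1
    rw [h1]
    exact hx
  have hsum : ∀ (s : Finset ℕ) (f : ℕ → (QZ →₀ ℤ)), (∀ i ∈ s, Supp m (f i)) →
      Supp m (∑ i ∈ s, f i) := by
    intro s f
    classical
    induction s using Finset.induction_on with
    | empty =>
      intro _
      rw [Finset.sum_empty]
      exact hzero
    | insert a s ha ih =>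
      intro h
      rw [Finset.sum_insert ha]
      exact (h a (Finset.mem_insert_self a s)).add
        (ih fun i hi => h i (Finset.mem_insert_of_mem hi))
  unfold Rel at hT
  induction hT using AddSubgroup.closure_induction with
  | mem S hS =>
    have hS' : Gen p m S := hS
    cases hS' with
    | zero => exact hsingle 0 1 (smul_zero m)
    | neg x hx =>
      exact (hsingle x 1 hx).add (hsingle (-x) 1 (by rw [smul_neg, hx, neg_zero]))
    | frob x hx =>
      rw [sub_eq_add_neg]
      exact (hsingle (p • x) 1 (by rw [smul_comm, hx, smul_zero])).add (hsingle x 1 hx).neg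
    | dist l hl hlm x hx =>
      rw [sub_eq_add_neg]
      refine (hsingle (l • x) 1 (by rw [smul_comm, hx, smul_zero])).add (Supp.neg ?_)
      refine hsum _ _ fun i _ => hsingle _ _ ?_
      rw [smul_add, hx, zero_add, smul_comm,
        nsmul_eq_zero_of_dvd hlm (nsmul_e_self l), smul_zero]
  | zero => exact hzero
  | add S T _ _ hS hT => exact hS.add hT
  | neg S _ hS => exact hS.neg

/-- If `n • T` is supported on the `m`-torsion and `n ≠ 0` so is `T`. -/
theorem Supp.of_nsmul {m n : ℕ} (hn : n ≠ 0) {T : QZ →₀ ℤ} (h : Supp m (n • T)) : Supp m T := by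
  intro x hx
  apply h x
  rw [Finsupp.mem_support_iff] at hx ⊢
  rw [Finsupp.smul_apply, nsmul_eq_mul]
  exact mul_ne_zero (Nat.cast_ne_zero.2 hn) hx

/-- `h (p ^ i • x) = h x` (induction on `i`; `p ^ i • x` is again killed by `m`). -/
theorem IsDist.frob_pow {p m : ℕ} {h : QZ → V} (hh : IsDist p m h) (i : ℕ) {x : QZ}
    (hx : m • x = 0) : h (p ^ i • x) = h x := by
  induction i with
  | zero => rw [pow_zero, one_smul]
  | succ i ih =>
    rw [pow_succ', mul_smul, hh.frob (p ^ i • x) (by rw [smul_comm, hx, smul_zero]), ih]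

/-- Iterated distribution relation for the powers of `l`: if `l ∣ m` and `(m * l ^ n) • x = 0`,
`h (l ^ n • x) = ∑_{i < l ^ n} h (x + i / l ^ n)`.
Proof. Induction on `n`. `l ^ (n + 1) • x = l • (l ^ n • x)`, so by the distribution relation for `l` (level
`m * l ^ (n + 1)`, which is prime to `p`), `h (l ^ (n + 1) • x) = ∑_{i < l} h (l ^ n • x + i • e l)` and
`l ^ n • x + i • e l = l ^ n • (x + i • e (l ^ (n + 1)))`; the induction hypothesis (with level `m * l` in place of
`m`) gives `∑_{i < l} ∑_{j < l ^ n} h (x + i • e (l ^ (n + 1)) + j • e (l ^ n))`, and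
`j • e (l ^ n) = (l * j) • e (l ^ (n + 1))`, the numbers `i + l * j` being those `< l ^ (n + 1)`
(`sum_range_mul_split` in `Per.lean`, or directly). -/
theorem IsDistG.dist_pow {p l m : ℕ} (hl : l.Prime) (hlp : Nat.Coprime p l) (hm : m ≠ 0)
    (hpm : Nat.Coprime p m) {h : QZ → V} (hh : IsDistG p h) (n : ℕ) {x : QZ}
    (hx : m • x = 0) : h (l ^ n • x) = ∑ i ∈ range (l ^ n), h (x + i • e (l ^ n)) := by
  induction n generalizing m x with
  | zero => simp
  | succ n ih =>
    have hl0 : l ≠ 0 := hl.ne_zero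
    have hM : m * l ≠ 0 := mul_ne_zero hm hl0
    have hpM : Nat.Coprime p (m * l) := Nat.Coprime.mul_right hpm hlp
    have hxl : (m * l) • (l ^ n • x) = 0 := by
      rw [smul_comm, mul_comm m l, mul_smul, hx, smul_zero, smul_zero]
    have h1 := (hh.lvl (m * l) hM hpM).dist l hl (dvd_mul_left l m) (l ^ n • x) hxl
    rw [← mul_smul, ← pow_succ'] at h1
    rw [h1]
    have hpow : ∀ k : ℕ, l ^ k ≠ 0 := fun k => pow_ne_zero k hl0
    have hM2 : m * l ^ (n + 1) ≠ 0 := mul_ne_zero hm (hpow _)
    have hpM2 : Nat.Coprime p (m * l ^ (n + 1)) :=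
      Nat.Coprime.mul_right hpm (Nat.Coprime.pow_right _ hlp)
    have h2 : ∀ i ∈ range l, h (l ^ n • x + i • e l)
        = ∑ j ∈ range (l ^ n), h (x + (i + l * j) • e (l ^ (n + 1))) := by
      intro i _
      have h3 : l ^ n • x + i • e l = l ^ n • (x + i • e (l ^ (n + 1))) := by
        rw [smul_add, smul_comm (l ^ n) i, pow_succ', nsmul_e_mul (hpow n)]
      have h4 : (m * l ^ (n + 1)) • (x + i • e (l ^ (n + 1))) = 0 := by
        rw [smul_add, smul_comm (m * l ^ (n + 1)) i, mul_smul m (l ^ (n + 1)) (e _),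
          nsmul_e_self, smul_zero, smul_zero, add_zero, mul_comm, mul_smul, hx, smul_zero]
      rw [h3, ih hM2 hpM2 h4]
      refine Finset.sum_congr rfl fun j _ => ?_
      congr 1
      rw [add_smul, add_assoc]
      congr 2
      rw [mul_comm l j, mul_smul, pow_succ, nsmul_e_mul hl0]
    rw [Finset.sum_congr rfl h2, pow_succ', sum_range_mul_split]

end Pool.Agent.Lib.MP_021685_agT
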